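import Pool.Agent.PDA.StF

/-!
# PDA: module AB1, group theory of the abelian case
-/

set_option autoImplicit false

namespace Pool.Agent.PDA

open Pool.Agent.PDB Subgroup

private theorem AB1_mul {S : Type} [Group S] {x y : S} (h : x * y = y * x) (a b c d : ℤ) :
    x ^ a * y ^ b * (x ^ c * y ^ d) = x ^ (a + c) * y ^ (b + d) := by
  have hc : Commute x y := h
  have h1 : y ^ b * x ^ c = x ^ c * y ^ b := ((hc.zpow_zpow c b).eq).symm
  rw [zpow_add, zpow_add, mul_assoc, ← mul_assoc (y ^ b), h1]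
  group

private theorem AB1_inv {S : Type} [Group S] {x y : S} (h : x * y = y * x) (a b : ℤ) :
    (x ^ a * y ^ b)⁻¹ = x ^ (-a) * y ^ (-b) := by
  rw [inv_eq_iff_mul_eq_one, AB1_mul h]
  simp

/-- the elements of the group generated by two commuting elements -/
private theorem AB1_mem {S : Type} [Group S] {x y : S} (h : x * y = y * x) (g : S) :
    g ∈ closure ({x, y} : Set S) ↔ ∃ i j : ℤ, g = x ^ i * y ^ j := by
  constructor
  · intro hg
    refine closure_induction (p := fun g _ => ∃ i j : ℤ, g = x ^ i * y ^ j) ?_ ?_ ?_ ?_ hg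
    · rintro u (rfl | rfl)
      · exact ⟨1, 0, by simp⟩
      · exact ⟨0, 1, by simp⟩
    · exact ⟨0, 0, by simp⟩
    · rintro u v _ _ ⟨a, b, rfl⟩ ⟨c, d, rfl⟩
      exact ⟨a + c, b + d, AB1_mul h a b c d⟩
    · rintro u _ ⟨a, b, rfl⟩
      exact ⟨-a, -b, AB1_inv h a b⟩
  · rintro ⟨i, j, rfl⟩
    exact mul_mem (zpow_mem (subset_closure (by simp)) i) (zpow_mem (subset_closure (by simp)) j)

private theorem AB1_conj {S : Type} [Group S] {s x y : S} (h : x * y = y * x) {a b c d : ℤ}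
    (h1 : s * x * s⁻¹ = x ^ a * y ^ b) (h2 : s * y * s⁻¹ = x ^ c * y ^ d) (u : S)
    (hu : u ∈ closure ({x, y} : Set S)) : s * u * s⁻¹ ∈ closure ({x, y} : Set S) := by
  refine closure_induction (p := fun u _ => s * u * s⁻¹ ∈ closure ({x, y} : Set S))
    ?_ ?_ ?_ ?_ hu
  · rintro v (rfl | rfl)
    · rw [h1]
      exact (AB1_mem h _).2 ⟨a, b, rfl⟩
    · rw [h2]
      exact (AB1_mem h _).2 ⟨c, d, rfl⟩
  · rw [mul_one, mul_inv_cancel]
    exact one_mem _
  · intro v w _ _ hv hw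
    have e : s * (v * w) * s⁻¹ = (s * v * s⁻¹) * (s * w * s⁻¹) := by group
    rw [e]
    exact mul_mem hv hw
  · intro v _ hv
    have e : s * v⁻¹ * s⁻¹ = (s * v * s⁻¹)⁻¹ := by group
    rw [e]
    exact inv_mem hv

/-- extension of a homomorphism on a rank two subgroup to `ℚ` -/
private theorem AB1_ext {K : Type} [Group K] (hK : ∀ g h : K, g * h = h * g) (X Y : K)
    (hXY : ∀ a b : ℤ, X ^ a * Y ^ b = 1 → a = 0 ∧ b = 0) (q : ℤ × ℤ →+ ℚ) :
    ∃ α : K → ℚ, (∀ u v, α (u * v) = α u + α v) ∧ α X = q (1, 0) ∧ α Y = q (0, 1) := by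
  let _ : CommGroup K := { (inferInstance : Group K) with mul_comm := hK }
  let f : ℤ × ℤ →+ Additive K :=
    { toFun := fun p => Additive.ofMul (X ^ p.1 * Y ^ p.2)
      map_zero' := by simp
      map_add' := by
        intro p r
        show Additive.ofMul (X ^ (p.1 + r.1) * Y ^ (p.2 + r.2)) = _
        rw [← ofMul_mul, AB1_mul (hK X Y)] }
  have hf : Function.Injective f := by
    rw [injective_iff_map_eq_zero]
    rintro ⟨a, b⟩ hab
    have h1 : X ^ a * Y ^ b = 1 := hab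
    obtain ⟨h2, h3⟩ := hXY a b h1
    rw [h2, h3]
    rfl
  obtain ⟨h, hh⟩ := (Module.Baer.of_divisible ℚ).extension_property_addMonoidHom f hf q
  refine ⟨fun u => h (Additive.ofMul u), ?_, ?_, ?_⟩
  · intro u v
    show h (Additive.ofMul (u * v)) = _
    rw [ofMul_mul, map_add]
  · rw [← hh]
    show h (Additive.ofMul X) = h (Additive.ofMul (X ^ (1 : ℤ) * Y ^ (0 : ℤ)))
    rw [zpow_one, zpow_zero, mul_one]
  · rw [← hh]
    show h (Additive.ofMul Y) = h (Additive.ofMul (X ^ (0 : ℤ) * Y ^ (1 : ℤ)))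
    rw [zpow_one, zpow_zero, one_mul]

/-- module AB1 -/
theorem thm_AB1 (hA : Pool.Agent.PDB.St_ASC) : St_AB1 := by
  intro S _ π s x y hs hx hy hxy hind a b c d hsx hsy hcl
  have hB : closure ({x, y} : Set S) ≤ π.ker := by
    rw [closure_le]
    rintro u (rfl | rfl)
    · exact hx
    · exact hy
  have hcl' : closure (insert s ((closure ({x, y} : Set S) : Subgroup S) : Set S)) = ⊤ := by
    rw [eq_top_iff, ← hcl]
    refine closure_mono ?_
    rintro u (rfl | hu)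
    · exact Set.mem_insert _ _
    · exact Set.mem_insert_of_mem _ (subset_closure hu)
  have h1 : ∀ g ∈ π.ker, ∃ n : ℕ, s ^ n * g * (s ^ n)⁻¹ ∈ closure ({x, y} : Set S) :=
    hA S π s _ hs hB (fun u hu => AB1_conj hxy hsx hsy u hu) hcl'
  have hpow : ∀ (n : ℕ), ∀ u ∈ closure ({x, y} : Set S),
      s ^ n * u * (s ^ n)⁻¹ ∈ closure ({x, y} : Set S) := by
    intro n
    induction n with
    | zero =>
      intro u hu
      rw [pow_zero, one_mul, inv_one, mul_one]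
      exact hu
    | succ n ih =>
      intro u hu
      have e1 : s ^ (n + 1) * u * (s ^ (n + 1))⁻¹ = s * (s ^ n * u * (s ^ n)⁻¹) * s⁻¹ := by
        rw [pow_succ', mul_inv_rev]
        group
      rw [e1]
      exact AB1_conj hxy hsx hsy _ (ih u hu)
  have h2 : ∀ g ∈ π.ker, ∀ h ∈ π.ker, g * h = h * g := by
    intro g hg h hh
    obtain ⟨n, hn⟩ := h1 g hg
    obtain ⟨m, hm⟩ := h1 h hh
    have hn' := hpow m _ hn
    have hm' := hpow n _ hm
    have e1 : s ^ m * (s ^ n * g * (s ^ n)⁻¹) * (s ^ m)⁻¹ = s ^ (n + m) * g * (s ^ (n + m))⁻¹ := by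
      rw [add_comm n m, pow_add]
      group
    have e2 : s ^ n * (s ^ m * h * (s ^ m)⁻¹) * (s ^ n)⁻¹ = s ^ (n + m) * h * (s ^ (n + m))⁻¹ := by
      rw [pow_add]
      group
    rw [e1] at hn'
    rw [e2] at hm'
    obtain ⟨i, j, hij⟩ := (AB1_mem hxy _).1 hn'
    obtain ⟨k, l, hkl⟩ := (AB1_mem hxy _).1 hm'
    have h3 : (s ^ (n + m) * g * (s ^ (n + m))⁻¹) * (s ^ (n + m) * h * (s ^ (n + m))⁻¹) =
        (s ^ (n + m) * h * (s ^ (n + m))⁻¹) * (s ^ (n + m) * g * (s ^ (n + m))⁻¹) := by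
      rw [hij, hkl, AB1_mul hxy, AB1_mul hxy, add_comm i k, add_comm j l]
    have h4 : s ^ (n + m) * (g * h) * (s ^ (n + m))⁻¹ =
        s ^ (n + m) * (h * g) * (s ^ (n + m))⁻¹ := by
      have e3 : s ^ (n + m) * (g * h) * (s ^ (n + m))⁻¹ =
        (s ^ (n + m) * g * (s ^ (n + m))⁻¹) * (s ^ (n + m) * h * (s ^ (n + m))⁻¹) := by group
      have e4 : s ^ (n + m) * (h * g) * (s ^ (n + m))⁻¹ =
        (s ^ (n + m) * h * (s ^ (n + m))⁻¹) * (s ^ (n + m) * g * (s ^ (n + m))⁻¹) := by group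
      rw [e3, e4, h3]
    exact mul_left_cancel (mul_right_cancel h4)
  refine ⟨?_, h2, ?_⟩
  · intro g hg
    obtain ⟨n, hn⟩ := h1 g hg
    obtain ⟨i, j, hij⟩ := (AB1_mem hxy _).1 hn
    exact ⟨n, i, j, hij⟩
  · have hK : ∀ g h : π.ker, g * h = h * g := fun g h => Subtype.ext (h2 g g.2 h h.2)
    have hXY : ∀ a b : ℤ, (⟨x, hx⟩ : π.ker) ^ a * (⟨y, hy⟩ : π.ker) ^ b = 1 → a = 0 ∧ b = 0 := by
      intro a b hab
      refine hind a b ?_
      have := congrArg (Subtype.val) hab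
      simpa using this
    obtain ⟨α, hα, hα1, hα2⟩ := AB1_ext hK ⟨x, hx⟩ ⟨y, hy⟩ hXY
      ((Int.castAddHom ℚ).comp (AddMonoidHom.fst ℤ ℤ))
    obtain ⟨β, hβ, hβ1, hβ2⟩ := AB1_ext hK ⟨x, hx⟩ ⟨y, hy⟩ hXY
      ((Int.castAddHom ℚ).comp (AddMonoidHom.snd ℤ ℤ))
    refine ⟨α, β, hα, hβ, ?_⟩
    intro x' y' hx' hy'
    have e1 : x' = ⟨x, hx⟩ := Subtype.ext hx'
    have e2 : y' = ⟨y, hy⟩ := Subtype.ext hy'
    rw [e1, e2, hα1, hα2, hβ1, hβ2]
    simp

end Pool.Agent.PDA
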