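import Pool.Agent.PDA.StF

/-!
# [AB2] The determinant is `1` or `-1`
-/

set_option autoImplicit false

namespace Pool.Agent.PDA

open Pool.Agent.PDB Subgroup

private theorem AB2_index {S : Type} [Group S] (π : S →* Multiplicative ℤ) (s : S)
    (hs : π s = Multiplicative.ofAdd 1) : π.ker.index = 0 := by
  rw [Subgroup.index_ker]
  have hinf : Infinite π.range := by
    refine Infinite.of_injective (fun n : ℤ => (⟨π (s ^ n), ⟨s ^ n, rfl⟩⟩ : π.range)) ?_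
    intro m n h
    have h1 : π (s ^ m) = π (s ^ n) := congrArg Subtype.val h
    rw [map_zpow, map_zpow, hs, ← ofAdd_zsmul, ← ofAdd_zsmul] at h1
    have h2 := Multiplicative.ofAdd.injective h1
    simpa using h2
  exact Nat.card_eq_zero_of_infinite

private theorem AB2_aug {S : Type} [Group S] (g : S) : aug ℤ S (el ℤ g - 1) = 0 := by
  rw [map_sub, map_one]
  simp [aug, el]

private theorem AB2_iter {S M : Type} [Group S] [AddCommGroup M] [Module (ZG S) M]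
    (P : Submodule (ZG S) M) (T : AddSubgroup M) (a : ZG S) (c : M) (Δ : ℤ) (hc : c ∈ P)
    (hT : ∀ y ∈ T, a • y ∈ T) (h : c - Δ • (a • c) ∈ T) (n : ℕ) :
    ∃ r ∈ P, c - Δ ^ n • r ∈ T := by
  have hz : ∀ (m : ℤ) (v : M), a • (m • v) = m • (a • v) := fun m v =>
    map_zsmul (DistribSMul.toAddMonoidHom M a) m v
  induction n with
  | zero =>
    refine ⟨c, hc, ?_⟩
    rw [pow_zero, one_smul, sub_self]
    exact T.zero_mem
  | succ n ih =>
    obtain ⟨r, hr, hr2⟩ := ih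
    refine ⟨a • r, P.smul_mem a hr, ?_⟩
    have h1 := hT _ hr2
    rw [smul_sub, hz] at h1
    have h2 : c - Δ ^ (n + 1) • (a • r) =
        (c - Δ • (a • c)) + Δ • (a • c - Δ ^ n • (a • r)) := by
      rw [smul_sub, ← mul_smul, ← pow_succ']
      abel
    rw [h2]
    exact T.add_mem h (T.zsmul_mem h1 Δ)

theorem thm_AB2 (hB : St_BDR) (hK : St_STK) (hF : St_FRA) (hC : St_CXY) (hN : St_NZC)
    (h1 : St_AB1) (hI : Pool.Agent.PDB.St_IMS) : St_AB2 := by
  classical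
  intro G _ R S _ j hj π s x y hs hx hy hxy hind a b c d hsx hsy hcl
  obtain ⟨-, hcomm, α, β, hα, hβ, hαβ⟩ := h1 S π s x y hs hx hy hxy hind a b c d hsx hsy hcl
  obtain ⟨z, hz⟩ : ∃ z : Fin 3 → S, z = ![s, x, y] := ⟨_, rfl⟩
  have hzr : Set.range z = {s, x, y} := by
    rw [hz]
    ext g
    simp only [Set.mem_range, Fin.exists_fin_succ, Matrix.cons_val_zero, Matrix.cons_val_succ,
      Set.mem_insert_iff, Set.mem_singleton_iff, IsEmpty.exists_iff, or_false]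
    exact ⟨fun h => by rcases h with h | h | h <;> simp [h], fun h => by
      rcases h with h | h | h <;> simp [h]⟩
  have hzc : closure (Set.range z) = ⊤ := by rw [hzr]; exact hcl
  have hidx : (π.ker.map j).index = 0 := by
    rw [Subgroup.index_map_of_injective _ hj, AB2_index π s hs, zero_mul]
  have hP : PrjK π.ker (Rel ℤ z) := hK G R S j hj π.ker hidx 3 z hzc
  have he : ∀ g : S, ∃ v, bd ℤ z v = el ℤ g - 1 := fun g =>
    (hB ℤ S 3 z hzc (el ℤ g - 1)).1 (AB2_aug g)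
  choose e he using he
  have hxK : x ∈ π.ker := hx
  have hyK : y ∈ π.ker := hy
  obtain ⟨hC1, hC2⟩ := hC S 3 z e he π.ker hcomm
  have hcP : cc e x y ∈ Rel ℤ z := hC1 x hxK y hyK
  have hnc : ∀ t : S, ∀ g ∈ π.ker, t * g * t⁻¹ ∈ π.ker := fun t g hg =>
    (MonoidHom.normal_ker π).conj_mem g hg t
  have hC3 := hC2 s (hnc s) x hxK y hyK a b c d hsx hsy
  obtain ⟨-, -, hI3⟩ := hI ℤ S (Fin 3 → ZG S) π.ker (Rel ℤ z)
  have hTs : ∀ v ∈ IM π.ker (Rel ℤ z), el ℤ s⁻¹ • v ∈ IM π.ker (Rel ℤ z) :=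
    hI3 s⁻¹ π.ker (hnc s⁻¹)
  set Δ : ℤ := a * d - b * c with hΔ
  have hnot : cc e x y ∉ IM π.ker (Rel ℤ z) :=
    hN S π s hs 3 z e he α β hα hβ ⟨x, hxK⟩ ⟨y, hyK⟩ (hαβ ⟨x, hxK⟩ ⟨y, hyK⟩ rfl rfl)
  have hstep : cc e x y - Δ • (el ℤ s⁻¹ • cc e x y) ∈ IM π.ker (Rel ℤ z) := by
    have h2 := hTs _ hC3
    have h3 : el ℤ s⁻¹ • (el ℤ s • cc e x y - Δ • cc e x y) =
        cc e x y - Δ • (el ℤ s⁻¹ • cc e x y) := by
      rw [smul_sub, ← mul_smul]
      congr 1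
      · have : el ℤ s⁻¹ * el ℤ s = (1 : ZG S) := by
          rw [← map_mul, inv_mul_cancel, map_one]
        rw [this, one_smul]
      · exact map_zsmul (DistribSMul.toAddMonoidHom (Fin 3 → ZG S) (el ℤ s⁻¹)) Δ _
    rw [← h3]
    exact h2
  by_contra hcon
  push Not at hcon
  apply hnot
  refine hF S (Fin 3 → ZG S) π.ker (Rel ℤ z) hP Δ ?_ _ hcP
    (AB2_iter (Rel ℤ z) _ (el ℤ s⁻¹) _ Δ hcP hTs hstep)
  by_cases h0 : Δ = 0
  · exact Or.inl h0
  · right
    have h4 : 0 < |Δ| := abs_pos.2 h0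
    by_contra h5
    have h6 : |Δ| = 1 := by omega
    rcases (abs_eq (by norm_num : (0 : ℤ) ≤ 1)).1 h6 with h7 | h7
    · exact hcon.1 h7
    · exact hcon.2 h7

end Pool.Agent.PDA
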