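import Pool.Agent.PDA.StF

/-!
# PDA, module AB3: determinant `±1`
-/

set_option autoImplicit false
set_option linter.unusedVariables false

namespace Pool.Agent.PDA

open Pool.Agent.PDB Subgroup

theorem thm_AB3 : St_AB3 := by
  intro S _ s x y hxy a b c d hx hy hdet g hg
  have hc : Commute x y := hxy
  -- conjugation of `x ^ p * y ^ q`
  have hconj : ∀ p q : ℤ, s * (x ^ p * y ^ q) * s⁻¹ = x ^ (a * p + c * q) * y ^ (b * p + d * q) := by
    intro p q
    have h1 : s * (x ^ p * y ^ q) * s⁻¹ = (s * x * s⁻¹) ^ p * (s * y * s⁻¹) ^ q := by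
      rw [conj_zpow, conj_zpow]
      group
    have h2 : (x ^ a * y ^ b) ^ p = x ^ (a * p) * y ^ (b * p) := by
      rw [((hc.zpow_zpow a b)).mul_zpow, ← zpow_mul, ← zpow_mul]
    have h3 : (x ^ c * y ^ d) ^ q = x ^ (c * q) * y ^ (d * q) := by
      rw [((hc.zpow_zpow c d)).mul_zpow, ← zpow_mul, ← zpow_mul]
    have h4 : y ^ (b * p) * x ^ (c * q) = x ^ (c * q) * y ^ (b * p) :=
      (hc.zpow_zpow (c * q) (b * p)).symm
    rw [h1, hx, hy, h2, h3, zpow_add, zpow_add]
    calc x ^ (a * p) * y ^ (b * p) * (x ^ (c * q) * y ^ (d * q))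
        = x ^ (a * p) * (y ^ (b * p) * x ^ (c * q)) * y ^ (d * q) := by group
      _ = x ^ (a * p) * (x ^ (c * q) * y ^ (b * p)) * y ^ (d * q) := by rw [h4]
      _ = x ^ (a * p) * x ^ (c * q) * (y ^ (b * p) * y ^ (d * q)) := by group
  -- every `x ^ i * y ^ j` is a conjugate `s * (x ^ p * y ^ q) * s⁻¹`
  have hsurj : ∀ i j : ℤ, ∃ p q : ℤ, s * (x ^ p * y ^ q) * s⁻¹ = x ^ i * y ^ j := by
    intro i j
    rcases hdet with h | h
    · refine ⟨d * i - c * j, -b * i + a * j, ?_⟩
      rw [hconj]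
      have e1 : a * (d * i - c * j) + c * (-b * i + a * j) = i := by
        linear_combination i * h
      have e2 : b * (d * i - c * j) + d * (-b * i + a * j) = j := by
        linear_combination j * h
      rw [e1, e2]
    · refine ⟨-(d * i - c * j), -(-b * i + a * j), ?_⟩
      rw [hconj]
      have e1 : a * -(d * i - c * j) + c * -(-b * i + a * j) = i := by
        linear_combination -i * h
      have e2 : b * -(d * i - c * j) + d * -(-b * i + a * j) = j := by
        linear_combination -j * h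
      rw [e1, e2]
  obtain ⟨n, i, j, h⟩ := hg
  induction n generalizing i j with
  | zero => exact ⟨i, j, by simpa using h⟩
  | succ n ih =>
    obtain ⟨p, q, hpq⟩ := hsurj i j
    refine ih p q ?_
    have h3 : s ^ (n + 1) * g * (s ^ (n + 1))⁻¹ = s * (s ^ n * g * (s ^ n)⁻¹) * s⁻¹ := by
      rw [pow_succ']
      group
    rw [h3, ← hpq] at h
    have h5 := mul_right_cancel h
    exact mul_left_cancel h5

theorem thm_ABK (h1 : St_AB1) (h2 : St_AB2) (h3 : St_AB3) : St_ABK := by
  intro G _ R S _ j hj π s x y hs hx hy hxy hind hsx hsy hcl g hg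
  obtain ⟨a, b, hab⟩ := hsx
  obtain ⟨c, d, hcd⟩ := hsy
  have hdet := h2 G R S j hj π s x y hs hx hy hxy hind a b c d hab hcd hcl
  exact h3 S s x y hxy a b c d hab hcd hdet g
    ((h1 S π s x y hs hx hy hxy hind a b c d hab hcd hcl).1 g hg)

end Pool.Agent.PDA
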