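import Pool.Agent.PDA.StA

/-!
# PDA, BAS: base change of the relation module
-/

set_option autoImplicit false
set_option linter.unusedVariables false

namespace Pool.Agent.PDA

open Pool.Agent.PDB

section aux

/-- the basis vector `g e_i` -/
private noncomputable def BAS_E (k : Type) {S : Type} [CommRing k] [Group S] {d : ℕ} (i : Fin d)
    (g : S) : Fin d → MonoidAlgebra k S :=
  Pi.single i (MonoidAlgebra.single g 1)

private lemma BAS_ext {k S : Type} [CommRing k] [Group S] {d : ℕ} {M : Type} [AddCommGroup M]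
    [Module k M] {f g : (Fin d → MonoidAlgebra k S) →ₗ[k] M}
    (h : ∀ i s, f (BAS_E k i s) = g (BAS_E k i s)) : f = g :=
  LinearMap.pi_ext' (fun i => MonoidAlgebra.lhom_ext' (fun s => LinearMap.ext_ring (h i s)))

/-- the linear map with given values on the `g e_i` -/
private noncomputable def BAS_L (k : Type) {S : Type} [CommRing k] [Group S] {d : ℕ} {M : Type}
    [AddCommGroup M] [Module k M] (F : Fin d → S → M) : (Fin d → MonoidAlgebra k S) →ₗ[k] M :=
  LinearMap.lsum k (fun _ => MonoidAlgebra k S) k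
    (fun i => (MonoidAlgebra.basis S k).constr k (F i))

private lemma BAS_L_E (k : Type) {S : Type} [CommRing k] [Group S] {d : ℕ} {M : Type}
    [AddCommGroup M] [Module k M] (F : Fin d → S → M) (i : Fin d) (g : S) :
    BAS_L k F (BAS_E k i g) = F i g := by
  unfold BAS_L BAS_E
  rw [LinearMap.lsum_piSingle, ← MonoidAlgebra.basis_apply, Module.Basis.constr_basis]

private lemma BAS_bd (k : Type) {S : Type} [CommRing k] [Group S] {d : ℕ} (x : Fin d → S)
    (i : Fin d) (g : S) : bd k x (BAS_E k i g) = el k (g * x i) - el k g := by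
  show ∑ j, (BAS_E k i g) j * (el k (x j) - 1) = _
  rw [Finset.sum_eq_single i]
  · unfold BAS_E
    rw [Pi.single_eq_same, mul_sub, mul_one]
    simp [MonoidAlgebra.single_mul_single]
  · intro j _ hj
    unfold BAS_E
    rw [Pi.single_eq_of_ne hj, zero_mul]
  · intro h
    exact absurd (Finset.mem_univ i) h

/-- the fundamental identity -/
private lemma BAS_A (k : Type) {S : Type} [CommRing k] [Group S] {d : ℕ} (x : Fin d → S)
    (w : S → (Fin d → MonoidAlgebra k S))
    (P : (Fin d → MonoidAlgebra k S) →ₗ[k] (Fin d → MonoidAlgebra k S))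
    (hP : ∀ i g, P (BAS_E k i g) = BAS_E k i g - w (g * x i) + w g)
    (y : Fin d → MonoidAlgebra k S) (hy : bd k x y = 0) : P y = y := by
  let σ : MonoidAlgebra k S →ₗ[k] (Fin d → MonoidAlgebra k S) :=
    (MonoidAlgebra.basis S k).constr k w
  have hσ : ∀ g, σ (el k g) = w g := by
    intro g
    show (MonoidAlgebra.basis S k).constr k w (MonoidAlgebra.single g 1) = w g
    rw [← MonoidAlgebra.basis_apply, Module.Basis.constr_basis]
  have h : P + σ ∘ₗ (bd k x).restrictScalars k = LinearMap.id := by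
    refine BAS_ext (fun i g => ?_)
    show P (BAS_E k i g) + σ (bd k x (BAS_E k i g)) = BAS_E k i g
    rw [hP, BAS_bd, map_sub, hσ, hσ]
    abel
  have h2 := congrArg (fun f => f y) h
  have h3 : P y + σ (bd k x y) = y := h2
  rw [hy, map_zero, add_zero] at h3
  exact h3

end aux

theorem thm_BAS (hB : St_BDR) : St_BAS := by
  intro k S _ _ d x hx hproj
  classical
  -- coefficients
  let c : MonoidAlgebra ℤ S →+* MonoidAlgebra k S := MonoidAlgebra.mapRingHom S (Int.castRingHom k)
  have c_el : ∀ g, c (el ℤ g) = el k g := by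
    intro g
    simp [c]
  let cv : (Fin d → MonoidAlgebra ℤ S) →+ (Fin d → MonoidAlgebra k S) :=
    { toFun := fun y i => c (y i)
      map_zero' := by
        funext i
        exact map_zero c
      map_add' := fun y z => by
        funext i
        exact map_add c _ _ }
  have cv_smul : ∀ (a : MonoidAlgebra ℤ S) (y : Fin d → MonoidAlgebra ℤ S),
      cv (a • y) = c a • cv y := by
    intro a y
    funext i
    exact map_mul c a (y i)
  have cv_E : ∀ (i : Fin d) (g : S), cv (BAS_E ℤ i g) = BAS_E k i g := by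
    intro i g
    funext j
    show c (BAS_E ℤ i g j) = BAS_E k i g j
    unfold BAS_E
    by_cases hj : j = i
    · subst hj
      rw [Pi.single_eq_same, Pi.single_eq_same]
      exact c_el g
    · rw [Pi.single_eq_of_ne hj, Pi.single_eq_of_ne hj, map_zero]
  have bd_cv : ∀ y : Fin d → MonoidAlgebra ℤ S, bd k x (cv y) = c (bd ℤ x y) := by
    intro y
    show ∑ i, c (y i) * (el k (x i) - 1) = c (∑ i, y i * (el ℤ (x i) - 1))
    rw [map_sum]
    refine Finset.sum_congr rfl (fun i _ => ?_)
    rw [map_mul, map_sub, map_one, c_el]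
  -- the elements z_g
  have hz : ∀ g : S, ∃ y, bd ℤ x y = el ℤ g - 1 := by
    intro g
    refine (hB ℤ S d x hx _).1 ?_
    rw [map_sub, map_one]
    simp [aug]
  choose z hz using hz
  -- the relations
  have hρ : ∀ (i : Fin d) (g : S), BAS_E ℤ i g - z (g * x i) + z g ∈ Rel ℤ x := by
    intro i g
    show bd ℤ x (BAS_E ℤ i g - z (g * x i) + z g) = 0
    rw [map_add, map_sub, BAS_bd, hz, hz]
    abel
  obtain ⟨s, hs⟩ := hproj.out
  let R := Rel ℤ x
  let ρ : Fin d → S → Rel ℤ x := fun i g => ⟨BAS_E ℤ i g - z (g * x i) + z g, hρ i g⟩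
  let ch : (Rel ℤ x →₀ MonoidAlgebra ℤ S) →+ (Rel ℤ x →₀ MonoidAlgebra k S) :=
    Finsupp.mapRange.addMonoidHom c.toAddMonoidHom
  have ch_smul : ∀ (a : MonoidAlgebra ℤ S) (f : Rel ℤ x →₀ MonoidAlgebra ℤ S),
      ch (a • f) = c a • ch f := by
    intro a f
    ext1 q
    exact map_mul c a (f q)
  let sk : (Fin d → MonoidAlgebra k S) →ₗ[k] (Rel ℤ x →₀ MonoidAlgebra k S) :=
    BAS_L k (fun i g => ch (s (ρ i g)))
  -- integral expansion
  let P' : (Fin d → MonoidAlgebra ℤ S) →ₗ[ℤ] Rel ℤ x := BAS_L ℤ ρ
  have hP' : ∀ r : Rel ℤ x, P' r.1 = r := by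
    intro r
    apply Subtype.ext
    exact BAS_A ℤ x z (((Rel ℤ x).subtype.toAddMonoidHom.toIntLinearMap) ∘ₗ P') (fun i g => by
      show ((P' (BAS_E ℤ i g) : Rel ℤ x) : Fin d → MonoidAlgebra ℤ S) = _
      rw [show P' (BAS_E ℤ i g) = ρ i g from BAS_L_E ℤ ρ i g]) r.1 r.2
  have hB' : ∀ r : Rel ℤ x, sk (cv r.1) = ch (s r) := by
    have h : (sk.toAddMonoidHom.comp cv).toIntLinearMap =
        ((ch.comp s.toAddMonoidHom).comp P'.toAddMonoidHom).toIntLinearMap := by
      refine BAS_ext (fun i g => ?_)
      show sk (cv (BAS_E ℤ i g)) = ch (s (P' (BAS_E ℤ i g)))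
      rw [cv_E, show P' (BAS_E ℤ i g) = ρ i g from BAS_L_E ℤ ρ i g]
      exact BAS_L_E k _ i g
    intro r
    have h2 : sk (cv r.1) = ch (s (P' r.1)) := congrArg (fun f => f r.1) h
    rw [h2, hP']
  -- the span of the integral relations
  let W : Submodule k (Fin d → MonoidAlgebra k S) := Submodule.span k (Set.range fun r : Rel ℤ x => cv r.1)
  have hW : ∀ y ∈ Rel k x, y ∈ W := by
    intro y hy
    let Pk : (Fin d → MonoidAlgebra k S) →ₗ[k] (Fin d → MonoidAlgebra k S) :=
      BAS_L k (fun i g => cv (ρ i g).1)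
    have h1 : Pk y = y := BAS_A k x (fun g => cv (z g)) Pk (fun i g => by
      rw [show Pk (BAS_E k i g) = cv (ρ i g).1 from BAS_L_E k _ i g]
      show cv (BAS_E ℤ i g - z (g * x i) + z g) = _
      rw [map_add, map_sub, cv_E]) y hy
    have h2 : W.mkQ ∘ₗ Pk = 0 := by
      refine BAS_ext (fun i g => ?_)
      show W.mkQ (Pk (BAS_E k i g)) = 0
      rw [show Pk (BAS_E k i g) = cv (ρ i g).1 from BAS_L_E k _ i g]
      exact (Submodule.Quotient.mk_eq_zero W).2 (Submodule.subset_span ⟨ρ i g, rfl⟩)
    have h3 : W.mkQ (Pk y) = 0 := congrArg (fun f => f y) h2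
    rw [h1] at h3
    exact (Submodule.Quotient.mk_eq_zero W).1 h3
  -- linearity
  have hlin : ∀ y ∈ W, ∀ h : MonoidAlgebra k S, sk (h • y) = h • sk y := by
    intro y hy
    induction hy using Submodule.span_induction with
    | mem y hy =>
      obtain ⟨r, rfl⟩ := hy
      intro h
      induction h using MonoidAlgebra.induction_linear with
      | zero => rw [zero_smul, zero_smul, map_zero]
      | add a b ha hb => rw [add_smul, add_smul, map_add, ha, hb]
      | single g a =>
        have e1 : (MonoidAlgebra.single g a : MonoidAlgebra k S) = a • c (el ℤ g) := by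
          rw [c_el]
          simp
        have e2 : sk (c (el ℤ g) • cv r.1) = c (el ℤ g) • sk (cv r.1) := by
          rw [← cv_smul]
          have e3 := hB' (el ℤ g • r)
          have e4 : ((el ℤ g • r : Rel ℤ x) : Fin d → MonoidAlgebra ℤ S) = el ℤ g • r.1 := rfl
          rw [e4] at e3
          rw [e3, map_smul, ch_smul, hB']
        show sk (MonoidAlgebra.single g a • cv r.1) = MonoidAlgebra.single g a • sk (cv r.1)
        rw [e1, smul_assoc, smul_assoc, map_smul, e2]
    | zero =>
      intro h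
      rw [smul_zero, map_zero, smul_zero]
    | add y y' _ _ hy hy' =>
      intro h
      rw [smul_add, map_add, map_add, hy, hy', smul_add]
    | smul a y _ hy =>
      intro h
      rw [smul_comm h a y, sk.map_smul a (h • y), sk.map_smul a y, hy, smul_comm h a (sk y)]
  let π' : (Rel ℤ x →₀ MonoidAlgebra k S) →ₗ[MonoidAlgebra k S] (Fin d → MonoidAlgebra k S) :=
    Finsupp.linearCombination (MonoidAlgebra k S) (fun q : Rel ℤ x => cv q.1)
  have hπ' : ∀ f : Rel ℤ x →₀ MonoidAlgebra ℤ S, π' (ch f) =
      cv ((Finsupp.linearCombination (MonoidAlgebra ℤ S) id f : Rel ℤ x) : Fin d → MonoidAlgebra ℤ S) := by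
    intro f
    induction f using Finsupp.induction_linear with
    | zero => simp
    | add f g hf hg =>
      rw [map_add, map_add, map_add, hf, hg, ← map_add]
      rfl
    | single q a =>
      have e1 : ch (Finsupp.single q a) = Finsupp.single q (c a) := by
        simp [ch]
      have e2 : (Finsupp.linearCombination (MonoidAlgebra ℤ S) id (Finsupp.single q a) : Rel ℤ x) =
          a • q := Finsupp.linearCombination_single _ _ _
      rw [e1, e2]
      show π' (Finsupp.single q (c a)) = cv (a • q.1)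
      rw [cv_smul]
      exact Finsupp.linearCombination_single _ _ _
  have hπs : ∀ y ∈ W, π' (sk y) = y := by
    intro y hy
    induction hy using Submodule.span_induction with
    | mem y hy =>
      obtain ⟨r, rfl⟩ := hy
      show π' (sk (cv r.1)) = cv r.1
      rw [hB', hπ', hs r]
    | zero => rw [map_zero, map_zero]
    | add y y' _ _ hy hy' => rw [map_add, map_add, hy, hy']
    | smul a y _ hy =>
      rw [map_smul]
      have e1 : π' (a • sk y) = a • π' (sk y) := by
        have e2 : (π'.restrictScalars k) (a • sk y) = a • (π'.restrictScalars k) (sk y) := map_smul _ _ _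
        exact e2
      rw [e1, hy]
  have hcR : ∀ q : Rel ℤ x, cv q.1 ∈ Rel k x := by
    intro q
    show bd k x (cv q.1) = 0
    rw [bd_cv]
    have h : bd ℤ x q.1 = 0 := q.2
    rw [h, map_zero]
  let i : Rel k x →ₗ[MonoidAlgebra k S] (Rel ℤ x →₀ MonoidAlgebra k S) :=
    { toFun := fun y => sk y.1
      map_add' := fun y y' => map_add sk _ _
      map_smul' := fun h y => hlin y.1 (hW _ y.2) h }
  let p : (Rel ℤ x →₀ MonoidAlgebra k S) →ₗ[MonoidAlgebra k S] Rel k x :=
    Finsupp.linearCombination (MonoidAlgebra k S) (fun q : Rel ℤ x => (⟨cv q.1, hcR q⟩ : Rel k x))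
  have hp : ∀ f, ((p f : Rel k x) : Fin d → MonoidAlgebra k S) = π' f := by
    intro f
    exact Finsupp.apply_linearCombination (MonoidAlgebra k S) (Rel k x).subtype _ f
  refine Module.Projective.of_split i p ?_
  ext1 y
  apply Subtype.ext
  show ((p (sk y.1) : Rel k x) : Fin d → MonoidAlgebra k S) = y.1
  rw [hp]
  exact hπs y.1 (hW _ y.2)

end Pool.Agent.PDA
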