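import Pool.Agent.PDA.StA

/-!
# PDA, module BDR: the image of `bd` is the augmentation ideal
-/

set_option autoImplicit false

namespace Pool.Agent.PDA

open Pool.Agent.PDB

private theorem BDR_aug_el {k S : Type} [CommRing k] [Group S] (g : S) :
    aug k S (el k g) = 1 := by
  unfold aug el
  rw [MonoidAlgebra.lift_of]
  rfl

private theorem BDR_el_mem {k S : Type} [CommRing k] [Group S] {d : ℕ} (x : Fin d → S)
    (hx : Subgroup.closure (Set.range x) = ⊤) (g : S) :
    el k g - 1 ∈ LinearMap.range (bd k x) := by
  have hg : g ∈ Subgroup.closure (Set.range x) := by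
    rw [hx]
    exact Subgroup.mem_top g
  refine Subgroup.closure_induction (p := fun g _ => el k g - 1 ∈ LinearMap.range (bd k x))
    ?_ ?_ ?_ ?_ hg
  · rintro _ ⟨i, rfl⟩
    refine ⟨Pi.single i 1, ?_⟩
    show ∑ j, (Pi.single i 1 : Fin d → MonoidAlgebra k S) j * (el k (x j) - 1) = el k (x i) - 1
    rw [Finset.sum_eq_single i]
    · rw [Pi.single_eq_same, one_mul]
    · intro j _ hj
      rw [Pi.single_eq_of_ne hj, zero_mul]
    · intro h
      exact absurd (Finset.mem_univ i) h
  · have h1 : el k (1 : S) - 1 = 0 := by
      rw [el, map_one, sub_self]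
    rw [h1]
    exact Submodule.zero_mem _
  · intro a b _ _ ha hb
    have h1 : el k (a * b) - 1 = el k a • (el k b - 1) + (el k a - 1) := by
      rw [el, map_mul, smul_eq_mul]
      noncomm_ring
    rw [h1]
    exact Submodule.add_mem _ (Submodule.smul_mem _ _ hb) ha
  · intro a _ ha
    have h1 : el k a⁻¹ - 1 = -(el k a⁻¹ • (el k a - 1)) := by
      rw [smul_eq_mul, mul_sub, mul_one, el, ← map_mul, inv_mul_cancel, map_one]
      noncomm_ring
    rw [h1]
    exact Submodule.neg_mem _ (Submodule.smul_mem _ _ ha)

theorem thm_BDR : St_BDR := by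
  intro k S _ _ d x hx a
  constructor
  · intro ha
    have key : ∀ b : MonoidAlgebra k S, b - algebraMap k (MonoidAlgebra k S) (aug k S b) ∈
        LinearMap.range (bd k x) := by
      intro b
      refine MonoidAlgebra.induction_on (motive := fun b : MonoidAlgebra k S =>
        b - algebraMap k (MonoidAlgebra k S) (aug k S b) ∈ LinearMap.range (bd k x)) b ?_ ?_ ?_
      · intro g
        have h1 := BDR_aug_el (k := k) g
        unfold el at h1
        rw [h1, map_one]
        exact BDR_el_mem x hx g
      · intro b c hb hc
        have h1 : b + c - algebraMap k (MonoidAlgebra k S) (aug k S (b + c)) =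
            (b - algebraMap k (MonoidAlgebra k S) (aug k S b)) +
              (c - algebraMap k (MonoidAlgebra k S) (aug k S c)) := by
          rw [map_add, map_add]
          abel
        rw [h1]
        exact Submodule.add_mem _ hb hc
      · intro r b hb
        have h1 : r • b - algebraMap k (MonoidAlgebra k S) (aug k S (r • b)) =
            algebraMap k (MonoidAlgebra k S) r •
              (b - algebraMap k (MonoidAlgebra k S) (aug k S b)) := by
          rw [map_smul, smul_eq_mul, map_mul, smul_eq_mul, mul_sub, Algebra.smul_def r b]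
        rw [h1]
        exact Submodule.smul_mem _ _ hb
    have h2 := key a
    rw [ha, map_zero, sub_zero] at h2
    exact h2
  · rintro ⟨y, rfl⟩
    show aug k S (∑ i, y i * (el k (x i) - 1)) = 0
    rw [map_sum]
    refine Finset.sum_eq_zero fun i _ => ?_
    rw [map_mul, map_sub, BDR_aug_el, map_one, sub_self, mul_zero]

end Pool.Agent.PDA
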