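import Pool.Agent.PDA.StD

/-!
# PDA: `H^2(BS(1,m); ℚ_ψ)`
-/

set_option autoImplicit false

namespace Pool.Agent.PDA

open Pool.Agent.PDB

namespace BSE

variable {S : Type} [Group S] (ψ : S →* ℚˣ)

theorem ev_single (g : S) (c : ℤ) : ev ψ (MonoidAlgebra.single g c) = (c : ℚ) * (ψ g : ℚ) := by
  show MonoidAlgebra.lift ℤ ℚ S ((Units.coeHom ℚ).comp ψ) (MonoidAlgebra.single g c) = _
  rw [MonoidAlgebra.lift_single, zsmul_eq_mul]
  rfl

theorem ev_el (g : S) : ev ψ (el ℤ g) = (ψ g : ℚ) := by
  show ev ψ (MonoidAlgebra.single g (1 : ℤ)) = _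
  rw [ev_single, Int.cast_one, one_mul]

variable {M : Type} [AddCommGroup M] [Module (ZG S) M]

theorem map_smul_ev (φ : M →+ ℚ) (h : ∀ (s : S) (y : M), φ (el ℤ s • y) = (ψ s : ℚ) * φ y)
    (a : ZG S) (y : M) : φ (a • y) = ev ψ a * φ y := by
  induction a using MonoidAlgebra.induction_linear with
  | zero => simp
  | add a b ha hb => rw [add_smul, map_add, ha, hb, map_add, add_mul]
  | single g c =>
    have h1 : (MonoidAlgebra.single g c : ZG S) = c • el ℤ g := by
      show _ = c • MonoidAlgebra.single g (1 : ℤ)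
      rw [MonoidAlgebra.smul_single, smul_eq_mul, mul_one]
    rw [ev_single, h1, smul_assoc, map_zsmul, h, zsmul_eq_mul, mul_assoc]

end BSE

open BSE in
theorem thm_BSE (hR : St_BSR) : St_BSE := by
  intro H _ π x s m hB ψ hψ
  obtain ⟨r, hgen, hfree, hev⟩ := hR H π x s m hB
  obtain ⟨he0, he1⟩ := hev ψ hψ
  constructor
  · intro hE hm
    choose μ hμ using hgen
    have huniq : ∀ (y : Rel ℤ ![x, s]) (a : ZG H), y = a • r → μ y = a := by
      intro y a h
      rw [← sub_eq_zero]
      apply hfree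
      apply Subtype.ext
      show (μ y - a) • r.1 = 0
      have h2 : y.1 = μ y • r.1 := congrArg Subtype.val (hμ y)
      have h3 : y.1 = a • r.1 := congrArg Subtype.val h
      rw [sub_smul, ← h2, ← h3, sub_self]
    let φ : Rel ℤ ![x, s] →+ ℚ :=
      { toFun := fun y => ev ψ (μ y)
        map_zero' := by
          rw [huniq 0 0 (by
            apply Subtype.ext
            show (0 : Fin 2 → ZG H) = (0 : ZG H) • r.1
            rw [zero_smul]), map_zero]
        map_add' := fun a b => by
          rw [huniq (a + b) (μ a + μ b) (by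
            apply Subtype.ext
            show a.1 + b.1 = (μ a + μ b) • r.1
            have h2 : a.1 = μ a • r.1 := congrArg Subtype.val (hμ a)
            have h3 : b.1 = μ b • r.1 := congrArg Subtype.val (hμ b)
            rw [add_smul, ← h2, ← h3]), map_add] }
    obtain ⟨φ', h1, h2⟩ := hE φ (fun t y => by
      show ev ψ (μ (el ℤ t • y)) = _ * ev ψ (μ y)
      rw [huniq (el ℤ t • y) (el ℤ t * μ y) (by
        apply Subtype.ext
        show el ℤ t • y.1 = (el ℤ t * μ y) • r.1
        have h2 : y.1 = μ y • r.1 := congrArg Subtype.val (hμ y)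
        rw [mul_smul, ← h2]), map_mul, ev_el])
    have h3 : φ' (r : Fin 2 → ZG H) = 1 := by
      rw [h2]
      show ev ψ (μ r) = 1
      rw [huniq r 1 (by
        apply Subtype.ext
        show r.1 = (1 : ZG H) • r.1
        rw [one_smul]), map_one]
    have h4 : (r : Fin 2 → ZG H) = (r.1 0) • (Pi.single 0 1 : Fin 2 → ZG H) +
        (r.1 1) • (Pi.single 1 1 : Fin 2 → ZG H) := by
      funext i
      fin_cases i
      · simp
      · simp
    rw [h4, map_add, map_smul_ev ψ φ' h1, map_smul_ev ψ φ' h1, he0, he1, hm, sub_self, zero_mul,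
      zero_mul, add_zero] at h3
    exact zero_ne_one h3
  · intro hm φ hφ
    have hm' : (ψ s : ℚ) - m ≠ 0 := sub_ne_zero.2 hm
    refine ⟨{ toFun := fun y => ev ψ (y 0) * (φ r / ((ψ s : ℚ) - m))
              map_zero' := by simp
              map_add' := fun a b => by rw [Pi.add_apply, map_add, add_mul] }, ?_, ?_⟩
    · intro t y
      show ev ψ (el ℤ t * y 0) * _ = _ * (ev ψ (y 0) * _)
      rw [map_mul, ev_el, mul_assoc]
    · intro y
      obtain ⟨μ, hμ⟩ := hgen y
      show ev ψ (y.1 0) * _ = φ y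
      rw [hμ, map_smul_ev ψ φ hφ]
      show ev ψ (μ * r.1 0) * _ = _
      rw [map_mul, he0, mul_assoc, mul_div_cancel₀ _ hm']

end Pool.Agent.PDA
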