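import Pool.Agent.PDA.StD

/-!
# PDA: `BS(1,m)` is generated by `x` and `s`, and `H^1(BS(1,m); ℚ_χ) = 0`
-/

set_option autoImplicit false

namespace Pool.Agent.PDA

open Pool.Agent.PDB

theorem thm_BSG : St_BSG := by
  intro H _ π x s m hB
  rw [eq_top_iff]
  intro g _
  have hx : x ∈ Subgroup.closure (Set.range ![x, s]) := Subgroup.subset_closure ⟨0, rfl⟩
  have hs : s ∈ Subgroup.closure (Set.range ![x, s]) := Subgroup.subset_closure ⟨1, rfl⟩
  let n : ℤ := Multiplicative.toAdd (π g)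
  obtain ⟨k, i, hki⟩ := hB.ker (g * (s ^ n)⁻¹) (by
    rw [map_mul, map_inv, map_zpow, hB.pis, ← ofAdd_zsmul, smul_eq_mul, mul_one]
    exact mul_inv_cancel _)
  have h1 : g = (s ^ k)⁻¹ * x ^ i * s ^ k * s ^ n := by
    rw [← hki]
    group
  rw [h1]
  exact Subgroup.mul_mem _ (Subgroup.mul_mem _ (Subgroup.mul_mem _ (Subgroup.inv_mem _
    (Subgroup.pow_mem _ hs k)) (Subgroup.zpow_mem _ hx i)) (Subgroup.pow_mem _ hs k))
    (Subgroup.zpow_mem _ hs n)

/-- a derivation which vanishes on generators is zero -/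
theorem der_eq_zero {H : Type} [Group H] (χ : H →* ℚˣ) (D : H → ℚ)
    (hD : ∀ g h, D (g * h) = D g + (χ g : ℚ) * D h) (A : Set H) (hA : ∀ g ∈ A, D g = 0) :
    ∀ g ∈ Subgroup.closure A, D g = 0 := by
  have h1 : D 1 = 0 := by
    have := hD 1 1
    rw [mul_one, map_one, Units.val_one, one_mul] at this
    linarith
  intro g hg
  induction hg using Subgroup.closure_induction with
  | mem g hg => exact hA g hg
  | one => exact h1
  | mul a b _ _ ha hb => rw [hD, ha, hb, mul_zero, add_zero]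
  | inv a _ ha =>
    have := hD a a⁻¹
    rw [mul_inv_cancel, h1, ha, zero_add] at this
    rcases mul_eq_zero.1 this.symm with h | h
    · exact absurd h (Units.ne_zero _)
    · exact h

theorem thm_BSH : St_BSH := by
  intro H _ π x s m hB hm χ hχx hχs δ hδ
  have hgen := thm_BSG H π x s m hB
  have hrel : s * x = x ^ m * s := by
    rw [← hB.rel, inv_mul_cancel_right]
  have hinner : ∀ v : ℚ, ∀ g h : H, (δ (g * h) - ((χ (g * h) : ℚ) - 1) * v) =
      (δ g - ((χ g : ℚ) - 1) * v) + (χ g : ℚ) * (δ h - ((χ h : ℚ) - 1) * v) := by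
    intro v g h
    rw [hδ, map_mul, Units.val_mul]
    ring
  have hmabs2 : (2 : ℚ) ≤ |(m : ℚ)| := by
    rw [← Int.cast_abs]
    exact_mod_cast hm
  have hinv : 1 / |(m : ℚ)| ≤ 1 / 2 := one_div_le_one_div_of_le (by norm_num) hmabs2
  have hfin : ∀ v : ℚ, δ x - ((χ x : ℚ) - 1) * v = 0 → δ s - ((χ s : ℚ) - 1) * v = 0 →
      ∃ v : ℚ, ∀ g, δ g = ((χ g : ℚ) - 1) * v := by
    intro v h1 h2
    refine ⟨v, fun g => ?_⟩
    have h3 := der_eq_zero χ (fun g => δ g - ((χ g : ℚ) - 1) * v) (hinner v) (Set.range ![x, s])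
      (by
        rintro _ ⟨i, rfl⟩
        fin_cases i
        · exact h1
        · exact h2) g (by rw [hgen]; trivial)
    exact sub_eq_zero.1 h3
  rcases hχx with hχx | hχx
  · have hxi : ∀ i : ℤ, (χ (x ^ i) : ℚ) = 1 := by
      intro i
      have : χ x = 1 := Units.ext hχx
      rw [map_zpow, this, one_zpow, Units.val_one]
    let f : ℤ →+ ℚ := AddMonoidHom.mk' (fun i : ℤ => δ (x ^ i)) (fun i j => by
      rw [zpow_add, hδ, hxi, one_mul])
    have h1 : δ (x ^ m) = m * δ x := by
      have h2 := map_zsmul f m (1 : ℤ)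
      rw [smul_eq_mul, mul_one, zsmul_eq_mul] at h2
      have h3 : f 1 = δ x := by
        show δ (x ^ (1 : ℤ)) = δ x
        rw [zpow_one]
      rw [h3] at h2
      exact h2
    have h2 : δ s + (χ s : ℚ) * δ x = m * δ x + δ s := by
      rw [← hδ, hrel, hδ, hxi, h1, one_mul]
    have h3 : ((χ s : ℚ) - m) * δ x = 0 := by linarith
    have h4 : (χ s : ℚ) - m ≠ 0 := by
      intro h
      have h5 : (χ s : ℚ) = m := by linarith
      rw [h5] at hχs
      rw [hχs] at hmabs2
      linarith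
    have h5 : δ x = 0 := by
      rcases mul_eq_zero.1 h3 with h | h
      · exact absurd h h4
      · exact h
    have h6 : (χ s : ℚ) - 1 ≠ 0 := by
      intro h
      have h7 : (χ s : ℚ) = 1 := by linarith
      rw [h7, abs_one] at hχs
      rw [← hχs] at hinv
      norm_num at hinv
    refine hfin (δ s / ((χ s : ℚ) - 1)) ?_ ?_
    · rw [h5, hχx, sub_self, zero_mul, sub_zero]
    · rw [mul_div_cancel₀ _ h6, sub_self]
  · have hD := hinner (δ x / (-2))
    have h1 : δ x - ((χ x : ℚ) - 1) * (δ x / (-2)) = 0 := by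
      rw [hχx]
      ring
    refine hfin (δ x / (-2)) h1 ?_
    have h2 := der_eq_zero χ (fun g => δ g - ((χ g : ℚ) - 1) * (δ x / (-2))) hD {x}
      (by
        intro g hg
        rw [Set.mem_singleton_iff.1 hg]
        exact h1) (x ^ m) (Subgroup.zpow_mem (Subgroup.closure {x})
          (Subgroup.subset_closure (Set.mem_singleton x)) m)
    have h2' : δ (x ^ m) - ((χ (x ^ m) : ℚ) - 1) * (δ x / (-2)) = 0 := h2
    have h3 : (χ (x ^ m) : ℚ) = -1 := by
      rw [← hB.rel, map_mul, map_mul, map_inv, mul_comm (χ s), mul_inv_cancel_right]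
      exact hχx
    have h4 := hD s x
    rw [hrel, hD (x ^ m) s, h2', h1, h3, mul_zero, add_zero, zero_add] at h4
    linarith

end Pool.Agent.PDA
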