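import Pool.Agent.PDA.StD

/-!
# PDA: the relation module of `BS(1,m)` is free on one generator
-/

set_option autoImplicit false

namespace Pool.Agent.PDA

open Pool.Agent.PDB

namespace BSR

variable {H : Type} [Group H]

theorem el_eq (g : H) : el ℤ g = MonoidAlgebra.single g (1 : ℤ) := rfl

theorem el_mul (g h : H) : el ℤ (g * h) = el ℤ g * el ℤ h := map_mul (MonoidAlgebra.of ℤ H) g h

theorem el_one : el ℤ (1 : H) = 1 := map_one (MonoidAlgebra.of ℤ H)

theorem el_pow (g : H) (n : ℕ) : el ℤ (g ^ n) = el ℤ g ^ n := map_pow (MonoidAlgebra.of ℤ H) g n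

theorem ev_el (ψ : H →* ℚˣ) (g : H) : ev ψ (el ℤ g) = (ψ g : ℚ) := by
  show MonoidAlgebra.lift ℤ ℚ H ((Units.coeHom ℚ).comp ψ) (MonoidAlgebra.single g 1) = _
  rw [MonoidAlgebra.lift_single, one_smul]
  rfl

/-- right multiplication by `c - 1` is injective if `c` has infinite order -/
theorem eq_zero_of_mul (c : H) (hc : ∀ n : ℕ, 0 < n → c ^ n ≠ 1) (μ : ZG H)
    (h : μ * (el ℤ c - 1) = 0) : μ = 0 := by
  rw [mul_sub, mul_one, sub_eq_zero] at h
  have h1 : ∀ g, μ.coeff g = μ.coeff (g * c⁻¹) := by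
    intro g
    conv_lhs => rw [← h]
    rw [el_eq, MonoidAlgebra.coeff_mul_single_apply, mul_one]
  have h2 : ∀ (n : ℕ) (g : H), μ.coeff g = μ.coeff (g * (c ^ n)⁻¹) := by
    intro n
    induction n with
    | zero => intro g; rw [pow_zero, inv_one, mul_one]
    | succ n ih =>
      intro g
      rw [ih g, h1 (g * (c ^ n)⁻¹), pow_succ' c n, mul_inv_rev, mul_assoc]
  apply MonoidAlgebra.ext
  ext g
  by_contra hg
  have hinj : Function.Injective (fun n : ℕ => g * (c ^ n)⁻¹) := by
    intro a b hab
    have h3 : c ^ a = c ^ b := inv_injective (mul_left_cancel hab)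
    by_contra hne
    rcases lt_or_gt_of_ne hne with h4 | h4
    · apply hc (b - a) (by omega)
      rw [pow_sub c h4.le, h3, mul_inv_cancel]
    · apply hc (a - b) (by omega)
      rw [pow_sub c h4.le, h3, mul_inv_cancel]
  have hsub : Set.range (fun n : ℕ => g * (c ^ n)⁻¹) ⊆ (μ.coeff.support : Set H) := by
    rintro _ ⟨n, rfl⟩
    rw [Finset.mem_coe, Finsupp.mem_support_iff, ← h2 n g]
    exact hg
  exact Set.infinite_range_of_injective hinj ((Finset.finite_toSet _).subset hsub)

/-- powers of `c` minus one are multiples of `c - 1` -/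
theorem zpow_sub_one_mem (c : H) (k : ℤ) : el ℤ (c ^ k) - 1 ∈ Ideal.span {el ℤ c - 1} := by
  have hn : ∀ n : ℕ, el ℤ (c ^ n) - 1 ∈ Ideal.span {el ℤ c - 1} := by
    intro n
    rw [el_pow, ← geom_sum_mul]
    exact Ideal.mul_mem_left _ _ (Ideal.subset_span rfl)
  obtain ⟨n, rfl | rfl⟩ := k.eq_nat_or_neg
  · rw [zpow_natCast]
    exact hn n
  · have h1 : el ℤ (c ^ (-(n : ℤ))) - 1 = -(el ℤ (c ^ (-(n : ℤ)))) * (el ℤ (c ^ n) - 1) := by
      rw [neg_mul, mul_sub, mul_one, ← el_mul, zpow_neg, zpow_natCast, inv_mul_cancel, el_one]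
      abel
    rw [h1]
    exact Ideal.mul_mem_left _ _ (hn n)

/-- sum zero over the left cosets of `⟨c⟩` -/
theorem mem_of_mapDomain (c : H) (a : ZG H)
    (h : Finsupp.mapDomain (fun g : H => (QuotientGroup.mk g : H ⧸ Subgroup.zpowers c)) a.coeff = 0) :
    a ∈ Ideal.span {el ℤ c - 1} := by
  let mkc : H → H ⧸ Subgroup.zpowers c := QuotientGroup.mk
  let ρ : ZG H → ZG H := fun a =>
    MonoidAlgebra.ofCoeff (Finsupp.mapDomain (fun q : H ⧸ Subgroup.zpowers c => q.out)
      (Finsupp.mapDomain mkc a.coeff))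
  have key : ∀ a : ZG H, a - ρ a ∈ Ideal.span {el ℤ c - 1} := by
    intro a
    induction a using MonoidAlgebra.induction_linear with
    | zero =>
      have : ρ 0 = 0 := by
        show MonoidAlgebra.ofCoeff _ = _
        rw [MonoidAlgebra.coeff_zero, Finsupp.mapDomain_zero, Finsupp.mapDomain_zero]
        rfl
      rw [this, sub_zero]
      exact zero_mem _
    | add a b ha hb =>
      have : ρ (a + b) = ρ a + ρ b := by
        show MonoidAlgebra.ofCoeff _ = _
        rw [MonoidAlgebra.coeff_add, Finsupp.mapDomain_add, Finsupp.mapDomain_add]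
        rfl
      rw [this, add_sub_add_comm]
      exact add_mem ha hb
    | single g k =>
      have h1 : ρ (MonoidAlgebra.single g k) = MonoidAlgebra.single (mkc g).out k := by
        show MonoidAlgebra.ofCoeff _ = _
        rw [MonoidAlgebra.coeff_single, Finsupp.mapDomain_single, Finsupp.mapDomain_single]
        rfl
      obtain ⟨u, hu⟩ := QuotientGroup.mk_out_eq_mul (Subgroup.zpowers c) g
      obtain ⟨i, hi⟩ := u.2
      have hi' : c ^ i = (u : H) := hi
      have h2 : (MonoidAlgebra.single g k : ZG H) - MonoidAlgebra.single (mkc g).out k =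
          (-(MonoidAlgebra.single g k)) * (el ℤ (c ^ i) - 1) := by
        have h3 : (mkc g).out = g * c ^ i := by rw [hi']; exact hu
        rw [h3, neg_mul, mul_sub, mul_one, el_eq, MonoidAlgebra.single_mul_single, mul_one]
        abel
      rw [h1, h2]
      exact Ideal.mul_mem_left _ _ (zpow_sub_one_mem c i)
  have h1 := key a
  have h2 : ρ a = 0 := by
    show MonoidAlgebra.ofCoeff (Finsupp.mapDomain _ (Finsupp.mapDomain mkc a.coeff)) = _
    have h3 : Finsupp.mapDomain mkc a.coeff = 0 := h
    rw [h3, Finsupp.mapDomain_zero]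
    rfl
  rwa [h2, sub_zero] at h1

/-- a finitely supported function invariant under a map which lowers the height is zero -/
theorem eq_zero_of_height {V : Type} (P : V → V) (ht : V → ℤ) (hP : ∀ v, ht (P v) = ht v - 1)
    (u : V →₀ ℤ) (hu : Finsupp.mapDomain P u = u) : u = 0 := by
  classical
  by_contra hne
  have hs : u.support.Nonempty := Finsupp.support_nonempty_iff.2 hne
  obtain ⟨q, hq, hmax⟩ := Finset.exists_max_image u.support ht hs
  have h1 : q ∈ (Finsupp.mapDomain P u).support := by rw [hu]; exact hq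
  have h2 := Finsupp.mapDomain_support h1
  obtain ⟨q', hq', hPq⟩ := Finset.mem_image.1 h2
  have h3 := hmax q' hq'
  have h4 := hP q'
  rw [hPq] at h4
  omega

end BSR

open BSR in
theorem thm_BSR : St_BSR := by
  intro H _ π x s m hB
  have hm0 : m ≠ 0 := by
    rintro rfl
    have h1 := hB.rel
    rw [zpow_zero] at h1
    apply hB.inf 1 one_pos
    rw [pow_one]
    have h2 := congrArg (fun t => s⁻¹ * t * s) h1
    simpa [mul_assoc] using h2
  have hxz : ∀ i : ℤ, x ^ i = 1 → i = 0 := by
    intro i hi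
    by_contra hne
    apply hB.inf i.natAbs (Int.natAbs_pos.2 hne)
    rcases Int.natAbs_eq i with h | h
    · rw [← zpow_natCast, ← h]; exact hi
    · rw [← zpow_natCast, ← inv_inj, ← zpow_neg, ← h, hi, inv_one]
  have hcinf : ∀ n : ℕ, 0 < n → (x ^ m) ^ n ≠ 1 := by
    intro n hn h
    rw [← zpow_natCast, ← zpow_mul] at h
    have := hxz _ h
    rcases mul_eq_zero.1 this with h1 | h1
    · exact hm0 h1
    · omega
  -- the element `N`
  have hN : ∃ N : ZG H, N * (el ℤ x - 1) = el ℤ (x ^ m) - 1 ∧
      ∀ ψ : H →* ℚˣ, ψ x = 1 → ev ψ N = m := by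
    have hgeom : ∀ n : ℕ, (∑ i ∈ Finset.range n, el ℤ x ^ i) * (el ℤ x - 1) = el ℤ (x ^ n) - 1 ∧
        ∀ ψ : H →* ℚˣ, ψ x = 1 → ev ψ (∑ i ∈ Finset.range n, el ℤ x ^ i) = n := by
      intro n
      refine ⟨by rw [geom_sum_mul, el_pow], fun ψ hψ => ?_⟩
      rw [map_sum]
      have : ∀ i ∈ Finset.range n, ev ψ (el ℤ x ^ i) = 1 := by
        intro i _
        rw [map_pow, ev_el, hψ, Units.val_one, one_pow]
      rw [Finset.sum_congr rfl this]
      simp
    obtain ⟨n, rfl | rfl⟩ := m.eq_nat_or_neg
    · refine ⟨∑ i ∈ Finset.range n, el ℤ x ^ i, ?_, fun ψ hψ => ?_⟩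
      · rw [zpow_natCast]; exact (hgeom n).1
      · rw [(hgeom n).2 ψ hψ]; simp
    · refine ⟨-(el ℤ (x ^ (-(n : ℤ)))) * (∑ i ∈ Finset.range n, el ℤ x ^ i), ?_, fun ψ hψ => ?_⟩
      · rw [mul_assoc, (hgeom n).1, neg_mul, mul_sub, mul_one, ← el_mul, zpow_neg, zpow_natCast,
          inv_mul_cancel, el_one]
        abel
      · rw [map_mul, (hgeom n).2 ψ hψ, map_neg, ev_el, map_zpow, hψ, one_zpow, Units.val_one]
        push_cast
        ring
  obtain ⟨N, hN1, hN2⟩ := hN
  have hrel : s * x = x ^ m * s := by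
    rw [← hB.rel, inv_mul_cancel_right]
  let r0 : Fin 2 → ZG H := ![el ℤ s - N, 1 - el ℤ (x ^ m)]
  have hr0 : r0 ∈ Rel ℤ ![x, s] := by
    show bd ℤ ![x, s] r0 = 0
    show ∑ i, r0 i * (el ℤ (![x, s] i) - 1) = 0
    rw [Fin.sum_univ_two]
    show (el ℤ s - N) * (el ℤ x - 1) + (1 - el ℤ (x ^ m)) * (el ℤ s - 1) = 0
    rw [sub_mul, hN1, mul_sub, mul_sub, sub_mul, ← el_mul, ← el_mul, hrel]
    simp only [mul_one, one_mul]
    abel
  refine ⟨⟨r0, hr0⟩, ?_, ?_, ?_⟩
  · rintro ⟨y, hy⟩
    have hy1 : y 0 * (el ℤ x - 1) + y 1 * (el ℤ s - 1) = 0 := by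
      have h1 : ∑ i, y i * (el ℤ (![x, s] i) - 1) = 0 := hy
      rw [Fin.sum_univ_two] at h1
      exact h1
    -- cosets
    let B : Subgroup H := Subgroup.zpowers x
    let A : Subgroup H := Subgroup.zpowers (x ^ m)
    have hAB : ∀ g : H, g ∈ A ↔ s⁻¹ * g * s ∈ B := by
      intro g
      constructor
      · rintro ⟨i, hi⟩
        have hi' : (x ^ m) ^ i = g := hi
        refine ⟨i, ?_⟩
        show x ^ i = s⁻¹ * g * s
        rw [← hi', ← hB.rel, conj_zpow]
        group
      · rintro ⟨i, hi⟩
        have hi' : x ^ i = s⁻¹ * g * s := hi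
        refine ⟨i, ?_⟩
        show (x ^ m) ^ i = g
        rw [← hB.rel, conj_zpow, hi']
        group
    let v : H ⧸ A → H ⧸ B := Quotient.lift (fun g : H => (QuotientGroup.mk (g * s) : H ⧸ B))
      (fun a b hab => by
        rw [QuotientGroup.eq]
        have h1 : a⁻¹ * b ∈ A := QuotientGroup.leftRel_apply.1 hab
        have h2 := (hAB _).1 h1
        rw [mul_inv_rev]
        simpa [mul_assoc] using h2)
    have hv : Function.Injective v := by
      intro p q
      induction p using QuotientGroup.induction_on with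
      | H a =>
        induction q using QuotientGroup.induction_on with
        | H b =>
          intro h
          have h1 : (QuotientGroup.mk (a * s) : H ⧸ B) = QuotientGroup.mk (b * s) := h
          rw [QuotientGroup.eq] at h1 ⊢
          rw [hAB]
          rw [mul_inv_rev] at h1
          simpa [mul_assoc] using h1
    let P : H ⧸ B → H ⧸ B := Quotient.lift (fun g : H => (QuotientGroup.mk (g * s⁻¹) : H ⧸ B))
      (fun a b hab => by
        rw [QuotientGroup.eq]
        have h1 : a⁻¹ * b ∈ B := QuotientGroup.leftRel_apply.1 hab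
        obtain ⟨i, hi⟩ := h1
        have hi' : x ^ i = a⁻¹ * b := hi
        refine ⟨m * i, ?_⟩
        show x ^ (m * i) = (a * s⁻¹)⁻¹ * (b * s⁻¹)
        rw [zpow_mul, ← hB.rel, conj_zpow, hi', mul_inv_rev, inv_inv]
        group)
    let ht : H ⧸ B → ℤ := Quotient.lift (fun g : H => Multiplicative.toAdd (π g))
      (fun a b hab => by
        have h1 : a⁻¹ * b ∈ B := QuotientGroup.leftRel_apply.1 hab
        obtain ⟨i, hi⟩ := h1
        have hi' : x ^ i = a⁻¹ * b := hi
        have h2 : π (a⁻¹ * b) = 1 := by rw [← hi', map_zpow, hB.pix, one_zpow]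
        rw [map_mul, map_inv, inv_mul_eq_one] at h2
        show Multiplicative.toAdd (π a) = Multiplicative.toAdd (π b)
        rw [h2])
    have hPht : ∀ q, ht (P q) = ht q - 1 := by
      intro q
      induction q using QuotientGroup.induction_on with
      | H a =>
        show Multiplicative.toAdd (π (a * s⁻¹)) = Multiplicative.toAdd (π a) - 1
        rw [map_mul, map_inv, hB.pis, toAdd_mul, toAdd_inv, toAdd_ofAdd]
        ring
    let qB : ZG H → (H ⧸ B →₀ ℤ) := fun a =>
      Finsupp.mapDomain (fun g : H => (QuotientGroup.mk g : H ⧸ B)) a.coeff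
    have hqadd : ∀ a b, qB (a + b) = qB a + qB b := fun a b => by
      show Finsupp.mapDomain _ (a + b).coeff = _
      rw [MonoidAlgebra.coeff_add, Finsupp.mapDomain_add]
    have hqx : ∀ a, qB (a * el ℤ x) = qB a := by
      intro a
      induction a using MonoidAlgebra.induction_linear with
      | zero => rw [zero_mul]
      | add a b ha hb => rw [add_mul, hqadd, hqadd, ha, hb]
      | single g k =>
        rw [el_eq, MonoidAlgebra.single_mul_single, mul_one]
        show Finsupp.mapDomain _ (Finsupp.single (g * x) k) =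
          Finsupp.mapDomain _ (Finsupp.single g k)
        rw [Finsupp.mapDomain_single, Finsupp.mapDomain_single]
        congr 1
        rw [QuotientGroup.eq, mul_inv_rev, mul_assoc, inv_mul_cancel, mul_one]
        exact B.inv_mem (Subgroup.mem_zpowers x)
    have hqs : ∀ a, qB (a * el ℤ s) = Finsupp.mapDomain v
        (Finsupp.mapDomain (fun g : H => (QuotientGroup.mk g : H ⧸ A)) a.coeff) := by
      intro a
      induction a using MonoidAlgebra.induction_linear with
      | zero =>
        rw [zero_mul, MonoidAlgebra.coeff_zero, Finsupp.mapDomain_zero, Finsupp.mapDomain_zero]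
        show Finsupp.mapDomain _ (0 : ZG H).coeff = 0
        rw [MonoidAlgebra.coeff_zero, Finsupp.mapDomain_zero]
      | add a b ha hb =>
        rw [add_mul, hqadd, ha, hb, MonoidAlgebra.coeff_add, Finsupp.mapDomain_add,
          Finsupp.mapDomain_add]
      | single g k =>
        rw [el_eq, MonoidAlgebra.single_mul_single, mul_one, MonoidAlgebra.coeff_single,
          Finsupp.mapDomain_single, Finsupp.mapDomain_single]
        show Finsupp.mapDomain _ (Finsupp.single (g * s) k) = _
        rw [Finsupp.mapDomain_single]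
        rfl
    have hqP : ∀ a, Finsupp.mapDomain P (qB (a * el ℤ s)) = qB a := by
      intro a
      induction a using MonoidAlgebra.induction_linear with
      | zero =>
        rw [zero_mul]
        show Finsupp.mapDomain P (Finsupp.mapDomain _ (0 : ZG H).coeff) =
          Finsupp.mapDomain _ (0 : ZG H).coeff
        rw [MonoidAlgebra.coeff_zero, Finsupp.mapDomain_zero, Finsupp.mapDomain_zero]
      | add a b ha hb => rw [add_mul, hqadd, Finsupp.mapDomain_add, ha, hb, hqadd]
      | single g k =>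
        rw [el_eq, MonoidAlgebra.single_mul_single, mul_one]
        show Finsupp.mapDomain P (Finsupp.mapDomain _ (Finsupp.single (g * s) k)) =
          Finsupp.mapDomain _ (Finsupp.single g k)
        rw [Finsupp.mapDomain_single, Finsupp.mapDomain_single, Finsupp.mapDomain_single]
        congr 1
        show (QuotientGroup.mk (g * s * s⁻¹) : H ⧸ B) = _
        rw [mul_inv_cancel_right]
    have hq1 : qB (y 1 * el ℤ s) = qB (y 1) := by
      have h1 : y 1 * el ℤ s + y 0 * el ℤ x = y 1 + y 0 := by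
        rw [mul_sub, mul_sub, mul_one, mul_one] at hy1
        have h2 : y 1 * el ℤ s + y 0 * el ℤ x - (y 1 + y 0) = 0 := by
          rw [← hy1]
          abel
        exact sub_eq_zero.1 h2
      have h3 := congrArg qB h1
      rw [hqadd, hqadd, hqx] at h3
      exact add_right_cancel h3
    have hu0 : qB (y 1 * el ℤ s) = 0 := by
      apply eq_zero_of_height P ht hPht
      rw [hqP, hq1]
    have hY : Finsupp.mapDomain (fun g : H => (QuotientGroup.mk g : H ⧸ A)) (y 1).coeff = 0 := by
      apply Finsupp.mapDomain_injective hv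
      rw [← hqs, hu0, Finsupp.mapDomain_zero]
    obtain ⟨μ, hμ⟩ := Ideal.mem_span_singleton'.1 (mem_of_mapDomain (x ^ m) (y 1) hY)
    refine ⟨-μ, ?_⟩
    have hy2 : y - (-μ) • r0 ∈ Rel ℤ ![x, s] := sub_mem hy (Submodule.smul_mem _ _ hr0)
    have h1 : (y - (-μ) • r0) 1 = 0 := by
      show y 1 - (-μ) * (1 - el ℤ (x ^ m)) = 0
      rw [← hμ, neg_mul, mul_sub, mul_sub, mul_one]
      abel
    have h2 : (y - (-μ) • r0) 0 * (el ℤ x - 1) = 0 := by
      have h3 : ∑ i, (y - (-μ) • r0) i * (el ℤ (![x, s] i) - 1) = 0 := hy2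
      rw [Fin.sum_univ_two, h1, zero_mul, add_zero] at h3
      exact h3
    have h3 := eq_zero_of_mul x hB.inf _ h2
    apply Subtype.ext
    show y = (-μ) • r0
    rw [← sub_eq_zero]
    funext i
    fin_cases i
    · exact h3
    · exact h1
  · intro μ hμ
    have h1 : (μ • r0) 1 = 0 := by
      have h2 := congrArg Subtype.val hμ
      exact congrFun h2 1
    have h2 : μ * (1 - el ℤ (x ^ m)) = 0 := h1
    apply eq_zero_of_mul (x ^ m) hcinf μ
    rw [← neg_sub, mul_neg, h2, neg_zero]
  · intro ψ hψ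
    constructor
    · show ev ψ (el ℤ s - N) = _
      rw [map_sub, hN2 ψ hψ, ev_el]
    · show ev ψ (1 - el ℤ (x ^ m)) = 0
      rw [map_sub, map_one, ev_el, map_zpow, hψ, one_zpow, Units.val_one, sub_self]

end Pool.Agent.PDA
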