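import Pool.Agent.PDA.StD

/-!
# PDA: `PD_3`-groups contain no `BS(1,m)` with `|m| ≥ 2`
-/

set_option autoImplicit false

namespace Pool.Agent.PDA

open Pool.Agent.PDB

theorem thm_BSX (h1 : St_TOP) (h2 : St_WCH) (h3 : St_DUA) (h4 : St_CMP) (h5 : St_FU1)
    (h6 : St_FU2) (h7 : St_BSE) (h8 : St_BSG) (h9 : St_BSH) : St_BSX := by
  intro G _ hG H0 _ j hj π0 x0 s0 m hB0
  by_contra hm1
  have hm2 : 2 ≤ |m| := by push Not at hm1; omega
  obtain ⟨R⟩ := h1 G hG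
  obtain ⟨w, hw⟩ := h2 G R
  -- transport to the range
  let H : Subgroup G := j.range
  let e : H0 ≃* H := MonoidHom.ofInjective hj
  let π : H →* Multiplicative ℤ := π0.comp e.symm.toMonoidHom
  let x : H := e x0
  let s : H := e s0
  have hπ : ∀ g, π (e g) = π0 g := fun g => congrArg π0 (e.symm_apply_apply g)
  have hB : BSData H π x s m := by
    refine ⟨?_, ?_, ?_, ?_, ?_⟩
    · exact (hπ s0).trans hB0.pis
    · exact (hπ x0).trans hB0.pix
    · intro g hg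
      obtain ⟨n, i, hni⟩ := hB0.ker (e.symm g) hg
      refine ⟨n, i, ?_⟩
      have h10 := congrArg e hni
      rw [map_mul, map_mul, map_inv, map_pow, map_zpow, e.apply_symm_apply] at h10
      exact h10
    · intro n hn h10
      apply hB0.inf n hn
      apply e.injective
      rw [map_pow, map_one]
      exact h10
    · have h10 := congrArg e hB0.rel
      rw [map_mul, map_mul, map_inv, map_zpow] at h10
      exact h10
  have hmQ : (m : ℚ) ≠ 0 := by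
    intro h0
    have : m = 0 := by exact_mod_cast h0
    rw [this] at hm2
    simp at hm2
  let μ : ℚˣ := Units.mk0 (m : ℚ) hmQ
  let ψ : H →* ℚˣ := (zpowersHom ℚˣ μ).comp π
  have hψx : ψ x = 1 := by
    show zpowersHom ℚˣ μ (π x) = 1
    rw [hB.pix, map_one]
  have hψs : ψ s = μ := by
    show zpowersHom ℚˣ μ (π s) = μ
    rw [hB.pis, zpowersHom_apply]
    simp
  let wq : H →* ℚˣ := (Units.map (Int.castRingHom ℚ).toMonoidHom).comp (w.comp H.subtype)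
  have hwq : ∀ h : H, (wq h : ℚ) = ((w (h : G) : ℤ) : ℚ) := fun h => rfl
  have hwq2 : ∀ h : H, wq h * wq h = 1 := by
    intro h
    have : w (h : G) * w (h : G) = 1 := by
      rcases Int.units_eq_one_or (w (h : G)) with h | h
      · rw [h]; rfl
      · rw [h]; rfl
    apply Units.ext
    rw [Units.val_mul, hwq, ← Int.cast_mul, ← Units.val_mul, this]
    simp
  let χ : H →* ℚˣ := wq * ψ⁻¹
  have hχ : ∀ h, χ h = wq h * (ψ h)⁻¹ := fun h => rfl
  have hχ2 : ∀ h, χ⁻¹ h = (χ h)⁻¹ := fun h => rfl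
  have hψ2 : ∀ h, ψ⁻¹ h = (ψ h)⁻¹ := fun h => rfl
  have hc1 : ∀ h : H, (ψ h : ℚ) = ((w (h : G) : ℤ) : ℚ) * (χ h : ℚ)⁻¹ := by
    intro h
    rw [← hwq, ← Units.val_inv_eq_inv_val, ← Units.val_mul, hχ, mul_inv, inv_inv, ← mul_assoc,
      mul_inv_cancel, one_mul]
  have hc2 : ∀ h : H, (ψ⁻¹ h : ℚˣ) = wq h * (χ⁻¹ h)⁻¹ := by
    intro h
    rw [hψ2, hχ2, inv_inv, hχ, ← mul_assoc, hwq2, one_mul]
  have hc3 : ∀ h : H, ((ψ⁻¹ h : ℚˣ) : ℚ) = ((w (h : G) : ℤ) : ℚ) * ((χ⁻¹ h : ℚˣ) : ℚ)⁻¹ := by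
    intro h
    rw [← hwq, ← Units.val_inv_eq_inv_val, ← Units.val_mul, ← hc2]
  have hgen : Subgroup.closure (Set.range ![x, s]) = ⊤ := h8 H π x s m hB
  have hE1 : ¬ E2 ![x, s] ψ := by
    rw [h7 H π x s m hB ψ hψx, not_not, hψs]
    rfl
  have hFs : ¬ FsProp R H χ := by
    rw [← h3 G R H χ, h4 G R w hw H χ ψ hc1 2 ![x, s] hgen]
    exact hE1
  have hmabs : (0 : ℚ) < |(m : ℚ)| := abs_pos.2 hmQ
  have hmabs2 : (2 : ℚ) ≤ |(m : ℚ)| := by
    rw [← Int.cast_abs]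
    exact_mod_cast hm2
  have hwabs : ∀ h : H, |(wq h : ℚ)| = 1 := by
    intro h
    rw [hwq]
    rcases Int.units_eq_one_or (w (h : G)) with h | h
    · rw [h]; simp
    · rw [h]; simp
  have hχs : |(χ s : ℚ)| = 1 / |(m : ℚ)| := by
    rw [hχ, Units.val_mul, abs_mul, hwabs, one_mul, Units.val_inv_eq_inv_val, hψs, abs_inv,
      one_div]
    rfl
  have hH1 : H1Van χ := by
    refine h9 H π x s m hB hm2 χ ?_ hχs
    rw [hχ, hψx, inv_one, mul_one, hwq]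
    rcases Int.units_eq_one_or (w (x : G)) with h | h
    · left; rw [h]; simp
    · right; rw [h]; simp
  obtain ⟨F, hF1, hF2, hF3⟩ := h5 G R H χ hH1 hFs
  have hFs2 : ¬ FsProp R H χ⁻¹ := by
    refine h6 G R H χ⁻¹ ⟨s, ?_⟩ ⟨fun g => (F g)⁻¹, ?_, ?_, ?_⟩
    · intro h
      rw [hχ2, inv_eq_one] at h
      rw [h, Units.val_one, abs_one, eq_div_iff hmabs.ne', one_mul] at hχs
      rw [hχs] at hmabs2
      norm_num at hmabs2
    · intro h g
      show (F ((h : G) * g))⁻¹ = _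
      rw [hF1, mul_inv, hχ2, Units.val_inv_eq_inv_val]
    · intro t
      obtain ⟨E, hE⟩ := hF2 t
      refine ⟨E, fun g hg => hE g ?_⟩
      intro h
      apply hg
      show (F (g * t))⁻¹ = (F g)⁻¹
      rw [h]
    · rintro ⟨E, hE⟩
      exact hF3 ⟨E, fun g hg => hE g (inv_ne_zero hg)⟩
  rw [← h3 G R H χ⁻¹, h4 G R w hw H χ⁻¹ ψ⁻¹ hc3 2 ![x, s] hgen] at hFs2
  apply hFs2
  rw [h7 H π x s m hB ψ⁻¹ (by rw [hψ2, hψx, inv_one]), hψ2, hψs, Units.val_inv_eq_inv_val]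
  show (m : ℚ)⁻¹ ≠ m
  intro h
  have h10 : |(m : ℚ)|⁻¹ = |(m : ℚ)| := by rw [← abs_inv, h]
  have h11 : |(m : ℚ)|⁻¹ ≤ 2⁻¹ := inv_anti₀ (by norm_num) hmabs2
  rw [h10] at h11
  linarith

end Pool.Agent.PDA
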