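import Pool.Agent.PDA.StE

/-!
# [CLS] The class of stage 2
-/

set_option autoImplicit false
set_option linter.unusedVariables false

namespace Pool.Agent.PDA

open Pool.Agent.PDB

theorem cls_sub (h1 : St_INS) (h2 : St_FSB) (p : ℕ) [hp : Fact p.Prime] (S : Type) [Group S]
    (T : Subgroup S) (h : InPD3 S ∧ Folner S ∧ ResP S p) : InPD3 T ∧ Folner T ∧ ResP T p := by
  have hi : Function.Injective T.subtype := Subtype.val_injective
  obtain ⟨a1, a2, a3⟩ := h1 S T T.subtype hi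
  exact ⟨a1 h.1, h2 S T T.subtype hi h.2.1, a2 p hp.out h.2.2⟩

theorem cls_tor (h1 : St_INS) (h2 : St_FSB) (h6 : St_ST5) (p : ℕ) [hp : Fact p.Prime] (S : Type)
    [Group S] (h : InPD3 S ∧ Folner S ∧ ResP S p) : TorFree S := by
  intro c n hn hc
  by_contra hc1
  obtain ⟨b1, b2, b3⟩ := cls_sub h1 h2 p S (Subgroup.zpowers c) h
  let c' : Subgroup.zpowers c := ⟨c, Subgroup.mem_zpowers c⟩
  have hnt : Nontrivial (Subgroup.zpowers c) :=
    ⟨⟨c', 1, fun he => hc1 (congrArg Subtype.val he)⟩⟩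
  have hgen : Subgroup.closure (Set.range (fun _ : Fin 1 => c')) = ⊤ := by
    rw [eq_top_iff]
    rintro ⟨y, hy⟩ _
    obtain ⟨i, rfl⟩ := Subgroup.mem_zpowers_iff.1 hy
    have : (⟨c ^ i, hy⟩ : Subgroup.zpowers c) = c' ^ i := Subtype.ext rfl
    rw [this]
    have hmem : c' ∈ Subgroup.closure (Set.range (fun _ : Fin 1 => c')) :=
      Subgroup.subset_closure (Set.mem_range_self 0)
    exact Subgroup.zpow_mem _ hmem i
  have ht := (h6 (Subgroup.zpowers c) p b1 b2 b3 hnt 1 (fun _ => c') hgen).1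
  have h0 : c' = 1 := ht c' n hn (Subtype.ext hc)
  exact hc1 (congrArg Subtype.val h0)

theorem cls_family (S : Type) [Group S] (h : Group.FG S) :
    ∃ (d : ℕ) (x : Fin d → S), Subgroup.closure (Set.range x) = ⊤ := by
  obtain ⟨F, hF⟩ := h.out
  refine ⟨F.card, fun i => (F.equivFin.symm i : S), ?_⟩
  rw [← hF]
  congr 1
  ext y
  constructor
  · rintro ⟨i, rfl⟩
    exact (F.equivFin.symm i).2
  · intro hy
    exact ⟨F.equivFin ⟨y, hy⟩, by simp⟩

theorem cls_bs (h7 : St_BSX) (S : Type) [Group S] (π : S →* Multiplicative ℤ) (s x : S) (m : ℤ)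
    (hS : InPD3 S) (htor : TorFree S) (hs : π s = Multiplicative.ofAdd 1)
    (hker : ∀ g ∈ π.ker, ∃ n : ℕ, s ^ n * g * (s ^ n)⁻¹ ∈ Subgroup.zpowers x) (hx : x ≠ 1)
    (hrel : s * x * s⁻¹ = x ^ m) : m = 1 ∨ m = -1 := by
  have hm0 : m ≠ 0 := by
    rintro rfl
    rw [zpow_zero] at hrel
    apply hx
    have h : s * x = s := by rwa [mul_inv_eq_one] at hrel
    exact mul_eq_left.1 h
  by_cases hm1 : m = 1
  · exact Or.inl hm1
  · have hpx : π x = 1 := by
      have h := congrArg π hrel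
      rw [map_mul, map_mul, map_inv, map_zpow, mul_inv_eq_iff_eq_mul, mul_comm] at h
      have h' : π x = π x ^ m := mul_right_cancel h
      have h2 := congrArg Multiplicative.toAdd h'
      rw [toAdd_zpow, smul_eq_mul] at h2
      have h3 : (m - 1) * Multiplicative.toAdd (π x) = 0 := by linarith
      rcases mul_eq_zero.1 h3 with h4 | h4
      · exact absurd (by omega) hm1
      · exact Multiplicative.toAdd.injective h4
    have hd : BSData S π x s m := by
      refine ⟨hs, hpx, ?_, ?_, hrel⟩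
      · intro g hg
        obtain ⟨n, hn⟩ := hker g (MonoidHom.mem_ker.2 hg)
        obtain ⟨i, hi⟩ := Subgroup.mem_zpowers_iff.1 hn
        exact ⟨n, i, hi.symm⟩
      · intro n hn hxn
        exact hx (htor x n hn hxn)
    obtain ⟨G, hG, hPD, j, hj, -⟩ := hS
    have := h7 G hPD S j hj π x s m hd
    rw [abs_le] at this
    omega

theorem thm_CLS (h1 : St_INS) (h2 : St_FSB) (h3 : St_RPJ) (h4 : St_SEP) (h5 : St_FOL)
    (h6 : St_ST5) (h7 : St_BSX) : St_CLS := by
  intro p hp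
  refine ⟨?_, ?_, ?_, ?_, ?_, ?_, ?_, ?_, ?_⟩
  · intro S _ T h
    exact cls_sub h1 h2 p S T h
  · intro S _ h
    exact h3 S h.1
  · intro S _ h
    exact h.2.1
  · intro S _ h
    exact h4 S p h.2.2
  · intro S _ h
    exact h5 (ZMod p) S h.2.1
  · intro S _ h
    exact cls_tor h1 h2 h6 p S h
  · intro S _ h hfg hnt d x hx
    have hf := (h6 S p h.1 h.2.1 h.2.2 hnt d x hx).2.2.1
    exact hf.fg_top
  · intro S _ h hfg hnt
    obtain ⟨d, x, hx⟩ := cls_family S hfg
    exact (h6 S p h.1 h.2.1 h.2.2 hnt d x hx).2.2.2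
  · intro S _ π s x m h hs hker hx hrel
    exact cls_bs h7 S π s x m h.1 (cls_tor h1 h2 h6 p S h) hs hker hx hrel

end Pool.Agent.PDA
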