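import Pool.Agent.PDA.StD

/-!
# PDA: comparison of the dual complex with the relation module
-/

set_option autoImplicit false
set_option linter.unusedVariables false

namespace Pool.Agent.PDA

open Pool.Agent.PDB

namespace CMP

/-! ### characters -/

section conv

variable {S : Type} [Group S] (ψ : S →* ℚˣ)

theorem ev_single (g : S) (c : ℤ) : ev ψ (MonoidAlgebra.single g c) = (c : ℚ) * (ψ g : ℚ) := by
  show MonoidAlgebra.lift ℤ ℚ S ((Units.coeHom ℚ).comp ψ) (MonoidAlgebra.single g c) = _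
  rw [MonoidAlgebra.lift_single, zsmul_eq_mul]
  rfl

/-- `ℚ` with `s` acting by `ψ(s)` -/
def QQ (_ : S →* ℚˣ) : Type := ℚ

noncomputable instance : AddCommGroup (QQ ψ) := inferInstanceAs (AddCommGroup ℚ)

noncomputable instance : Module (ZG S) (QQ ψ) := Module.compHom ℚ (ev ψ)

variable {M : Type} [AddCommGroup M] [Module (ZG S) M]

theorem single_smul (g : S) (c : ℤ) (y : M) :
    (MonoidAlgebra.single g c : ZG S) • y = c • (el ℤ g • y) := by
  have h1 : (MonoidAlgebra.single g c : ZG S) = c • el ℤ g := by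
    show _ = c • MonoidAlgebra.single g (1 : ℤ)
    rw [MonoidAlgebra.smul_single, smul_eq_mul, mul_one]
  rw [h1, smul_assoc]

theorem map_smul_ev (φ : M →+ ℚ) (h : ∀ (s : S) (y : M), φ (el ℤ s • y) = (ψ s : ℚ) * φ y)
    (a : ZG S) (y : M) : φ (a • y) = ev ψ a * φ y := by
  induction a using MonoidAlgebra.induction_linear with
  | zero => simp
  | add a b ha hb => rw [add_smul, map_add, ha, hb, map_add, add_mul]
  | single g c => rw [single_smul, map_zsmul, h, ev_single, zsmul_eq_mul, mul_assoc]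

/-- an equivariant map is linear -/
noncomputable def mkLin (φ : M →+ ℚ) (h : ∀ (s : S) (y : M), φ (el ℤ s • y) = (ψ s : ℚ) * φ y) :
    M →ₗ[ZG S] QQ ψ where
  toFun y := φ y
  map_add' a b := map_add φ a b
  map_smul' a y := map_smul_ev ψ φ h a y

/-- the additive map of a linear map -/
noncomputable def toAdd (φ : M →ₗ[ZG S] QQ ψ) : M →+ ℚ where
  toFun y := φ y
  map_zero' := map_zero φ
  map_add' a b := map_add φ a b

theorem toAdd_el (φ : M →ₗ[ZG S] QQ ψ) (s : S) (y : M) :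
    toAdd ψ φ (el ℤ s • y) = (ψ s : ℚ) * toAdd ψ φ y := by
  have this : ev ψ (el ℤ s) = (ψ s : ℚ) := by
    show ev ψ (MonoidAlgebra.single s (1 : ℤ)) = _
    rw [ev_single, Int.cast_one, one_mul]
  have h1 : toAdd ψ φ (el ℤ s • y) = ev ψ (el ℤ s) * toAdd ψ φ y := by
    show φ (el ℤ s • y) = _
    rw [map_smul]
    rfl
  rw [h1, this]

theorem E2_iff {d : ℕ} (x : Fin d → S) : E2 x ψ ↔
    ∀ φ : LinearMap.ker (bd ℤ x) →ₗ[ZG S] QQ ψ,
      ∃ φ' : (Fin d → ZG S) →ₗ[ZG S] QQ ψ, ∀ y : LinearMap.ker (bd ℤ x), φ' y = φ y := by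
  constructor
  · intro h φ
    obtain ⟨φ', h1, h2⟩ := h (toAdd ψ φ) (toAdd_el ψ φ)
    exact ⟨mkLin ψ φ' h1, fun y => h2 y⟩
  · intro h φ hφ
    obtain ⟨φ', h1⟩ := h (mkLin ψ φ hφ)
    exact ⟨toAdd ψ φ', toAdd_el ψ φ', fun y => h1 y⟩

end conv

/-! ### the dual modules -/

section dual

variable {G : Type} [Group G] (w : G →* ℤˣ)

/-- `g ↦ w(g) g⁻¹` as a homomorphism to the opposite ring -/
noncomputable def T : ZG G →+* (ZG G)ᵐᵒᵖ :=
  (MonoidAlgebra.lift ℤ (ZG G)ᵐᵒᵖ G
    { toFun := fun g => MulOpposite.op ((w g : ℤ) • el ℤ g⁻¹)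
      map_one' := by
        rw [map_one, inv_one, Units.val_one, one_smul]
        rfl
      map_mul' := fun g h => by
        rw [← MulOpposite.op_mul, smul_mul_smul_comm, ← map_mul (MonoidAlgebra.of ℤ G),
          mul_inv_rev, map_mul w, mul_comm (w g), Units.val_mul] } ).toRingHom

theorem T_single (g : G) (c : ℤ) :
    T w (MonoidAlgebra.single g c) = MulOpposite.op (MonoidAlgebra.single g⁻¹ (c * (w g : ℤ))) := by
  show MonoidAlgebra.lift ℤ (ZG G)ᵐᵒᵖ G _ (MonoidAlgebra.single g c) = _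
  rw [MonoidAlgebra.lift_single]
  show c • MulOpposite.op ((w g : ℤ) • MonoidAlgebra.single g⁻¹ (1 : ℤ)) = _
  rw [← MulOpposite.op_smul, MonoidAlgebra.smul_single, MonoidAlgebra.smul_single, smul_eq_mul,
    smul_eq_mul, mul_one]

/-- the involution `g ↦ w(g) g⁻¹` -/
noncomputable def tau (a : ZG G) : ZG G := (T w a).unop

theorem tau_single (g : G) (c : ℤ) :
    tau w (MonoidAlgebra.single g c) = MonoidAlgebra.single g⁻¹ (c * (w g : ℤ)) := by
  unfold tau
  rw [T_single, MulOpposite.unop_op]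

theorem tau_add (a b : ZG G) : tau w (a + b) = tau w a + tau w b := by
  unfold tau
  rw [map_add, MulOpposite.unop_add]

theorem tau_zero : tau w (0 : ZG G) = 0 := by
  unfold tau
  rw [map_zero, MulOpposite.unop_zero]

theorem tau_mul (a b : ZG G) : tau w (a * b) = tau w b * tau w a := by
  unfold tau
  rw [map_mul, MulOpposite.unop_mul]

theorem tau_tau (a : ZG G) : tau w (tau w a) = a := by
  induction a using MonoidAlgebra.induction_linear with
  | zero => rw [tau_zero, tau_zero]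
  | add a b ha hb => rw [tau_add, tau_add, ha, hb]
  | single g c =>
    rw [tau_single, tau_single, inv_inv, map_inv, mul_assoc, ← Units.val_mul, mul_inv_cancel,
      Units.val_one, mul_one]

/-- `Hom(P, ℤ[G])` as a left module -/
def DD (w : G →* ℤˣ) (P : Type) [AddCommGroup P] [Module (ZG G) P] : Type := P →ₗ[ZG G] ZG G

variable (P : Type) [AddCommGroup P] [Module (ZG G) P]

noncomputable instance : AddCommGroup (DD w P) := inferInstanceAs (AddCommGroup (P →ₗ[ZG G] ZG G))

noncomputable instance : Module (ZG G) (DD w P) :=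
  Module.compHom (M := (P →ₗ[ZG G] ZG G)) (T w)

variable {P}

theorem DD_smul (a : ZG G) (f : DD w P) (x : P) :
    (show P →ₗ[ZG G] ZG G from (a • f : DD w P)) x = (show P →ₗ[ZG G] ZG G from f) x * tau w a :=
  rfl

/-- finite dual bases -/
theorem dual_basis' {Λ : Type} [Ring Λ] (P : Type) [AddCommGroup P] [Module Λ P]
    [Module.Finite Λ P] [Module.Projective Λ P] :
    ∃ (n : ℕ) (u : Fin n → P) (f : Fin n → (P →ₗ[Λ] Λ)), ∀ x, x = ∑ j, f j x • u j := by
  obtain ⟨n, φ, hφ⟩ := Module.Finite.exists_fin' Λ P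
  obtain ⟨s, hs⟩ := LinearMap.exists_rightInverse_of_surjective φ (LinearMap.range_eq_top.2 hφ)
  refine ⟨n, fun j => φ (Pi.single j 1), fun j => LinearMap.proj j ∘ₗ s, fun x => ?_⟩
  have h1 : φ (s x) = x := by
    have := congrArg (fun t => t x) hs
    simpa using this
  conv_lhs => rw [← h1]
  have h2 : s x = ∑ j, (s x j) • (Pi.single j (1 : Λ) : Fin n → Λ) := by
    funext i
    simp [Finset.sum_apply, Pi.single_apply]
  conv_lhs => rw [h2]
  rw [map_sum]
  simp

theorem DD_proj [Module.Finite (ZG G) P] [Module.Projective (ZG G) P] :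
    Module.Projective (ZG G) (DD w P) := by
  obtain ⟨n, u, f, huf⟩ := dual_basis' (Λ := ZG G) P
  let i : DD w P →ₗ[ZG G] (Fin n → ZG G) :=
    { toFun := fun g j => tau w ((show P →ₗ[ZG G] ZG G from g) (u j))
      map_add' := fun g h => by
        funext j
        exact tau_add w _ _
      map_smul' := fun a g => by
        funext j
        show tau w (_ * tau w a) = a * tau w _
        rw [tau_mul, tau_tau] }
  let r : (Fin n → ZG G) →ₗ[ZG G] DD w P :=
    { toFun := fun c => ∑ j, c j • (show DD w P from f j)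
      map_add' := fun c c' => by
        rw [← Finset.sum_add_distrib]
        exact Finset.sum_congr rfl fun j _ => add_smul _ _ _
      map_smul' := fun a c => by
        rw [RingHom.id_apply, Finset.smul_sum]
        exact Finset.sum_congr rfl fun j _ => mul_smul _ _ _ }
  refine Module.Projective.of_split i r ?_
  refine LinearMap.ext fun g => ?_
  refine LinearMap.ext (f := (show P →ₗ[ZG G] ZG G from r (i g))) fun x => ?_
  have h1 : (show P →ₗ[ZG G] ZG G from r (i g)) x =
      ∑ j, f j x * tau w (tau w ((show P →ₗ[ZG G] ZG G from g) (u j))) := by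
    show (show P →ₗ[ZG G] ZG G from (∑ j, (i g) j • (show DD w P from f j) : DD w P)) x = _
    have h2 : ∀ s : Finset (Fin n), (show P →ₗ[ZG G] ZG G from
        (∑ j ∈ s, (i g) j • (show DD w P from f j) : DD w P)) x =
        ∑ j ∈ s, f j x * tau w (tau w ((show P →ₗ[ZG G] ZG G from g) (u j))) := by
      classical
      intro s
      induction s using Finset.induction_on with
      | empty => rfl
      | insert a s ha ih =>
        rw [Finset.sum_insert ha, Finset.sum_insert ha, ← ih]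
        rfl
    exact h2 _
  rw [h1]
  show _ = (show P →ₗ[ZG G] ZG G from g) x
  conv_rhs => rw [huf x]
  rw [map_sum]
  refine Finset.sum_congr rfl fun j _ => ?_
  rw [tau_tau, map_smul, smul_eq_mul]

end dual

section sub

variable {G : Type} [Group G] (w : G →* ℤˣ) (H : Subgroup G)

/-- `Hom(P, ℤ[G])` as a left module over `ℤ[H]` -/
def DH (w : G →* ℤˣ) (H : Subgroup G) (P : Type) [AddCommGroup P] [Module (ZG G) P] : Type :=
  P →ₗ[ZG G] ZG G

variable (P : Type) [AddCommGroup P] [Module (ZG G) P]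

noncomputable instance : AddCommGroup (DH w H P) :=
  inferInstanceAs (AddCommGroup (P →ₗ[ZG G] ZG G))

noncomputable instance : Module (ZG G) (DH w H P) := inferInstanceAs (Module (ZG G) (DD w P))

noncomputable instance : Module (ZG H) (DH w H P) :=
  Module.compHom (DD w P) (res ℤ H)

theorem DH_proj (hF : St_FRE) [Module.Finite (ZG G) P] [Module.Projective (ZG G) P] :
    Module.Projective (ZG H) (DH w H P) :=
  hF ℤ H G H.subtype H.subtype_injective (DH w H P) (fun _ _ => rfl) (DD_proj w)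

variable {P}

/-- forget -/
def un (f : DH w H P) : P →ₗ[ZG G] ZG G := f

/-- inverse of `un` -/
def mk (f : P →ₗ[ZG G] ZG G) : DH w H P := f

theorem el_smul (h : H) (f : DH w H P) :
    un w H (el ℤ h • f) = (w (h : G) : ℤ) • rm (un w H f) (h : G)⁻¹ := by
  refine LinearMap.ext fun x => ?_
  show (un w H f) x * tau w (res ℤ H (MonoidAlgebra.single h (1 : ℤ))) =
    (w (h : G) : ℤ) • ((un w H f) x * el ℤ (h : G)⁻¹)
  have h1 : res ℤ H (MonoidAlgebra.single h (1 : ℤ)) = MonoidAlgebra.single (h : G) (1 : ℤ) := by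
    show MonoidAlgebra.mapDomainRingHom ℤ H.subtype (MonoidAlgebra.single h (1 : ℤ)) = _
    simp
  rw [h1, tau_single, one_mul, ← mul_smul_comm]
  congr 1
  show _ = (w (h : G) : ℤ) • MonoidAlgebra.single (h : G)⁻¹ (1 : ℤ)
  rw [MonoidAlgebra.smul_single, smul_eq_mul, mul_one]

/-- linear maps from additive maps commuting with the group elements -/
noncomputable def mkL {S M N : Type} [Group S] [AddCommGroup M] [AddCommGroup N]
    [Module (ZG S) M] [Module (ZG S) N] (φ : M →+ N)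
    (h : ∀ (s : S) (y : M), φ (el ℤ s • y) = el ℤ s • φ y) : M →ₗ[ZG S] N where
  toFun y := φ y
  map_add' a b := map_add φ a b
  map_smul' a y := by
    induction a using MonoidAlgebra.induction_linear with
    | zero => simp
    | add a b ha hb =>
      rw [add_smul, map_add, ha, hb, RingHom.id_apply, RingHom.id_apply, RingHom.id_apply, add_smul]
    | single g c => rw [single_smul, map_zsmul, h, RingHom.id_apply, single_smul]

variable {H}

/-- precomposition -/
noncomputable def pc {P Q : Type} [AddCommGroup P] [Module (ZG G) P] [AddCommGroup Q]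
    [Module (ZG G) Q] (δ : Q →ₗ[ZG G] P) : DH w H P →ₗ[ZG H] DH w H Q where
  toFun g := (g : P →ₗ[ZG G] ZG G) ∘ₗ δ
  map_add' _ _ := rfl
  map_smul' _ _ := rfl

theorem pc_apply {P Q : Type} [AddCommGroup P] [Module (ZG G) P] [AddCommGroup Q]
    [Module (ZG G) Q] (δ : Q →ₗ[ZG G] P) (g : DH w H P) :
    un w H (pc w δ g) = (un w H g) ∘ₗ δ := rfl

theorem w_sq (g : G) : (w g : ℤ) * (w g : ℤ) = 1 := by
  rw [← Units.val_mul, ← map_mul]
  rcases Int.units_eq_one_or (w g) with h | h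
  · rw [map_mul, h]; rfl
  · rw [map_mul, h]; rfl

theorem w_inv (g : G) : (w g⁻¹ : ℤ) = (w g : ℤ) := by
  rw [map_inv]
  rcases Int.units_eq_one_or (w g) with h | h
  · rw [h]; rfl
  · rw [h]; rfl

theorem rm_eq {P : Type} [AddCommGroup P] [Module (ZG G) P] (h : H) (f : DH w H P) :
    mk w H (rm (un w H f) (h : G)) = (w (h : G) : ℤ) • (el ℤ h⁻¹ • f) := by
  have h1 := el_smul w H h⁻¹ f
  have h2 : un w H ((w (h : G) : ℤ) • (el ℤ h⁻¹ • f)) =
      (w (h : G) : ℤ) • un w H (el ℤ h⁻¹ • f) := rfl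
  show _ = un w H ((w (h : G) : ℤ) • (el ℤ h⁻¹ • f))
  rw [h2, h1, smul_smul, Subgroup.coe_inv, inv_inv, w_inv, w_sq, one_smul]
  rfl

end sub

end CMP

open CMP in
theorem OmProp_iff (G : Type) [Group G] (R : Short G) (w : G →* ℤˣ) (H : Subgroup G)
    (χ ψ : H →* ℚˣ) (hψ : ∀ h : H, (ψ h : ℚ) = ((w (h : G) : ℤ) : ℚ) * (χ h : ℚ)⁻¹) :
    OmProp R H χ ↔ ∀ φ : LinearMap.ker (pc w (H := H) R.d3) →ₗ[ZG H] QQ ψ,
      ∃ φ' : DH w H R.P2 →ₗ[ZG H] QQ ψ, ∀ y : LinearMap.ker (pc w (H := H) R.d3), φ' y = φ y := by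
  have hwQ : ∀ g : G, ((w g : ℤ) : ℚ) * ((w g : ℤ) : ℚ) = 1 := fun g => by
    rw [← Int.cast_mul, w_sq, Int.cast_one]
  have hdd : ∀ f : R.P1 →ₗ[ZG G] ZG G, (f ∘ₗ R.d2) ∘ₗ R.d3 = 0 := by
    intro f
    ext x : 1
    show f (R.d2 (R.d3 x)) = 0
    rw [(R.ex2 _).2 ⟨x, rfl⟩, map_zero]
  have hdd1 : ∀ f : R.P0 →ₗ[ZG G] ZG G, (f ∘ₗ R.d1) ∘ₗ R.d2 = 0 := by
    intro f
    ext x : 1
    show f (R.d1 (R.d2 x)) = 0
    rw [(R.ex1 _).2 ⟨x, rfl⟩, map_zero]
  constructor
  · intro hO φ
    -- the cocycle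
    let j : (R.P1 →ₗ[ZG G] ZG G) → LinearMap.ker (pc w (H := H) R.d3) := fun f =>
      ⟨mk w H (f ∘ₗ R.d2), hdd f⟩
    have hj : ∀ (h : H) (f : R.P1 →ₗ[ZG G] ZG G),
        j (rm f (h : G)) = (w (h : G) : ℤ) • (el ℤ h⁻¹ • j f) := by
      intro h f
      apply Subtype.ext
      have := rm_eq w h (mk w H (f ∘ₗ R.d2))
      exact this
    obtain ⟨ω', h1, h2⟩ := hO
      { toFun := fun f => φ (j f)
        map_zero' := by
          have : j 0 = 0 := by
            apply Subtype.ext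
            exact LinearMap.zero_comp _
          rw [this, map_zero]
          rfl
        map_add' := fun f g => by
          have : j (f + g) = j f + j g := by
            apply Subtype.ext
            exact LinearMap.add_comp _ _ _
          rw [this, map_add]
          rfl }
      (fun h f => by
        show toAdd ψ φ (j (rm f (h : G))) = _ * toAdd ψ φ (j f)
        rw [hj, map_zsmul, toAdd_el, zsmul_eq_mul, ← mul_assoc, map_inv, Units.val_inv_eq_inv_val,
          hψ, mul_inv, inv_inv, ← mul_assoc, inv_eq_of_mul_eq_one_right (hwQ h), hwQ, one_mul])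
      (fun f => by
        have : j (f ∘ₗ R.d1) = 0 := by
          apply Subtype.ext
          exact hdd1 f
        show toAdd ψ φ (j (f ∘ₗ R.d1)) = 0
        rw [this, map_zero])
    refine ⟨mkLin (M := DH w H R.P2) ψ ω' ?_, ?_⟩
    · intro h f
      have h3 : (el ℤ h • f : DH w H R.P2) = (w (h : G) : ℤ) • mk w H (rm (un w H f) (h : G)⁻¹) :=
        el_smul w H h f
      rw [h3]
      have h4 : ω' ((w (h : G) : ℤ) • mk w H (rm (un w H f) (h : G)⁻¹)) =
          (w (h : G) : ℤ) • ω' (rm (un w H f) ((h⁻¹ : H) : G)) := map_zsmul ω' _ _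
      refine h4.trans ?_
      rw [h1 h⁻¹, zsmul_eq_mul, hψ, map_inv, Units.val_inv_eq_inv_val, mul_assoc]
      rfl
    · rintro ⟨y, hy⟩
      obtain ⟨g, hg⟩ := R.h2 y hy
      have h3 := h2 g
      have h4 : (⟨y, hy⟩ : LinearMap.ker (pc w (H := H) R.d3)) = j g := Subtype.ext hg
      rw [h4]
      exact h3.symm
  · intro hE ω hω1 hω2
    -- descend
    have hwell : ∀ g g' : R.P1 →ₗ[ZG G] ZG G, g ∘ₗ R.d2 = g' ∘ₗ R.d2 → ω g = ω g' := by
      intro g g' h
      obtain ⟨f, hf⟩ := R.h1 (g - g') (by rw [LinearMap.sub_comp, h, sub_self])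
      have h1 := hω2 f
      rw [← hf, map_sub, sub_eq_zero] at h1
      exact h1
    choose s hs using fun y : LinearMap.ker (pc w (H := H) R.d3) => R.h2 y.1 y.2
    have hs' : ∀ y, ∀ g : R.P1 →ₗ[ZG G] ZG G, un w H y.1 = g ∘ₗ R.d2 → ω (s y) = ω g := by
      intro y g hg
      apply hwell
      rw [← hs y]
      exact hg
    let φ0 : LinearMap.ker (pc w (H := H) R.d3) →+ ℚ :=
      { toFun := fun y => ω (s y)
        map_zero' := by
          rw [hs' 0 0 (by rw [LinearMap.zero_comp]; rfl), map_zero]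
        map_add' := fun a b => by
          rw [hs' (a + b) (s a + s b) ?_, map_add]
          rw [LinearMap.add_comp, ← hs a, ← hs b]
          rfl }
    obtain ⟨φ', hφ'⟩ := hE (mkLin ψ φ0 (by
      intro h y
      show ω (s (el ℤ h • y)) = _ * ω (s y)
      rw [hs' (el ℤ h • y) ((w (h : G) : ℤ) • rm (s y) ((h⁻¹ : H) : G)) ?_]
      · rw [map_zsmul, hω1 h⁻¹, zsmul_eq_mul, hψ, map_inv, Units.val_inv_eq_inv_val, mul_assoc]
      · have h3 := el_smul w H h y.1
        have h4 : un w H (el ℤ h • y).1 = (w (h : G) : ℤ) • rm (un w H y.1) (h : G)⁻¹ := h3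
        rw [h4]
        have h5 : un w H y.1 = s y ∘ₗ R.d2 := hs y
        rw [h5]
        rfl))
    refine ⟨toAdd (M := DH w H R.P2) ψ φ', ?_, ?_⟩
    · intro h f
      have h3 : (rm f (h : G) : R.P2 →ₗ[ZG G] ZG G) =
          un w H ((w (h : G) : ℤ) • (el ℤ h⁻¹ • mk w H f)) := rm_eq w h (mk w H f)
      have h4 : toAdd ψ φ' ((w (h : G) : ℤ) • (el ℤ h⁻¹ • mk w H f)) =
          (χ h : ℚ) * toAdd ψ φ' (mk w H f) := by
        rw [map_zsmul, toAdd_el, zsmul_eq_mul, ← mul_assoc, map_inv, Units.val_inv_eq_inv_val,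
          hψ, mul_inv, inv_inv, ← mul_assoc, inv_eq_of_mul_eq_one_right (hwQ h), hwQ, one_mul]
      rw [h3]
      exact h4
    · intro f
      have h3 := hφ' ⟨mk w H (f ∘ₗ R.d2), hdd f⟩
      have h4 : ω (s ⟨mk w H (f ∘ₗ R.d2), hdd f⟩) = ω f := hs' _ f rfl
      rw [← h4]
      exact h3.symm

open CMP in
theorem thm_CMP (hF : St_FRE) (hE : St_EX2) (hB : St_BDR) : St_CMP := by
  intro G _ R w hw H χ ψ hψ d x hx
  rw [OmProp_iff G R w H χ ψ hψ, E2_iff]
  have := DH_proj w H R.P3 hF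
  have := DH_proj w H R.P2 hF
  let e : DH w H R.P3 →ₗ[ZG H] Tr ℤ H := mkL (S := H) (M := DH w H R.P3) (N := Tr ℤ H) R.θ (by
    intro h f
    have h3 : (el ℤ h • f : DH w H R.P3) = (w (h : G) : ℤ) • mk w H (rm (un w H f) (h : G)⁻¹) :=
      el_smul w H h f
    rw [h3]
    have h4 : R.θ ((w (h : G) : ℤ) • mk w H (rm (un w H f) (h : G)⁻¹)) =
        (w (h : G) : ℤ) • R.θ (rm (un w H f) (h : G)⁻¹) := map_zsmul R.θ _ _
    refine h4.trans ?_
    rw [hw, w_inv, smul_eq_mul, ← mul_assoc, w_sq, one_mul]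
    show _ = aug ℤ H (el ℤ h) * R.θ f
    have h5 : aug ℤ H (el ℤ h) = 1 := by
      unfold aug
      rw [MonoidAlgebra.lift_of]
      rfl
    rw [h5, one_mul]
    rfl)
  let e' : ZG H →ₗ[ZG H] Tr ℤ H :=
    { toFun := fun a => (aug ℤ H a : ℤ)
      map_add' := fun a b => map_add _ a b
      map_smul' := fun a b => map_mul (aug ℤ H) a b }
  have he : Function.Surjective e := R.θ_surj
  have he' : Function.Surjective e' := by
    intro c
    refine ⟨algebraMap ℤ (ZG H) c, ?_⟩
    exact AlgHom.commutes (aug ℤ H) c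
  have hr : LinearMap.range (pc w (H := H) R.d3) = LinearMap.ker e := by
    ext f
    constructor
    · rintro ⟨g, hg⟩
      exact (R.θ_ker f).2 ⟨g, hg.symm⟩
    · intro hf
      obtain ⟨g, hg⟩ := (R.θ_ker f).1 hf
      exact ⟨g, hg.symm⟩
  have hr' : LinearMap.range (bd ℤ x) = LinearMap.ker e' := by
    ext a
    exact (hB ℤ H d x hx a).symm
  constructor
  · intro h
    exact hE (ZG H) (Tr ℤ H) (DH w H R.P3) (DH w H R.P2) (ZG H) (Fin d → ZG H) (QQ ψ) e
      (pc w (H := H) R.d3) e' (bd ℤ x) he he' hr hr' h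
  · intro h
    exact hE (ZG H) (Tr ℤ H) (ZG H) (Fin d → ZG H) (DH w H R.P3) (DH w H R.P2) (QQ ψ) e'
      (bd ℤ x) e (pc w (H := H) R.d3) he' he hr' hr h

end Pool.Agent.PDA
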