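import Pool.Agent.PDA.StF

/-!
# PDA / CXY: the elements `c(x,y)`
-/

set_option autoImplicit false
set_option linter.unusedVariables false

namespace Pool.Agent.PDA

open Pool.Agent.PDB Subgroup

namespace CXY

variable {S : Type} [Group S] {d : ℕ} {z : Fin d → S} {e : S → Fin d → ZG S}

theorem el_mul (x y : S) : el ℤ x * el ℤ y = el ℤ (x * y) := (map_mul _ _ _).symm

theorem mem_IM (K : Subgroup S) {x : S} (hx : x ∈ K) {w : Fin d → ZG S} (hw : w ∈ Rel ℤ z) :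
    (el ℤ x - 1) • w ∈ IM K (Rel ℤ z) :=
  AddSubgroup.subset_closure ⟨x, hx, w, hw, rfl⟩

theorem rel_sub {f g : Fin d → ZG S} (h : bd ℤ z f = bd ℤ z g) : f - g ∈ Rel ℤ z := by
  show f - g ∈ LinearMap.ker (bd ℤ z)
  rw [LinearMap.mem_ker, map_sub, h, sub_self]

/-- replacement of the lifts -/
theorem repl (he : ∀ g, bd ℤ z (e g) = el ℤ g - 1) (K : Subgroup S) {x y : S} (hx : x ∈ K)
    (hy : y ∈ K) {f g : Fin d → ZG S} (hf : bd ℤ z f = el ℤ x - 1) (hg : bd ℤ z g = el ℤ y - 1) :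
    ((el ℤ x - 1) • g - (el ℤ y - 1) • f) - cc e x y ∈ IM K (Rel ℤ z) := by
  have h1 : ((el ℤ x - 1) • g - (el ℤ y - 1) • f) - cc e x y =
      (el ℤ x - 1) • (g - e y) - (el ℤ y - 1) • (f - e x) := by
    unfold cc
    rw [smul_sub, smul_sub]
    abel
  rw [h1]
  exact AddSubgroup.sub_mem _ (mem_IM K hx (rel_sub (hg.trans (he y).symm)))
    (mem_IM K hy (rel_sub (hf.trans (he x).symm)))

theorem cc_mem (he : ∀ g, bd ℤ z (e g) = el ℤ g - 1) {x y : S} (hxy : x * y = y * x) :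
    cc e x y ∈ Rel ℤ z := by
  show cc e x y ∈ LinearMap.ker (bd ℤ z)
  unfold cc
  rw [LinearMap.mem_ker, map_sub, map_smul, map_smul, he, he, smul_eq_mul, smul_eq_mul]
  have h1 : (el ℤ x - 1) * (el ℤ y - 1) = el ℤ (x * y) - el ℤ x - el ℤ y + 1 := by
    rw [← el_mul]; noncomm_ring
  have h2 : (el ℤ y - 1) * (el ℤ x - 1) = el ℤ (y * x) - el ℤ x - el ℤ y + 1 := by
    rw [← el_mul]; noncomm_ring
  rw [h1, h2, hxy, sub_self]

theorem cc_mul (he : ∀ g, bd ℤ z (e g) = el ℤ g - 1) (K : Subgroup S)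
    (hK : ∀ x ∈ K, ∀ y ∈ K, x * y = y * x) {x x' y : S} (hx : x ∈ K) (hx' : x' ∈ K) (hy : y ∈ K) :
    cc e x y + cc e x' y - cc e (x * x') y ∈ IM K (Rel ℤ z) := by
  have hf : bd ℤ z (e x + el ℤ x • e x') = el ℤ (x * x') - 1 := by
    rw [map_add, map_smul, he, he, smul_eq_mul, ← el_mul]
    noncomm_ring
  have h1 := repl he K (K.mul_mem hx hx') hy hf (he y)
  have h2 : (el ℤ (x * x') - 1) • e y - (el ℤ y - 1) • (e x + el ℤ x • e x') =
      cc e x y + el ℤ x • cc e x' y := by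
    unfold cc
    have h3 : el ℤ (x * x') - 1 = (el ℤ x - 1) + el ℤ x * (el ℤ x' - 1) := by
      rw [← el_mul]; noncomm_ring
    have h4 : (el ℤ y - 1) * el ℤ x = el ℤ x * (el ℤ y - 1) := by
      rw [sub_mul, mul_sub, el_mul, el_mul, hK y hy x hx, one_mul, mul_one]
    rw [h3, add_smul, smul_add, smul_sub, mul_smul, ← mul_smul (el ℤ y - 1) (el ℤ x), h4, mul_smul]
    abel
  have h3 := mem_IM (z := z) K hx (cc_mem he (hK x' hx' y hy))
  rw [h2] at h1
  have h4 : cc e x y + cc e x' y - cc e (x * x') y =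
      (cc e x y + el ℤ x • cc e x' y - cc e (x * x') y) - (el ℤ x - 1) • cc e x' y := by
    rw [sub_smul, one_smul]
    abel
  rw [h4]
  exact AddSubgroup.sub_mem _ h1 h3

theorem cc_conj (he : ∀ g, bd ℤ z (e g) = el ℤ g - 1) (K : Subgroup S)
    (hK : ∀ x ∈ K, ∀ y ∈ K, x * y = y * x) {s x y : S}
    (hx : s * x * s⁻¹ ∈ K) (hy : s * y * s⁻¹ ∈ K) :
    el ℤ s • cc e x y - cc e (s * x * s⁻¹) (s * y * s⁻¹) ∈ IM K (Rel ℤ z) := by
  set x' := s * x * s⁻¹ with hx'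
  set y' := s * y * s⁻¹ with hy'
  have hcx : (el ℤ x' - 1) * el ℤ s = el ℤ s * (el ℤ x - 1) := by
    rw [sub_mul, mul_sub, el_mul, el_mul, one_mul, mul_one, hx', inv_mul_cancel_right]
  have hcy : (el ℤ y' - 1) * el ℤ s = el ℤ s * (el ℤ y - 1) := by
    rw [sub_mul, mul_sub, el_mul, el_mul, one_mul, mul_one, hy', inv_mul_cancel_right]
  have hf : bd ℤ z (el ℤ s • e x - (el ℤ x' - 1) • e s) = el ℤ x' - 1 := by
    rw [map_sub, map_smul, map_smul, he, he, smul_eq_mul, smul_eq_mul, ← hcx]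
    noncomm_ring
  have hg : bd ℤ z (el ℤ s • e y - (el ℤ y' - 1) • e s) = el ℤ y' - 1 := by
    rw [map_sub, map_smul, map_smul, he, he, smul_eq_mul, smul_eq_mul, ← hcy]
    noncomm_ring
  have h1 := repl he K hx hy hf hg
  have h2 : (el ℤ x' - 1) • (el ℤ s • e y - (el ℤ y' - 1) • e s) -
      (el ℤ y' - 1) • (el ℤ s • e x - (el ℤ x' - 1) • e s) = el ℤ s • cc e x y := by
    have h3 : (el ℤ x' - 1) * (el ℤ y' - 1) = (el ℤ y' - 1) * (el ℤ x' - 1) := by
      have h4 : x' * y' = y' * x' := hK x' hx y' hy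
      have h5 : el ℤ x' * el ℤ y' = el ℤ y' * el ℤ x' := by rw [el_mul, el_mul, h4]
      rw [sub_mul, mul_sub, mul_sub, sub_mul, mul_sub, mul_sub, h5]
      simp only [one_mul, mul_one]
      abel
    have e1 : (el ℤ x' - 1) • (el ℤ s • e y - (el ℤ y' - 1) • e s) =
        el ℤ s • ((el ℤ x - 1) • e y) - ((el ℤ x' - 1) * (el ℤ y' - 1)) • e s := by
      rw [smul_sub, ← mul_smul, ← mul_smul, hcx, mul_smul]
    have e2 : (el ℤ y' - 1) • (el ℤ s • e x - (el ℤ x' - 1) • e s) =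
        el ℤ s • ((el ℤ y - 1) • e x) - ((el ℤ y' - 1) * (el ℤ x' - 1)) • e s := by
      rw [smul_sub, ← mul_smul, ← mul_smul, hcy, mul_smul]
    unfold cc
    rw [e1, e2, h3, smul_sub (el ℤ s)]
    abel
  rw [h2] at h1
  exact h1

end CXY

open CXY in
theorem thm_CXY (hI : Pool.Agent.PDB.St_IMS) : St_CXY := by
  intro S _ d z e he K hK
  refine ⟨fun x hx y hy => cc_mem he (hK x hx y hy), ?_⟩
  intro s hs x hx y hy a b c d' hsx hsy
  set T := IM K (Rel ℤ z) with hT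
  let C : S → S → ((Fin d → ZG S) ⧸ T) := fun x y => ((cc e x y : Fin d → ZG S) : (Fin d → ZG S) ⧸ T)
  have hCmul : ∀ x ∈ K, ∀ x' ∈ K, ∀ y ∈ K, C (x * x') y = C x y + C x' y := by
    intro x hx x' hx' y hy
    have h1 := cc_mul he K hK hx hx' hy
    have h2 : ((cc e x y + cc e x' y : Fin d → ZG S) : (Fin d → ZG S) ⧸ T) =
        ((cc e (x * x') y : Fin d → ZG S) : (Fin d → ZG S) ⧸ T) :=
      (QuotientAddGroup.eq_iff_sub_mem).2 h1
    exact h2.symm
  have hself : ∀ x, C x x = 0 := by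
    intro x
    show ((cc e x x : Fin d → ZG S) : (Fin d → ZG S) ⧸ T) = 0
    have h1 : cc e x x = 0 := by unfold cc; rw [sub_self]
    rw [h1]
    rfl
  have hanti : ∀ x y, C y x = - C x y := by
    intro x y
    show ((cc e y x : Fin d → ZG S) : (Fin d → ZG S) ⧸ T) = - ((cc e x y : Fin d → ZG S) : (Fin d → ZG S) ⧸ T)
    have h1 : cc e y x = - cc e x y := by unfold cc; rw [neg_sub]
    rw [h1]
    rfl
  -- powers
  have hlin : ∀ x ∈ K, ∀ y ∈ K, ∀ w ∈ K, ∀ a b : ℤ, C (x ^ a * y ^ b) w = a • C x w + b • C y w := by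
    intro x hx y hy w hw a b
    let φ : K →* Multiplicative ((Fin d → ZG S) ⧸ T) := MonoidHom.mk'
      (fun u => Multiplicative.ofAdd (C (u : S) w)) (fun u v => by
        show Multiplicative.ofAdd (C ((u : S) * v) w) = _
        rw [hCmul u u.2 v v.2 w hw]
        rfl)
    have h1 : φ ((⟨x, hx⟩ : K) ^ a * (⟨y, hy⟩ : K) ^ b) = φ ⟨x, hx⟩ ^ a * φ ⟨y, hy⟩ ^ b := by
      rw [map_mul, map_zpow, map_zpow]
    exact h1
  have hdet : C (x ^ a * y ^ b) (x ^ c * y ^ d') = (a * d' - b * c) • C x y := by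
    have hw : x ^ c * y ^ d' ∈ K := K.mul_mem (K.zpow_mem hx c) (K.zpow_mem hy d')
    rw [hlin x hx y hy _ hw, hanti (x ^ c * y ^ d') x, hanti (x ^ c * y ^ d') y,
      hlin x hx y hy x hx, hlin x hx y hy y hy, hself, hself, hanti x y]
    module
  have hconj : ((el ℤ s • cc e x y : Fin d → ZG S) : (Fin d → ZG S) ⧸ T) =
      C (s * x * s⁻¹) (s * y * s⁻¹) :=
    (QuotientAddGroup.eq_iff_sub_mem).2 (cc_conj he K hK (hs x hx) (hs y hy))
  rw [hsx, hsy, hdet] at hconj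
  exact (QuotientAddGroup.eq_iff_sub_mem).1 hconj

end Pool.Agent.PDA
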