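import Pool.Agent.PDA.StF

/-!
# [FG1] Finitely generated modules over `k[G]` are finitely generated over `k[S]`
-/

set_option autoImplicit false

namespace Pool.Agent.PDA

open Pool.Agent.PDB Subgroup

theorem thm_FG1 : St_FG1 := by
  classical
  intro k S G _ _ _ j hj hidx M _ _ _ hcomp hfin
  have hfi : j.range.FiniteIndex := ⟨hidx⟩
  have hfq : Finite (G ⧸ j.range) := Subgroup.finite_quotient_of_finiteIndex
  have hft := Fintype.ofFinite (G ⧸ j.range)
  obtain ⟨s, hs⟩ := hfin.fg_top
  set T : Finset G := (Finset.univ : Finset (G ⧸ j.range)).image (fun q => (q.out)⁻¹) with hT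
  have hcov : ∀ g : G, ∃ u : S, ∃ τ ∈ T, g = j u * τ := by
    intro g
    have h1 : ((QuotientGroup.mk g⁻¹ : G ⧸ j.range).out)⁻¹ * g⁻¹ ∈ j.range := by
      rw [← QuotientGroup.eq]
      exact QuotientGroup.out_eq' _
    obtain ⟨u, hu⟩ := h1
    refine ⟨u⁻¹, ((QuotientGroup.mk g⁻¹ : G ⧸ j.range).out)⁻¹,
      Finset.mem_image_of_mem _ (Finset.mem_univ _), ?_⟩
    rw [map_inv, hu]
    group
  set W : Finset M := Finset.image₂ (fun τ m => (MonoidAlgebra.single τ (1 : k)) • m) T s with hW
  set N : Submodule (MonoidAlgebra k S) M := Submodule.span (MonoidAlgebra k S) (W : Set M)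
    with hN
  have hgen : ∀ (a : MonoidAlgebra k G), ∀ m ∈ s, a • m ∈ N := by
    intro a m hm
    induction a using MonoidAlgebra.induction_linear with
    | zero =>
      rw [zero_smul]
      exact zero_mem _
    | add f g hf hg =>
      rw [add_smul]
      exact add_mem hf hg
    | single g c =>
      obtain ⟨u, τ, hτ, rfl⟩ := hcov g
      have h1 : MonoidAlgebra.single (j u * τ) c =
          MonoidAlgebra.mapDomainRingHom k j (MonoidAlgebra.single u c) *
            MonoidAlgebra.single τ (1 : k) := by
        have h2 : MonoidAlgebra.mapDomainRingHom k j (MonoidAlgebra.single u c) =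
            MonoidAlgebra.single (j u) c := MonoidAlgebra.mapDomain_single
        rw [h2, MonoidAlgebra.single_mul_single, mul_one]
      rw [h1, mul_smul, ← hcomp]
      exact Submodule.smul_mem _ _ (Submodule.subset_span
        (Finset.mem_coe.2 (Finset.mem_image₂_of_mem hτ hm)))
  have hall : ∀ x : M, ∀ a : MonoidAlgebra k G, a • x ∈ N := by
    intro x
    have hx : x ∈ Submodule.span (MonoidAlgebra k G) (s : Set M) := by
      rw [hs]
      exact Submodule.mem_top
    induction hx using Submodule.span_induction with
    | mem m hm => exact fun a => hgen a m hm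
    | zero =>
      intro a
      rw [smul_zero]
      exact zero_mem _
    | add y z _ _ hy hz =>
      intro a
      rw [smul_add]
      exact add_mem (hy a) (hz a)
    | smul b y _ hy =>
      intro a
      rw [← mul_smul]
      exact hy _
  refine ⟨⟨W, ?_⟩⟩
  rw [eq_top_iff]
  intro x _
  have := hall x 1
  rwa [one_smul] at this

end Pool.Agent.PDA
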