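import Pool.Agent.PDA.StF

/-!
# PDA: FG2, relation modules of subgroups of finite index are finitely generated over `ℤ[S]`
-/

set_option autoImplicit false

namespace Pool.Agent.PDA

open Pool.Agent.PDB

section

variable {G S : Type} [Group G] [Group S] (j : S →* G)

private lemma FG2_single {M : Type} [AddCommGroup M] [Module (ZG G) M] (s : S) (n : ℤ) (x : M) :
    MonoidAlgebra.mapDomainRingHom ℤ j (MonoidAlgebra.single s n) • x =
      n • (el ℤ (j s) • x) := by
  have h1 : MonoidAlgebra.mapDomainRingHom ℤ j (MonoidAlgebra.single s n) =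
      n • el ℤ (j s) := by
    rw [MonoidAlgebra.mapDomainRingHom_apply, MonoidAlgebra.mapDomain_single, el,
      MonoidAlgebra.of_apply, MonoidAlgebra.smul_single, smul_eq_mul, mul_one]
  rw [h1, smul_assoc]

end

theorem thm_FG2 (h1 : St_FG1) (hF : St_FRE) (hH : St_HOM) (hB : St_BDR) : St_FG2 := by
  intro G _ R S _ j hj hidx d x hx
  let m0 : Module (MonoidAlgebra ℤ S) R.P0 :=
    Module.compHom R.P0 (MonoidAlgebra.mapDomainRingHom ℤ j)
  let m1 : Module (MonoidAlgebra ℤ S) R.P1 :=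
    Module.compHom R.P1 (MonoidAlgebra.mapDomainRingHom ℤ j)
  let m2 : Module (MonoidAlgebra ℤ S) R.P2 :=
    Module.compHom R.P2 (MonoidAlgebra.mapDomainRingHom ℤ j)
  have s0 : ∀ (a : MonoidAlgebra ℤ S) (y : R.P0),
      a • y = MonoidAlgebra.mapDomainRingHom ℤ j a • y := fun _ _ => rfl
  have s1 : ∀ (a : MonoidAlgebra ℤ S) (y : R.P1),
      a • y = MonoidAlgebra.mapDomainRingHom ℤ j a • y := fun _ _ => rfl
  have s2 : ∀ (a : MonoidAlgebra ℤ S) (y : R.P2),
      a • y = MonoidAlgebra.mapDomainRingHom ℤ j a • y := fun _ _ => rfl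
  have p0 : Module.Projective (MonoidAlgebra ℤ S) R.P0 := hF ℤ S G j hj R.P0 s0 R.p0
  have p1 : Module.Projective (MonoidAlgebra ℤ S) R.P1 := hF ℤ S G j hj R.P1 s1 R.p1
  have f2 : Module.Finite (MonoidAlgebra ℤ S) R.P2 := h1 ℤ S G j hj hidx R.P2 s2 R.f2
  -- the boundary maps
  obtain ⟨d1, hd1⟩ : ∃ d1 : R.P1 →ₗ[MonoidAlgebra ℤ S] R.P0, ∀ y, d1 y = R.d1 y :=
    ⟨{ toFun := fun y => R.d1 y
       map_add' := fun y z => map_add R.d1 y z
       map_smul' := fun a y => by
        rw [RingHom.id_apply, s1, s0, map_smul] }, fun _ => rfl⟩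
  obtain ⟨d2, hd2⟩ : ∃ d2 : R.P2 →ₗ[MonoidAlgebra ℤ S] R.P1, ∀ y, d2 y = R.d2 y :=
    ⟨{ toFun := fun y => R.d2 y
       map_add' := fun y z => map_add R.d2 y z
       map_smul' := fun a y => by
        rw [RingHom.id_apply, s2, s1, map_smul] }, fun _ => rfl⟩
  -- the augmentations
  obtain ⟨e, he⟩ : ∃ e : R.P0 →ₗ[MonoidAlgebra ℤ S] Tr ℤ S, ∀ y, e y = (R.e y : ℤ) :=
    ⟨{ toFun := fun y => (R.e y : ℤ)
       map_add' := fun y y' => map_add R.e y y'
       map_smul' := fun a y => by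
        rw [RingHom.id_apply, s0]
        show (R.e (MonoidAlgebra.mapDomainRingHom ℤ j a • y) : ℤ) = aug ℤ S a * R.e y
        induction a using MonoidAlgebra.induction_linear with
        | zero => rw [map_zero, zero_smul, map_zero, map_zero, zero_mul]
        | add a b ha hb => rw [map_add, add_smul, map_add, ha, hb, map_add, add_mul]
        | single s n =>
          rw [FG2_single, map_zsmul, R.e_smul, aug, MonoidAlgebra.lift_single]
          simp }, fun _ => rfl⟩
  obtain ⟨e', he'⟩ : ∃ e' : MonoidAlgebra ℤ S →ₗ[MonoidAlgebra ℤ S] Tr ℤ S,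
      ∀ y, e' y = (aug ℤ S y : ℤ) :=
    ⟨{ toFun := fun y => (aug ℤ S y : ℤ)
       map_add' := fun y y' => map_add (aug ℤ S) y y'
       map_smul' := fun a y => by
        rw [RingHom.id_apply, smul_eq_mul]
        exact map_mul (aug ℤ S) a y }, fun _ => rfl⟩
  have hes : Function.Surjective e := by
    intro n
    obtain ⟨y, hy⟩ := R.e_surj n
    exact ⟨y, by rw [he]; exact hy⟩
  have hes' : Function.Surjective e' := by
    intro n
    refine ⟨algebraMap ℤ (MonoidAlgebra ℤ S) n, ?_⟩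
    rw [he']
    exact (aug ℤ S).commutes n
  have hr : LinearMap.range d1 = LinearMap.ker e := by
    ext y
    rw [LinearMap.mem_range, LinearMap.mem_ker, he]
    constructor
    · rintro ⟨w, rfl⟩
      rw [hd1]
      exact (R.ex0 _).2 ⟨w, rfl⟩
    · intro h
      obtain ⟨w, hw⟩ := (R.ex0 y).1 h
      exact ⟨w, by rw [hd1]; exact hw⟩
  have hr' : LinearMap.range (bd ℤ x) = LinearMap.ker e' := by
    refine Submodule.ext fun y => ?_
    rw [LinearMap.mem_range, LinearMap.mem_ker, he']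
    exact (hB ℤ S d x hx y).symm
  obtain ⟨α, β, γ, hα, hβ, hγ, hαβ⟩ := hH (MonoidAlgebra ℤ S) (Tr ℤ S) R.P0 R.P1
    (MonoidAlgebra ℤ S) (Fin d → MonoidAlgebra ℤ S) e d1 e' (bd ℤ x) hes hes' hr hr'
  -- the kernel is the sum of two finitely generated submodules
  have hsum : Rel ℤ x = LinearMap.range (β ∘ₗ d2) ⊔ LinearMap.range γ := by
    apply le_antisymm
    · intro y hy
      have hy' : bd ℤ x y = 0 := hy
      have h3 := hα y hy'
      rw [hd1] at h3
      obtain ⟨z, hz⟩ := (R.ex1 _).1 h3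
      rw [← hαβ y hy', sub_eq_add_neg]
      refine Submodule.add_mem_sup ⟨z, ?_⟩ (Submodule.neg_mem _ ⟨y, rfl⟩)
      rw [LinearMap.comp_apply, hd2, hz]
    · refine sup_le ?_ ?_
      · rintro _ ⟨z, rfl⟩
        refine hβ _ ?_
        rw [hd1, hd2]
        exact (R.ex1 _).2 ⟨z, rfl⟩
      · rintro _ ⟨z, rfl⟩
        exact hγ z
  rw [Submodule.fg_top, hsum]
  refine Submodule.FG.sup ?_ ?_
  · rw [LinearMap.range_eq_map]
    exact f2.fg_top.map _
  · rw [LinearMap.range_eq_map]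
    exact (Module.Finite.fg_top (R := MonoidAlgebra ℤ S) (M := Fin d → MonoidAlgebra ℤ S)).map _

end Pool.Agent.PDA
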