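import Pool.Agent.PDA.StF

/-!
# PDA, FG3: base change of finite generation of the relation module
-/

set_option autoImplicit false
set_option linter.unusedVariables false

namespace Pool.Agent.PDA

open Pool.Agent.PDB

section aux

/-- the basis vector `g e_i` -/
private noncomputable def FG3_E (k : Type) {S : Type} [CommRing k] [Group S] {d : ℕ} (i : Fin d)
    (g : S) : Fin d → MonoidAlgebra k S :=
  Pi.single i (MonoidAlgebra.single g 1)

private lemma FG3_ext {k S : Type} [CommRing k] [Group S] {d : ℕ} {M : Type} [AddCommGroup M]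
    [Module k M] {f g : (Fin d → MonoidAlgebra k S) →ₗ[k] M}
    (h : ∀ i s, f (FG3_E k i s) = g (FG3_E k i s)) : f = g :=
  LinearMap.pi_ext' (fun i => MonoidAlgebra.lhom_ext' (fun s => LinearMap.ext_ring (h i s)))

/-- the linear map with given values on the `g e_i` -/
private noncomputable def FG3_L (k : Type) {S : Type} [CommRing k] [Group S] {d : ℕ} {M : Type}
    [AddCommGroup M] [Module k M] (F : Fin d → S → M) : (Fin d → MonoidAlgebra k S) →ₗ[k] M :=
  LinearMap.lsum k (fun _ => MonoidAlgebra k S) k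
    (fun i => (MonoidAlgebra.basis S k).constr k (F i))

private lemma FG3_L_E (k : Type) {S : Type} [CommRing k] [Group S] {d : ℕ} {M : Type}
    [AddCommGroup M] [Module k M] (F : Fin d → S → M) (i : Fin d) (g : S) :
    FG3_L k F (FG3_E k i g) = F i g := by
  unfold FG3_L FG3_E
  rw [LinearMap.lsum_piSingle, ← MonoidAlgebra.basis_apply, Module.Basis.constr_basis]

private lemma FG3_bd (k : Type) {S : Type} [CommRing k] [Group S] {d : ℕ} (x : Fin d → S)
    (i : Fin d) (g : S) : bd k x (FG3_E k i g) = el k (g * x i) - el k g := by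
  show ∑ j, (FG3_E k i g) j * (el k (x j) - 1) = _
  rw [Finset.sum_eq_single i]
  · unfold FG3_E
    rw [Pi.single_eq_same, mul_sub, mul_one]
    simp [MonoidAlgebra.single_mul_single]
  · intro j _ hj
    unfold FG3_E
    rw [Pi.single_eq_of_ne hj, zero_mul]
  · intro h
    exact absurd (Finset.mem_univ i) h

/-- the fundamental identity -/
private lemma FG3_A (k : Type) {S : Type} [CommRing k] [Group S] {d : ℕ} (x : Fin d → S)
    (w : S → (Fin d → MonoidAlgebra k S))
    (P : (Fin d → MonoidAlgebra k S) →ₗ[k] (Fin d → MonoidAlgebra k S))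
    (hP : ∀ i g, P (FG3_E k i g) = FG3_E k i g - w (g * x i) + w g)
    (y : Fin d → MonoidAlgebra k S) (hy : bd k x y = 0) : P y = y := by
  let σ : MonoidAlgebra k S →ₗ[k] (Fin d → MonoidAlgebra k S) :=
    (MonoidAlgebra.basis S k).constr k w
  have hσ : ∀ g, σ (el k g) = w g := by
    intro g
    show (MonoidAlgebra.basis S k).constr k w (MonoidAlgebra.single g 1) = w g
    rw [← MonoidAlgebra.basis_apply, Module.Basis.constr_basis]
  have h : P + σ ∘ₗ (bd k x).restrictScalars k = LinearMap.id := by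
    refine FG3_ext (fun i g => ?_)
    show P (FG3_E k i g) + σ (bd k x (FG3_E k i g)) = FG3_E k i g
    rw [hP, FG3_bd, map_sub, hσ, hσ]
    abel
  have h2 := congrArg (fun f => f y) h
  have h3 : P y + σ (bd k x y) = y := h2
  rw [hy, map_zero, add_zero] at h3
  exact h3

end aux

theorem thm_FG3 (hB : St_BDR) : St_FG3 := by
  intro k S _ _ d x hx hfg
  classical
  -- coefficients
  let c : MonoidAlgebra ℤ S →+* MonoidAlgebra k S := MonoidAlgebra.mapRingHom S (Int.castRingHom k)
  have c_el : ∀ g, c (el ℤ g) = el k g := by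
    intro g
    simp [c]
  let cv : (Fin d → MonoidAlgebra ℤ S) →+ (Fin d → MonoidAlgebra k S) :=
    { toFun := fun y i => c (y i)
      map_zero' := by
        funext i
        exact map_zero c
      map_add' := fun y z => by
        funext i
        exact map_add c _ _ }
  have cv_smul : ∀ (a : MonoidAlgebra ℤ S) (y : Fin d → MonoidAlgebra ℤ S),
      cv (a • y) = c a • cv y := by
    intro a y
    funext i
    exact map_mul c a (y i)
  have cv_E : ∀ (i : Fin d) (g : S), cv (FG3_E ℤ i g) = FG3_E k i g := by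
    intro i g
    funext j
    show c (FG3_E ℤ i g j) = FG3_E k i g j
    unfold FG3_E
    by_cases hj : j = i
    · subst hj
      rw [Pi.single_eq_same, Pi.single_eq_same]
      exact c_el g
    · rw [Pi.single_eq_of_ne hj, Pi.single_eq_of_ne hj, map_zero]
  have bd_cv : ∀ y : Fin d → MonoidAlgebra ℤ S, bd k x (cv y) = c (bd ℤ x y) := by
    intro y
    show ∑ i, c (y i) * (el k (x i) - 1) = c (∑ i, y i * (el ℤ (x i) - 1))
    rw [map_sum]
    refine Finset.sum_congr rfl (fun i _ => ?_)
    rw [map_mul, map_sub, map_one, c_el]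
  -- the elements z_g
  have hz : ∀ g : S, ∃ y, bd ℤ x y = el ℤ g - 1 := by
    intro g
    refine (hB ℤ S d x hx _).1 ?_
    rw [map_sub, map_one]
    simp [aug]
  choose z hz using hz
  -- the relations
  have hρ : ∀ (i : Fin d) (g : S), FG3_E ℤ i g - z (g * x i) + z g ∈ Rel ℤ x := by
    intro i g
    show bd ℤ x (FG3_E ℤ i g - z (g * x i) + z g) = 0
    rw [map_add, map_sub, FG3_bd, hz, hz]
    abel
  let ρ : Fin d → S → Rel ℤ x := fun i g => ⟨FG3_E ℤ i g - z (g * x i) + z g, hρ i g⟩
  have hcR : ∀ q : Rel ℤ x, cv q.1 ∈ Rel k x := by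
    intro q
    show bd k x (cv q.1) = 0
    rw [bd_cv]
    have h : bd ℤ x q.1 = 0 := q.2
    rw [h, map_zero]
  obtain ⟨T, hT⟩ := hfg
  let cr : Rel ℤ x → Rel k x := fun q => ⟨cv q.1, hcR q⟩
  let W : Submodule (MonoidAlgebra k S) (Rel k x) :=
    Submodule.span (MonoidAlgebra k S) (cr '' (T : Set (Rel ℤ x)))
  have h1 : ∀ q : Rel ℤ x, (⟨cv q.1, hcR q⟩ : Rel k x) ∈ W := by
    intro q
    have hq : q ∈ Submodule.span (MonoidAlgebra ℤ S) (T : Set (Rel ℤ x)) := by
      rw [hT]
      exact Submodule.mem_top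
    induction hq using Submodule.span_induction with
    | mem q hq =>
      exact Submodule.subset_span ⟨q, hq, rfl⟩
    | zero =>
      have e : (⟨cv (0 : Rel ℤ x).1, hcR 0⟩ : Rel k x) = 0 := Subtype.ext (map_zero cv)
      rw [e]
      exact W.zero_mem
    | add a b _ _ ha hb =>
      have e : (⟨cv (a + b).1, hcR (a + b)⟩ : Rel k x) = ⟨cv a.1, hcR a⟩ + ⟨cv b.1, hcR b⟩ :=
        Subtype.ext (map_add cv a.1 b.1)
      rw [e]
      exact W.add_mem ha hb
    | smul a q _ hq =>
      have e : (⟨cv (a • q).1, hcR (a • q)⟩ : Rel k x) = c a • ⟨cv q.1, hcR q⟩ :=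
        Subtype.ext (cv_smul a q.1)
      rw [e]
      exact W.smul_mem _ hq
  let W' : Submodule k (Fin d → MonoidAlgebra k S) := (W.map (Rel k x).subtype).restrictScalars k
  have hW : ∀ y ∈ Rel k x, y ∈ W' := by
    intro y hy
    let Pk : (Fin d → MonoidAlgebra k S) →ₗ[k] (Fin d → MonoidAlgebra k S) :=
      FG3_L k (fun i g => cv (ρ i g).1)
    have h1' : Pk y = y := FG3_A k x (fun g => cv (z g)) Pk (fun i g => by
      rw [show Pk (FG3_E k i g) = cv (ρ i g).1 from FG3_L_E k _ i g]
      show cv (FG3_E ℤ i g - z (g * x i) + z g) = _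
      rw [map_add, map_sub, cv_E]) y hy
    have h2 : W'.mkQ ∘ₗ Pk = 0 := by
      refine FG3_ext (fun i g => ?_)
      show W'.mkQ (Pk (FG3_E k i g)) = 0
      rw [show Pk (FG3_E k i g) = cv (ρ i g).1 from FG3_L_E k _ i g]
      exact (Submodule.Quotient.mk_eq_zero W').2 ⟨⟨cv (ρ i g).1, hcR _⟩, h1 _, rfl⟩
    have h3 : W'.mkQ (Pk y) = 0 := congrArg (fun f => f y) h2
    rw [h1'] at h3
    exact (Submodule.Quotient.mk_eq_zero W').1 h3
  have hWf : W.FG := Submodule.fg_span (T.finite_toSet.image cr)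
  have hWt : W = ⊤ := by
    refine Submodule.eq_top_iff'.2 (fun y => ?_)
    obtain ⟨y', hy', e⟩ := hW y.1 y.2
    have e' : y' = y := Subtype.ext e
    rw [← e']
    exact hy'
  rw [← hWt]
  exact hWf

end Pool.Agent.PDA
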