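import Pool.Agent.PDA.StA

/-!
# PDA / FL0: flow to infinity in an infinite Schreier graph
-/

set_option autoImplicit false

namespace Pool.Agent.PDA

open Pool.Agent.PDB

namespace FL0

variable {G X : Type} [Group G] [MulAction G X]

/-- balls -/
def bal (F : Finset G) (o : X) : ℕ → Set X
  | 0 => {o}
  | n + 1 => bal F o n ∪ {x | ∃ s ∈ F, ∃ z ∈ bal F o n, x = s • z}

theorem bal_mono (F : Finset G) (o : X) {m n : ℕ} (h : m ≤ n) : bal F o m ⊆ bal F o n := by
  induction h with
  | refl => exact subset_rfl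
  | step _ ih => exact ih.trans Set.subset_union_left

theorem exists_bal (F : Finset G) (o : X) (hF : ∀ s ∈ F, s⁻¹ ∈ F)
    (hc : Subgroup.closure (F : Set G) = ⊤) (ht : MulAction.IsPretransitive G X) (x : X) :
    ∃ n, x ∈ bal F o n := by
  have hstep : ∀ s ∈ F, ∀ z : X, (∃ n, z ∈ bal F o n) → ∃ n, s • z ∈ bal F o n := by
    rintro s hs z ⟨n, hn⟩
    exact ⟨n + 1, Or.inr ⟨s, hs, z, hn, rfl⟩⟩
  have key : ∀ g : G, (∀ z : X, (∃ n, z ∈ bal F o n) → ∃ n, g • z ∈ bal F o n) ∧
      (∀ z : X, (∃ n, z ∈ bal F o n) → ∃ n, g⁻¹ • z ∈ bal F o n) := by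
    intro g
    have hg : g ∈ Subgroup.closure (F : Set G) := by rw [hc]; exact Subgroup.mem_top g
    induction hg using Subgroup.closure_induction with
    | mem s hs => exact ⟨hstep s hs, hstep s⁻¹ (hF s hs)⟩
    | one => exact ⟨fun z hz => by rwa [one_smul], fun z hz => by rwa [inv_one, one_smul]⟩
    | mul a b _ _ ha hb =>
      refine ⟨fun z hz => ?_, fun z hz => ?_⟩
      · rw [mul_smul]
        exact ha.1 _ (hb.1 z hz)
      · rw [mul_inv_rev, mul_smul]
        exact hb.2 _ (ha.2 z hz)
    | inv a _ ha =>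
      refine ⟨ha.2, fun z hz => ?_⟩
      rw [inv_inv]
      exact ha.1 z hz
  obtain ⟨g, hg⟩ := ht.exists_smul_eq o x
  rw [← hg]
  exact (key g).1 o ⟨0, rfl⟩

/-- a rooted spanning tree -/
theorem exists_tree (F : Finset G) (o : X) (hF : ∀ s ∈ F, s⁻¹ ∈ F)
    (hc : Subgroup.closure (F : Set G) = ⊤) (ht : MulAction.IsPretransitive G X) :
    ∃ (δ : X → ℕ) (s : X → G), (∀ x, x ≠ o → s x ∈ F ∧ δ (s x • x) + 1 = δ x) := by
  classical
  let δ : X → ℕ := fun x => Nat.find (exists_bal F o hF hc ht x)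
  have hδ : ∀ x, x ∈ bal F o (δ x) := fun x => Nat.find_spec (exists_bal F o hF hc ht x)
  have hmin : ∀ x n, x ∈ bal F o n → δ x ≤ n := fun x n h => Nat.find_min' _ h
  have hex : ∀ x, x ≠ o → ∃ s ∈ F, δ (s • x) + 1 = δ x := by
    intro x hx
    have h1 := hδ x
    rcases hn : δ x with _ | n
    · rw [hn] at h1
      exact absurd h1 hx
    · rw [hn] at h1
      rcases h1 with h1 | ⟨f, hf, z, hz, hxz⟩
      · have := hmin x n h1
        omega
      · refine ⟨f⁻¹, hF f hf, ?_⟩
        have h2 : f⁻¹ • x = z := by rw [hxz, inv_smul_smul]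
        rw [h2]
        have h3 := hmin z n hz
        have h4 : δ x ≤ δ z + 1 := hmin x _ (Or.inr ⟨f, hf, z, hδ z, hxz⟩)
        omega
  have hex' : ∀ x, ∃ s : G, x ≠ o → s ∈ F ∧ δ (s • x) + 1 = δ x := by
    intro x
    by_cases hx : x = o
    · exact ⟨1, fun h => absurd hx h⟩
    · obtain ⟨s, hs⟩ := hex x hx
      exact ⟨s, fun _ => hs⟩
  choose s hs using hex'
  exact ⟨δ, s, hs⟩

end FL0

open FL0

theorem thm_FL0 : St_FL0 := by
  classical
  intro G X _ _ ht hX F hF hc
  obtain ⟨o⟩ : Nonempty X := inferInstance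
  obtain ⟨δ, s, hs⟩ := exists_tree F o hF hc ht
  let π : X → X := fun x => if x = o then o else s x • x
  have hπo : π o = o := if_pos rfl
  have hπ : ∀ x, x ≠ o → π x = s x • x := fun x hx => if_neg hx
  have hδπ : ∀ x, x ≠ o → δ (π x) + 1 = δ x := fun x hx => by rw [hπ x hx]; exact (hs x hx).2
  have hδle : ∀ x, δ (π x) ≤ δ x := by
    intro x
    by_cases hx : x = o
    · rw [hx, hπo]
    · have := hδπ x hx
      omega
  have hδit : ∀ n x, δ (π^[n] x) ≤ δ x := by
    intro n
    induction n with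
    | zero => intro x; exact le_rfl
    | succ n ih =>
      intro x
      rw [Function.iterate_succ_apply]
      exact (ih _).trans (hδle x)
  let desc : X → Set X := fun x => {y | ∃ n, π^[n] y = x}
  have hself : ∀ x, x ∈ desc x := fun x => ⟨0, rfl⟩
  have hroot : desc o = Set.univ := by
    have h : ∀ n x, δ x ≤ n → x ∈ desc o := by
      intro n
      induction n with
      | zero =>
        intro x hx
        by_cases hxo : x = o
        · rw [hxo]; exact hself o
        · have := hδπ x hxo
          omega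
      | succ n ih =>
        intro x hx
        by_cases hxo : x = o
        · rw [hxo]; exact hself o
        · have h1 := hδπ x hxo
          obtain ⟨k, hk⟩ := ih (π x) (by omega)
          exact ⟨k + 1, by rw [Function.iterate_succ_apply]; exact hk⟩
    exact Set.eq_univ_of_forall fun x => h (δ x) x le_rfl
  have hobig : (desc o).Infinite := by
    rw [hroot]
    exact Set.infinite_univ
  have hsub : ∀ c, desc c ⊆ desc (π c) := by
    rintro c y ⟨n, hn⟩
    exact ⟨n + 1, by rw [Function.iterate_succ_apply', hn]⟩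
  -- children
  have hchild : ∀ x, desc x ⊆ {x} ∪ ⋃ c ∈ {c | c ≠ o ∧ π c = x}, desc c := by
    rintro x y ⟨n, hn⟩
    induction n generalizing x with
    | zero => left; exact hn
    | succ n ih =>
      rw [Function.iterate_succ_apply'] at hn
      by_cases hc : π^[n] y = o
      · rw [hc, hπo] at hn
        exact ih x (hc.trans hn)
      · right
        rw [Set.mem_iUnion₂]
        exact ⟨π^[n] y, ⟨hc, hn⟩, n, rfl⟩
  have hfin : ∀ x, {c | c ≠ o ∧ π c = x}.Finite := by
    intro x
    refine ((F.finite_toSet).image (fun f : G => f • x)).subset ?_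
    rintro c ⟨hc, hcx⟩
    refine ⟨(s c)⁻¹, hF _ (hs c hc).1, ?_⟩
    show (s c)⁻¹ • x = c
    rw [← hcx, hπ c hc, inv_smul_smul]
  have hbig : ∀ x, (desc x).Infinite → ∃ c, c ≠ o ∧ π c = x ∧ (desc c).Infinite := by
    intro x hx
    by_contra hcon
    push Not at hcon
    apply hx
    refine Set.Finite.subset ((Set.finite_singleton x).union
      ((hfin x).biUnion (t := desc) fun c hc => ?_)) (hchild x)
    exact hcon c hc.1 hc.2
  have hbig' : ∀ x, ∃ c, (desc x).Infinite → c ≠ o ∧ π c = x ∧ (desc c).Infinite := by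
    intro x
    by_cases h : (desc x).Infinite
    · obtain ⟨c, hc⟩ := hbig x h
      exact ⟨c, fun _ => hc⟩
    · exact ⟨x, fun h' => absurd h' h⟩
  choose ch hch using hbig'
  let σ : X → G := fun x => if (desc x).Infinite then (s (ch x))⁻¹ else s x
  have hσ1 : ∀ x, (desc x).Infinite → σ x • x = ch x := by
    intro x hx
    obtain ⟨h1, h2, -⟩ := hch x hx
    have h3 : s (ch x) • ch x = x := by rw [← hπ _ h1]; exact h2
    have h4 : σ x = (s (ch x))⁻¹ := if_pos hx
    have h5 : (s (ch x))⁻¹ • (s (ch x) • ch x) = ch x := inv_smul_smul _ _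
    rw [h3] at h5
    rw [h4, h5]
  have hnb : ∀ x, ¬ (desc x).Infinite → x ≠ o := by
    rintro x hx rfl
    exact hx hobig
  have hσ2 : ∀ x, ¬ (desc x).Infinite → σ x • x = π x := by
    intro x hx
    have h4 : σ x = s x := if_neg hx
    rw [h4, hπ x (hnb x hx)]
  refine ⟨σ, ?_, ?_⟩
  · intro x
    by_cases hx : (desc x).Infinite
    · have h4 : σ x = (s (ch x))⁻¹ := if_pos hx
      rw [h4]
      exact hF _ (hs _ (hch x hx).1).1
    · have h4 : σ x = s x := if_neg hx
      rw [h4]
      exact (hs _ (hnb x hx)).1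
  · let μ : X → ℕ × ℕ := fun x => if (desc x).Infinite then (1, δ x) else (0, (desc x).ncard)
    have hwf : WellFounded (Prod.Lex (fun a b : ℕ => a < b) (fun a b : ℕ => a < b)) :=
      WellFounded.prod_lex Nat.lt_wfRel.wf Nat.lt_wfRel.wf
    refine Subrelation.wf (r := InvImage (Prod.Lex (fun a b : ℕ => a < b)
      (fun a b : ℕ => a < b)) μ) ?_ (InvImage.wf μ hwf)
    intro x y hxy
    show Prod.Lex _ _ (μ x) (μ y)
    by_cases hx : (desc x).Infinite
    · rw [hσ1 x hx] at hxy
      obtain ⟨h1, h2, h3⟩ := hch x hx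
      have hy : (desc y).Infinite := by rw [← hxy]; exact h3
      have e1 : μ x = (1, δ x) := if_pos hx
      have e2 : μ y = (1, δ y) := if_pos hy
      rw [e1, e2]
      refine Prod.Lex.right _ ?_
      have h4 := hδπ _ h1
      rw [h2, hxy] at h4
      omega
    · rw [hσ2 x hx] at hxy
      have e1 : μ x = (0, (desc x).ncard) := if_neg hx
      by_cases hy : (desc y).Infinite
      · have e2 : μ y = (1, δ y) := if_pos hy
        rw [e1, e2]
        exact Prod.Lex.left _ _ Nat.zero_lt_one
      · have e2 : μ y = (0, (desc y).ncard) := if_neg hy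
        rw [e1, e2]
        refine Prod.Lex.right _ ?_
        refine Set.ncard_lt_ncard ?_ (Set.not_infinite.1 hy)
        refine (Set.ssubset_iff_of_subset ?_).2 ⟨y, hself y, ?_⟩
        · rw [← hxy]; exact hsub x
        · rintro ⟨n, hn⟩
          have h5 := hδit n y
          rw [hn] at h5
          have h6 := hδπ x (hnb x hx)
          rw [hxy] at h6
          omega

end Pool.Agent.PDA
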