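import Pool.Agent.PDA.StA

/-!
# PDA [FLO]: the flow lemma
-/

set_option autoImplicit false
set_option linter.unusedVariables false

namespace Pool.Agent.PDA

open Pool.Agent.PDB

open Classical in
theorem thm_FLO (h0 : St_FL0) : St_FLO := by
  intro G _ F hF hcl S hS M _ a m hm
  have hinf : Infinite (G ⧸ S) := Subgroup.index_eq_zero_iff_infinite.1 hS
  obtain ⟨σ, hσF, hwf⟩ := h0 G (G ⧸ S) inferInstance hinf F hF hcl
  obtain ⟨v, hvd⟩ : ∃ v : G → G ⧸ S, v = fun g => ((g⁻¹ : G) : G ⧸ S) := ⟨_, rfl⟩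
  have hv : ∀ g, v g = ((g⁻¹ : G) : G ⧸ S) := fun g => by rw [hvd]
  have hvS : ∀ (h : S) (g : G), v ((h : G) * g) = v g := by
    intro h g
    rw [hv, hv, QuotientGroup.eq]
    have : ((h : G) * g)⁻¹⁻¹ * g⁻¹ = h := by group
    rw [this]
    exact h.2
  have hvs : ∀ s g : G, s • v g = v (g * s⁻¹) := by
    intro s g
    rw [hv, hv, MulAction.Quotient.smul_coe]
    congr 1
    rw [smul_eq_mul]
    group
  have hwf' : WellFounded (fun g' g : G => ∃ s ∈ F, g' = g * s ∧ σ (v g') = s) := by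
    refine Subrelation.wf (r := InvImage (fun x y : G ⧸ S => σ x • x = y) v) ?_
      (InvImage.wf v hwf)
    rintro g' g ⟨s, -, hg, hs⟩
    change σ (v g') • v g' = v g
    rw [hs, hvs, hg]
    congr 1
    group
  obtain ⟨T, hT⟩ : ∃ T : G → M, ∀ g, T g =
      m g + ∑ s ∈ F, if σ (v (g * s)) = s then T (g * s) else 0 := by
    refine ⟨hwf'.fix (C := fun _ => M) fun g rec => m g + ∑ s ∈ F.attach,
      if h : σ (v (g * s.1)) = s.1 then rec (g * s.1) ⟨s.1, s.2, rfl, h⟩ else 0, fun g => ?_⟩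
    rw [WellFounded.fix_eq]
    congr 1
    rw [← Finset.sum_attach F]
    refine Finset.sum_congr rfl fun s _ => ?_
    by_cases h : σ (v (g * s.1)) = s.1
    · rw [dif_pos h, if_pos h]
    · rw [dif_neg h, if_neg h]
  have hTS : ∀ (h : S) (g : G), T ((h : G) * g) = a h (T g) := by
    intro h g
    induction g using hwf'.induction with
    | _ g ih =>
      rw [hT, hT g, map_add, map_sum, hm]
      congr 1
      refine Finset.sum_congr rfl fun s hs => ?_
      rw [mul_assoc, hvS]
      by_cases h1 : σ (v (g * s)) = s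
      · rw [if_pos h1, if_pos h1]
        exact ih (g * s) ⟨s, hs, rfl, h1⟩
      · rw [if_neg h1, if_neg h1, map_zero]
  refine ⟨fun s g => if σ (v g) = s then T g else 0, ?_, ?_⟩
  · intro s _ h g
    change (if σ (v ((h : G) * g)) = s then T ((h : G) * g) else 0) =
      a h (if σ (v g) = s then T g else 0)
    rw [hvS, hTS]
    by_cases h1 : σ (v g) = s
    · rw [if_pos h1, if_pos h1]
    · rw [if_neg h1, if_neg h1, map_zero]
  · intro g
    rw [Finset.sum_sub_distrib]
    have h1 : ∑ s ∈ F, (if σ (v g) = s then T g else 0) = T g := by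
      rw [Finset.sum_ite_eq, if_pos (hσF _)]
    rw [h1, hT g]
    abel

end Pool.Agent.PDA
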