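import Pool.Agent.PDA.StB

/-!
# PDA, module FOL: amenable groups satisfy the rank condition
-/

set_option autoImplicit false

namespace Pool.Agent.PDA

open Pool.Agent.PDB
open scoped Pointwise

section FOL

variable {k S : Type} [Field k] [Group S]

/-- the elements of `(k[S])^m` supported in `F` -/
private noncomputable def FOL_emb (F : Finset S) (m : ℕ) :
    (Fin m × F → k) →ₗ[k] (Fin m → MonoidAlgebra k S) where
  toFun l := fun a => ∑ g : F, MonoidAlgebra.single (g : S) (l (a, g))
  map_add' l l' := by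
    funext a
    show ∑ g : F, MonoidAlgebra.single (g : S) (l (a, g) + l' (a, g)) =
      ∑ g : F, MonoidAlgebra.single (g : S) (l (a, g)) +
        ∑ g : F, MonoidAlgebra.single (g : S) (l' (a, g))
    rw [← Finset.sum_add_distrib]
    refine Finset.sum_congr rfl fun g _ => ?_
    rw [MonoidAlgebra.single_add]
  map_smul' r l := by
    funext a
    show ∑ g : F, MonoidAlgebra.single (g : S) (r * l (a, g)) =
      r • ∑ g : F, MonoidAlgebra.single (g : S) (l (a, g))
    rw [Finset.smul_sum]
    refine Finset.sum_congr rfl fun g _ => ?_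
    rw [MonoidAlgebra.smul_single, smul_eq_mul]

private theorem FOL_emb_coeff (F : Finset S) (m : ℕ) (l : Fin m × F → k) (a : Fin m) (g : F) :
    (FOL_emb F m l a).coeff (g : S) = l (a, g) := by
  classical
  show (∑ h : F, MonoidAlgebra.single (h : S) (l (a, h))).coeff (g : S) = l (a, g)
  rw [MonoidAlgebra.coeff_sum, Finsupp.finsetSum_apply, Finset.sum_eq_single g]
  · rw [MonoidAlgebra.coeff_single, Finsupp.single_eq_same]
  · intro h _ hh
    rw [MonoidAlgebra.coeff_single, Finsupp.single_apply, if_neg]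
    intro h1
    exact hh (Subtype.ext h1)
  · intro h
    exact absurd (Finset.mem_univ g) h

private theorem FOL_emb_supp (F : Finset S) (m : ℕ) (l : Fin m × F → k) (a : Fin m) :
    (FOL_emb F m l a).coeff.support ⊆ F := by
  classical
  intro h hh
  by_contra hF
  rw [Finsupp.mem_support_iff] at hh
  apply hh
  show (∑ g : F, MonoidAlgebra.single (g : S) (l (a, g))).coeff h = 0
  rw [MonoidAlgebra.coeff_sum, Finsupp.finsetSum_apply]
  refine Finset.sum_eq_zero fun g _ => ?_
  rw [MonoidAlgebra.coeff_single, Finsupp.single_apply, if_neg]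
  intro h1
  exact hF (h1 ▸ g.2)

/-- the coefficients in `T` -/
private noncomputable def FOL_proj (T : Finset S) (d : ℕ) :
    (Fin d → MonoidAlgebra k S) →ₗ[k] (Fin d × T → k) where
  toFun z := fun x => (z x.1).coeff (x.2 : S)
  map_add' z w := by
    funext x
    show (z x.1 + w x.1).coeff (x.2 : S) = _
    rw [MonoidAlgebra.coeff_add, Finsupp.add_apply]
    rfl
  map_smul' r z := by
    funext x
    show (r • z x.1).coeff (x.2 : S) = _
    rw [MonoidAlgebra.coeff_smul_apply]
    rfl

private theorem FOL_supp [DecidableEq S] {m d : ℕ}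
    (φ : (Fin m → MonoidAlgebra k S) →ₗ[MonoidAlgebra k S] (Fin d → MonoidAlgebra k S))
    (F B : Finset S)
    (hB : ∀ a b, (φ (fun j => if a = j then 1 else 0) b).coeff.support ⊆ B)
    (z : Fin m → MonoidAlgebra k S) (hz : ∀ a, (z a).coeff.support ⊆ F) (b : Fin d) (h : S)
    (hh : h ∉ F * B) : (φ z b).coeff h = 0 := by
  rw [LinearMap.pi_apply_eq_sum_univ φ z, Finset.sum_apply, MonoidAlgebra.coeff_sum,
    Finsupp.finsetSum_apply]
  refine Finset.sum_eq_zero fun a _ => ?_
  rw [Pi.smul_apply, smul_eq_mul, ← Finsupp.notMem_support_iff]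
  intro h1
  apply hh
  have h2 := MonoidAlgebra.support_coeff_mul_subset _ _ h1
  exact Finset.mul_subset_mul (hz a) (hB a b) h2

private theorem FOL_ineq [DecidableEq S] {m d : ℕ}
    (φ : (Fin m → MonoidAlgebra k S) →ₗ[MonoidAlgebra k S] (Fin d → MonoidAlgebra k S))
    (hφ : Function.Injective φ) (F B : Finset S)
    (hB : ∀ a b, (φ (fun j => if a = j then 1 else 0) b).coeff.support ⊆ B) :
    m * F.card ≤ d * (F * B).card := by
  have hinj : Function.Injective
      ((FOL_proj (F * B) d) ∘ₗ (φ.restrictScalars k) ∘ₗ (FOL_emb (k := k) F m)) := by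
    rw [injective_iff_map_eq_zero]
    intro l hl
    have h1 : φ (FOL_emb F m l) = 0 := by
      funext b
      apply MonoidAlgebra.coeff_injective
      ext h
      by_cases hh : h ∈ F * B
      · exact congrFun hl (b, ⟨h, hh⟩)
      · exact FOL_supp φ F B hB _ (FOL_emb_supp F m l) b h hh
    have h2 : FOL_emb F m l = 0 := hφ (by rw [h1, map_zero])
    funext x
    have h3 := FOL_emb_coeff F m l x.1 x.2
    rw [h2] at h3
    exact h3.symm
  have h4 := LinearMap.finrank_le_finrank_of_injective hinj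
  rw [Module.finrank_fintype_fun_eq_card, Module.finrank_fintype_fun_eq_card, Fintype.card_prod,
    Fintype.card_prod, Fintype.card_fin, Fintype.card_fin, Fintype.card_coe,
    Fintype.card_coe] at h4
  exact h4

private theorem FOL_card [DecidableEq S] (F B : Finset S) (ε : ℝ)
    (hF : ∀ g ∈ B, (((F : Set S) \ {y | y * g ∈ F}).ncard : ℝ) ≤ ε * F.card) :
    ((F * B).card : ℝ) ≤ (1 + ε * B.card) * F.card := by
  have hsub : F * B ⊆ F ∪ B.biUnion fun g => (F.filter fun y => y * g ∉ F).image (· * g) := by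
    intro h hh
    obtain ⟨y, hy, g, hg, rfl⟩ := Finset.mem_mul.mp hh
    rw [Finset.mem_union]
    by_cases h1 : y * g ∈ F
    · exact Or.inl h1
    · right
      rw [Finset.mem_biUnion]
      exact ⟨g, hg, Finset.mem_image.mpr ⟨y, Finset.mem_filter.mpr ⟨hy, h1⟩, rfl⟩⟩
  have h1 : (F * B).card ≤ F.card + ∑ g ∈ B, (F.filter fun y => y * g ∉ F).card := by
    refine (Finset.card_le_card hsub).trans ((Finset.card_union_le _ _).trans ?_)
    refine Nat.add_le_add_left (Finset.card_biUnion_le.trans ?_) _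
    exact Finset.sum_le_sum fun g _ => Finset.card_image_le
  have h2 : ((F * B).card : ℝ) ≤ F.card + ∑ g ∈ B, ((F.filter fun y => y * g ∉ F).card : ℝ) := by
    exact_mod_cast h1
  have h3 : ∑ g ∈ B, ((F.filter fun y => y * g ∉ F).card : ℝ) ≤ ∑ g ∈ B, ε * F.card := by
    refine Finset.sum_le_sum fun g hg => ?_
    have h4 : ((F : Set S) \ {y | y * g ∈ F}) = ((F.filter fun y => y * g ∉ F : Finset S) : Set S) := by
      ext y
      rw [Finset.coe_filter]
      exact Iff.rfl
    have h5 := hF g hg
    rw [h4, Set.ncard_coe_finset] at h5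
    exact h5
  rw [Finset.sum_const, nsmul_eq_mul] at h3
  nlinarith

end FOL

theorem thm_FOL : St_FOL := by
  classical
  intro k S _ _ hFol m d hφ
  obtain ⟨φ, hφ⟩ := hφ
  obtain ⟨B, hB⟩ : ∃ B : Finset S, ∀ a b,
      (φ (fun j => if a = j then 1 else 0) b).coeff.support ⊆ B := by
    refine ⟨Finset.univ.biUnion fun a => Finset.univ.biUnion fun b =>
      (φ (fun j => if a = j then 1 else 0) b).coeff.support, ?_⟩
    intro a b h hh
    rw [Finset.mem_biUnion]
    refine ⟨a, Finset.mem_univ a, ?_⟩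
    rw [Finset.mem_biUnion]
    exact ⟨b, Finset.mem_univ b, hh⟩
  by_contra hmd
  push Not at hmd
  obtain ⟨F, hne, hF⟩ := hFol B (1 / ((d + 1) * (B.card + 1))) (by positivity)
  have h1 := FOL_ineq φ hφ F B hB
  have h2 := FOL_card F B _ hF
  have hFpos : (0 : ℝ) < F.card := by exact_mod_cast hne.card_pos
  have h3 : (m : ℝ) * F.card ≤ d * (F * B).card := by exact_mod_cast h1
  have h4 : (d : ℝ) + 1 ≤ m := by exact_mod_cast hmd
  have h5 : (m : ℝ) * F.card ≤ d * ((1 + 1 / ((d + 1) * (B.card + 1)) * B.card) * F.card) :=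
    h3.trans (mul_le_mul_of_nonneg_left h2 (Nat.cast_nonneg d))
  have h6 : (m : ℝ) ≤ d * (1 + 1 / ((d + 1) * (B.card + 1)) * B.card) := by
    refine le_of_mul_le_mul_right ?_ hFpos
    rw [mul_assoc]
    exact h5
  have h7 : (d : ℝ) * (1 / ((d + 1) * (B.card + 1)) * B.card) < 1 := by
    have h8 : (d : ℝ) * (1 / ((d + 1) * (B.card + 1)) * B.card) =
        (d * B.card) / ((d + 1) * (B.card + 1)) := by
      field_simp
    rw [h8, div_lt_one (by positivity)]
    have e1 : (0 : ℝ) ≤ d := Nat.cast_nonneg d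
    have e2 : (0 : ℝ) ≤ B.card := Nat.cast_nonneg _
    nlinarith
  rw [mul_add, mul_one] at h6
  linarith

end Pool.Agent.PDA
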