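import Pool.Agent.PDA.StF

/-!
# [FRA] Divisible elements modulo `I_K P`
-/

set_option autoImplicit false
set_option linter.unusedVariables false

namespace Pool.Agent.PDA

open Pool.Agent.PDB Subgroup

theorem fra_int (N A : ℤ) (hN : N = 0 ∨ 2 ≤ |N|) (h : ∀ n : ℕ, N ^ n ∣ A) : A = 0 := by
  rcases hN with hN | hN
  · have h1 := h 1
    rw [hN, pow_one] at h1
    exact zero_dvd_iff.1 h1
  · have h1 : |N| ^ A.natAbs ∣ A := by
      rw [← abs_pow]
      exact (abs_dvd _ _).2 (h _)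
    refine Int.eq_zero_of_abs_lt_dvd h1 ?_
    have h2 : ((A.natAbs : ℕ) : ℤ) < 2 ^ A.natAbs := by
      exact_mod_cast Nat.lt_two_pow_self (n := A.natAbs)
    rw [Int.natCast_natAbs] at h2
    exact h2.trans_le (pow_le_pow_left₀ (by norm_num) hN _)

theorem thm_FRA (hI : Pool.Agent.PDB.St_IMS) : St_FRA := by
  intro S M _ _ _ K P hP N hN y hy hdiv
  obtain ⟨φ, hφ, hsum⟩ := hP
  have hker : ∀ z ∈ IM K P, ∃ h : z ∈ P, ∀ q, aug ℤ K (φ ⟨z, h⟩ q) = 0 := by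
    intro z hz
    induction hz using AddSubgroup.closure_induction with
    | mem z hz =>
      obtain ⟨u, hu, w, hw, rfl⟩ := hz
      refine ⟨P.smul_mem _ hw, fun q => ?_⟩
      have h1 : (⟨(el ℤ u - 1) • w, P.smul_mem _ hw⟩ : P) =
          el ℤ ((⟨u, hu⟩ : K) : S) • (⟨w, hw⟩ : P) - ⟨w, hw⟩ := by
        apply Subtype.ext
        change (el ℤ u - 1) • w = el ℤ u • w - w
        rw [sub_smul, one_smul]
      rw [h1, map_sub, hφ, Finsupp.sub_apply, Finsupp.smul_apply, map_sub, smul_eq_mul, map_mul]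
      have h2 : aug ℤ K (el ℤ (⟨u, hu⟩ : K)) = 1 := by
        rw [aug, el, MonoidAlgebra.lift_of]
        rfl
      rw [h2, one_mul, sub_self]
    | zero =>
      refine ⟨P.zero_mem, fun q => ?_⟩
      have h1 : (⟨0, P.zero_mem⟩ : P) = 0 := rfl
      rw [h1, map_zero, Finsupp.zero_apply, map_zero]
    | add a b _ _ ha hb =>
      obtain ⟨ha1, ha2⟩ := ha
      obtain ⟨hb1, hb2⟩ := hb
      refine ⟨P.add_mem ha1 hb1, fun q => ?_⟩
      have h1 : (⟨a + b, P.add_mem ha1 hb1⟩ : P) = ⟨a, ha1⟩ + ⟨b, hb1⟩ := rfl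
      rw [h1, map_add, Finsupp.add_apply, map_add, ha2, hb2, add_zero]
    | neg a _ ha =>
      obtain ⟨ha1, ha2⟩ := ha
      refine ⟨P.neg_mem ha1, fun q => ?_⟩
      have h1 : (⟨-a, P.neg_mem ha1⟩ : P) = -⟨a, ha1⟩ := rfl
      rw [h1, map_neg, Finsupp.neg_apply, map_neg, ha2, neg_zero]
  have hA : ∀ q, aug ℤ K (φ ⟨y, hy⟩ q) = 0 := by
    intro q
    refine fra_int N _ hN fun n => ?_
    obtain ⟨r, hr, hm⟩ := hdiv n
    obtain ⟨h1, h2⟩ := hker _ hm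
    refine ⟨aug ℤ K (φ ⟨r, hr⟩ q), ?_⟩
    have h3 : (⟨y - N ^ n • r, h1⟩ : P) = ⟨y, hy⟩ - N ^ n • ⟨r, hr⟩ := rfl
    have h4 := h2 q
    rw [h3, map_sub, map_zsmul, Finsupp.sub_apply, Finsupp.smul_apply, map_sub, map_zsmul,
      smul_eq_mul, sub_eq_zero] at h4
    exact h4
  have hy2 : y = P.subtype ((φ ⟨y, hy⟩).sum (fun q a => res ℤ K a • q)) := by
    rw [hsum]
    rfl
  rw [hy2, Finsupp.sum, map_sum]
  refine AddSubgroup.sum_mem _ fun q _ => ?_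
  rw [map_smul]
  exact (hI ℤ S M K P).1 _ (hA q) _ q.2

end Pool.Agent.PDA
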