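import Pool.Agent.PDA.StA

/-!
# FRE, FR2 : projective (free) modules over `k[G]` are projective (free) over `k[S]`
-/

set_option autoImplicit false

namespace Pool.Agent.PDA

open Pool.Agent.PDB

/-- the cosets -/
abbrev FRE_T {S G : Type} [Group S] [Group G] (j : S →* G) : Type :=
  Quotient (QuotientGroup.rightRel j.range)

theorem FRE_ex {S G : Type} [Group S] [Group G] (j : S →* G) (g : G) :
    ∃ (s : S) (q : FRE_T j), g = j s * q.out := by
  have h1 : QuotientGroup.rightRel j.range (Quotient.mk _ g : FRE_T j).out g := by
    exact Quotient.exact (Quotient.out_eq _)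
  rw [QuotientGroup.rightRel_apply] at h1
  obtain ⟨s, hs⟩ := h1
  exact ⟨s, _, by rw [hs, inv_mul_cancel_right]⟩

theorem FRE_un {S G : Type} [Group S] [Group G] (j : S →* G) (hj : Function.Injective j)
    (s s' : S) (q q' : FRE_T j) (h : j s * q.out = j s' * q'.out) : s = s' ∧ q = q' := by
  have h1 : q = q' := by
    rw [← Quotient.out_eq q, ← Quotient.out_eq q']
    apply Quotient.sound
    change QuotientGroup.rightRel j.range _ _
    rw [QuotientGroup.rightRel_apply]
    refine ⟨s'⁻¹ * s, ?_⟩
    rw [map_mul, map_inv, inv_mul_eq_iff_eq_mul, ← mul_assoc, ← h, mul_inv_cancel_right]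
  subst h1
  exact ⟨hj (mul_right_cancel h), rfl⟩

section

variable (k : Type) {S G : Type} [CommRing k] [Group S] [Group G] (j : S →* G)

/-- restriction of scalars -/
noncomputable abbrev FRE_mod : Module (MonoidAlgebra k S) (MonoidAlgebra k G) :=
  Module.compHom _ (MonoidAlgebra.mapDomainRingHom k j)

/-- the basis vectors -/
noncomputable def FRE_v (q : FRE_T j) : MonoidAlgebra k G := MonoidAlgebra.single q.out 1

theorem FRE_smul (a : MonoidAlgebra k S) (b : MonoidAlgebra k G) :
    letI := FRE_mod k j
    a • b = MonoidAlgebra.mapDomainRingHom k j a * b := rfl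

open Classical in
theorem FRE_coeff1 (hj : Function.Injective j) (a : MonoidAlgebra k S) (q q' : FRE_T j) (s : S) :
    (MonoidAlgebra.mapDomainRingHom k j a * FRE_v k j q').coeff (j s * q.out) =
      if q' = q then a.coeff s else 0 := by
  induction a using MonoidAlgebra.induction_linear with
  | zero =>
    rw [map_zero, zero_mul]
    simp
  | add x y hx hy =>
    rw [map_add, add_mul, MonoidAlgebra.coeff_add, Finsupp.add_apply, hx, hy,
      MonoidAlgebra.coeff_add, Finsupp.add_apply]
    split_ifs
    · rfl
    · rw [add_zero]
  | single s' c =>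
    have h1 : MonoidAlgebra.mapDomainRingHom k j (MonoidAlgebra.single s' c) =
        MonoidAlgebra.single (j s') c := by simp
    rw [h1, FRE_v, MonoidAlgebra.single_mul_single, mul_one, MonoidAlgebra.coeff_single,
      MonoidAlgebra.coeff_single, Finsupp.single_apply, Finsupp.single_apply]
    by_cases h : j s' * q'.out = j s * q.out
    · obtain ⟨h2, h3⟩ := FRE_un j hj _ _ _ _ h
      rw [if_pos h, if_pos h3, if_pos h2]
    · rw [if_neg h]
      by_cases h3 : q' = q
      · rw [if_pos h3, if_neg]
        intro h2
        exact h (by rw [h2, h3])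
      · rw [if_neg h3]

theorem FRE_coeff (hj : Function.Injective j) (l : FRE_T j →₀ MonoidAlgebra k S) (q : FRE_T j)
    (s : S) :
    letI := FRE_mod k j
    (Finsupp.linearCombination (MonoidAlgebra k S) (FRE_v k j) l).coeff (j s * q.out) =
      (l q).coeff s := by
  classical
  let _ := FRE_mod k j
  induction l using Finsupp.induction_linear with
  | zero =>
    rw [map_zero, Finsupp.zero_apply]
    simp
  | add x y hx hy =>
    rw [map_add, Finsupp.add_apply, MonoidAlgebra.coeff_add, MonoidAlgebra.coeff_add,
      Finsupp.add_apply, Finsupp.add_apply, hx, hy]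
  | single q' a =>
    rw [Finsupp.linearCombination_single, FRE_smul, FRE_coeff1 k j hj, Finsupp.single_apply]
    split_ifs
    · rfl
    · simp

/-- the basis of `k[G]` over `k[S]` -/
noncomputable def FRE_basis (hj : Function.Injective j) :
    letI := FRE_mod k j
    Module.Basis (FRE_T j) (MonoidAlgebra k S) (MonoidAlgebra k G) :=
  letI := FRE_mod k j
  Module.Basis.mk (v := FRE_v k j) (by
    rw [linearIndependent_iff]
    intro l hl
    ext q s
    rw [← FRE_coeff k j hj, hl]
    simp) (by
    intro b _
    induction b using MonoidAlgebra.induction_linear with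
    | zero => exact zero_mem _
    | add x y hx hy => exact add_mem (hx trivial) (hy trivial)
    | single g c =>
      obtain ⟨s, q, rfl⟩ := FRE_ex j g
      have h1 : (MonoidAlgebra.single (j s * q.out) c : MonoidAlgebra k G) =
          (MonoidAlgebra.single s c : MonoidAlgebra k S) • FRE_v k j q := by
        rw [FRE_smul, FRE_v]
        have h1 : MonoidAlgebra.mapDomainRingHom k j (MonoidAlgebra.single s c) =
            MonoidAlgebra.single (j s) c := by simp
        rw [h1, MonoidAlgebra.single_mul_single, mul_one]
      rw [h1]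
      exact Submodule.smul_mem _ _ (Submodule.subset_span ⟨q, rfl⟩))

end

theorem thm_FR2 : St_FR2 := by
  intro k S G _ _ _ j hj M _ _ _ hM hf
  let _ := FRE_mod k j
  have : IsScalarTower (MonoidAlgebra k S) (MonoidAlgebra k G) M :=
    ⟨fun a b m => by rw [FRE_smul, mul_smul, hM]⟩
  exact Module.Free.of_basis ((FRE_basis k j hj).smulTower (Module.Free.chooseBasis _ M))

theorem thm_FRE : St_FRE := by
  intro k S G _ _ _ j hj M _ _ _ hM hP
  obtain ⟨s, hs⟩ := hP.out
  let m1 : Module (MonoidAlgebra k S) (M →₀ MonoidAlgebra k G) :=
    Module.compHom _ (MonoidAlgebra.mapDomainRingHom k j)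
  have : Module.Free (MonoidAlgebra k S) (M →₀ MonoidAlgebra k G) :=
    thm_FR2 k S G j hj _ (fun a m => rfl) inferInstance
  let i : M →ₗ[MonoidAlgebra k S] (M →₀ MonoidAlgebra k G) :=
    { toFun := s
      map_add' := fun x y => map_add s x y
      map_smul' := fun a x => by
        rw [hM, map_smul]
        rfl }
  let t : (M →₀ MonoidAlgebra k G) →ₗ[MonoidAlgebra k S] M :=
    { toFun := Finsupp.linearCombination (MonoidAlgebra k G) id
      map_add' := fun x y => map_add _ x y
      map_smul' := fun a x => by
        change Finsupp.linearCombination (MonoidAlgebra k G) id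
          (MonoidAlgebra.mapDomainRingHom k j a • x) = _
        rw [map_smul, RingHom.id_apply, hM] }
  exact Module.Projective.of_split i t (LinearMap.ext fun x => hs x)

end Pool.Agent.PDA
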