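import Pool.Agent.PDA.StB
import Pool.Agent.AutSol.FolnerHer

/-!
# [FSB] The Følner condition passes to subgroups
-/

set_option autoImplicit false

namespace Pool.Agent.PDA

open Pool.Agent.PDB
open scoped Pointwise Classical

private theorem FSB_ncard {G : Type} [Group G] (F : Finset G) (g : G) :
    ((F : Set G) \ {y | y * g ∈ F}).ncard = (F.filter fun y => y * g ∉ F).card := by
  rw [← Set.ncard_coe_finset]
  congr 1
  ext y
  simp

private theorem FSB_to {G : Type} [Group G] (h : Folner G) : Pool.Agent.AutSol.Folner G := by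
  apply Pool.Agent.AutSol.folner_of_finset
  intro K ε hε
  have hK : (0 : ℝ) < (K.card : ℝ) + 1 := by positivity
  obtain ⟨F, hne, hF⟩ := h K (ε / (K.card + 1)) (by positivity)
  refine ⟨F, hne, ?_⟩
  have hsub : F * K ⊆ F ∪ K.biUnion fun g => (F.filter fun y => y * g ∉ F).image fun y => y * g := by
    intro x hx
    obtain ⟨y, hy, g, hg, rfl⟩ := Finset.mem_mul.1 hx
    rw [Finset.mem_union]
    by_cases hyg : y * g ∈ F
    · left
      exact hyg
    · right
      exact Finset.mem_biUnion.2 ⟨g, hg, Finset.mem_image.2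
        ⟨y, Finset.mem_filter.2 ⟨hy, hyg⟩, rfl⟩⟩
  have h1 : (F * K).card ≤ F.card + ∑ g ∈ K, (F.filter fun y => y * g ∉ F).card := by
    refine (Finset.card_le_card hsub).trans ((Finset.card_union_le _ _).trans ?_)
    refine Nat.add_le_add_left (Finset.card_biUnion_le.trans ?_) _
    exact Finset.sum_le_sum fun g _ => Finset.card_image_le
  have h2 : ((F * K).card : ℝ) ≤ F.card + ∑ g ∈ K, ((F.filter fun y => y * g ∉ F).card : ℝ) := by
    exact_mod_cast h1
  have h3 : ∑ g ∈ K, ((F.filter fun y => y * g ∉ F).card : ℝ) ≤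
      ∑ g ∈ K, ε / (K.card + 1) * F.card := by
    refine Finset.sum_le_sum fun g hg => ?_
    have := hF g hg
    rw [FSB_ncard] at this
    exact this
  rw [Finset.sum_const, nsmul_eq_mul] at h3
  have h4 : (K.card : ℝ) * (ε / (K.card + 1) * F.card) ≤ ε * F.card := by
    have h5 : (K.card : ℝ) * (ε / (K.card + 1)) ≤ ε := by
      rw [mul_div_assoc', div_le_iff₀ hK]
      nlinarith
    have h6 : (0 : ℝ) ≤ F.card := by positivity
    calc (K.card : ℝ) * (ε / (K.card + 1) * F.card)
        = (K.card : ℝ) * (ε / (K.card + 1)) * F.card := by ring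
      _ ≤ ε * F.card := mul_le_mul_of_nonneg_right h5 h6
  linarith

private theorem FSB_back {G : Type} [Group G] (h : Pool.Agent.AutSol.Folner G) : Folner G := by
  intro E ε hε
  obtain ⟨F, hne, hF⟩ := Pool.Agent.AutSol.Folner.finset h (insert 1 E) ε hε
  refine ⟨F, hne, ?_⟩
  intro g hg
  rw [FSB_ncard]
  have hsub : F ∪ (F.filter fun y => y * g ∉ F).image (fun y => y * g) ⊆ F * insert 1 E := by
    intro x hx
    rcases Finset.mem_union.1 hx with hx | hx
    · have := Finset.mul_mem_mul hx (Finset.mem_insert_self 1 E)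
      rwa [mul_one] at this
    · obtain ⟨y, hy, rfl⟩ := Finset.mem_image.1 hx
      exact Finset.mul_mem_mul (Finset.mem_filter.1 hy).1 (Finset.mem_insert_of_mem hg)
  have hdis : Disjoint F ((F.filter fun y => y * g ∉ F).image (fun y => y * g)) := by
    rw [Finset.disjoint_left]
    intro x hx hx2
    obtain ⟨y, hy, rfl⟩ := Finset.mem_image.1 hx2
    exact (Finset.mem_filter.1 hy).2 hx
  have h1 := Finset.card_le_card hsub
  rw [Finset.card_union_of_disjoint hdis,
    Finset.card_image_of_injective _ (mul_left_injective g)] at h1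
  have h2 : (F.card : ℝ) + ((F.filter fun y => y * g ∉ F).card : ℝ) ≤
      ((F * insert 1 E).card : ℝ) := by exact_mod_cast h1
  linarith

theorem thm_FSB : St_FSB := by
  intro H K _ _ j hj h
  exact FSB_back (Pool.Agent.AutSol.Folner.of_injective (FSB_to h) j hj)

end Pool.Agent.PDA
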