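import Pool.Agent.PDA.FU1
import Pool.Agent.PDA.DUA

/-!
# PDA: from an almost invariant function to a finitely supported cocycle
-/

set_option autoImplicit false

namespace Pool.Agent.PDA

open Pool.Agent.PDB

open DUA in
theorem thm_FU2 : St_FU2 := by
  rintro G _ R H χ ⟨h0, hh0⟩ ⟨F, hF1, hF2, hF3⟩ hP
  obtain ⟨n, u, f, huf⟩ := dual_basis (Λ := ZG G) R.P0
  obtain ⟨x0, hx0⟩ := R.e_surj 1
  have hemp : FinMod H (∅ : Set G) := ⟨∅, fun g hg => absurd hg (Set.notMem_empty g)⟩
  have hsm : ∀ (h : H) (z : ZG G), sm F (el ℤ (h : G) * z) = (χ h : ℚ) * sm F z := by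
    intro h z
    induction z using MonoidAlgebra.induction_linear with
    | zero => simp
    | add a b ha hb => rw [mul_add, map_add, ha, hb, map_add, mul_add]
    | single g c =>
      rw [el_eq, MonoidAlgebra.single_mul_single, one_mul, sm_single, sm_single, hF1]
      ring
  have haug1 : ∀ (g : G) (c : ℤ), aug ℤ G (MonoidAlgebra.single g c) = c := by
    intro g c
    unfold aug
    rw [MonoidAlgebra.lift_single]
    simp
  have hfs : ∀ z : ZG G, FinMod H {g | sm F (el ℤ g * z) ≠ F g * (aug ℤ G z : ℤ)} := by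
    intro z
    induction z using MonoidAlgebra.induction_linear with
    | zero =>
      refine hemp.mono fun g hg => ?_
      exfalso
      apply hg
      simp
    | add a b ha hb =>
      refine (ha.union hb).mono fun g hg => ?_
      by_contra hcon
      rw [Set.mem_union, not_or] at hcon
      have h1 : sm F (el ℤ g * a) = F g * (aug ℤ G a : ℤ) := by
        by_contra hne
        exact hcon.1 hne
      have h2 : sm F (el ℤ g * b) = F g * (aug ℤ G b : ℤ) := by
        by_contra hne
        exact hcon.2 hne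
      apply hg
      rw [mul_add, map_add, h1, h2, map_add, Int.cast_add, mul_add]
    | single g' c =>
      refine (hF2 g').mono fun g hg => ?_
      intro hne
      apply hg
      rw [haug1, el_eq, MonoidAlgebra.single_mul_single, one_mul, sm_single, hne, mul_comm]
  have haug2 : ∀ (a : ZG G) (x : R.P0), R.e (a • x) = aug ℤ G a * R.e x := by
    intro a x
    induction a using MonoidAlgebra.induction_linear with
    | zero => simp
    | add a b ha hb => rw [add_smul, map_add, ha, hb, map_add, add_mul]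
    | single g c =>
      have h1 : (MonoidAlgebra.single g c : ZG G) = c • el ℤ g := by
        rw [el_eq, MonoidAlgebra.smul_single, smul_eq_mul, mul_one]
      rw [haug1, h1, smul_assoc, map_zsmul, R.e_smul, smul_eq_mul]
  let Λ : R.P0 →+ ℚ :=
    { toFun := fun x => ∑ j, (R.e (u j) : ℚ) * sm F (f j x)
      map_zero' := by simp
      map_add' := fun a b => by
        rw [← Finset.sum_add_distrib]
        refine Finset.sum_congr rfl fun j _ => ?_
        rw [map_add, map_add, mul_add] }
  have hΛ : ∀ x, Λ x = ∑ j, (R.e (u j) : ℚ) * sm F (f j x) := fun x => rfl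
  have hΛh : ∀ (h : H) (x : R.P0), Λ (el ℤ (h : G) • x) = (χ h : ℚ) * Λ x := by
    intro h x
    rw [hΛ, hΛ, Finset.mul_sum]
    refine Finset.sum_congr rfl fun j _ => ?_
    rw [map_smul, smul_eq_mul, hsm]
    ring
  have hΛe : ∀ x, FinMod H {g | Λ (el ℤ g • x) ≠ F g * (R.e x : ℤ)} := by
    intro x
    have hex : R.e x = ∑ j, aug ℤ G (f j x) * R.e (u j) := by
      conv_lhs => rw [huf x]
      rw [map_sum]
      exact Finset.sum_congr rfl fun j _ => haug2 _ _
    have key : ∀ s : Finset (Fin n), FinMod H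
        {g | ∃ j ∈ s, sm F (el ℤ g * f j x) ≠ F g * (aug ℤ G (f j x) : ℤ)} := by
      classical
      intro s
      induction s using Finset.induction_on with
      | empty =>
        refine hemp.mono fun g hg => ?_
        obtain ⟨j, hj, _⟩ := hg
        exact absurd hj (Finset.notMem_empty j)
      | insert a s ha ih =>
        refine ((hfs (f a x)).union ih).mono fun g hg => ?_
        obtain ⟨j, hj, hne⟩ := hg
        rcases Finset.mem_insert.1 hj with rfl | hj
        · exact Or.inl hne
        · exact Or.inr ⟨j, hj, hne⟩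
    refine (key Finset.univ).mono fun g hg => ?_
    by_contra hcon
    apply hg
    rw [hΛ, hex, Int.cast_sum, Finset.mul_sum]
    refine Finset.sum_congr rfl fun j _ => ?_
    have h1 : sm F (el ℤ g * f j x) = F g * (aug ℤ G (f j x) : ℤ) := by
      by_contra hne
      exact hcon ⟨j, Finset.mem_univ j, hne⟩
    rw [map_smul, smul_eq_mul, h1, Int.cast_mul]
    ring
  have hd0 : ∀ z, R.e (R.d1 z) = 0 := fun z => (R.ex0 _).2 ⟨z, rfl⟩
  obtain ⟨L, hL, hL2⟩ := hP (Λ.comp R.d1.toAddMonoidHom) ⟨fun h x => by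
      show Λ (R.d1 (el ℤ (h : G) • x)) = _ * Λ (R.d1 x)
      rw [map_smul, hΛh], fun x => (hΛe (R.d1 x)).mono fun g hg => by
      have h1 : Λ (R.d1 (el ℤ g • x)) ≠ 0 := hg
      rw [map_smul] at h1
      show Λ (el ℤ g • R.d1 x) ≠ F g * (R.e (R.d1 x) : ℤ)
      rwa [hd0, Int.cast_zero, mul_zero]⟩ (fun x => by
      show Λ (R.d1 (R.d2 x)) = 0
      rw [(R.ex1 _).2 ⟨x, rfl⟩, map_zero])
  have hLd : ∀ z, Λ (R.d1 z) = L (R.d1 z) := hL2
  have hdiff : ∀ x, Λ x - L x = (R.e x : ℚ) * (Λ x0 - L x0) := by
    intro x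
    obtain ⟨z, hz⟩ := (R.ex0 (x - R.e x • x0)).1 (by
      rw [map_sub, map_zsmul, hx0, smul_eq_mul, mul_one, sub_self])
    have h1 := hLd z
    rw [hz, map_sub, map_sub, map_zsmul, map_zsmul, zsmul_eq_mul, zsmul_eq_mul] at h1
    linarith
  have hc : Λ x0 - L x0 = 0 := by
    have h1 := hdiff (el ℤ (h0 : G) • x0)
    rw [hΛh, hL.1, R.e_smul, hx0, Int.cast_one, one_mul, ← mul_sub] at h1
    have h2 : ((χ h0 : ℚ) - 1) * (Λ x0 - L x0) = 0 := by linarith
    rcases mul_eq_zero.1 h2 with h3 | h3
    · exfalso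
      apply hh0
      apply Units.ext
      rw [Units.val_one]
      linarith
    · exact h3
  have hΛL : ∀ x, Λ x = L x := by
    intro x
    have := hdiff x
    rw [hc, mul_zero] at this
    linarith
  apply hF3
  refine ((hL.2 x0).union (hΛe x0)).mono fun g hg => ?_
  by_contra hcon
  rw [Set.mem_union, not_or] at hcon
  have h1 : L (el ℤ g • x0) = 0 := by
    by_contra hne
    exact hcon.1 hne
  have h2 : Λ (el ℤ g • x0) = F g * (R.e x0 : ℤ) := by
    by_contra hne
    exact hcon.2 hne
  apply hg
  rw [hx0, Int.cast_one, mul_one, hΛL, h1] at h2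
  exact h2.symm

end Pool.Agent.PDA
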