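import Pool.Agent.PDA.StA

/-!
# [GFG] `PD_3`-groups are finitely generated
-/

set_option autoImplicit false
set_option linter.unusedVariables false

namespace Pool.Agent.PDA

open Pool.Agent.PDB

section GFG

variable {G : Type} [Group G]

open Classical in
/-- the sum of the coefficients over `T` -/
noncomputable def gfgL (T : Subgroup G) : ZG G →+ ℤ :=
  MonoidAlgebra.liftNC (AddMonoidHom.id ℤ) (fun g => if g ∈ T then (1 : ℤ) else 0)

open Classical in
theorem gfgL_single (T : Subgroup G) (g : G) (n : ℤ) :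
    gfgL T (MonoidAlgebra.single g n) = if g ∈ T then n else 0 := by
  rw [gfgL, MonoidAlgebra.liftNC_single]
  simp

theorem gfg_aug_single (g : G) (n : ℤ) : aug ℤ G (MonoidAlgebra.single g n) = n := by
  rw [aug, MonoidAlgebra.lift_single]
  simp

theorem gfgL_mul_single (T : Subgroup G) (g : G) (hg : g ∈ T) (n : ℤ) (a : ZG G) :
    gfgL T (a * MonoidAlgebra.single g n) = n * gfgL T a := by
  classical
  induction a using MonoidAlgebra.induction_linear with
  | zero => rw [zero_mul, map_zero, mul_zero]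
  | add x y hx hy => rw [add_mul, map_add, map_add, hx, hy, mul_add]
  | single h m =>
    rw [MonoidAlgebra.single_mul_single, gfgL_single, gfgL_single]
    by_cases h1 : h ∈ T
    · rw [if_pos (T.mul_mem h1 hg), if_pos h1, mul_comm]
    · rw [if_neg, if_neg h1, mul_zero]
      intro h2
      exact h1 ((T.mul_mem_cancel_right hg).1 h2)

theorem gfgL_mul (z : ZG G) : ∃ F : Finset G, ∀ T : Subgroup G, (F : Set G) ⊆ T →
    ∀ a : ZG G, gfgL T (a * z) = aug ℤ G z * gfgL T a := by
  classical
  induction z using MonoidAlgebra.induction_linear with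
  | zero => exact ⟨∅, fun T _ a => by rw [mul_zero, map_zero, map_zero, zero_mul]⟩
  | add x y hx hy =>
    obtain ⟨F1, h1⟩ := hx
    obtain ⟨F2, h2⟩ := hy
    refine ⟨F1 ∪ F2, fun T hT a => ?_⟩
    rw [Finset.coe_union, Set.union_subset_iff] at hT
    rw [mul_add, map_add, map_add, h1 T hT.1, h2 T hT.2, add_mul]
  | single g n =>
    refine ⟨{g}, fun T hT a => ?_⟩
    rw [Finset.coe_singleton, Set.singleton_subset_iff] at hT
    rw [gfgL_mul_single T g hT, gfg_aug_single]

theorem gfg_e_smul (R : Short G) (a : ZG G) (x : R.P0) : R.e (a • x) = aug ℤ G a * R.e x := by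
  induction a using MonoidAlgebra.induction_linear with
  | zero => rw [zero_smul, map_zero, map_zero, zero_mul]
  | add b c hb hc => rw [add_smul, map_add, map_add, hb, hc, add_mul]
  | single g n =>
    have h : (MonoidAlgebra.single g n : ZG G) = n • el ℤ g := by
      rw [el, MonoidAlgebra.of_apply, MonoidAlgebra.smul_single, smul_eq_mul, mul_one]
    rw [gfg_aug_single, h, smul_assoc, map_zsmul, R.e_smul, smul_eq_mul]

/-- the augmentation, as a linear map to the trivial module -/
noncomputable def gfgAug : ZG G →ₗ[ZG G] Tr ℤ G where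
  toFun a := aug ℤ G a
  map_add' a b := map_add (aug ℤ G) a b
  map_smul' a b := map_mul (aug ℤ G) a b

/-- the augmentation of a resolution, as a linear map to the trivial module -/
noncomputable def gfgE (R : Short G) : R.P0 →ₗ[ZG G] Tr ℤ G where
  toFun x := R.e x
  map_add' x y := map_add R.e x y
  map_smul' a x := gfg_e_smul R a x

theorem gfg_beta (R : Short G) : ∃ β : R.P0 →ₗ[ZG G] ZG G, ∀ x, aug ℤ G (β x) = R.e x := by
  have hs : Function.Surjective (gfgAug (G := G)) := by
    intro n
    exact ⟨MonoidAlgebra.single 1 n, gfg_aug_single 1 n⟩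
  obtain ⟨β, hβ⟩ := Module.projective_lifting_property (gfgAug (G := G)) (gfgE R) hs
  exact ⟨β, fun x => congrArg (fun φ : R.P0 →ₗ[ZG G] Tr ℤ G => φ x) hβ⟩

end GFG

theorem thm_GFG : St_GFG := by
  classical
  intro G _ R
  obtain ⟨β, hβ⟩ := gfg_beta R
  obtain ⟨x0, hx0⟩ := R.e_surj 1
  obtain ⟨s, hs⟩ := (Module.Finite.fg_top : (⊤ : Submodule (ZG G) R.P1).FG)
  choose Fz hFz using fun z : ZG G => gfgL_mul z
  let F : Finset G := Fz (1 - β x0) ∪ s.biUnion (fun y => Fz (β (R.d1 y)))
  let T : Subgroup G := Subgroup.closure (F : Set G)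
  have hFT : (F : Set G) ⊆ T := Subgroup.subset_closure
  have hu : ∀ a : ZG G, gfgL T (a * (1 - β x0)) = 0 := by
    intro a
    rw [hFz (1 - β x0) T (fun g hg => hFT ?_) a, map_sub, map_one, hβ, hx0, sub_self, zero_mul]
    exact Finset.mem_coe.2 (Finset.mem_union_left _ (Finset.mem_coe.1 hg))
  have hgen : ∀ y ∈ s, ∀ a : ZG G, gfgL T (a * β (R.d1 y)) = 0 := by
    intro y hy a
    have h0 : R.e (R.d1 y) = 0 := (R.ex0 _).2 ⟨y, rfl⟩
    rw [hFz (β (R.d1 y)) T (fun g hg => hFT ?_) a, hβ, h0, zero_mul]
    exact Finset.mem_coe.2 (Finset.mem_union_right _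
      (Finset.mem_biUnion.2 ⟨y, hy, Finset.mem_coe.1 hg⟩))
  have hall : ∀ y : R.P1, ∀ a : ZG G, gfgL T (a * β (R.d1 y)) = 0 := by
    intro y
    have hy : y ∈ Submodule.span (ZG G) (s : Set R.P1) := by
      rw [hs]
      exact Submodule.mem_top
    induction hy using Submodule.span_induction with
    | mem y hy => exact hgen y hy
    | zero => intro a; rw [map_zero, map_zero, mul_zero, map_zero]
    | add y z _ _ hy hz => intro a; rw [map_add, map_add, mul_add, map_add, hy, hz, add_zero]
    | smul c y _ hy => intro a; rw [map_smul, map_smul, smul_eq_mul, ← mul_assoc, hy]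
  have hT : T = ⊤ := by
    rw [eq_top_iff]
    intro g _
    let a : ZG G := MonoidAlgebra.single g 1 - MonoidAlgebra.single 1 1
    have haug : aug ℤ G a = 0 := by
      rw [map_sub, gfg_aug_single, gfg_aug_single, sub_self]
    have h0 : R.e (a • x0) = 0 := by rw [gfg_e_smul, haug, zero_mul]
    obtain ⟨y, hy⟩ := (R.ex0 _).1 h0
    have h1 : gfgL T (a * β x0) = 0 := by
      have := hall y 1
      rwa [one_mul, hy, map_smul, smul_eq_mul] at this
    have h2 : gfgL T a = 0 := by
      have h3 := hu a
      rw [mul_sub, mul_one, map_sub, h1, sub_zero] at h3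
      exact h3
    rw [map_sub, gfgL_single, gfgL_single, if_pos T.one_mem] at h2
    by_contra hg
    rw [if_neg hg] at h2
    omega
  exact ⟨⟨F, hT⟩⟩

end Pool.Agent.PDA
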