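import Pool.Agent.PDA.StA

/-!
# PDA, HOM : comparison of resolutions, generalized Schanuel lemma, `Ext^2` (helper81 for helper49)
-/

set_option autoImplicit false
set_option linter.unusedVariables false

namespace Pool.Agent.PDA

open Pool.Agent.PDB

private theorem HOM_lift {Λ P M N : Type} [Ring Λ] [AddCommGroup P] [Module Λ P] [AddCommGroup M]
    [Module Λ M] [AddCommGroup N] [Module Λ N] [Module.Projective Λ P] (f : M →ₗ[Λ] N)
    (g : P →ₗ[Λ] N) (h : ∀ x, g x ∈ LinearMap.range f) : ∃ l : P →ₗ[Λ] M, ∀ x, f (l x) = g x := by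
  obtain ⟨l, hl⟩ := Module.projective_lifting_property f.rangeRestrict
    (g.codRestrict (LinearMap.range f) h) f.surjective_rangeRestrict
  refine ⟨l, fun x => ?_⟩
  have h1 := LinearMap.congr_fun hl x
  exact congrArg Subtype.val h1

theorem thm_HOM : St_HOM := by
  intro Λ M F0 F1 Q0 Q1 _ _ _ _ _ _ _ _ _ _ _ _ _ _ _ e f e' f' he he' hf hf'
  have hef : ∀ x, e (f x) = 0 := fun x => by
    have : f x ∈ LinearMap.ker e := hf ▸ LinearMap.mem_range_self f x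
    exact this
  have hef' : ∀ x, e' (f' x) = 0 := fun x => by
    have : f' x ∈ LinearMap.ker e' := hf' ▸ LinearMap.mem_range_self f' x
    exact this
  obtain ⟨α0, hα0⟩ := HOM_lift e e' (fun x => he (e' x))
  obtain ⟨β0, hβ0⟩ := HOM_lift e' e (fun x => he' (e x))
  obtain ⟨α1, hα1⟩ := HOM_lift f (α0 ∘ₗ f') (fun x => by
    rw [hf, LinearMap.mem_ker, LinearMap.comp_apply, hα0, hef'])
  obtain ⟨β1, hβ1⟩ := HOM_lift f' (β0 ∘ₗ f) (fun x => by
    rw [hf', LinearMap.mem_ker, LinearMap.comp_apply, hβ0, hef])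
  obtain ⟨h, hh⟩ := HOM_lift f' (β0 ∘ₗ α0 - LinearMap.id) (fun x => by
    rw [hf', LinearMap.mem_ker, LinearMap.sub_apply, LinearMap.comp_apply, map_sub, hβ0, hα0,
      LinearMap.id_apply, sub_self])
  refine ⟨α1, β1, β1 ∘ₗ α1 - LinearMap.id - h ∘ₗ f', fun x hx => ?_, fun x hx => ?_, fun x => ?_,
    fun x hx => ?_⟩
  · rw [hα1, LinearMap.comp_apply, hx, map_zero]
  · rw [hβ1, LinearMap.comp_apply, hx, map_zero]
  · rw [LinearMap.sub_apply, LinearMap.sub_apply, map_sub, map_sub, LinearMap.comp_apply,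
      LinearMap.comp_apply, hβ1, hh, LinearMap.comp_apply, hα1, LinearMap.sub_apply,
      LinearMap.comp_apply, LinearMap.comp_apply, LinearMap.id_apply, LinearMap.id_apply, sub_self]
  · rw [LinearMap.sub_apply, LinearMap.sub_apply, LinearMap.comp_apply, LinearMap.comp_apply, hx,
      map_zero, sub_zero, LinearMap.id_apply, sub_sub_cancel]

theorem thm_SCH : St_SCH := by
  intro Λ M F0 F1 Q0 Q1 _ _ _ _ _ _ _ _ _ _ _ _ _ _ _ e f e' f' he he' hf hf' hP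
  obtain ⟨α, β, γ, h1, h2, h3, h4⟩ := thm_HOM Λ M F0 F1 Q0 Q1 e f e' f' he he' hf hf'
  let i : LinearMap.ker f' →ₗ[Λ] LinearMap.ker f × Q1 :=
    ((α ∘ₗ (LinearMap.ker f').subtype).codRestrict (LinearMap.ker f)
      (fun x => h1 x (LinearMap.mem_ker.1 x.2))).prod (LinearMap.ker f').subtype
  let r : LinearMap.ker f × Q1 →ₗ[Λ] LinearMap.ker f' :=
    ((β ∘ₗ (LinearMap.ker f).subtype ∘ₗ LinearMap.fst Λ _ _) - γ ∘ₗ LinearMap.snd Λ _ _).codRestrict
      (LinearMap.ker f') (fun x => by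
        change f' (β (x.1 : F1) - γ x.2) = 0
        rw [map_sub, h2 _ (LinearMap.mem_ker.1 x.1.2), h3, sub_zero])
  refine Module.Projective.of_split i r ?_
  apply LinearMap.ext
  intro x
  apply Subtype.ext
  exact h4 x (LinearMap.mem_ker.1 x.2)

theorem thm_EX2 : St_EX2 := by
  intro Λ M F0 F1 Q0 Q1 U _ _ _ _ _ _ _ _ _ _ _ _ _ _ _ _ _ e f e' f' he he' hf hf' hE φ
  obtain ⟨α, β, γ, h1, h2, h3, h4⟩ := thm_HOM Λ M F0 F1 Q0 Q1 e f e' f' he he' hf hf'
  let b : LinearMap.ker f →ₗ[Λ] LinearMap.ker f' :=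
    (β ∘ₗ (LinearMap.ker f).subtype).codRestrict (LinearMap.ker f')
      (fun x => h2 x (LinearMap.mem_ker.1 x.2))
  let g : Q1 →ₗ[Λ] LinearMap.ker f' := γ.codRestrict (LinearMap.ker f') h3
  obtain ⟨ψ, hψ⟩ := hE (φ ∘ₗ b)
  refine ⟨ψ ∘ₗ α - φ ∘ₗ g, fun x => ?_⟩
  have hx : f (α x) = 0 := h1 x (LinearMap.mem_ker.1 x.2)
  have h5 := hψ ⟨α x, LinearMap.mem_ker.2 hx⟩
  have h6 : b ⟨α x, LinearMap.mem_ker.2 hx⟩ - g x = x :=
    Subtype.ext (h4 x (LinearMap.mem_ker.1 x.2))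
  change ψ (α x) - φ (g x) = φ x
  have h7 : ψ (α x) = φ (b ⟨α x, LinearMap.mem_ker.2 hx⟩) := h5
  rw [h7, ← map_sub, h6]

end Pool.Agent.PDA
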