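import Pool.Agent.PDA.StB

/-!
# PDA, IND: elements of a projective module independent modulo `I P` are independent
-/

set_option autoImplicit false

namespace Pool.Agent.PDA

open Pool.Agent.PDB

namespace INDx

section

variable {k Λ : Type} [Field k] [Ring Λ] [Algebra k Λ] (ε : Λ →ₐ[k] k)

lemma mem_J (a : Λ) : a ∈ J ε ↔ ε a = 0 := Iff.rfl

lemma top_mul_J : (⊤ : Submodule k Λ) * J ε ≤ J ε := by
  rw [Submodule.mul_le]
  intro a _ b hb
  rw [mem_J] at hb ⊢
  rw [map_mul, hb, mul_zero]

lemma Pw_mul_J (n : ℕ) : Pw ε n * J ε ≤ Pw ε (n + 1) := by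
  induction n with
  | zero =>
    refine (top_mul_J ε).trans ?_
    intro a ha
    have h1 : a * 1 ∈ J ε * (⊤ : Submodule k Λ) := Submodule.mul_mem_mul ha Submodule.mem_top
    rw [mul_one] at h1
    exact h1
  | succ n ih =>
    change J ε * Pw ε n * J ε ≤ J ε * Pw ε (n + 1)
    rw [mul_assoc]
    exact Submodule.mul_le.2 fun a ha b hb => Submodule.mul_mem_mul ha (ih hb)

end

end INDx

open INDx in
theorem thm_IND : St_IND := by
  intro k Λ P _ _ _ ε _ _ hS hP m y hy
  obtain ⟨s, hs⟩ := hP.out
  -- the vectors over `k`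
  let v : Fin m → (P →₀ k) := fun i => (s (y i)).mapRange ε (map_zero ε)
  have hv : ∀ c : Fin m → k, ∑ i, c i • v i = 0 → c = 0 := by
    intro c hc
    apply hy
    set z := ∑ i, algebraMap k Λ (c i) • y i with hz
    have h1 : ∀ x, ε (s z x) = 0 := by
      intro x
      have h2 := DFunLike.congr_fun hc x
      rw [Finsupp.finsetSum_apply] at h2
      rw [hz, map_sum, Finsupp.finsetSum_apply, map_sum]
      rw [Finsupp.coe_zero, Pi.zero_apply] at h2
      rw [← h2]
      refine Finset.sum_congr rfl fun i _ => ?_
      rw [map_smul, Finsupp.smul_apply, Finsupp.smul_apply, smul_eq_mul, smul_eq_mul, map_mul,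
        AlgHom.commutes]
      rfl
    rw [← hs z, Finsupp.linearCombination_apply]
    refine AddSubgroup.sum_mem _ fun x _ => ?_
    exact AddSubgroup.subset_closure ⟨s z x, h1 x, x, Submodule.mem_top, rfl⟩
  let Φ : (Fin m → k) →ₗ[k] (P →₀ k) := Fintype.linearCombination k v
  have hΦ : ∀ c, Φ c = ∑ i, c i • v i := fun c => Fintype.linearCombination_apply k v c
  have hker : LinearMap.ker Φ = ⊥ := by
    rw [LinearMap.ker_eq_bot']
    intro c hc
    rw [hΦ] at hc
    exact hv c hc
  obtain ⟨g, hg⟩ := Φ.exists_leftInverse_of_injective hker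
  have hgv : ∀ b a, g (v b) a = if b = a then 1 else 0 := by
    intro b a
    have h1 : Φ (Pi.single b 1) = v b := by
      rw [hΦ, Finset.sum_eq_single b]
      · rw [Pi.single_eq_same, one_smul]
      · intro i _ hi
        rw [Pi.single_eq_of_ne hi, zero_smul]
      · intro h'
        exact absurd (Finset.mem_univ b) h'
    rw [← h1]
    have h2 : g (Φ (Pi.single b 1)) = Pi.single b 1 := LinearMap.congr_fun hg _
    rw [h2, Pi.single_apply]
    by_cases h : b = a
    · rw [if_pos h, if_pos h.symm]
    · rw [if_neg h, if_neg (fun h' => h h'.symm)]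
  let L : Fin m → (P →ₗ[Λ] Λ) := fun a =>
    (Finsupp.linearCombination Λ
      (fun x : P => algebraMap k Λ (g (Finsupp.single x 1) a))) ∘ₗ s
  have hL : ∀ a z, ε (L a z) = g ((s z).mapRange ε (map_zero ε)) a := by
    intro a z
    have h1 : ((s z).mapRange ε (map_zero ε)) =
        ∑ x ∈ (s z).support, ε (s z x) • (Finsupp.single x (1 : k)) := by
      ext x
      rw [Finsupp.mapRange_apply, Finsupp.finsetSum_apply]
      by_cases hx : x ∈ (s z).support
      · rw [Finset.sum_eq_single x]
        · rw [Finsupp.smul_apply, Finsupp.single_eq_same, smul_eq_mul, mul_one]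
        · intro w _ hw
          rw [Finsupp.smul_apply, Finsupp.single_eq_of_ne (Ne.symm hw), smul_zero]
        · intro h'
          exact absurd hx h'
      · rw [Finsupp.notMem_support_iff.1 hx, map_zero, Finset.sum_eq_zero]
        intro w hw
        rw [Finsupp.smul_apply, Finsupp.single_eq_of_ne, smul_zero]
        intro h'
        exact hx (h' ▸ hw)
    rw [h1, map_sum, Finset.sum_apply]
    change ε (Finsupp.linearCombination Λ _ (s z)) = _
    rw [Finsupp.linearCombination_apply, Finsupp.sum, map_sum]
    refine Finset.sum_congr rfl fun x _ => ?_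
    rw [smul_eq_mul, map_mul, AlgHom.commutes, map_smul, Pi.smul_apply, smul_eq_mul]
    rfl
  rw [Fintype.linearIndependent_iff]
  intro l hl
  have key : ∀ n a, l a ∈ Pw ε n := by
    intro n
    induction n with
    | zero => intro a; exact Submodule.mem_top
    | succ n ih =>
      intro a
      have h1 : ∑ b, l b * L a (y b) = 0 := by
        have h2 := congrArg (L a) hl
        rw [map_sum, map_zero] at h2
        rw [← h2]
        refine Finset.sum_congr rfl fun b _ => ?_
        rw [map_smul, smul_eq_mul]
      have h3 : l a = -∑ b, l b * (L a (y b) - if b = a then 1 else 0) := by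
        simp only [mul_sub, Finset.sum_sub_distrib, mul_ite, mul_one, mul_zero]
        rw [h1, Finset.sum_ite_eq' Finset.univ a l, if_pos (Finset.mem_univ a)]
        abel
      rw [h3]
      refine Submodule.neg_mem _ (Submodule.sum_mem _ fun b _ => ?_)
      apply Pw_mul_J ε n
      refine Submodule.mul_mem_mul (ih b) ?_
      rw [mem_J, map_sub, hL, sub_eq_zero]
      have h4 := hgv b a
      rw [h4]
      split_ifs
      · rw [map_one]
      · rw [map_zero]
  intro a
  exact hS (l a) fun n => key n a

end Pool.Agent.PDA
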