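import Pool.Agent.PDA.StB

/-!
# PDA, module INS: `InPD3`, `ResP` and `TorFree` pass to subgroups
-/

set_option autoImplicit false

namespace Pool.Agent.PDA

open Pool.Agent.PDB

theorem thm_INS : St_INS := by
  intro H K _ _ j hj
  refine ⟨?_, ?_, ?_⟩
  · rintro ⟨G, iG, hG, j', hj', h0⟩
    refine ⟨G, iG, hG, j'.comp j, hj'.comp hj, ?_⟩
    have hle : (j'.comp j).range ≤ j'.range := by
      rintro _ ⟨x, rfl⟩
      exact ⟨j x, rfl⟩
    have hd := Subgroup.index_dvd_of_le hle
    rw [h0] at hd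
    exact Nat.eq_zero_of_zero_dvd hd
  · intro p hp hH g hg
    obtain ⟨N, hN, ⟨n, hn⟩, hgN⟩ := hH (j g) (fun h => hg (hj (h.trans (map_one j).symm)))
    haveI := hN
    refine ⟨N.comap j, inferInstance, ?_, ?_⟩
    · have hd : (N.comap j).index ∣ p ^ n := by
        rw [Subgroup.index_comap, ← hn]
        exact Subgroup.relIndex_dvd_index_of_normal N j.range
      obtain ⟨m, _, hm⟩ := (Nat.dvd_prime_pow hp).mp hd
      exact ⟨m, hm⟩
    · intro h
      exact hgN h
  · intro hH c n hn hc
    have h1 : j c ^ n = 1 := by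
      rw [← map_pow, hc, map_one]
    exact hj ((hH (j c) n hn h1).trans (map_one j).symm)

end Pool.Agent.PDA
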