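import Pool.Agent.PDA.StF

/-!
# PDA, module KLE: the Klein bottle case
-/

set_option autoImplicit false
set_option linter.unusedVariables false

namespace Pool.Agent.PDA

open Pool.Agent.PDB Subgroup

theorem thm_KLE (hG : St_KLG) (hA : St_ABK) (hP : St_PZ3) : St_KLE := by
  intro G _ R S _ j hj π s x t hs hx ht hxt hind hsx hst hcl
  obtain ⟨⟨l, hl⟩, ⟨m, hm⟩, hidx⟩ := hG S s x t hxt hind hsx hst hcl
  refine ⟨closure {s, x, t * t}, hidx, ?_⟩
  set T := closure {s, x, t * t} with hT
  have hsT : s ∈ T := subset_closure (by simp)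
  have hxT : x ∈ T := subset_closure (by simp)
  have hyT : t * t ∈ T := subset_closure (by simp)
  -- `x` commutes with `t * t`
  have h1 : t * x = x⁻¹ * t := by
    rw [mul_inv_eq_iff_eq_mul] at hxt
    exact hxt
  have h2 : t * x⁻¹ = x * t := by
    have h3 : t * x⁻¹ * t⁻¹ = x := by
      have h4 := congrArg (fun g => g⁻¹) hxt
      simp only [mul_inv_rev, inv_inv] at h4
      rw [← mul_assoc] at h4
      exact h4
    rw [mul_inv_eq_iff_eq_mul] at h3
    exact h3
  have hxy : x * (t * t) = t * t * x := by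
    rw [mul_assoc t t x, h1, ← mul_assoc t x⁻¹ t, h2, mul_assoc]
  have hind' : Ind2 x (t * t) := by
    intro a b h
    have h3 : (t * t) ^ b = t ^ (2 * b) := by
      rw [zpow_mul]
      congr 1
      exact (zpow_two t).symm
    rw [h3] at h
    obtain ⟨h4, h5⟩ := hind a (2 * b) h
    exact ⟨h4, by omega⟩
  let s' : T := ⟨s, hsT⟩
  let x' : T := ⟨x, hxT⟩
  let y' : T := ⟨t * t, hyT⟩
  have hj' : Function.Injective (j.comp T.subtype) := hj.comp T.subtype_injective
  have hs' : (π.comp T.subtype) s' = Multiplicative.ofAdd 1 := hs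
  have hx' : (π.comp T.subtype) x' = 1 := hx
  have hy' : (π.comp T.subtype) y' = 1 := by
    show π (t * t) = 1
    rw [map_mul, ht, mul_one]
  have hxy' : x' * y' = y' * x' := Subtype.ext hxy
  have hind'' : Ind2 x' y' := by
    intro a b h
    exact hind' a b (congrArg Subtype.val h)
  have hcl' : closure {s', x', y'} = ⊤ := by
    rw [eq_top_iff]
    rintro ⟨g, hg⟩ _
    have key : ∀ g (hg : g ∈ T), (⟨g, hg⟩ : T) ∈ closure {s', x', y'} := by
      intro g hg
      induction hg using closure_induction with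
      | mem g hg =>
        have h3 : g = s ∨ g = x ∨ g = t * t := by simpa using hg
        rcases h3 with rfl | rfl | rfl
        · exact subset_closure (by simp [s'])
        · exact subset_closure (by simp [x'])
        · exact subset_closure (by simp [y'])
      | one => exact one_mem _
      | mul a b ha hb iha ihb => exact mul_mem iha ihb
      | inv a ha iha => exact inv_mem iha
    exact key g hg
  have hsx' : ∃ a b : ℤ, s' * x' * s'⁻¹ = x' ^ a * y' ^ b :=
    ⟨l, 0, Subtype.ext (by
      show s * x * s⁻¹ = x ^ l * (t * t) ^ (0 : ℤ)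
      rw [zpow_zero, mul_one, hl])⟩
  have hsy' : ∃ a b : ℤ, s' * y' * s'⁻¹ = x' ^ a * y' ^ b :=
    ⟨0, m, Subtype.ext (by
      show s * (t * t) * s⁻¹ = x ^ (0 : ℤ) * (t * t) ^ m
      rw [zpow_zero, one_mul, hm])⟩
  have hK := hA G R T (j.comp T.subtype) hj' (π.comp T.subtype) s' x' y' hs' hx' hy' hxy' hind''
    hsx' hsy' hcl'
  refine hP T (π.comp T.subtype) x' y' ?_ hx' hy' hxy' hind'' hK
  intro q
  refine ⟨s' ^ (Multiplicative.toAdd q), ?_⟩
  rw [map_zpow, hs', ← ofAdd_zsmul, smul_eq_mul, mul_one]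
  rfl

end Pool.Agent.PDA
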