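import Pool.Agent.PDA.StF

/-!
# PDA: module KLG, group theory of the Klein bottle case
-/

set_option autoImplicit false

namespace Pool.Agent.PDA

open Pool.Agent.PDB Subgroup

section

variable {S : Type} [Group S]

private theorem KLG_one {x t : S} (h : t * x * t⁻¹ = x⁻¹) (c : ℤ) : t * x ^ c = x ^ (-c) * t := by
  have h1 : (t * x * t⁻¹) ^ c = t * x ^ c * t⁻¹ := conj_zpow
  rw [h] at h1
  rw [zpow_neg, ← inv_zpow, h1]
  group

private theorem KLG_two {x t : S} (h : t * x * t⁻¹ = x⁻¹) (c : ℤ) :
    Commute (t * t) (x ^ c) := by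
  show t * t * x ^ c = x ^ c * (t * t)
  rw [mul_assoc, KLG_one h, ← mul_assoc, KLG_one h, neg_neg, mul_assoc]

private theorem KLG_dbl (t : S) (k : ℤ) : t ^ (k + k) = (t * t) ^ k := by
  rw [zpow_add, (Commute.refl t).mul_zpow]

private theorem KLG_even {x t : S} (h : t * x * t⁻¹ = x⁻¹) {b : ℤ} (hb : Even b) (c : ℤ) :
    t ^ b * x ^ c = x ^ c * t ^ b := by
  obtain ⟨k, rfl⟩ := hb
  rw [KLG_dbl]
  exact ((KLG_two h c).zpow_left k).eq

private theorem KLG_odd {x t : S} (h : t * x * t⁻¹ = x⁻¹) {b : ℤ} (hb : Odd b) (c : ℤ) :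
    t ^ b * x ^ c = x ^ (-c) * t ^ b := by
  obtain ⟨k, rfl⟩ := hb
  rw [zpow_add, zpow_one, mul_assoc, KLG_one h, ← mul_assoc, KLG_even h (even_two_mul k),
    mul_assoc]

private theorem KLG_uniq {x t : S} (hind : Ind2 x t) {a b c d : ℤ}
    (he : x ^ a * t ^ b = x ^ c * t ^ d) : a = c ∧ b = d := by
  have h1 : x ^ (a - c) * t ^ (b - d) = 1 := by
    have h2 : x ^ (-c) * (x ^ a * t ^ b) * t ^ (-d) = 1 := by
      rw [he]
      group
    rw [← h2]
    group
  obtain ⟨h3, h4⟩ := hind _ _ h1
  exact ⟨by omega, by omega⟩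

end

/-- module KLG -/
theorem thm_KLG : St_KLG := by
  intro S _ s x t htx hind hx ht hcl
  obtain ⟨a, b, hab⟩ := hx
  obtain ⟨c, d, hcd⟩ := ht
  -- the relation of the conjugates
  have hrel : (x ^ c * t ^ d) * (x ^ a * t ^ b) = (x ^ a * t ^ b)⁻¹ * (x ^ c * t ^ d) := by
    rw [← hab, ← hcd]
    have h1 : t * x = x⁻¹ * t := by
      have := congrArg (· * t) htx
      simpa using this
    have h2 : s * t * s⁻¹ * (s * x * s⁻¹) = s * (t * x) * s⁻¹ := by group
    have h3 : (s * x * s⁻¹)⁻¹ * (s * t * s⁻¹) = s * (x⁻¹ * t) * s⁻¹ := by group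
    rw [h2, h3, h1]
  have hinv : (x ^ a * t ^ b)⁻¹ * (x ^ c * t ^ d) = t ^ (-b) * x ^ (c - a) * t ^ d := by
    group
  rw [hinv] at hrel
  have hb : b = 0 := by
    rcases Int.even_or_odd b with hb | hb
    · rw [KLG_even htx hb.neg] at hrel
      rcases Int.even_or_odd d with hd | hd
      · have e1 : x ^ c * t ^ d * (x ^ a * t ^ b) = x ^ (c + a) * t ^ (d + b) := by
          rw [mul_assoc, ← mul_assoc (t ^ d), KLG_even htx hd]
          group
        have e2 : x ^ (c - a) * t ^ (-b) * t ^ d = x ^ (c - a) * t ^ (d - b) := by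
          rw [mul_assoc, ← zpow_add]
          congr 2
          ring
        rw [e1, e2] at hrel
        have := (KLG_uniq hind hrel).2
        omega
      · have e1 : x ^ c * t ^ d * (x ^ a * t ^ b) = x ^ (c - a) * t ^ (d + b) := by
          rw [mul_assoc, ← mul_assoc (t ^ d), KLG_odd htx hd]
          group
        have e2 : x ^ (c - a) * t ^ (-b) * t ^ d = x ^ (c - a) * t ^ (d - b) := by
          rw [mul_assoc, ← zpow_add]
          congr 2
          ring
        rw [e1, e2] at hrel
        have := (KLG_uniq hind hrel).2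
        omega
    · rw [KLG_odd htx hb.neg] at hrel
      rcases Int.even_or_odd d with hd | hd
      · have e1 : x ^ c * t ^ d * (x ^ a * t ^ b) = x ^ (c + a) * t ^ (d + b) := by
          rw [mul_assoc, ← mul_assoc (t ^ d), KLG_even htx hd]
          group
        have e2 : x ^ (-(c - a)) * t ^ (-b) * t ^ d = x ^ (-(c - a)) * t ^ (d - b) := by
          rw [mul_assoc, ← zpow_add]
          congr 2
          ring
        rw [e1, e2] at hrel
        have := (KLG_uniq hind hrel).2
        omega
      · have e1 : x ^ c * t ^ d * (x ^ a * t ^ b) = x ^ (c - a) * t ^ (d + b) := by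
          rw [mul_assoc, ← mul_assoc (t ^ d), KLG_odd htx hd]
          group
        have e2 : x ^ (-(c - a)) * t ^ (-b) * t ^ d = x ^ (-(c - a)) * t ^ (d - b) := by
          rw [mul_assoc, ← zpow_add]
          congr 2
          ring
        rw [e1, e2] at hrel
        have := (KLG_uniq hind hrel).2
        omega
  subst hb
  have hab' : s * x * s⁻¹ = x ^ a := by rw [hab, zpow_zero, mul_one]
  have ha : a ≠ 0 := by
    rintro rfl
    rw [zpow_zero] at hab'
    have hx1 : x = 1 := by
      have h1 : s * x = s := by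
        have := congrArg (· * s) hab'
        simpa using this
      exact mul_eq_left.1 h1
    have := (hind 1 0 (by rw [hx1]; simp)).1
    omega
  have hd : Odd d := by
    rcases Int.even_or_odd d with hd | hd
    · exfalso
      have e1 : x ^ c * t ^ d * (x ^ a * t ^ (0 : ℤ)) = x ^ (c + a) * t ^ d := by
        rw [zpow_zero, mul_one, mul_assoc, KLG_even htx hd]
        group
      have e2 : t ^ (-(0 : ℤ)) * x ^ (c - a) * t ^ d = x ^ (c - a) * t ^ d := by
        rw [neg_zero, zpow_zero, one_mul]
      rw [e1, e2] at hrel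
      have := (KLG_uniq hind hrel).1
      omega
    · exact hd
  refine ⟨⟨a, hab'⟩, ⟨d, ?_⟩, ?_⟩
  · have e1 : s * (t * t) * s⁻¹ = (s * t * s⁻¹) * (s * t * s⁻¹) := by group
    rw [e1, hcd]
    have e2 : x ^ c * t ^ d * (x ^ c * t ^ d) = x ^ c * (t ^ d * x ^ c) * t ^ d := by group
    rw [e2, KLG_odd htx hd, (Commute.refl t).mul_zpow]
    group
  · set T : Subgroup S := closure {s, x, t * t} with hT
    have hsT : s ∈ T := subset_closure (by simp)
    have hxT : x ∈ T := subset_closure (by simp)
    have hyT : t * t ∈ T := subset_closure (by simp)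
    have htxT : t⁻¹ * x * t ∈ T := by
      have h1 : t⁻¹ * x * t = x⁻¹ := by
        have h2 : t * x ^ (-1 : ℤ) = x ^ (-(-1) : ℤ) * t := KLG_one htx (-1)
        rw [neg_neg, zpow_one, zpow_neg, zpow_one] at h2
        rw [mul_assoc, ← h2]
        group
      rw [h1]
      exact inv_mem hxT
    have htsT : t⁻¹ * s * t ∈ T := by
      obtain ⟨k, hk⟩ := hd
      have h1 : s * t = x ^ c * t ^ d * s := by
        rw [← hcd]
        group
      have h2 : t⁻¹ * s * t = t ^ (-1 : ℤ) * x ^ c * t ^ d * s := by
        rw [mul_assoc, h1, zpow_neg, zpow_one]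
        group
      have h3 : t ^ (-1 : ℤ) * x ^ c = x ^ (-c) * t ^ (-1 : ℤ) :=
        KLG_odd htx (by decide) c
      have h4 : t⁻¹ * s * t = x ^ (-c) * (t * t) ^ k * s := by
        rw [h2, h3, ← KLG_dbl, mul_assoc (x ^ (-c)), ← zpow_add, hk]
        congr 3
        ring
      rw [h4]
      exact mul_mem (mul_mem (zpow_mem hxT _) (zpow_mem hyT _)) hsT
    have key : ∀ g : S, g ∈ T ∨ t⁻¹ * g ∈ T := by
      intro g
      have hg : g ∈ closure ({s, x, t} : Set S) := by rw [hcl]; exact mem_top g
      have hN : ∀ u : S, u ∈ T → t⁻¹ * u * t ∈ T → ∀ y : S, (y ∈ T ∨ t⁻¹ * y ∈ T) →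
          (u * y ∈ T ∨ t⁻¹ * (u * y) ∈ T) := by
        rintro u hu htu y (hy | hy)
        · exact Or.inl (mul_mem hu hy)
        · right
          have e : t⁻¹ * (u * y) = (t⁻¹ * u * t) * (t⁻¹ * y) := by group
          rw [e]
          exact mul_mem htu hy
      have hI : ∀ u : S, t⁻¹ * u * t ∈ T → t⁻¹ * u⁻¹ * t ∈ T := by
        intro u hu
        have e : t⁻¹ * u⁻¹ * t = (t⁻¹ * u * t)⁻¹ := by group
        rw [e]
        exact inv_mem hu
      refine closure_induction_left (p := fun g _ => g ∈ T ∨ t⁻¹ * g ∈ T) ?_ ?_ ?_ hg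
      · exact Or.inl (one_mem _)
      · intro u hu y _ hy
        rcases hu with rfl | rfl | rfl
        · exact hN _ hsT htsT y hy
        · exact hN _ hxT htxT y hy
        · rcases hy with hy | hy
          · right
            rw [inv_mul_cancel_left]
            exact hy
          · left
            have e : u * y = (u * u) * (u⁻¹ * y) := by group
            rw [e]
            exact mul_mem hyT hy
      · intro u hu y _ hy
        rcases hu with rfl | rfl | rfl
        · exact hN _ (inv_mem hsT) (hI _ htsT) y hy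
        · exact hN _ (inv_mem hxT) (hI _ htxT) y hy
        · rcases hy with hy | hy
          · right
            have e : u⁻¹ * (u⁻¹ * y) = (u * u)⁻¹ * y := by group
            rw [e]
            exact mul_mem (inv_mem hyT) hy
          · exact Or.inl hy
    have hfin : Finite (S ⧸ T) := by
      refine Finite.of_surjective
        (fun b : Bool => if b = true then (QuotientGroup.mk (1 : S) : S ⧸ T)
          else QuotientGroup.mk t) ?_
      intro q
      obtain ⟨g, rfl⟩ := QuotientGroup.mk_surjective q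
      rcases key g with hg | hg
      · refine ⟨true, ?_⟩
        show (QuotientGroup.mk (1 : S) : S ⧸ T) = QuotientGroup.mk g
        rw [QuotientGroup.eq, inv_one, one_mul]
        exact hg
      · refine ⟨false, ?_⟩
        show (QuotientGroup.mk t : S ⧸ T) = QuotientGroup.mk g
        rw [QuotientGroup.eq]
        exact hg
    exact Subgroup.index_ne_zero_of_finite

end Pool.Agent.PDA
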