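import Pool.Agent.PDA.StF

/-!
# PDA: NZC, the elements `c(x,y)` are not zero modulo `I_K P` (helper81)
-/

set_option autoImplicit false
set_option linter.unusedVariables false

namespace Pool.Agent.PDA

open Pool.Agent.PDB Subgroup

namespace NZCx

variable {S : Type} [Group S]

/-- the additive functional with the values `φ g` -/
private noncomputable def fn (φ : S → ℚ) : ZG S →+ ℚ :=
  MonoidAlgebra.liftNC (Int.castAddHom ℚ) φ

private lemma fn_el (φ : S → ℚ) (g : S) : fn φ (el ℤ g) = φ g := by
  have h : el ℤ g = MonoidAlgebra.single g (1 : ℤ) := rfl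
  rw [h, fn, MonoidAlgebra.liftNC_single]
  simp

private lemma ext_el (F G : ZG S →+ ℚ) (h : ∀ g : S, F (el ℤ g) = G (el ℤ g)) (a : ZG S) :
    F a = G a := by
  induction a using MonoidAlgebra.induction_linear with
  | zero => rw [map_zero, map_zero]
  | add x y hx hy => rw [map_add, map_add, hx, hy]
  | single g n =>
    have e : MonoidAlgebra.single g n = n • el ℤ g := by
      have h : el ℤ g = MonoidAlgebra.single g (1 : ℤ) := rfl
      rw [h]
      simp
    rw [e, map_zsmul, map_zsmul, h g]

private lemma el_mul (g h : S) : el ℤ (g * h) = el ℤ g * el ℤ h := map_mul _ _ _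

private lemma el_one : el ℤ (1 : S) = 1 := map_one _

/-- `τ g = g s^(-π g)` -/
private def ta (π : S →* Multiplicative ℤ) (s : S) (hs : π s = Multiplicative.ofAdd 1) (g : S) :
    π.ker :=
  ⟨g * (s ^ (Multiplicative.toAdd (π g)))⁻¹, by
    rw [MonoidHom.mem_ker, map_mul, map_inv, map_zpow, hs, ← ofAdd_zsmul]
    simp⟩

private lemma pi_s (π : S →* Multiplicative ℤ) (s : S) (hs : π s = Multiplicative.ofAdd 1) (n : ℤ) :
    Multiplicative.toAdd (π (s ^ n)) = n := by
  rw [map_zpow, hs, ← ofAdd_zsmul]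
  simp

private lemma ta_mul (π : S →* Multiplicative ℤ) (s : S) (hs : π s = Multiplicative.ofAdd 1)
    (g h : S) : ta π s hs (g * h) =
      ta π s hs g * ta π s hs (s ^ (Multiplicative.toAdd (π g)) * h) := by
  apply Subtype.ext
  simp only [ta, Subgroup.coe_mul, map_mul, toAdd_mul, pi_s π s hs]
  group

private lemma ta_ker (π : S →* Multiplicative ℤ) (s : S) (hs : π s = Multiplicative.ofAdd 1)
    (u : π.ker) (g : S) : ta π s hs ((u : S) * g) = u * ta π s hs g := by
  have hu : π (u : S) = 1 := MonoidHom.mem_ker.1 u.2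
  apply Subtype.ext
  simp only [ta, Subgroup.coe_mul, map_mul, hu, one_mul]
  group

private lemma ta_one (π : S →* Multiplicative ℤ) (s : S) (hs : π s = Multiplicative.ofAdd 1) :
    ta π s hs 1 = 1 := by
  apply Subtype.ext
  simp [ta]

end NZCx

open NZCx in
theorem thm_NZC : St_NZC := by
  intro S _ π s hs d z e he α β hα hβ x y hxy hmem
  have hβ1 : β 1 = 0 := by
    have := hβ 1 1
    rw [mul_one] at this
    linarith
  set τ := ta π s hs with hτ
  set B : ZG S →+ ℚ := fn fun g => β (τ g) with hB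
  set A : Fin d → ZG S →+ ℚ := fun i =>
    fn fun g => α (τ g) * β (τ (s ^ (Multiplicative.toAdd (π g)) * z i)) with hA
  have key : ∀ (i : Fin d) (u : π.ker) (a : ZG S),
      A i ((el ℤ (u : S) - 1) * a) = α u * B (a * (el ℤ (z i) - 1)) := by
    intro i u a
    refine ext_el ((A i).comp (AddMonoidHom.mulLeft (el ℤ (u : S) - 1)))
      ((AddMonoidHom.mulLeft (α u)).comp (B.comp (AddMonoidHom.mulRight (el ℤ (z i) - 1))))
      (fun g => ?_) a
    simp only [AddMonoidHom.comp_apply, AddMonoidHom.coe_mulLeft, AddMonoidHom.coe_mulRight]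
    rw [sub_mul, one_mul, mul_sub, mul_one, ← el_mul, ← el_mul, map_sub, map_sub]
    have hu : π (u : S) = 1 := MonoidHom.mem_ker.1 u.2
    have t1 : τ ((u : S) * g) = u * τ g := ta_ker π s hs u g
    have t2 : τ (g * z i) = τ g * τ (s ^ (Multiplicative.toAdd (π g)) * z i) :=
      ta_mul π s hs g (z i)
    simp only [hA, hB, fn_el]
    rw [t1, t2, hα, hβ, map_mul, hu, one_mul]
    ring
  -- the functional
  let Φ : (Fin d → ZG S) →+ ℚ :=
    { toFun := fun f => ∑ i, A i (f i)
      map_zero' := by simp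
      map_add' := fun f g => by simp only [Pi.add_apply, map_add, Finset.sum_add_distrib] }
  have hΦ : ∀ (u : π.ker) (f : Fin d → ZG S), Φ ((el ℤ (u : S) - 1) • f) = α u * B (bd ℤ z f) := by
    intro u f
    change ∑ i, A i (((el ℤ (u : S) - 1) • f) i) = α u * B (∑ i, f i * (el ℤ (z i) - 1))
    rw [map_sum, Finset.mul_sum]
    refine Finset.sum_congr rfl fun i _ => ?_
    rw [Pi.smul_apply, smul_eq_mul, key]
  have h0 : ∀ f ∈ IM π.ker (Rel ℤ z), Φ f = 0 := by
    intro f hf
    unfold IM at hf
    induction hf using AddSubgroup.closure_induction with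
    | mem w hw =>
      obtain ⟨u, hu, r, hr, rfl⟩ := hw
      have h1 := hΦ ⟨u, hu⟩ r
      have h2 : bd ℤ z r = 0 := LinearMap.mem_ker.1 hr
      rw [h2, map_zero, mul_zero] at h1
      exact h1
    | zero => exact map_zero _
    | add a b _ _ ha hb => rw [map_add, ha, hb, add_zero]
    | neg a _ ha => rw [map_neg, ha, neg_zero]
  have hBv : ∀ v : π.ker, B (bd ℤ z (e (v : S))) = β v := by
    intro v
    rw [he, map_sub, ← el_one]
    simp only [hB, fn_el]
    have h1 : τ (v : S) = v := by
      have := ta_ker π s hs v 1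
      rw [mul_one, ta_one, mul_one] at this
      exact this
    have h2 : τ 1 = 1 := ta_one π s hs
    rw [h1, h2, hβ1, sub_zero]
  have h3 := h0 _ hmem
  rw [cc, map_sub, hΦ, hΦ, hBv, hBv] at h3
  exact hxy h3

end Pool.Agent.PDA
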