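import Pool.Agent.PDA.StF

/-!
# PDA: module PZ3, extensions of `ℤ^2` by `ℤ` are poly-`ℤ`
-/

set_option autoImplicit false

namespace Pool.Agent.PDA

open Pool.Agent.PDB Subgroup

/-- an infinite cyclic subgroup -/
private theorem PZ3_iso {H : Type} [Group H] (x : H) (hx : ∀ a : ℤ, x ^ a = 1 → a = 0) :
    ∃ f : zpowers x →* Multiplicative ℤ, Function.Bijective f := by
  have hinj : Function.Injective (zpowersHom H x) := by
    rw [injective_iff_map_eq_one]
    intro a ha
    rw [zpowersHom_apply] at ha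
    have h1 := hx _ ha
    exact Multiplicative.toAdd.injective h1
  have hr : zpowers x = (zpowersHom H x).range := by
    ext y
    rw [mem_zpowers_iff, MonoidHom.mem_range]
    constructor
    · rintro ⟨k, hk⟩
      exact ⟨Multiplicative.ofAdd k, by rw [zpowersHom_apply, toAdd_ofAdd]; exact hk⟩
    · rintro ⟨k, hk⟩
      exact ⟨Multiplicative.toAdd k, by rw [zpowersHom_apply] at hk; exact hk⟩
  let e : zpowers x ≃* Multiplicative ℤ :=
    (MulEquiv.subgroupCongr hr).trans (MonoidHom.ofInjective hinj).symm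
  exact ⟨e.toMonoidHom, e.bijective⟩

/-- the second coordinate of a free abelian group of rank two -/
private theorem PZ3_snd {K : Type} [Group K] (X Y : K) (h : X * Y = Y * X)
    (hXY : ∀ a b : ℤ, X ^ a * Y ^ b = 1 → a = 0 ∧ b = 0)
    (hall : ∀ u : K, ∃ a b : ℤ, u = X ^ a * Y ^ b) :
    ∃ f : K →* Multiplicative ℤ, Function.Surjective f ∧ ∀ u, f u = 1 ↔ ∃ a : ℤ, u = X ^ a := by
  have hc : Commute X Y := h
  have hmul : ∀ a b c d : ℤ, X ^ a * Y ^ b * (X ^ c * Y ^ d) = X ^ (a + c) * Y ^ (b + d) := by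
    intro a b c d
    have h1 : Y ^ b * X ^ c = X ^ c * Y ^ b := ((hc.zpow_zpow c b).eq).symm
    rw [zpow_add, zpow_add, mul_assoc, ← mul_assoc (Y ^ b), h1]
    group
  let f : Multiplicative (ℤ × ℤ) →* K :=
    { toFun := fun p => X ^ (Multiplicative.toAdd p).1 * Y ^ (Multiplicative.toAdd p).2
      map_one' := by simp
      map_mul' := by
        intro p r
        show X ^ ((Multiplicative.toAdd p).1 + (Multiplicative.toAdd r).1) *
          Y ^ ((Multiplicative.toAdd p).2 + (Multiplicative.toAdd r).2) = _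
        rw [hmul] }
  have hf : Function.Injective f := by
    rw [injective_iff_map_eq_one]
    intro p hp
    obtain ⟨h1, h2⟩ := hXY _ _ hp
    apply Multiplicative.toAdd.injective
    exact Prod.ext h1 h2
  have hs : Function.Surjective f := by
    intro u
    obtain ⟨a, b, hu⟩ := hall u
    exact ⟨Multiplicative.ofAdd (a, b), hu.symm⟩
  let e : Multiplicative (ℤ × ℤ) ≃* K := MulEquiv.ofBijective f ⟨hf, hs⟩
  let g : Multiplicative (ℤ × ℤ) →* Multiplicative ℤ :=
    AddMonoidHom.toMultiplicative (AddMonoidHom.snd ℤ ℤ)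
  refine ⟨g.comp e.symm.toMonoidHom, ?_, ?_⟩
  · intro m
    refine ⟨e (Multiplicative.ofAdd (0, Multiplicative.toAdd m)), ?_⟩
    show g (e.symm (e (Multiplicative.ofAdd (0, Multiplicative.toAdd m)))) = m
    rw [e.symm_apply_apply]
    rfl
  · intro u
    obtain ⟨p, rfl⟩ := e.surjective u
    show g (e.symm (e p)) = 1 ↔ _
    rw [e.symm_apply_apply]
    constructor
    · intro hg
      refine ⟨(Multiplicative.toAdd p).1, ?_⟩
      show X ^ (Multiplicative.toAdd p).1 * Y ^ (Multiplicative.toAdd p).2 = _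
      have h0 : (Multiplicative.toAdd p).2 = 0 := Multiplicative.ofAdd.injective hg
      rw [h0, zpow_zero, mul_one]
    · rintro ⟨a, ha⟩
      have h1 : e p = e (Multiplicative.ofAdd (a, 0)) := by
        rw [ha]
        show _ = X ^ a * Y ^ (0 : ℤ)
        rw [zpow_zero, mul_one]
      rw [e.injective h1]
      rfl

/-- module PZ3 -/
theorem thm_PZ3 : St_PZ3 := by
  intro S _ π x y hπ hx hy hxy hind hall
  have hx0 : ∀ a : ℤ, x ^ a = 1 → a = 0 := by
    intro a ha
    refine (hind a 0 ?_).1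
    rw [ha, zpow_zero, mul_one]
  set P : ℕ → Subgroup S := fun i =>
    if i = 0 then ⊥ else if i = 1 then zpowers x else if i = 2 then π.ker else ⊤ with hP
  have e0 : P 0 = ⊥ := if_pos rfl
  have e1 : P 1 = zpowers x := by
    show (if 1 = 0 then (⊥ : Subgroup S) else if 1 = 1 then zpowers x else
      if 1 = 2 then π.ker else ⊤) = _
    rw [if_neg (by omega), if_pos rfl]
  have e2 : P 2 = π.ker := by
    show (if 2 = 0 then (⊥ : Subgroup S) else if 2 = 1 then zpowers x else
      if 2 = 2 then π.ker else ⊤) = _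
    rw [if_neg (by omega), if_neg (by omega), if_pos rfl]
  have e3 : P 3 = ⊤ := by
    show (if 3 = 0 then (⊥ : Subgroup S) else if 3 = 1 then zpowers x else
      if 3 = 2 then π.ker else ⊤) = _
    rw [if_neg (by omega), if_neg (by omega), if_neg (by omega)]
  refine ⟨3, P, e0, e3, ?_⟩
  intro i hi
  have hcase : i = 0 ∨ i = 1 ∨ i = 2 := by omega
  rcases hcase with rfl | rfl | rfl
  · rw [zero_add, e0, e1]
    obtain ⟨f, hf⟩ := PZ3_iso x hx0
    refine ⟨bot_le, f, hf.2, ?_⟩
    rw [(MonoidHom.ker_eq_bot_iff f).2 hf.1, bot_subgroupOf]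
  · have e12 : (1 + 1 : ℕ) = 2 := rfl
    rw [e12, e1, e2]
    obtain ⟨f, hf, hker⟩ := PZ3_snd (K := π.ker) ⟨x, hx⟩ ⟨y, hy⟩ (Subtype.ext hxy) (by
      intro a b hab
      refine hind a b ?_
      have := congrArg (Subtype.val) hab
      simpa using this) (by
      rintro ⟨u, hu⟩
      obtain ⟨a, b, hab⟩ := hall u hu
      refine ⟨a, b, Subtype.ext ?_⟩
      simpa using hab)
    refine ⟨?_, f, hf, ?_⟩
    · rw [zpowers_le]
      exact hx
    · ext ⟨u, hu⟩
      rw [MonoidHom.mem_ker, hker, mem_subgroupOf]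
      show _ ↔ u ∈ zpowers x
      rw [mem_zpowers_iff]
      constructor
      · rintro ⟨a, ha⟩
        refine ⟨a, ?_⟩
        have := congrArg (Subtype.val) ha
        simpa using this.symm
      · rintro ⟨a, ha⟩
        refine ⟨a, Subtype.ext ?_⟩
        simpa using ha.symm
  · have e23 : (2 + 1 : ℕ) = 3 := rfl
    rw [e23, e2, e3]
    refine ⟨le_top, π.comp (⊤ : Subgroup S).subtype, ?_, ?_⟩
    · intro z
      obtain ⟨h, hh⟩ := hπ z
      exact ⟨⟨h, mem_top h⟩, hh⟩
    · ext ⟨h, hh⟩
      rw [MonoidHom.mem_ker, mem_subgroupOf]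
      show π h = 1 ↔ h ∈ π.ker
      rw [MonoidHom.mem_ker]

end Pool.Agent.PDA
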