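import Pool.Agent.PDA.StB

/-!
# PDA, R5A: `m + 1 ≤ d` for families of `m` elements of the relation module independent modulo `I R`
-/

set_option autoImplicit false

namespace Pool.Agent.PDA

open Pool.Agent.PDB

namespace R5Ax

lemma inf_order {k S : Type} [Field k] [Group S] (h : S) (hh : ∀ n : ℕ, 0 < n → h ^ n ≠ 1)
    (μ : MonoidAlgebra k S) (hμ : μ * (el k h - 1) = 0) : μ = 0 := by
  rw [mul_sub, mul_one, sub_eq_zero] at hμ
  have h1 : ∀ g, μ.coeff (g * h⁻¹) = μ.coeff g := by
    intro g
    have h2 := MonoidAlgebra.coeff_mul_single_apply μ (1 : k) h g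
    rw [mul_one] at h2
    rw [← h2]
    exact congrArg (fun z : MonoidAlgebra k S => z.coeff g) hμ
  have h2 : ∀ (n : ℕ) (g : S), μ.coeff (g * h⁻¹ ^ n) = μ.coeff g := by
    intro n
    induction n with
    | zero => intro g; rw [pow_zero, mul_one]
    | succ n ih =>
      intro g
      rw [pow_succ, ← mul_assoc, h1, ih]
  by_contra hne
  have h3 : ∃ g, μ.coeff g ≠ 0 := by
    by_contra h4
    push Not at h4
    apply hne
    ext g
    exact h4 g
  obtain ⟨g, hg⟩ := h3
  have hinj : Function.Injective (fun n : ℕ => g * h⁻¹ ^ n) := by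
    have h5 : ¬ IsOfFinOrder h⁻¹ := by
      rw [isOfFinOrder_inv_iff, isOfFinOrder_iff_pow_eq_one]
      rintro ⟨n, hn, hn'⟩
      exact hh n hn hn'
    intro a b hab
    exact injective_pow_iff_not_isOfFinOrder.2 h5 (mul_left_cancel hab)
  have h6 : ∀ n : ℕ, (fun n : ℕ => g * h⁻¹ ^ n) n ∈ (μ.coeff.support : Set S) := by
    intro n
    rw [Finset.mem_coe, Finsupp.mem_support_iff]
    beta_reduce
    rw [h2]
    exact hg
  exact Set.infinite_of_injective_forall_mem hinj h6 (Finset.finite_toSet _)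

end R5Ax

open R5Ax in
theorem thm_R5A (hB : St_BDR) (hI : St_IND) : St_R5A := by
  intro k S _ _ d x hx hP hS hR hinf m y hy
  obtain ⟨h, hh⟩ := hinf
  obtain ⟨ν, hν⟩ := (hB k S d x hx (el k h - 1)).1 (by
    rw [map_sub, map_one, sub_eq_zero]
    simp [aug])
  have hlin := hI k (MonoidAlgebra k S) (Rel k x) (aug k S) hS hP m y hy
  let v : Fin (m + 1) → (Fin d → MonoidAlgebra k S) :=
    Fin.cons ν (fun b => (y b : Fin d → MonoidAlgebra k S))
  apply hR (m + 1) d
  refine ⟨Fintype.linearCombination (MonoidAlgebra k S) v, ?_⟩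
  rw [← LinearMap.ker_eq_bot, LinearMap.ker_eq_bot']
  intro l hl
  rw [Fintype.linearCombination_apply, Fin.sum_univ_succ] at hl
  simp only [v, Fin.cons_zero, Fin.cons_succ] at hl
  have h0 : l 0 = 0 := by
    have h1 := congrArg (bd k x) hl
    rw [map_add, map_smul, hν, map_zero, map_sum] at h1
    have h2 : ∑ i : Fin m, bd k x (l i.succ • (y i : Fin d → MonoidAlgebra k S)) = 0 := by
      refine Finset.sum_eq_zero fun i _ => ?_
      rw [map_smul]
      have h3 : bd k x (y i : Fin d → MonoidAlgebra k S) = 0 := (y i).2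
      rw [h3, smul_zero]
    rw [h2, add_zero, smul_eq_mul] at h1
    exact inf_order h hh _ h1
  rw [h0, zero_smul, zero_add] at hl
  have h4 : ∑ i : Fin m, l i.succ • y i = 0 := by
    apply Subtype.ext
    rw [Submodule.coe_sum]
    exact hl
  have h5 := Fintype.linearIndependent_iff.1 hlin (fun i => l i.succ) h4
  funext i
  refine Fin.cases ?_ (fun j => ?_) i
  · exact h0
  · exact h5 j

end Pool.Agent.PDA
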