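import Pool.Agent.PDA.StB

/-!
# PDA, R5B: a basis of the relation module modulo `I R`
-/

set_option autoImplicit false

namespace Pool.Agent.PDA

open Pool.Agent.PDB

theorem thm_R5B : St_R5B := by
  intro k Λ P _ _ _ ε _ _ d hb
  set T := IA ε (⊤ : Submodule Λ P) with hT
  have hsm : ∀ (c : k) (t : P), t ∈ T → algebraMap k Λ c • t ∈ T := by
    intro c t ht
    rw [hT] at ht ⊢
    unfold IA at ht ⊢
    induction ht using AddSubgroup.closure_induction with
    | mem t h =>
      obtain ⟨a, ha, w, -, rfl⟩ := h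
      rw [← mul_smul]
      exact AddSubgroup.subset_closure ⟨algebraMap k Λ c * a, by rw [map_mul, ha, mul_zero], w,
        Submodule.mem_top, rfl⟩
    | zero =>
      rw [smul_zero]
      exact AddSubgroup.zero_mem _
    | add a b _ _ ha hb =>
      rw [smul_add]
      exact AddSubgroup.add_mem _ ha hb
    | neg a _ ha =>
      rw [smul_neg]
      exact AddSubgroup.neg_mem _ ha
  have h0 : ∃ r, (∃ y : Fin r → P, IndMod ε T y) ∧ ¬ ∃ y : Fin (r + 1) → P, IndMod ε T y := by
    by_contra h
    push Not at h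
    have h1 : ∀ r, ∃ y : Fin r → P, IndMod ε T y := by
      intro r
      induction r with
      | zero => exact ⟨fun i => i.elim0, fun c _ => funext fun i => i.elim0⟩
      | succ r ih =>
        obtain ⟨y, hy⟩ := ih
        exact h r ⟨y, hy⟩
    obtain ⟨y, hy⟩ := h1 d
    have := hb d y hy
    omega
  obtain ⟨r, ⟨y, hy⟩, hr⟩ := h0
  refine ⟨r, y, hb r y hy, hy, ?_⟩
  intro z _
  by_contra hz
  apply hr
  refine ⟨Fin.snoc y z, ?_⟩
  intro c hc
  rw [Fin.sum_univ_castSucc] at hc
  simp only [Fin.snoc_castSucc, Fin.snoc_last] at hc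
  by_cases h1 : c (Fin.last r) = 0
  · rw [h1, map_zero, zero_smul, add_zero] at hc
    have h2 := hy (fun i => c i.castSucc) hc
    funext i
    refine Fin.lastCases ?_ (fun j => ?_) i
    · exact h1
    · exact congrFun h2 j
  · exfalso
    apply hz
    refine ⟨fun i => -((c (Fin.last r))⁻¹ * c i.castSucc), ?_⟩
    have h2 := hsm (c (Fin.last r))⁻¹ _ hc
    rw [smul_add, ← mul_smul, ← map_mul, inv_mul_cancel₀ h1, map_one, one_smul, Finset.smul_sum]
      at h2
    have h3 : z - ∑ i, algebraMap k Λ (-((c (Fin.last r))⁻¹ * c i.castSucc)) • y i =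
        ∑ i : Fin r, algebraMap k Λ (c (Fin.last r))⁻¹ • algebraMap k Λ (c i.castSucc) • y i + z := by
      simp only [map_neg, neg_smul, Finset.sum_neg_distrib, map_mul, mul_smul]
      abel
    rw [h3]
    exact h2

end Pool.Agent.PDA
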