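import Pool.Agent.PDA.StA

/-!
# PDA: RLZ, relation modules of subgroups of infinite index are projective
-/

set_option autoImplicit false

namespace Pool.Agent.PDA

open Pool.Agent.PDB

section

variable {G S : Type} [Group G] [Group S] (j : S →* G)

private lemma RLZ_single {M : Type} [AddCommGroup M] [Module (ZG G) M] (s : S) (n : ℤ) (x : M) :
    MonoidAlgebra.mapDomainRingHom ℤ j (MonoidAlgebra.single s n) • x =
      n • (el ℤ (j s) • x) := by
  have h1 : MonoidAlgebra.mapDomainRingHom ℤ j (MonoidAlgebra.single s n) =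
      n • el ℤ (j s) := by
    rw [MonoidAlgebra.mapDomainRingHom_apply, MonoidAlgebra.mapDomain_single, el,
      MonoidAlgebra.of_apply, MonoidAlgebra.smul_single, smul_eq_mul, mul_one]
  rw [h1, smul_assoc]

end

theorem thm_RLZ (hS : St_STR) (hF : St_FRE) (hC : St_SCH) (hB : St_BDR) : St_RLZ := by
  intro G _ R S _ j hj hidx d x hx
  obtain ⟨ρ, hρ1, hρ2⟩ := hS G R j.range hidx
  letI m0 : Module (MonoidAlgebra ℤ S) R.P0 :=
    Module.compHom R.P0 (MonoidAlgebra.mapDomainRingHom ℤ j)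
  letI m1 : Module (MonoidAlgebra ℤ S) R.P1 :=
    Module.compHom R.P1 (MonoidAlgebra.mapDomainRingHom ℤ j)
  letI m2 : Module (MonoidAlgebra ℤ S) R.P2 :=
    Module.compHom R.P2 (MonoidAlgebra.mapDomainRingHom ℤ j)
  have s0 : ∀ (a : MonoidAlgebra ℤ S) (y : R.P0),
      a • y = MonoidAlgebra.mapDomainRingHom ℤ j a • y := fun _ _ => rfl
  have s1 : ∀ (a : MonoidAlgebra ℤ S) (y : R.P1),
      a • y = MonoidAlgebra.mapDomainRingHom ℤ j a • y := fun _ _ => rfl
  have s2 : ∀ (a : MonoidAlgebra ℤ S) (y : R.P2),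
      a • y = MonoidAlgebra.mapDomainRingHom ℤ j a • y := fun _ _ => rfl
  have p0 : Module.Projective (MonoidAlgebra ℤ S) R.P0 := hF ℤ S G j hj R.P0 s0 R.p0
  have p1 : Module.Projective (MonoidAlgebra ℤ S) R.P1 := hF ℤ S G j hj R.P1 s1 R.p1
  have p2 : Module.Projective (MonoidAlgebra ℤ S) R.P2 := hF ℤ S G j hj R.P2 s2 R.p2
  -- linearity of `ρ`
  have hρ3 : ∀ (a : MonoidAlgebra ℤ S) (y : R.P2),
      ρ (MonoidAlgebra.mapDomainRingHom ℤ j a • y) =
        MonoidAlgebra.mapDomainRingHom ℤ j a • ρ y := by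
    intro a y
    induction a using MonoidAlgebra.induction_linear with
    | zero => rw [map_zero, zero_smul, zero_smul, map_zero]
    | add a b ha hb => rw [map_add, add_smul, add_smul, map_add, ha, hb]
    | single s n => rw [RLZ_single, RLZ_single, map_zsmul, hρ1 (j s) ⟨s, rfl⟩]
  -- the boundary maps
  obtain ⟨d1, hd1⟩ : ∃ d1 : R.P1 →ₗ[MonoidAlgebra ℤ S] R.P0, ∀ y, d1 y = R.d1 y :=
    ⟨{ toFun := fun y => R.d1 y
       map_add' := fun y z => map_add R.d1 y z
       map_smul' := fun a y => by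
        rw [RingHom.id_apply, s1, s0, map_smul] }, fun _ => rfl⟩
  obtain ⟨d2, hd2⟩ : ∃ d2 : R.P2 →ₗ[MonoidAlgebra ℤ S] R.P1, ∀ y, d2 y = R.d2 y :=
    ⟨{ toFun := fun y => R.d2 y
       map_add' := fun y z => map_add R.d2 y z
       map_smul' := fun a y => by
        rw [RingHom.id_apply, s2, s1, map_smul] }, fun _ => rfl⟩
  obtain ⟨q, hq⟩ : ∃ q : R.P2 →ₗ[MonoidAlgebra ℤ S] R.P2, ∀ y, q y = y - R.d3 (ρ y) :=
    ⟨{ toFun := fun y => y - R.d3 (ρ y)
       map_add' := fun y z => by
        rw [map_add, map_add]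
        abel
       map_smul' := fun a y => by
        rw [RingHom.id_apply, s2, s2, hρ3, map_smul, smul_sub] }, fun _ => rfl⟩
  have hq0 : ∀ y, R.d2 y = 0 → q y = 0 := by
    intro y hy
    obtain ⟨w, rfl⟩ := (R.ex2 y).1 hy
    rw [hq, hρ2, sub_self]
  have hd2q : ∀ y, R.d2 (q y) = R.d2 y := by
    intro y
    have h1 : R.d2 (R.d3 (ρ y)) = 0 := (R.ex2 _).2 ⟨_, rfl⟩
    rw [hq, map_sub, h1, sub_zero]
  have hex : ∀ y : LinearMap.ker d1, ∃ z : R.P2, R.d2 z = (y : R.P1) := by
    intro y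
    have h1 : d1 (y : R.P1) = 0 := y.2
    rw [hd1] at h1
    exact (R.ex1 _).1 h1
  choose z hz using hex
  have hpk : Module.Projective (MonoidAlgebra ℤ S) (LinearMap.ker d1) := by
    have key : ∀ a b : R.P2, R.d2 a = R.d2 b → q a = q b := by
      intro a b hab
      have h1 := hq0 (a - b) (by rw [map_sub, hab, sub_self])
      rw [map_sub] at h1
      exact sub_eq_zero.1 h1
    let ι : LinearMap.ker d1 →ₗ[MonoidAlgebra ℤ S] R.P2 :=
      { toFun := fun y => q (z y)
        map_add' := fun y y' => by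
          rw [← map_add]
          apply key
          rw [hz, map_add, hz, hz]
          rfl
        map_smul' := fun a y => by
          rw [RingHom.id_apply, ← map_smul]
          apply key
          rw [hz, ← hd2, map_smul, hd2, hz]
          rfl }
    let π : R.P2 →ₗ[MonoidAlgebra ℤ S] LinearMap.ker d1 :=
      LinearMap.codRestrict (LinearMap.ker d1) d2 (fun y => by
        rw [LinearMap.mem_ker, hd1, hd2]
        exact (R.ex1 _).2 ⟨y, rfl⟩)
    refine Module.Projective.of_split ι π ?_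
    refine LinearMap.ext fun y => Subtype.ext ?_
    show d2 (q (z y)) = (y : R.P1)
    rw [hd2, hd2q, hz]
  -- the augmentations
  obtain ⟨e, he⟩ : ∃ e : R.P0 →ₗ[MonoidAlgebra ℤ S] Tr ℤ S, ∀ y, e y = (R.e y : ℤ) :=
    ⟨{ toFun := fun y => (R.e y : ℤ)
       map_add' := fun y y' => map_add R.e y y'
       map_smul' := fun a y => by
        rw [RingHom.id_apply, s0]
        show (R.e (MonoidAlgebra.mapDomainRingHom ℤ j a • y) : ℤ) = aug ℤ S a * R.e y
        induction a using MonoidAlgebra.induction_linear with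
        | zero => rw [map_zero, zero_smul, map_zero, map_zero, zero_mul]
        | add a b ha hb => rw [map_add, add_smul, map_add, ha, hb, map_add, add_mul]
        | single s n =>
          rw [RLZ_single, map_zsmul, R.e_smul, aug, MonoidAlgebra.lift_single]
          simp }, fun _ => rfl⟩
  obtain ⟨e', he'⟩ : ∃ e' : MonoidAlgebra ℤ S →ₗ[MonoidAlgebra ℤ S] Tr ℤ S,
      ∀ y, e' y = (aug ℤ S y : ℤ) :=
    ⟨{ toFun := fun y => (aug ℤ S y : ℤ)
       map_add' := fun y y' => map_add (aug ℤ S) y y'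
       map_smul' := fun a y => by
        rw [RingHom.id_apply, smul_eq_mul]
        exact map_mul (aug ℤ S) a y }, fun _ => rfl⟩
  have hes : Function.Surjective e := by
    intro n
    obtain ⟨y, hy⟩ := R.e_surj n
    exact ⟨y, by rw [he]; exact hy⟩
  have hes' : Function.Surjective e' := by
    intro n
    refine ⟨algebraMap ℤ (MonoidAlgebra ℤ S) n, ?_⟩
    rw [he']
    exact (aug ℤ S).commutes n
  have hr : LinearMap.range d1 = LinearMap.ker e := by
    ext y
    rw [LinearMap.mem_range, LinearMap.mem_ker, he]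
    constructor
    · rintro ⟨w, rfl⟩
      rw [hd1]
      exact (R.ex0 _).2 ⟨w, rfl⟩
    · intro h
      obtain ⟨w, hw⟩ := (R.ex0 y).1 h
      exact ⟨w, by rw [hd1]; exact hw⟩
  have hr' : LinearMap.range (bd ℤ x) = LinearMap.ker e' := by
    refine Submodule.ext fun y => ?_
    rw [LinearMap.mem_range, LinearMap.mem_ker, he']
    exact (hB ℤ S d x hx y).symm
  exact hC (MonoidAlgebra ℤ S) (Tr ℤ S) R.P0 R.P1 (MonoidAlgebra ℤ S)
    (Fin d → MonoidAlgebra ℤ S) e d1 e' (bd ℤ x) hes hes' hr hr' hpk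

end Pool.Agent.PDA
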