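import Pool.Agent.PDA.StA

/-!
# PDA: module RPJ, relation modules of subgroups of infinite index are projective
-/

set_option autoImplicit false

namespace Pool.Agent.PDA

open Pool.Agent.PDB

/-- [RPJ] assembly of part A -/
theorem thm_RPJ (hT : St_TOP) (hR : St_RLZ) (hB : St_BAS) : St_RPJ := by
  intro S _ hS
  obtain ⟨G, hG, hPD, j, hj, hidx⟩ := hS
  obtain ⟨R⟩ := hT G hPD
  intro k _ d x hx
  exact hB k S d x hx (hR G R S j hj hidx d x hx)

end Pool.Agent.PDA
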