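import Pool.Agent.PDA.StB

/-!
# [SEP] the powers of the augmentation ideal of a residually finite-`p` group
-/

set_option autoImplicit false
set_option linter.unusedVariables false

namespace Pool.Agent.PDA

open Pool.Agent.PDB

private theorem SEP_aug_single {G : Type} [Group G] {p : ℕ} (g : G) (a : ZMod p) :
    aug (ZMod p) G (MonoidAlgebra.single g a) = a := by
  unfold aug
  rw [MonoidAlgebra.lift_single]
  simp

private theorem SEP_mem {k Λ : Type} [CommRing k] [Ring Λ] [Algebra k Λ] {ε : Λ →ₐ[k] k} {x : Λ} :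
    x ∈ J ε ↔ ε x = 0 := by
  unfold J
  rw [LinearMap.mem_ker]
  rfl

private theorem SEP_Pw {k Λ : Type} [CommRing k] [Ring Λ] [Algebra k Λ] (ε : Λ →ₐ[k] k) :
    ∀ n : ℕ, Pw ε (n + 1) ≤ J ε ^ (n + 1)
  | 0 => by
    rw [Pw, pow_one, Submodule.mul_le]
    intro a ha b _
    rw [SEP_mem] at ha ⊢
    rw [map_mul, ha, zero_mul]
  | n + 1 => by
    rw [Pw, pow_succ']
    exact mul_le_mul_right (SEP_Pw ε n) _

/-- an element of the group algebra modulo `z - 1` -/
private theorem SEP_ker {G : Type} [Group G] [Finite G] {p : ℕ} (z : G)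
    (hc : ∀ g, z * g = g * z) [hN : (Subgroup.zpowers z).Normal]
    (f : MonoidAlgebra (ZMod p) G) :
    ∃ h : MonoidAlgebra (ZMod p) G, f = (MonoidAlgebra.single z 1 - 1) * h +
      MonoidAlgebra.mapDomain (Quotient.out : G ⧸ Subgroup.zpowers z → G)
        (MonoidAlgebra.mapDomain (QuotientGroup.mk' (Subgroup.zpowers z)) f) := by
  induction f using MonoidAlgebra.induction_linear with
  | zero => exact ⟨0, by simp⟩
  | add x y hx hy =>
    obtain ⟨h1, e1⟩ := hx
    obtain ⟨h2, e2⟩ := hy
    refine ⟨h1 + h2, ?_⟩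
    rw [MonoidAlgebra.mapDomain_add, MonoidAlgebra.mapDomain_add, mul_add]
    nth_rewrite 1 [e1, e2]
    abel
  | single g a =>
    rw [MonoidAlgebra.mapDomain_single, MonoidAlgebra.mapDomain_single]
    obtain ⟨r, hr⟩ : ∃ r : G, r = Quotient.out (QuotientGroup.mk' (Subgroup.zpowers z) g) :=
      ⟨_, rfl⟩
    have h1 : r⁻¹ * g ∈ Subgroup.zpowers z := by
      rw [← QuotientGroup.eq, hr]
      exact Quotient.out_eq _
    rw [← hr]
    rw [← mem_powers_iff_mem_zpowers] at h1
    obtain ⟨j, hj⟩ := h1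
    have hj' : z ^ j = r⁻¹ * g := hj
    have hcz : ∀ (i : ℕ), z ^ i * r = r * z ^ i := fun i =>
      ((show Commute z r from hc r).pow_left i).eq
    have h3 : g = z ^ j * r := by
      rw [hcz, hj', mul_inv_cancel_left]
    refine ⟨(∑ i ∈ Finset.range j, MonoidAlgebra.single z (1 : ZMod p) ^ i) *
      MonoidAlgebra.single r a, ?_⟩
    rw [← mul_assoc, mul_geom_sum, MonoidAlgebra.single_pow, one_pow, sub_mul, one_mul,
      MonoidAlgebra.single_mul_single, one_mul, h3]
    abel

private theorem SEP_central {G : Type} [Group G] [Finite G] {p : ℕ} [hpp : Fact p.Prime] {m : ℕ}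
    (hG : Nat.card G = p ^ (m + 1)) : ∃ z : G, orderOf z = p ∧ ∀ g, z * g = g * z := by
  have hp : IsPGroup p G := IsPGroup.of_card hG
  have hnt : Nontrivial G := by
    rw [← Finite.one_lt_card_iff_nontrivial, hG]
    exact Nat.one_lt_pow (by omega) hpp.out.one_lt
  have hcn := hp.center_nontrivial
  have hp2 : IsPGroup p (Subgroup.center G) := hp.to_subgroup _
  have h1 : p ∣ Nat.card (Subgroup.center G) := by
    rcases hp2.card_eq_or_dvd with h | h
    · have := Finite.one_lt_card (α := Subgroup.center G)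
      omega
    · exact h
  obtain ⟨x, hx⟩ := exists_prime_orderOf_dvd_card' p h1
  refine ⟨x.1, ?_, fun g => ?_⟩
  · rw [Subgroup.orderOf_coe]
    exact hx
  · exact (Subgroup.mem_center_iff.1 x.2 g).symm

/-- the augmentation ideal of a finite `p`-group is nilpotent -/
private theorem SEP_all {p : ℕ} [hpp : Fact p.Prime] : ∀ (m : ℕ) (G : Type) [Group G] [Finite G],
    Nat.card G = p ^ m → ∃ N : ℕ, J (aug (ZMod p) G) ^ N = ⊥
  | 0, G, _, _, hG => by
    refine ⟨1, ?_⟩
    rw [pow_one, eq_bot_iff]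
    intro f hf
    rw [SEP_mem] at hf
    rw [pow_zero, Nat.card_eq_one_iff_unique] at hG
    have hss := hG.1
    have h1 : ∀ f : MonoidAlgebra (ZMod p) G,
        f = MonoidAlgebra.single 1 (aug (ZMod p) G f) := by
      intro f
      induction f using MonoidAlgebra.induction_linear with
      | zero => simp
      | add x y hx hy =>
        rw [map_add, MonoidAlgebra.single_add, ← hx, ← hy]
      | single g a =>
        rw [SEP_aug_single, Subsingleton.elim g 1]
    rw [Submodule.mem_bot, h1 f, hf, MonoidAlgebra.single_zero]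
  | m + 1, G, _, _, hG => by
    obtain ⟨z, hz, hc⟩ := SEP_central hG
    have hN : (Subgroup.zpowers z).Normal := by
      refine ⟨fun x hx g => ?_⟩
      obtain ⟨j, rfl⟩ := hx
      have h1 : g * z ^ j * g⁻¹ = z ^ j := by
        have h2 : Commute g (z ^ j) := ((show Commute z g from hc g).symm).zpow_right j
        rw [h2.eq, mul_inv_cancel_right]
      show g * z ^ j * g⁻¹ ∈ Subgroup.zpowers z
      rw [h1]
      exact ⟨j, rfl⟩
    have hQ : Nat.card (G ⧸ Subgroup.zpowers z) = p ^ m := by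
      have h1 := Subgroup.card_eq_card_quotient_mul_card_subgroup (Subgroup.zpowers z)
      rw [Nat.card_zpowers, hz, hG, pow_succ] at h1
      exact (Nat.eq_of_mul_eq_mul_right hpp.out.pos h1).symm
    obtain ⟨N, hNN⟩ := SEP_all m (G ⧸ Subgroup.zpowers z) hQ
    obtain ⟨φ, hφ⟩ : ∃ φ : MonoidAlgebra (ZMod p) G →ₐ[ZMod p]
        MonoidAlgebra (ZMod p) (G ⧸ Subgroup.zpowers z),
        φ = MonoidAlgebra.mapDomainAlgHom (ZMod p) (ZMod p)
          (QuotientGroup.mk' (Subgroup.zpowers z)) := ⟨_, rfl⟩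
    have hφ1 : ∀ f, φ f = MonoidAlgebra.mapDomain (QuotientGroup.mk' (Subgroup.zpowers z)) f := by
      intro f
      rw [hφ]
      rfl
    have haug : ∀ f, aug (ZMod p) (G ⧸ Subgroup.zpowers z) (φ f) = aug (ZMod p) G f := by
      intro f
      induction f using MonoidAlgebra.induction_linear with
      | zero => simp
      | add x y hx hy => rw [map_add, map_add, map_add, hx, hy]
      | single g a => rw [hφ1, MonoidAlgebra.mapDomain_single, SEP_aug_single, SEP_aug_single]
    have hle : Submodule.map φ.toLinearMap (J (aug (ZMod p) G)) ≤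
        J (aug (ZMod p) (G ⧸ Subgroup.zpowers z)) := by
      rintro _ ⟨f, hf, rfl⟩
      rw [SEP_mem]
      show aug (ZMod p) (G ⧸ Subgroup.zpowers z) (φ f) = 0
      rw [haug]
      exact SEP_mem.1 hf
    have hpow : Submodule.map φ.toLinearMap (J (aug (ZMod p) G) ^ N) ≤ ⊥ := by
      rw [Submodule.map_pow, ← hNN]
      exact pow_le_pow_left' hle N
    have hker : ∀ f ∈ J (aug (ZMod p) G) ^ N, ∃ h : MonoidAlgebra (ZMod p) G,
        f = (MonoidAlgebra.single z 1 - 1) * h := by
      intro f hf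
      have h1 : φ f = 0 := by
        have h2 : φ.toLinearMap f ∈ Submodule.map φ.toLinearMap (J (aug (ZMod p) G) ^ N) :=
          Submodule.mem_map_of_mem hf
        exact (Submodule.mem_bot _).1 (hpow h2)
      obtain ⟨h, hh⟩ := SEP_ker (p := p) z hc f
      rw [hφ1] at h1
      rw [h1, MonoidAlgebra.mapDomain_zero, add_zero] at hh
      exact ⟨h, hh⟩
    have hcc : ∀ h : MonoidAlgebra (ZMod p) G,
        Commute h (MonoidAlgebra.single z (1 : ZMod p) - 1) := by
      intro h
      have h1 : Commute (MonoidAlgebra.single z (1 : ZMod p)) h :=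
        MonoidAlgebra.single_commute (fun g => hc g) (fun a => Commute.all _ _) h
      exact h1.symm.sub_right (Commute.one_right h)
    have hzp : (MonoidAlgebra.single z (1 : ZMod p) - 1) ^ p = 0 := by
      have hch : CharP (MonoidAlgebra (ZMod p) G) p :=
        charP_of_injective_algebraMap (algebraMap (ZMod p) (MonoidAlgebra (ZMod p) G)).injective p
      have hzz : z ^ p = 1 := by
        have h1 := pow_orderOf_eq_one z
        rwa [hz] at h1
      rw [sub_pow_char_of_commute _ (Commute.one_right _), MonoidAlgebra.single_pow, one_pow,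
        one_pow, hzz, MonoidAlgebra.one_def, sub_self]
    have hpk : ∀ k : ℕ, J (aug (ZMod p) G) ^ (N * k) ≤ LinearMap.range
        (LinearMap.mulLeft (ZMod p) ((MonoidAlgebra.single z (1 : ZMod p) - 1) ^ k)) := by
      intro k
      induction k with
      | zero =>
        intro x _
        exact ⟨x, by simp⟩
      | succ k ih =>
        rw [mul_add, mul_one, pow_add, Submodule.mul_le]
        intro a ha b hb
        obtain ⟨a', ha'⟩ := ih ha
        obtain ⟨b', hb'⟩ := hker b hb
        refine ⟨a' * b', ?_⟩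
        rw [LinearMap.mulLeft_apply] at ha' ⊢
        rw [← ha', hb', pow_succ]
        have h1 := (hcc a').eq
        calc (MonoidAlgebra.single z 1 - 1) ^ k * (MonoidAlgebra.single z 1 - 1) * (a' * b') =
            (MonoidAlgebra.single z 1 - 1) ^ k * ((MonoidAlgebra.single z 1 - 1) * a') * b' := by
              simp only [mul_assoc]
          _ = (MonoidAlgebra.single z 1 - 1) ^ k * a' * ((MonoidAlgebra.single z 1 - 1) * b') := by
              rw [← h1]
              simp only [mul_assoc]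
    refine ⟨N * p, ?_⟩
    rw [eq_bot_iff]
    refine (hpk p).trans ?_
    rintro _ ⟨x, rfl⟩
    rw [LinearMap.mulLeft_apply, hzp, zero_mul]
    exact Submodule.zero_mem _

/-- separation of finitely many elements from `1` -/
private theorem SEP_sep {S : Type} [Group S] {p : ℕ} (hpp : p.Prime) (hS : ResP S p)
    (T : Finset S) : (∀ t ∈ T, t ≠ 1) →
    ∃ N : Subgroup S, N.Normal ∧ (∃ n : ℕ, N.index = p ^ n) ∧ ∀ t ∈ T, t ∉ N := by
  classical
  induction T using Finset.induction_on with
  | empty =>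
    intro _
    exact ⟨⊤, inferInstance, ⟨0, by simp⟩, by simp⟩
  | insert t T _ ih =>
    intro hT
    obtain ⟨N₁, hN₁, ⟨n₁, hn₁⟩, h₁⟩ := hS t (hT t (Finset.mem_insert_self _ _))
    obtain ⟨N₂, hN₂, ⟨n₂, hn₂⟩, h₂⟩ := ih fun s hs => hT s (Finset.mem_insert_of_mem hs)
    refine ⟨N₁ ⊓ N₂, inferInstance, ?_, ?_⟩
    · have h3 := Subgroup.relIndex_mul_index (inf_le_right : N₁ ⊓ N₂ ≤ N₂)
      rw [Subgroup.inf_relIndex_right] at h3
      have h4 : N₁.relIndex N₂ ∣ N₁.index := Subgroup.relIndex_dvd_index_of_normal _ _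
      have h5 : (N₁ ⊓ N₂).index ∣ p ^ (n₁ + n₂) := by
        rw [← h3, pow_add, ← hn₁, ← hn₂]
        exact Nat.mul_dvd_mul h4 (dvd_refl _)
      obtain ⟨n, -, hn⟩ := (Nat.dvd_prime_pow hpp).1 h5
      exact ⟨n, hn⟩
    · intro s hs
      rw [Finset.mem_insert] at hs
      rcases hs with rfl | hs
      · exact fun h => h₁ h.1
      · exact fun h => h₂ s hs h.2

theorem thm_SEP : St_SEP := by
  classical
  intro S _ p hpp hS a ha
  set T : Finset S := ((a.coeff.support ×ˢ a.coeff.support).image fun e => e.1⁻¹ * e.2).erase 1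
    with hT
  obtain ⟨N, hN, ⟨n, hn⟩, hsep⟩ := SEP_sep hpp.out hS T (by
    intro t ht
    exact Finset.ne_of_mem_erase ht)
  have hfin : Finite (S ⧸ N) := by
    have h1 : N.index ≠ 0 := by
      rw [hn]
      exact pow_ne_zero _ hpp.out.ne_zero
    have h2 : N.FiniteIndex := ⟨h1⟩
    exact Subgroup.finite_quotient_of_finiteIndex
  have hcard : Nat.card (S ⧸ N) = p ^ n := hn
  obtain ⟨m, hm⟩ := SEP_all (p := p) n (S ⧸ N) hcard
  obtain ⟨φ, hφ⟩ : ∃ φ : MonoidAlgebra (ZMod p) S →ₐ[ZMod p] MonoidAlgebra (ZMod p) (S ⧸ N),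
      φ = MonoidAlgebra.mapDomainAlgHom (ZMod p) (ZMod p) (QuotientGroup.mk' N) := ⟨_, rfl⟩
  have hφ1 : ∀ f, φ f = MonoidAlgebra.mapDomain (QuotientGroup.mk' N) f := by
    intro f
    rw [hφ]
    rfl
  have haug : ∀ f, aug (ZMod p) (S ⧸ N) (φ f) = aug (ZMod p) S f := by
    intro f
    induction f using MonoidAlgebra.induction_linear with
    | zero => simp
    | add x y hx hy => rw [map_add, map_add, map_add, hx, hy]
    | single g a => rw [hφ1, MonoidAlgebra.mapDomain_single, SEP_aug_single, SEP_aug_single]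
  have hle : Submodule.map φ.toLinearMap (J (aug (ZMod p) S)) ≤ J (aug (ZMod p) (S ⧸ N)) := by
    rintro _ ⟨f, hf, rfl⟩
    rw [SEP_mem]
    show aug (ZMod p) (S ⧸ N) (φ f) = 0
    rw [haug]
    exact SEP_mem.1 hf
  have h0 : φ a = 0 := by
    have h1 : a ∈ J (aug (ZMod p) S) ^ (m + 1) := SEP_Pw _ m (ha (m + 1))
    have h2 : φ.toLinearMap a ∈ Submodule.map φ.toLinearMap (J (aug (ZMod p) S) ^ (m + 1)) :=
      Submodule.mem_map_of_mem h1
    rw [Submodule.map_pow] at h2
    have h3 := pow_le_pow_left' hle (m + 1) h2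
    rw [pow_succ, hm, Submodule.bot_mul] at h3
    exact (Submodule.mem_bot _).1 h3
  rw [hφ1] at h0
  have hinj : Set.InjOn (QuotientGroup.mk' N : S → S ⧸ N) (a.coeff.support : Set S) := by
    intro g hg h hh heq
    by_contra hgh
    have h1 : g⁻¹ * h ∈ N := QuotientGroup.eq.1 heq
    refine hsep (g⁻¹ * h) ?_ h1
    rw [hT, Finset.mem_erase]
    refine ⟨?_, Finset.mem_image.2 ⟨(g, h), Finset.mem_product.2 ⟨hg, hh⟩, rfl⟩⟩
    intro h2
    exact hgh (inv_mul_eq_one.1 h2)
  have h4 : Finsupp.mapDomain (QuotientGroup.mk' N : S → S ⧸ N) a.coeff = 0 := by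
    have h5 := congrArg MonoidAlgebra.coeff h0
    exact h5
  have h5 : a.coeff = 0 := by
    refine Finsupp.mapDomain_injOn (M := ZMod p) (a.coeff.support : Set S) hinj ?_ ?_ ?_
    · show (a.coeff.support : Set S) ⊆ a.coeff.support
      exact subset_rfl
    · show ((0 : S →₀ ZMod p).support : Set S) ⊆ a.coeff.support
      simp
    · rw [h4, Finsupp.mapDomain_zero]
  exact MonoidAlgebra.coeff_injective (h5.trans rfl)

end Pool.Agent.PDA
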