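import Pool.Agent.PDA.StB

/-!
# PDA [ST5]: assembly of stage 1
-/

set_option autoImplicit false
set_option linter.unusedVariables false

namespace Pool.Agent.PDA

open Pool.Agent.PDB

theorem thm_ST5 (h1 : St_RPJ) (h2 : St_SEP) (h3 : St_FOL) (h4 : St_TFR) (h5 : St_R5A)
    (h6 : St_R5B) (h7 : St_FGM) (h8 : St_ZMP) : St_ST5 := by
  intro S _ p hp hPD hF hR hN d x hx
  have hproj := h1 S hPD (ZMod p) d x hx
  have hsep := h2 S p hR
  have hrank := h3 (ZMod p) S hF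
  have htf := h4 S p d x hx hproj hR
  obtain ⟨c, hc⟩ := exists_ne (1 : S)
  have hinf : ∃ h : S, ∀ n : ℕ, 0 < n → h ^ n ≠ 1 := ⟨c, fun n hn h => hc (htf c n hn h)⟩
  have h5' := h5 (ZMod p) S d x hx hproj hsep hrank hinf
  obtain ⟨r, y, hr, hind, hspan⟩ :=
    h6 (ZMod p) (MonoidAlgebra (ZMod p) S) (Rel (ZMod p) x) (aug (ZMod p) S) d h5'
  exact ⟨htf, ⟨r, y, hr, hind, hspan⟩,
    h7 (ZMod p) (MonoidAlgebra (ZMod p) S) (Rel (ZMod p) x) (aug (ZMod p) S) hsep hproj r y hspan,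
    h8 S p d x hx h5'⟩

end Pool.Agent.PDA
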