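import Pool.Agent.PDA.StF

/-!
# PDA: STK, the relation module of `S` is projective over `ℤ[K]`
-/

set_option autoImplicit false

namespace Pool.Agent.PDA

open Pool.Agent.PDB

section

variable {G S : Type} [Group G] [Group S] (j : S →* G)

private lemma STK_single {M : Type} [AddCommGroup M] [Module (ZG G) M] (s : S) (n : ℤ) (x : M) :
    MonoidAlgebra.mapDomainRingHom ℤ j (MonoidAlgebra.single s n) • x =
      n • (el ℤ (j s) • x) := by
  have h1 : MonoidAlgebra.mapDomainRingHom ℤ j (MonoidAlgebra.single s n) =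
      n • el ℤ (j s) := by
    rw [MonoidAlgebra.mapDomainRingHom_apply, MonoidAlgebra.mapDomain_single, el,
      MonoidAlgebra.of_apply, MonoidAlgebra.smul_single, smul_eq_mul, mul_one]
  rw [h1, smul_assoc]

end

/-- the kernel of the first boundary map and the augmentation over a subgroup -/
private lemma STK_half (hS : St_STR) (hF : St_FRE) (G : Type) [Group G] (R : Short G)
    (K : Type) [Group K] (j : K →* G) (hj : Function.Injective j) (hidx : j.range.index = 0) :
    ∃ (m0 : Module (MonoidAlgebra ℤ K) R.P0) (m1 : Module (MonoidAlgebra ℤ K) R.P1)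
      (d1 : R.P1 →ₗ[MonoidAlgebra ℤ K] R.P0) (e : R.P0 →ₗ[MonoidAlgebra ℤ K] Tr ℤ K),
      Module.Projective (MonoidAlgebra ℤ K) R.P0 ∧ Module.Projective (MonoidAlgebra ℤ K) R.P1 ∧
      Function.Surjective e ∧ LinearMap.range d1 = LinearMap.ker e ∧
      Module.Projective (MonoidAlgebra ℤ K) (LinearMap.ker d1) := by
  obtain ⟨ρ, hρ1, hρ2⟩ := hS G R j.range hidx
  let m0 : Module (MonoidAlgebra ℤ K) R.P0 :=
    Module.compHom R.P0 (MonoidAlgebra.mapDomainRingHom ℤ j)
  let m1 : Module (MonoidAlgebra ℤ K) R.P1 :=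
    Module.compHom R.P1 (MonoidAlgebra.mapDomainRingHom ℤ j)
  let m2 : Module (MonoidAlgebra ℤ K) R.P2 :=
    Module.compHom R.P2 (MonoidAlgebra.mapDomainRingHom ℤ j)
  have s0 : ∀ (a : MonoidAlgebra ℤ K) (y : R.P0),
      a • y = MonoidAlgebra.mapDomainRingHom ℤ j a • y := fun _ _ => rfl
  have s1 : ∀ (a : MonoidAlgebra ℤ K) (y : R.P1),
      a • y = MonoidAlgebra.mapDomainRingHom ℤ j a • y := fun _ _ => rfl
  have s2 : ∀ (a : MonoidAlgebra ℤ K) (y : R.P2),
      a • y = MonoidAlgebra.mapDomainRingHom ℤ j a • y := fun _ _ => rfl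
  have p0 : Module.Projective (MonoidAlgebra ℤ K) R.P0 := hF ℤ K G j hj R.P0 s0 R.p0
  have p1 : Module.Projective (MonoidAlgebra ℤ K) R.P1 := hF ℤ K G j hj R.P1 s1 R.p1
  have p2 : Module.Projective (MonoidAlgebra ℤ K) R.P2 := hF ℤ K G j hj R.P2 s2 R.p2
  -- linearity of `ρ`
  have hρ3 : ∀ (a : MonoidAlgebra ℤ K) (y : R.P2),
      ρ (MonoidAlgebra.mapDomainRingHom ℤ j a • y) =
        MonoidAlgebra.mapDomainRingHom ℤ j a • ρ y := by
    intro a y
    induction a using MonoidAlgebra.induction_linear with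
    | zero => rw [map_zero, zero_smul, zero_smul, map_zero]
    | add a b ha hb => rw [map_add, add_smul, add_smul, map_add, ha, hb]
    | single s n => rw [STK_single, STK_single, map_zsmul, hρ1 (j s) ⟨s, rfl⟩]
  -- the boundary maps
  obtain ⟨d1, hd1⟩ : ∃ d1 : R.P1 →ₗ[MonoidAlgebra ℤ K] R.P0, ∀ y, d1 y = R.d1 y :=
    ⟨{ toFun := fun y => R.d1 y
       map_add' := fun y z => map_add R.d1 y z
       map_smul' := fun a y => by
        rw [RingHom.id_apply, s1, s0, map_smul] }, fun _ => rfl⟩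
  obtain ⟨d2, hd2⟩ : ∃ d2 : R.P2 →ₗ[MonoidAlgebra ℤ K] R.P1, ∀ y, d2 y = R.d2 y :=
    ⟨{ toFun := fun y => R.d2 y
       map_add' := fun y z => map_add R.d2 y z
       map_smul' := fun a y => by
        rw [RingHom.id_apply, s2, s1, map_smul] }, fun _ => rfl⟩
  obtain ⟨q, hq⟩ : ∃ q : R.P2 →ₗ[MonoidAlgebra ℤ K] R.P2, ∀ y, q y = y - R.d3 (ρ y) :=
    ⟨{ toFun := fun y => y - R.d3 (ρ y)
       map_add' := fun y z => by
        rw [map_add, map_add]
        abel
       map_smul' := fun a y => by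
        rw [RingHom.id_apply, s2, s2, hρ3, map_smul, smul_sub] }, fun _ => rfl⟩
  have hq0 : ∀ y, R.d2 y = 0 → q y = 0 := by
    intro y hy
    obtain ⟨w, rfl⟩ := (R.ex2 y).1 hy
    rw [hq, hρ2, sub_self]
  have hd2q : ∀ y, R.d2 (q y) = R.d2 y := by
    intro y
    have h1 : R.d2 (R.d3 (ρ y)) = 0 := (R.ex2 _).2 ⟨_, rfl⟩
    rw [hq, map_sub, h1, sub_zero]
  have hex : ∀ y : LinearMap.ker d1, ∃ z : R.P2, R.d2 z = (y : R.P1) := by
    intro y
    have h1 : d1 (y : R.P1) = 0 := y.2
    rw [hd1] at h1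
    exact (R.ex1 _).1 h1
  choose z hz using hex
  have hpk : Module.Projective (MonoidAlgebra ℤ K) (LinearMap.ker d1) := by
    have key : ∀ a b : R.P2, R.d2 a = R.d2 b → q a = q b := by
      intro a b hab
      have h1 := hq0 (a - b) (by rw [map_sub, hab, sub_self])
      rw [map_sub] at h1
      exact sub_eq_zero.1 h1
    let ι : LinearMap.ker d1 →ₗ[MonoidAlgebra ℤ K] R.P2 :=
      { toFun := fun y => q (z y)
        map_add' := fun y y' => by
          rw [← map_add]
          apply key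
          rw [hz, map_add, hz, hz]
          rfl
        map_smul' := fun a y => by
          rw [RingHom.id_apply, ← map_smul]
          apply key
          rw [hz, ← hd2, map_smul, hd2, hz]
          rfl }
    let π : R.P2 →ₗ[MonoidAlgebra ℤ K] LinearMap.ker d1 :=
      LinearMap.codRestrict (LinearMap.ker d1) d2 (fun y => by
        rw [LinearMap.mem_ker, hd1, hd2]
        exact (R.ex1 _).2 ⟨y, rfl⟩)
    refine Module.Projective.of_split ι π ?_
    refine LinearMap.ext fun y => Subtype.ext ?_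
    show d2 (q (z y)) = (y : R.P1)
    rw [hd2, hd2q, hz]
  -- the augmentations
  obtain ⟨e, he⟩ : ∃ e : R.P0 →ₗ[MonoidAlgebra ℤ K] Tr ℤ K, ∀ y, e y = (R.e y : ℤ) :=
    ⟨{ toFun := fun y => (R.e y : ℤ)
       map_add' := fun y y' => map_add R.e y y'
       map_smul' := fun a y => by
        rw [RingHom.id_apply, s0]
        show (R.e (MonoidAlgebra.mapDomainRingHom ℤ j a • y) : ℤ) = aug ℤ K a * R.e y
        induction a using MonoidAlgebra.induction_linear with
        | zero => rw [map_zero, zero_smul, map_zero, map_zero, zero_mul]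
        | add a b ha hb => rw [map_add, add_smul, map_add, ha, hb, map_add, add_mul]
        | single s n =>
          rw [STK_single, map_zsmul, R.e_smul, aug, MonoidAlgebra.lift_single]
          simp }, fun _ => rfl⟩
  have hes : Function.Surjective e := by
    intro n
    obtain ⟨y, hy⟩ := R.e_surj n
    exact ⟨y, by rw [he]; exact hy⟩
  have hr : LinearMap.range d1 = LinearMap.ker e := by
    ext y
    rw [LinearMap.mem_range, LinearMap.mem_ker, he]
    constructor
    · rintro ⟨w, rfl⟩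
      rw [hd1]
      exact (R.ex0 _).2 ⟨w, rfl⟩
    · intro h
      obtain ⟨w, hw⟩ := (R.ex0 y).1 h
      exact ⟨w, by rw [hd1]; exact hw⟩
  exact ⟨m0, m1, d1, e, p0, p1, hes, hr, hpk⟩

theorem thm_STK (hS : St_STR) (hF : St_FRE) (hC : St_SCH) (hB : St_BDR) : St_STK := by
  intro G _ R S _ j hj K hidx d z hz
  have hi : Function.Injective (j.comp K.subtype) := hj.comp K.subtype_injective
  have hir : (j.comp K.subtype).range.index = 0 := by
    rw [MonoidHom.range_comp, Subgroup.range_subtype]; exact hidx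
  obtain ⟨m0, m1, d1, e, p0, p1, hes, hr, hpk⟩ := STK_half hS hF G R K (j.comp K.subtype) hi hir
  let mS : Module (MonoidAlgebra ℤ K) (MonoidAlgebra ℤ S) :=
    Module.compHom (MonoidAlgebra ℤ S) (MonoidAlgebra.mapDomainRingHom ℤ K.subtype)
  have sS : ∀ (a : MonoidAlgebra ℤ K) (y : MonoidAlgebra ℤ S),
      a • y = MonoidAlgebra.mapDomainRingHom ℤ K.subtype a • y := fun _ _ => rfl
  have sQ : ∀ (a : MonoidAlgebra ℤ K) (y : Fin d → MonoidAlgebra ℤ S),
      a • y = MonoidAlgebra.mapDomainRingHom ℤ K.subtype a • y := fun _ _ => rfl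
  have pS : Module.Projective (MonoidAlgebra ℤ K) (MonoidAlgebra ℤ S) :=
    hF ℤ K S K.subtype K.subtype_injective (MonoidAlgebra ℤ S) sS inferInstance
  have pQ : Module.Projective (MonoidAlgebra ℤ K) (Fin d → MonoidAlgebra ℤ S) :=
    hF ℤ K S K.subtype K.subtype_injective (Fin d → MonoidAlgebra ℤ S) sQ inferInstance
  obtain ⟨f', hf'⟩ : ∃ f' : (Fin d → MonoidAlgebra ℤ S) →ₗ[MonoidAlgebra ℤ K] MonoidAlgebra ℤ S,
      ∀ y, f' y = bd ℤ z y :=
    ⟨{ toFun := fun y => bd ℤ z y
       map_add' := fun y y' => map_add (bd ℤ z) y y'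
       map_smul' := fun a y => by
        rw [RingHom.id_apply, sQ, sS, map_smul] }, fun _ => rfl⟩
  obtain ⟨e', he'⟩ : ∃ e' : MonoidAlgebra ℤ S →ₗ[MonoidAlgebra ℤ K] Tr ℤ K,
      ∀ y, e' y = (aug ℤ S y : ℤ) :=
    ⟨{ toFun := fun y => (aug ℤ S y : ℤ)
       map_add' := fun y y' => map_add (aug ℤ S) y y'
       map_smul' := fun a y => by
        rw [RingHom.id_apply, sS, smul_eq_mul]
        show (aug ℤ S (MonoidAlgebra.mapDomainRingHom ℤ K.subtype a * y) : ℤ) =
          aug ℤ K a * aug ℤ S y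
        rw [map_mul]
        congr 1
        induction a using MonoidAlgebra.induction_linear with
        | zero => simp
        | add a b ha hb => rw [map_add, map_add, ha, hb, map_add]
        | single s n =>
          rw [MonoidAlgebra.mapDomainRingHom_apply, MonoidAlgebra.mapDomain_single, aug, aug,
            MonoidAlgebra.lift_single, MonoidAlgebra.lift_single]
          simp }, fun _ => rfl⟩
  have hes' : Function.Surjective e' := by
    intro n
    refine ⟨algebraMap ℤ (MonoidAlgebra ℤ S) n, ?_⟩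
    rw [he']
    exact (aug ℤ S).commutes n
  have hr' : LinearMap.range f' = LinearMap.ker e' := by
    refine Submodule.ext fun y => ?_
    rw [LinearMap.mem_range, LinearMap.mem_ker, he']
    constructor
    · rintro ⟨w, rfl⟩
      rw [hf']
      exact (hB ℤ S d z hz _).2 ⟨w, rfl⟩
    · intro h
      obtain ⟨w, hw⟩ := (hB ℤ S d z hz y).1 h
      exact ⟨w, by rw [hf', hw]⟩
  have hproj : Module.Projective (MonoidAlgebra ℤ K) (LinearMap.ker f') :=
    hC (MonoidAlgebra ℤ K) (Tr ℤ K) R.P0 R.P1 (MonoidAlgebra ℤ S)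
      (Fin d → MonoidAlgebra ℤ S) e d1 e' f' hes hes' hr hr' hpk
  obtain ⟨σ, hσ⟩ := Module.projective_def'.1 hproj
  have hmem : ∀ y : Fin d → MonoidAlgebra ℤ S, y ∈ Rel ℤ z ↔ y ∈ LinearMap.ker f' := by
    intro y
    rw [LinearMap.mem_ker, hf']
    exact LinearMap.mem_ker
  let E : Rel ℤ z ≃+ LinearMap.ker f' :=
    { toFun := fun y => ⟨y.1, (hmem _).1 y.2⟩
      invFun := fun y => ⟨y.1, (hmem _).2 y.2⟩
      left_inv := fun y => rfl
      right_inv := fun y => rfl
      map_add' := fun y y' => rfl }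
  have hEs : ∀ (a : MonoidAlgebra ℤ K) (q : LinearMap.ker f'),
      E.symm (a • q) = res ℤ K a • E.symm q := fun a q => rfl
  refine ⟨(Finsupp.mapDomain.addMonoidHom E.symm).comp
    (σ.toAddMonoidHom.comp E.toAddMonoidHom), ?_, ?_⟩
  · intro u y
    have h1 : E (el ℤ (u : S) • y) = el ℤ u • E y := by
      apply E.symm.injective
      rw [hEs, AddEquiv.symm_apply_apply, AddEquiv.symm_apply_apply]
      congr 1
      rw [res, MonoidAlgebra.mapDomainRingHom_apply, el, el, MonoidAlgebra.of_apply,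
        MonoidAlgebra.of_apply, MonoidAlgebra.mapDomain_single]
      rfl
    show Finsupp.mapDomain E.symm (σ (E (el ℤ (u : S) • y))) =
      el ℤ u • Finsupp.mapDomain E.symm (σ (E y))
    rw [h1, map_smul, Finsupp.mapDomain_smul]
  · intro y
    show (Finsupp.mapDomain E.symm (σ (E y))).sum (fun q a => res ℤ K a • q) = y
    rw [Finsupp.sum_mapDomain_index (fun q => by rw [map_zero, zero_smul])
      (fun q a b => by rw [map_add, add_smul])]
    have h2 : (σ (E y)).sum (fun q a => res ℤ K a • E.symm q) =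
        E.symm ((σ (E y)).sum fun q a => a • q) := by
      rw [map_finsuppSum]
      rfl
    rw [h2]
    have h3 := LinearMap.congr_fun hσ (E y)
    rw [LinearMap.comp_apply, LinearMap.id_apply, Finsupp.linearCombination_apply] at h3
    simp only [id] at h3
    rw [h3, AddEquiv.symm_apply_apply]

end Pool.Agent.PDA
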