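import Pool.Agent.PDA.StA

/-!
# PDA, module STR: over a subgroup of infinite index `P3` is a summand of `P2`
-/

set_option autoImplicit false
set_option linter.unusedVariables false

namespace Pool.Agent.PDA

open Pool.Agent.PDB

namespace STRx

variable {G P : Type} [Group G] [AddCommGroup P]

/-- the additive map `ℤ[G] → P` with `g ↦ m g` -/
noncomputable def LL (m : G → P) : ZG G →+ P :=
  (Finsupp.linearCombination ℤ m).toAddMonoidHom.comp
    (MonoidAlgebra.coeffAddEquiv (R := ℤ) (M := G)).toAddMonoidHom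

theorem LL_single (m : G → P) (g : G) (n : ℤ) :
    LL m (MonoidAlgebra.single g n) = n • m g :=
  Finsupp.linearCombination_single ℤ n g

theorem el_eq (g : G) : el ℤ g = MonoidAlgebra.single g (1 : ℤ) := MonoidAlgebra.of_apply _ _ g

theorem el_mul (g h : G) : el ℤ (g * h) = el ℤ g * el ℤ h := map_mul _ _ _

theorem LL_mul_right (m : G → P) (s : G) (a : ZG G) :
    LL m (a * el ℤ s) = LL (fun g => m (g * s)) a := by
  induction a using MonoidAlgebra.induction_linear with
  | zero => rw [zero_mul, map_zero, map_zero]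
  | add x y hx hy => rw [add_mul, map_add, map_add, hx, hy]
  | single g n =>
    rw [el_eq, MonoidAlgebra.single_mul_single, LL_single, LL_single, mul_one]

theorem LL_smul_add (m m' : G → P) (c : ℤ) (a : ZG G) :
    LL (fun g => m g - c • m' g) a = LL m a - c • LL m' a := by
  induction a using MonoidAlgebra.induction_linear with
  | zero => rw [map_zero, map_zero, map_zero, smul_zero, sub_zero]
  | add x y hx hy =>
    rw [map_add, map_add, map_add, hx, hy, smul_add]
    abel
  | single g n =>
    rw [LL_single, LL_single, LL_single, smul_sub, smul_comm]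

theorem LL_sum {ι : Type} (s : Finset ι) (m : ι → G → P) (a : ZG G) :
    LL (fun g => ∑ j ∈ s, m j g) a = ∑ j ∈ s, LL (m j) a := by
  induction a using MonoidAlgebra.induction_linear with
  | zero => simp only [map_zero, Finset.sum_const_zero]
  | add x y hx hy => simp only [map_add, hx, hy, Finset.sum_add_distrib]
  | single g n => simp only [LL_single, Finset.smul_sum]

theorem LL_smul (m : G → P) (c : ℤ) (a : ZG G) :
    LL (fun g => c • m g) a = c • LL m a := by
  induction a using MonoidAlgebra.induction_linear with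
  | zero => rw [map_zero, map_zero, smul_zero]
  | add x y hx hy => rw [map_add, map_add, hx, hy, smul_add]
  | single g n => rw [LL_single, LL_single, smul_comm]

variable [Module (ZG G) P]

theorem LL_mul_left (m : G → P) (h : G) (hm : ∀ g, m (h * g) = el ℤ h • m g) (a : ZG G) :
    LL m (el ℤ h * a) = el ℤ h • LL m a := by
  induction a using MonoidAlgebra.induction_linear with
  | zero => rw [mul_zero, map_zero, smul_zero]
  | add x y hx hy => rw [mul_add, map_add, map_add, hx, hy, smul_add]
  | single g n =>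
    rw [LL_single, smul_comm, ← hm, el_eq, MonoidAlgebra.single_mul_single, LL_single, one_mul]

theorem LL_u (u : P) (a : ZG G) : LL (fun g => el ℤ g • u) a = a • u := by
  induction a using MonoidAlgebra.induction_linear with
  | zero => rw [map_zero, zero_smul]
  | add x y hx hy => rw [map_add, hx, hy, add_smul]
  | single g n =>
    rw [LL_single, el_eq, ← smul_assoc, MonoidAlgebra.smul_single, smul_eq_mul, mul_one]

theorem units_sq (u : ℤˣ) : (u : ℤ) * (u : ℤ) = 1 := by
  rw [← Units.val_mul, Int.units_mul_self, Units.val_one]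

end STRx

open STRx

theorem thm_STR (hG : St_GFG) (hW : St_WCH) (hF : St_FLO) : St_STR := by
  intro G _ R S hS
  classical
  obtain ⟨w, hw⟩ := hW G R
  -- a finite symmetric generating set
  obtain ⟨F, hFs, hFc⟩ : ∃ F : Finset G, (∀ s ∈ F, s⁻¹ ∈ F) ∧
      Subgroup.closure (F : Set G) = ⊤ := by
    obtain ⟨n, F0, _, hc⟩ := Group.fg_iff'.1 (hG G R)
    refine ⟨F0 ∪ F0.image (fun s => s⁻¹), ?_, ?_⟩
    · intro s hs
      rcases Finset.mem_union.1 hs with h1 | h1
      · exact Finset.mem_union_right _ (Finset.mem_image_of_mem _ h1)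
      · obtain ⟨t, ht, rfl⟩ := Finset.mem_image.1 h1
        rw [inv_inv]
        exact Finset.mem_union_left _ ht
    · refine top_le_iff.1 ?_
      rw [← hc]
      refine Subgroup.closure_mono ?_
      intro s hs
      exact Finset.mem_coe.2 (Finset.mem_union_left _ (Finset.mem_coe.1 hs))
  -- dual basis
  obtain ⟨n, pp, ii, _, _, hpi⟩ := Module.Finite.exists_comp_eq_id_of_projective (ZG G) R.P3
  set u : Fin n → R.P3 := fun j => pp (Pi.single j 1) with hu
  set f : Fin n → (R.P3 →ₗ[ZG G] ZG G) := fun j => (LinearMap.proj j) ∘ₗ ii with hf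
  have hbasis : ∀ x : R.P3, ∑ j, f j x • u j = x := by
    intro x
    have h1 : pp (ii x) = x := LinearMap.congr_fun hpi x
    conv_rhs => rw [← h1]
    have h2 : ii x = ∑ j, (ii x j) • (Pi.single j (1 : ZG G) : Fin n → ZG G) := by
      funext k
      rw [Finset.sum_apply, Finset.sum_eq_single k]
      · rw [Pi.smul_apply, Pi.single_eq_same, smul_eq_mul, mul_one]
      · intro b _ hb
        rw [Pi.smul_apply, Pi.single_eq_of_ne (Ne.symm hb), smul_zero]
      · intro h; exact absurd (Finset.mem_univ _) h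
    conv_rhs => rw [h2]
    rw [map_sum]
    refine Finset.sum_congr rfl fun j _ => ?_
    rw [map_smul]
    rfl
  obtain ⟨f0, hf0⟩ := R.θ_surj 1
  have hFj : ∀ j, ∃ g : R.P2 →ₗ[ZG G] ZG G, f j - R.θ (f j) • f0 = g ∘ₗ R.d3 := by
    intro j
    refine (R.θ_ker _).1 ?_
    rw [map_sub, map_zsmul, hf0, smul_eq_mul, mul_one, sub_self]
  choose FF hFF using hFj
  have hGs : ∀ s : G, ∃ g : R.P2 →ₗ[ZG G] ZG G, f0 - (w s : ℤ) • rm f0 s = g ∘ₗ R.d3 := by
    intro s
    refine (R.θ_ker _).1 ?_
    rw [map_sub, map_zsmul, hw, hf0, smul_eq_mul, mul_one, units_sq, sub_self]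
  choose GG hGG using hGs
  set m : G → R.P3 := fun g => ∑ j, R.θ (f j) • (el ℤ g • u j) with hm
  have hml : ∀ h g : G, m (h * g) = el ℤ h • m g := by
    intro h g
    rw [hm]
    simp only [Finset.smul_sum, map_mul, mul_smul]
    refine Finset.sum_congr rfl fun j _ => ?_
    rw [smul_comm]
  -- the flow
  obtain ⟨ns, hns1, hns2⟩ := hF G F hFs hFc S hS R.P3
    (fun h => AddMonoidHom.mk' (fun x => (w (h : G) : ℤ) • (el ℤ (h : G) • x))
      (fun x y => by rw [smul_add, smul_add]))
    (fun g => (w g : ℤ) • m g) (by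
      intro h g
      change (w ((h : G) * g) : ℤ) • m ((h : G) * g) =
        (w (h : G) : ℤ) • (el ℤ (h : G) • ((w g : ℤ) • m g))
      rw [hml, map_mul, Units.val_mul, mul_smul, smul_comm (el ℤ (h : G)) (w g : ℤ)])
  set nn : G → G → R.P3 := fun s g => (w g : ℤ) • ns s g with hnn
  have hnn1 : ∀ s ∈ F, ∀ h ∈ S, ∀ g, nn s (h * g) = el ℤ h • nn s g := by
    intro s hs h hh g
    have h1 : ns s (h * g) = (w h : ℤ) • (el ℤ h • ns s g) := hns1 s hs ⟨h, hh⟩ g
    change (w (h * g) : ℤ) • ns s (h * g) = el ℤ h • ((w g : ℤ) • ns s g)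
    rw [h1, smul_comm (el ℤ h) (w g : ℤ), ← smul_assoc, map_mul, Units.val_mul, smul_eq_mul]
    have h2 : (w h : ℤ) * (w g : ℤ) * (w h : ℤ) = (w g : ℤ) := by
      have := units_sq (w h)
      calc (w h : ℤ) * (w g : ℤ) * (w h : ℤ) = ((w h : ℤ) * (w h : ℤ)) * (w g : ℤ) := by ring
        _ = _ := by rw [this, one_mul]
    rw [h2]
  have hnn2 : ∀ g, m g = ∑ s ∈ F, (nn s g - (w s : ℤ) • nn s (g * s)) := by
    intro g
    have h1 : (w g : ℤ) • m g = ∑ s ∈ F, (ns s g - ns s (g * s)) := hns2 g
    have h2 : m g = (w g : ℤ) • ((w g : ℤ) • m g) := by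
      rw [← smul_assoc, smul_eq_mul, units_sq, one_smul]
    rw [h2, h1, Finset.smul_sum]
    refine Finset.sum_congr rfl fun s _ => ?_
    change _ = (w g : ℤ) • ns s g - (w s : ℤ) • ((w (g * s) : ℤ) • ns s (g * s))
    rw [smul_sub, ← smul_assoc (w s : ℤ), map_mul, Units.val_mul, smul_eq_mul]
    have h3 : (w s : ℤ) * ((w g : ℤ) * (w s : ℤ)) = (w g : ℤ) := by
      have := units_sq (w s)
      calc (w s : ℤ) * ((w g : ℤ) * (w s : ℤ)) = ((w s : ℤ) * (w s : ℤ)) * (w g : ℤ) := by ring
        _ = _ := by rw [this, one_mul]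
    rw [h3]
  refine ⟨∑ j, (LL (fun g => el ℤ g • u j)).comp (FF j).toAddMonoidHom +
    ∑ s ∈ F, (LL (nn s)).comp (GG s).toAddMonoidHom, ?_, ?_⟩
  · intro h hh x
    simp only [AddMonoidHom.add_apply, AddMonoidHom.finsetSum_apply, AddMonoidHom.comp_apply,
      LinearMap.toAddMonoidHom_coe, map_smul, smul_eq_mul, smul_add, Finset.smul_sum]
    congr 1
    · refine Finset.sum_congr rfl fun j _ => ?_
      exact LL_mul_left _ h (fun g => by rw [el_mul, mul_smul]) _
    · refine Finset.sum_congr rfl fun s hs => ?_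
      exact LL_mul_left _ h (fun g => hnn1 s hs h hh g) _
  · intro y
    simp only [AddMonoidHom.add_apply, AddMonoidHom.finsetSum_apply, AddMonoidHom.comp_apply,
      LinearMap.toAddMonoidHom_coe]
    have h1 : ∀ j, FF j (R.d3 y) = f j y - R.θ (f j) • f0 y := by
      intro j
      exact (LinearMap.congr_fun (hFF j) y).symm
    have h2 : ∀ s, GG s (R.d3 y) = f0 y - (w s : ℤ) • (f0 y * el ℤ s) := by
      intro s
      exact (LinearMap.congr_fun (hGG s) y).symm
    have h3 : ∑ s ∈ F, LL (nn s) (GG s (R.d3 y)) = LL m (f0 y) := by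
      have h4 : m = fun g => ∑ s ∈ F, (nn s g - (w s : ℤ) • nn s (g * s)) := funext hnn2
      rw [h4, LL_sum]
      refine Finset.sum_congr rfl fun s _ => ?_
      rw [h2, LL_smul_add, map_sub, map_zsmul, LL_mul_right]
    have h5 : LL m (f0 y) = ∑ j, R.θ (f j) • (f0 y • u j) := by
      rw [hm, LL_sum]
      refine Finset.sum_congr rfl fun j _ => ?_
      rw [LL_smul, LL_u]
    rw [h3, h5, ← Finset.sum_add_distrib]
    conv_rhs => rw [← hbasis y]
    refine Finset.sum_congr rfl fun j _ => ?_
    rw [LL_u, h1, sub_smul, smul_assoc, sub_add_cancel]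

end Pool.Agent.PDA
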