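import Pool.Agent.PDA.StB

/-!
# PDA, module TF0: no elements of order `p` if the relation module over `F_p` is projective
-/

set_option autoImplicit false
set_option linter.unusedVariables false

namespace Pool.Agent.PDA

open Pool.Agent.PDB

/-- representatives of the cosets `⟨c⟩ g` -/
private theorem TF0_reps {S : Type} [Group S] {p : ℕ} (hp : p.Prime) {c : S} (hc : c ^ p = 1)
    (hc1 : c ≠ 1) : ∃ T : Set S, ∀ g : S, ∃ i < p, (c ^ i)⁻¹ * g ∈ T ∧
      ∀ j < p, (c ^ j)⁻¹ * g ∈ T → j = i := by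
  classical
  have : Fact p.Prime := ⟨hp⟩
  have ho : orderOf c = p := orderOf_eq_prime hc hc1
  have hfin : IsOfFinOrder c := isOfFinOrder_iff_pow_eq_one.mpr ⟨p, hp.pos, hc⟩
  let r : Setoid S := QuotientGroup.rightRel (Subgroup.zpowers c)
  have hr : ∀ a b : S, (Quotient.mk r a = Quotient.mk r b) ↔ b * a⁻¹ ∈ Subgroup.zpowers c := by
    intro a b
    rw [Quotient.eq]
    exact QuotientGroup.rightRel_apply
  refine ⟨{g | Quotient.out (Quotient.mk r g) = g}, fun g => ?_⟩
  set t := Quotient.out (Quotient.mk r g) with ht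
  have h1 : Quotient.mk r t = Quotient.mk r g := Quotient.out_eq _
  have h2 : g * t⁻¹ ∈ Subgroup.zpowers c := (hr t g).mp h1
  rw [hfin.mem_zpowers_iff_mem_range_orderOf, ho] at h2
  obtain ⟨i, hi, hi2⟩ := Finset.mem_image.mp h2
  have h3 : (c ^ i)⁻¹ * g = t := by
    have h4 : c ^ i = g * t⁻¹ := hi2
    rw [h4]
    group
  refine ⟨i, Finset.mem_range.mp hi, ?_, ?_⟩
  · rw [h3]
    show Quotient.out (Quotient.mk r t) = t
    rw [h1]
  · intro j hj hjT
    have h5 : Quotient.out (Quotient.mk r ((c ^ j)⁻¹ * g)) = (c ^ j)⁻¹ * g := hjT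
    have h6 : Quotient.mk r ((c ^ j)⁻¹ * g) = Quotient.mk r g := by
      rw [hr]
      have h7 : g * ((c ^ j)⁻¹ * g)⁻¹ = c ^ j := by group
      rw [h7]
      exact Subgroup.pow_mem _ (Subgroup.mem_zpowers c) j
    rw [h6, ← ht, ← h3] at h5
    have h8 : c ^ i = c ^ j := inv_injective (mul_right_cancel h5)
    have h9 := pow_injOn_Iio_orderOf (x := c) (by rw [ho]; exact Finset.mem_range.mp hi)
      (by rw [ho]; exact hj) h8
    exact h9.symm

section ring

variable {k S : Type} [CommRing k] [Group S] {p : ℕ} {c : S}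

private theorem TF0_coeff (g h : S) (a : MonoidAlgebra k S) :
    (el k g * a).coeff h = a.coeff (g⁻¹ * h) := by
  rw [el, MonoidAlgebra.of_apply, MonoidAlgebra.coeff_single_mul_apply, one_mul]

/-- the part supported on `T` -/
private noncomputable def TF0_P (T : Set S) (a : MonoidAlgebra k S) : MonoidAlgebra k S :=
  open Classical in MonoidAlgebra.ofCoeff (a.coeff.filter (· ∈ T))

open Classical in
private theorem TF0_P_coeff (T : Set S) (a : MonoidAlgebra k S) (g : S) :
    (TF0_P T a).coeff g = if g ∈ T then a.coeff g else 0 := by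
  unfold TF0_P
  rw [MonoidAlgebra.coeff_ofCoeff, Finsupp.filter_apply]

private theorem TF0_P_zero (T : Set S) : TF0_P T (0 : MonoidAlgebra k S) = 0 := by
  classical
  apply MonoidAlgebra.ext
  ext g
  rw [TF0_P_coeff, MonoidAlgebra.coeff_zero, Finsupp.zero_apply, ite_self]

private theorem TF0_P_add (T : Set S) (a b : MonoidAlgebra k S) :
    TF0_P T (a + b) = TF0_P T a + TF0_P T b := by
  classical
  apply MonoidAlgebra.ext
  ext g
  rw [MonoidAlgebra.coeff_add, Finsupp.add_apply, TF0_P_coeff, TF0_P_coeff, TF0_P_coeff,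
    MonoidAlgebra.coeff_add, Finsupp.add_apply]
  split_ifs
  · rfl
  · rw [add_zero]

private theorem TF0_P_sum (T : Set S) {ι : Type} (s : Finset ι) (f : ι → MonoidAlgebra k S) :
    TF0_P T (∑ i ∈ s, f i) = ∑ i ∈ s, TF0_P T (f i) := by
  classical
  induction s using Finset.induction_on with
  | empty => rw [Finset.sum_empty, Finset.sum_empty, TF0_P_zero]
  | insert i s hi ih => rw [Finset.sum_insert hi, Finset.sum_insert hi, TF0_P_add, ih]

private theorem TF0_decomp {T : Set S} (hT : ∀ g : S, ∃ i < p, (c ^ i)⁻¹ * g ∈ T ∧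
    ∀ j < p, (c ^ j)⁻¹ * g ∈ T → j = i) (a : MonoidAlgebra k S) :
    ∑ i ∈ Finset.range p, el k (c ^ i) * TF0_P T (el k (c ^ i)⁻¹ * a) = a := by
  classical
  apply MonoidAlgebra.ext
  ext g
  obtain ⟨i, hi, hiT, huniq⟩ := hT g
  rw [MonoidAlgebra.coeff_sum, Finsupp.finsetSum_apply, Finset.sum_eq_single i]
  · rw [TF0_coeff, TF0_P_coeff, if_pos hiT, TF0_coeff, inv_inv, mul_inv_cancel_left]
  · intro j hj hji
    rw [TF0_coeff, TF0_P_coeff, if_neg fun h => hji (huniq j (Finset.mem_range.mp hj) h)]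
  · intro h
    exact absurd (Finset.mem_range.mpr hi) h

private theorem TF0_PNP (hp : 0 < p) {T : Set S} (hT : ∀ g : S, ∃ i < p, (c ^ i)⁻¹ * g ∈ T ∧
    ∀ j < p, (c ^ j)⁻¹ * g ∈ T → j = i) (a : MonoidAlgebra k S) :
    TF0_P T (∑ i ∈ Finset.range p, el k (c ^ i) * TF0_P T a) = TF0_P T a := by
  classical
  apply MonoidAlgebra.ext
  ext g
  rw [TF0_P_coeff, TF0_P_coeff]
  by_cases hg : g ∈ T
  · rw [if_pos hg, if_pos hg, MonoidAlgebra.coeff_sum, Finsupp.finsetSum_apply,
      Finset.sum_eq_single 0]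
    · rw [TF0_coeff, pow_zero, inv_one, one_mul, TF0_P_coeff, if_pos hg]
    · intro j hj hj0
      obtain ⟨i, hi, hiT, huniq⟩ := hT g
      rw [TF0_coeff, TF0_P_coeff, if_neg]
      intro h
      have h1 := huniq j (Finset.mem_range.mp hj) h
      have h2 := huniq 0 hp (by rw [pow_zero, inv_one, one_mul]; exact hg)
      exact hj0 (h1.trans h2.symm)
    · intro h
      exact absurd (Finset.mem_range.mpr hp) h
  · rw [if_neg hg, if_neg hg]

/-- the norm element -/
private noncomputable def TF0_N (k : Type) [CommRing k] (p : ℕ) (c : S) : MonoidAlgebra k S :=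
  ∑ i ∈ Finset.range p, el k (c ^ i)

private theorem TF0_el_pow (i : ℕ) : el k (c ^ i) = (el k c) ^ i := by
  rw [el, map_pow]

private theorem TF0_N_eq : TF0_N k p c = ∑ i ∈ Finset.range p, (el k c) ^ i :=
  Finset.sum_congr rfl fun i _ => TF0_el_pow i

private theorem TF0_pow_one (hc : c ^ p = 1) : (el k c) ^ p = 1 := by
  rw [← TF0_el_pow, hc, el, map_one]

private theorem TF0_C_N (hc : c ^ p = 1) : el k c * TF0_N k p c = TF0_N k p c := by
  have h1 : (el k c - 1) * TF0_N k p c = 0 := by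
    rw [TF0_N_eq, mul_geom_sum, TF0_pow_one hc, sub_self]
  rw [sub_mul, one_mul, sub_eq_zero] at h1
  exact h1

private theorem TF0_N_C (hc : c ^ p = 1) : TF0_N k p c * el k c = TF0_N k p c := by
  have h1 : TF0_N k p c * (el k c - 1) = 0 := by
    rw [TF0_N_eq, geom_sum_mul, TF0_pow_one hc, sub_self]
  rw [mul_sub, mul_one, sub_eq_zero] at h1
  exact h1

private theorem TF0_N_pow (hc : c ^ p = 1) (i : ℕ) :
    TF0_N k p c * el k (c ^ i) = TF0_N k p c := by
  induction i with
  | zero => rw [pow_zero, el, map_one, mul_one]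
  | succ i ih =>
    rw [pow_succ, el, map_mul, ← mul_assoc]
    have h1 : TF0_N k p c * (MonoidAlgebra.of k S) (c ^ i) = TF0_N k p c := ih
    rw [h1]
    exact TF0_N_C hc

private theorem TF0_fix {T : Set S} (hT : ∀ g : S, ∃ i < p, (c ^ i)⁻¹ * g ∈ T ∧
    ∀ j < p, (c ^ j)⁻¹ * g ∈ T → j = i) (b : MonoidAlgebra k S) (hb : el k c * b = b) :
    b = TF0_N k p c * TF0_P T b := by
  have h1 : ∀ i : ℕ, el k (c ^ i) * b = b := by
    intro i
    induction i with
    | zero => rw [pow_zero, el, map_one, one_mul]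
    | succ i ih =>
      rw [pow_succ, el, map_mul, mul_assoc]
      have h2 : (MonoidAlgebra.of k S) c * b = b := hb
      rw [h2]
      exact ih
  have h2 : ∀ i : ℕ, el k (c ^ i)⁻¹ * b = b := by
    intro i
    conv_lhs => rw [← h1 i]
    rw [← mul_assoc, el, el, ← map_mul, inv_mul_cancel, map_one, one_mul]
  have h3 := TF0_decomp hT b
  rw [Finset.sum_congr rfl fun i _ => by rw [h2 i], ← Finset.sum_mul] at h3
  exact h3.symm

private theorem TF0_ker (hp : 0 < p) (hc : c ^ p = 1) {T : Set S}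
    (hT : ∀ g : S, ∃ i < p, (c ^ i)⁻¹ * g ∈ T ∧ ∀ j < p, (c ^ j)⁻¹ * g ∈ T → j = i)
    (b : MonoidAlgebra k S) (hb : TF0_N k p c * b = 0) : ∃ y, b = (1 - el k c) * y := by
  set f : ℕ → MonoidAlgebra k S := fun i => TF0_P T (el k (c ^ i)⁻¹ * b) with hf
  have h1 : ∑ i ∈ Finset.range p, el k (c ^ i) * f i = b := TF0_decomp hT b
  have h2 : ∑ i ∈ Finset.range p, f i =
      TF0_P T (∑ i ∈ Finset.range p, el k (c ^ i)⁻¹ * b) := (TF0_P_sum T _ _).symm
  have h3 : TF0_N k p c * ∑ i ∈ Finset.range p, f i = 0 := by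
    rw [Finset.mul_sum]
    have h4 : ∀ i ∈ Finset.range p, TF0_N k p c * f i =
        TF0_N k p c * (el k (c ^ i) * f i) := by
      intro i _
      rw [← mul_assoc, TF0_N_pow hc]
    rw [Finset.sum_congr rfl h4, ← Finset.mul_sum, h1, hb]
  have h5 : ∑ i ∈ Finset.range p, f i = 0 := by
    have h6 := TF0_PNP (k := k) hp hT (∑ i ∈ Finset.range p, el k (c ^ i)⁻¹ * b)
    rw [← h2, ← Finset.sum_mul] at h6
    have h7 : (∑ i ∈ Finset.range p, el k (c ^ i)) * ∑ i ∈ Finset.range p, f i = 0 := h3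
    rw [h7, TF0_P_zero] at h6
    exact h6.symm
  refine ⟨-∑ i ∈ Finset.range p, (∑ j ∈ Finset.range i, (el k c) ^ j) * f i, ?_⟩
  have h8 : b = ∑ i ∈ Finset.range p, (el k (c ^ i) - 1) * f i := by
    have h9 : ∑ i ∈ Finset.range p, (el k (c ^ i) - 1) * f i =
        ∑ i ∈ Finset.range p, el k (c ^ i) * f i - ∑ i ∈ Finset.range p, f i := by
      rw [← Finset.sum_sub_distrib]
      exact Finset.sum_congr rfl fun i _ => by rw [sub_mul, one_mul]
    rw [h9, h1, h5, sub_zero]
  rw [mul_neg, Finset.mul_sum, ← Finset.sum_neg_distrib]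
  conv_lhs => rw [h8]
  refine Finset.sum_congr rfl fun i _ => ?_
  rw [← mul_assoc, mul_neg_geom_sum, TF0_el_pow, ← neg_mul, neg_sub]

/-- fixed elements of projective modules are norms -/
private theorem TF0_proj {T : Set S} (hT : ∀ g : S, ∃ i < p, (c ^ i)⁻¹ * g ∈ T ∧
    ∀ j < p, (c ^ j)⁻¹ * g ∈ T → j = i) {M : Type} [AddCommGroup M]
    [Module (MonoidAlgebra k S) M] (hM : Module.Projective (MonoidAlgebra k S) M) (y : M)
    (hy : el k c • y = y) : ∃ r : M, y = TF0_N k p c • r := by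
  obtain ⟨s, hs⟩ := (Module.projective_def (R := MonoidAlgebra k S)).mp hM
  refine ⟨Finsupp.linearCombination (MonoidAlgebra k S) id
    ((s y).mapRange (TF0_P T) (TF0_P_zero T)), ?_⟩
  have h1 : s y = TF0_N k p c • (s y).mapRange (TF0_P T) (TF0_P_zero T) := by
    ext1 m
    rw [Finsupp.smul_apply, Finsupp.mapRange_apply, smul_eq_mul]
    refine TF0_fix hT _ ?_
    have h2 : el k c • s y = s y := by rw [← map_smul, hy]
    have h3 := DFunLike.congr_fun h2 m
    rwa [Finsupp.smul_apply, smul_eq_mul] at h3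
  rw [← map_smul, ← h1]
  exact (hs y).symm

end ring

theorem thm_TF0 (hB : St_BDR) : St_TF0 := by
  intro S _ p hpf d x hx hproj c hc
  by_contra hc1
  have hp : p.Prime := hpf.out
  obtain ⟨T, hT⟩ := TF0_reps hp hc hc1
  have haug : ∀ g : S, aug (ZMod p) S (el (ZMod p) g) = 1 := by
    intro g
    unfold aug el
    rw [MonoidAlgebra.lift_of]
    rfl
  set N := TF0_N (ZMod p) p c with hN
  set C := el (ZMod p) c with hC
  obtain ⟨z, hz⟩ := (hB (ZMod p) S d x hx (1 - C)).mp (by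
    rw [map_sub, map_one, hC, haug, sub_self])
  -- `N z` is in the relation module
  have hNC : N * (1 - C) = 0 := by
    rw [mul_sub, mul_one, hN, hC, TF0_N_C hc, sub_self]
  have hmem : N • z ∈ Rel (ZMod p) x := by
    show bd (ZMod p) x (N • z) = 0
    rw [map_smul, hz, smul_eq_mul, hNC]
  obtain ⟨r, hr⟩ := TF0_proj hT hproj (⟨N • z, hmem⟩ : Rel (ZMod p) x) (by
    apply Subtype.ext
    show C • (N • z) = N • z
    rw [smul_smul, hN, hC, TF0_C_N hc])
  have hr' : N • z = N • (r : Fin d → MonoidAlgebra (ZMod p) S) := congrArg Subtype.val hr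
  have hcoord : ∀ i, ∃ y, (z - (r : Fin d → MonoidAlgebra (ZMod p) S)) i = (1 - C) * y := by
    intro i
    refine TF0_ker hp.pos hc hT _ ?_
    have h1 := congrFun hr' i
    rw [Pi.smul_apply, Pi.smul_apply, smul_eq_mul, smul_eq_mul] at h1
    rw [Pi.sub_apply, mul_sub, ← hN, h1, sub_self]
  choose z' hz' using hcoord
  have h2 : z - (r : Fin d → MonoidAlgebra (ZMod p) S) = (1 - C) • z' := by
    ext1 i
    rw [hz' i, Pi.smul_apply, smul_eq_mul]
  have hrbd : bd (ZMod p) x (r : Fin d → MonoidAlgebra (ZMod p) S) = 0 := r.2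
  have h3 : 1 - C = (1 - C) * bd (ZMod p) x z' := by
    have h4 := congrArg (bd (ZMod p) x) h2
    rwa [map_sub, hz, hrbd, sub_zero, map_smul, smul_eq_mul] at h4
  set u := bd (ZMod p) x z' with hu
  have hau : aug (ZMod p) S u = 0 := (hB (ZMod p) S d x hx u).mpr ⟨z', rfl⟩
  have h5 : C * (1 - u) = 1 - u := by
    have h6 : (1 - C) * (1 - u) = 0 := by
      rw [mul_sub, mul_one, ← h3, sub_self]
    rw [sub_mul, one_mul, sub_eq_zero] at h6
    exact h6.symm
  have h7 := TF0_fix hT (1 - u) h5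
  have h8 := congrArg (aug (ZMod p) S) h7
  rw [map_sub, map_one, hau, sub_zero, map_mul] at h8
  have h9 : aug (ZMod p) S (TF0_N (ZMod p) p c) = 0 := by
    unfold TF0_N
    rw [map_sum, Finset.sum_congr rfl fun i _ => haug (c ^ i)]
    simp
  rw [h9, zero_mul] at h8
  exact one_ne_zero h8

end Pool.Agent.PDA
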