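import Pool.Agent.PDA.StA

/-!
# PDA: statements B, stage 1 (amenable residually finite-`p` groups with projective relation module)

Every `def St_X : Prop` is a module; its docstring is the proof. Prove it in a file
`Pool/Agent/PDA/X.lean` as `theorem thm_X : St_X` (namespace `Pool.Agent.PDA`).
-/

set_option autoImplicit false
set_option linter.unusedVariables false

namespace Pool.Agent.PDA

open Pool.Agent.PDB

/-! ## amenability -/

/-- [FOL] Amenable groups satisfy the rank condition.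
PROOF. Let `φ : (k[S])^m → (k[S])^d` be injective and `B ⊆ S` a finite set containing the supports
of all coordinates of all `φ(e_a)`. For a finite `F ⊆ S` let `V_F ⊆ (k[S])^m` be the `k`-subspace of
the elements with all coordinates supported in `F`; `dim V_F = m |F|`. `φ(∑ l_a e_a) = ∑ l_a φ(e_a)`
is supported in `F B`, so `m |F| ≤ d |F B|`. `F B ⊆ F ∪ ⋃_{b ∈ B} {y b : y ∈ F, y b ∉ F}`, so for
`F` from the Følner condition (`E = B`, `ε`): `|F B| ≤ (1 + ε |B|) |F|`. So
`m ≤ d (1 + ε |B|)` for all `ε > 0`, `m ≤ d`. -/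
def St_FOL : Prop := ∀ (k S : Type) [Field k] [Group S], Folner S → RankCond k S

/-- [FSB] The Følner condition passes to subgroups.
PROOF. Let `E ⊆ K` be finite, `F` a Følner set of `H` for `j(E)` and `ε / (|E| + 1)`. Split `F` into
its intersections `F_u` with the left cosets `u j(K)` (right multiplication by `j(E)` preserves
them). If for every `u` with `F_u ≠ ∅` there were `g ∈ E` with
`|{y ∈ F_u : y j(g) ∉ F}| > ε |F_u|`, then
`∑_{g ∈ E} |{y ∈ F : y j(g) ∉ F}| > ε |F|`, contradiction. So some `u⁻¹ F_u ⊆ j(K)` works.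
(There is such a proof for another form of the condition in `Pool/Agent/AutSol/FolnerHer.lean`.) -/
def St_FSB : Prop := ∀ (H K : Type) [Group H] [Group K] (j : K →* H), Function.Injective j →
  Folner H → Folner K

/-- [FXX] No map with three outgoing directions (used in stage 2). The four directions at `g` lead to
`g y`, `y = u, u⁻¹, v, v⁻¹`; `(a, !b)` is the direction opposite to `(a, b)`.
PROOF. The map `(g, i) ↦ g (y i)` is injective on the pairs `g ∈ F`, `i ∉ D g` (if
`g (y i) = g' (y i') = h`, then the opposites of `i` and `i'` are both in `D h`, so `i = i'` and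
`g = g'`). There are at least `3 |F|` such pairs, and their images lie in `F ∪ F y(Bool × Bool)`,
which has at most `(1 + 4 ε) |F|` elements for a Følner set `F` (`E = ` the image of `y`). Take
`ε = 1/4`. -/
def St_FXX : Prop := ∀ (H : Type) [Group H] (y : Bool × Bool → H) (D : H → Set (Bool × Bool)),
  Folner H → (∀ a b, y (a, !b) = (y (a, b))⁻¹) → (∀ g, (D g).Subsingleton) →
  (∀ g i, i ∉ D g → (i.1, !i.2) ∈ D (g * y i)) → False

/-! ## the powers of the augmentation ideal -/

/-- [SEP] In a residually finite-`p` group the powers of the augmentation ideal of `F_p[S]` intersect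
in zero.
PROOF. (1) For a finite `p`-group `Q` some `Pw n` is zero (`n ≥ 1`): induction on `|Q|`; `Q ≠ 1` has
a central element `z` of order `p`; the kernel of `F_p[Q] → F_p[Q/⟨z⟩]` is `(z - 1) F_p[Q]`, and
`(z - 1)^p = z^p - 1 = 0` with `z - 1` central. If `Pw n` of `F_p[Q/⟨z⟩]` is zero, then
`J^n ⊆ (z - 1) F_p[Q]` and `J^(n p) = 0`. (`Pool/Agent/UDT/S1.lean` does this for `p = 2`.)
(2) `Pw n` maps into `Pw n` under `F_p[S] → F_p[S/N]`. (3) If `a ≠ 0`, choose for each pair of
different elements `g, h` of the support of `a` a normal subgroup of `p`-power index without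
`g⁻¹ h`; the intersection `N` of these finitely many subgroups is normal of `p`-power index, and the
image of `a` in `F_p[S/N]` is not zero. By (1), `a` is not in all `Pw n`. -/
def St_SEP : Prop := ∀ (S : Type) [Group S] (p : ℕ) [Fact p.Prime], ResP S p →
  Sep (aug (ZMod p) S)

/-- [IND] Elements of a projective module independent modulo `I P` are independent.
PROOF. `P` is projective: linear `s : P → (X →₀ Λ)` and `π : (X →₀ Λ) → P` with `π s = id`
(`X = P`). If all coordinates of `s y` have `ε = 0` then `y = π (s y) = ∑ s(y)_x π(e_x) ∈ I P`. So the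
vectors `v_i = (ε (s(y_i)_x))_x ∈ X →₀ k` are linearly independent over `k` (apply `IndMod`), and
there are `k`-linear functionals `ℓ_a` on `X →₀ k` with `ℓ_a(v_b) = δ_ab`. Put
`L_a : P → Λ`, `L_a(y) = ∑_x s(y)_x * algebraMap (ℓ_a(e_x))`, `Λ`-linear, `ε (L_a y_b) = δ_ab`. If
`∑_b l_b y_b = 0`, then `l_a = - ∑_b l_b (L_a(y_b) - δ_ab)`, so all `l_b ∈ Pw n` implies all
`l_a ∈ Pw n * J = Pw (n+1)` (show `Pw n * J ≤ Pw (n+1)`). By `Sep`, `l = 0`. -/
def St_IND : Prop := ∀ (k Λ P : Type) [Field k] [Ring Λ] [Algebra k Λ] (ε : Λ →ₐ[k] k)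
  [AddCommGroup P] [Module Λ P], Sep ε → Module.Projective Λ P → ∀ (m : ℕ) (y : Fin m → P),
  IndMod ε (IA ε (⊤ : Submodule Λ P)) y → LinearIndependent Λ y

/-- [FGM] A projective module with `P / I P` finite dimensional is finitely generated.
PROOF. `s, π` as in `St_IND`. Let `y_1, …, y_m` span `P` modulo `I P`. If the coordinate
`s_x : P → Λ` vanishes on all `y_b`, then `s_x(P) ⊆ s_x(I P) ⊆ J s_x(P)`; by induction
`s_x(P) ⊆ Pw n` for all `n`, so `s_x = 0`. So `s_x ≠ 0` only for `x` in the finite union `X_0` of the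
supports of the `s(y_b)`, and every `y = π(s(y)) = ∑_{x ∈ X_0} s(y)_x π(e_x)`. -/
def St_FGM : Prop := ∀ (k Λ P : Type) [Field k] [Ring Λ] [Algebra k Λ] (ε : Λ →ₐ[k] k)
  [AddCommGroup P] [Module Λ P], Sep ε → Module.Projective Λ P → ∀ (m : ℕ) (y : Fin m → P),
  SpanMod ε (⊤ : Submodule Λ P) (IA ε ⊤) y → Module.Finite Λ P

/-! ## torsion -/

/-- [TF0] No elements of order `p` if the relation module over `F_p` is projective.
PROOF. `k = ZMod p`, `R = Rel k x`. Suppose `c^p = 1`, `c ≠ 1` (order `p`), `N = 1 + c + … + c^(p-1)`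
in `k[S]`. Choose a set `T` of representatives of the right cosets `⟨c⟩ τ`; every `g` is uniquely
`c^j τ`, `0 ≤ j < p`. (i) In a free module (`X →₀ k[S]`; check coordinates in `k[S]`): `c y = y`
implies `y = N y'` (`y'` = the part of `y` supported on `T`). (ii) `N y = 0` implies `y = (1 - c) y'`
(`y'(c^j τ) = ∑_{i ≤ j} y(c^i τ)`). (iii) Hence also in the projective module `R`: `c y = y` implies
`y = N r` with `r ∈ R`. Now `z ∈ k[S]^d` with `bd z = 1 - c` (`St_BDR`). `bd (N z) = N (1 - c) = 0`,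
`N z ∈ R`, `c N z = N z`, so `N z = N r`, `r ∈ R`. `N (z - r) = 0` in `k[S]^d`, so
`z - r = (1 - c) z'`. Apply `bd`: `1 - c = (1 - c) u`, `u = bd z'`, `aug u = 0`. So
`(1 - c)(1 - u) = 0`, `1 - u = N y`, and `1 = aug (1 - u) = p aug y = 0`, contradiction. -/
def St_TF0 : Prop := ∀ (S : Type) [Group S] (p : ℕ) [Fact p.Prime] (d : ℕ) (x : Fin d → S),
  Subgroup.closure (Set.range x) = ⊤ → Module.Projective (MonoidAlgebra (ZMod p) S) (Rel (ZMod p) x) →
  ∀ c : S, c ^ p = 1 → c = 1

/-- [TFR] Residually finite-`p` groups with projective relation module are torsion-free.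
PROOF. If there is torsion, there is `c ≠ 1` of prime order `q`. If `q ≠ p`: there is a normal `N` of
index `p^n` with `c ∉ N`, but the image of `c` in `S/N` has order dividing `q` and `p^n`. So `q = p`,
against `St_TF0`. -/
def St_TFR : Prop := ∀ (S : Type) [Group S] (p : ℕ) [Fact p.Prime] (d : ℕ) (x : Fin d → S),
  Subgroup.closure (Set.range x) = ⊤ → Module.Projective (MonoidAlgebra (ZMod p) S) (Rel (ZMod p) x) →
  ResP S p → TorFree S

/-! ## the rank of the relation module -/

/-- [R5A] `m + 1 ≤ d`.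
PROOF. Let `h` have infinite order, `ν ∈ k[S]^d` with `bd ν = h - 1` (`St_BDR`). The `k[S]`-linear map
`k[S]^(m+1) → k[S]^d`, `(μ, l_1, …, l_m) ↦ μ ν + ∑ l_b y_b`, is injective: apply `bd`:
`μ (h - 1) = 0`, i.e. the coefficients of `μ` satisfy `μ(g) = μ(g h⁻¹)` and the support is finite, so
`μ = 0`; then `l = 0` by `St_IND`. So `m + 1 ≤ d` by `RankCond`. -/
def St_R5A : Prop := ∀ (k S : Type) [Field k] [Group S] (d : ℕ) (x : Fin d → S),
  Subgroup.closure (Set.range x) = ⊤ → Module.Projective (MonoidAlgebra k S) (Rel k x) →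
  Sep (aug k S) → RankCond k S → (∃ h : S, ∀ n : ℕ, 0 < n → h ^ n ≠ 1) →
  ∀ (m : ℕ) (y : Fin m → Rel k x),
    IndMod (aug k S) (IA (aug k S) (⊤ : Submodule (MonoidAlgebra k S) (Rel k x))) y → m + 1 ≤ d

/-- [R5B] A basis of the relation module modulo `I R`.
PROOF. Take a family `y_1, …, y_r` independent modulo `T = I R` with `r` maximal (`r + 1 ≤ d` is a
bound; `r = 0` is possible). If some `z` is not in the span modulo `T`, then `(y, z)` is independent
modulo `T` (`k` is a field and `T` is stable under scalars `algebraMap k c •`), contradiction. -/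
def St_R5B : Prop := ∀ (k Λ P : Type) [Field k] [Ring Λ] [Algebra k Λ] (ε : Λ →ₐ[k] k)
  [AddCommGroup P] [Module Λ P] (d : ℕ),
  (∀ (m : ℕ) (y : Fin m → P), IndMod ε (IA ε (⊤ : Submodule Λ P)) y → m + 1 ≤ d) →
  ∃ (r : ℕ) (y : Fin r → P), r + 1 ≤ d ∧ IndMod ε (IA ε (⊤ : Submodule Λ P)) y ∧
    SpanMod ε (⊤ : Submodule Λ P) (IA ε ⊤) y

/-- [ZMP] A homomorphism onto `ℤ`.
PROOF. Let `R = Rel ℤ x`, `R_p = Rel (ZMod p) x`, `c : ℤ[S]^d → F_p[S]^d` the reduction. Facts:
(F1) `c` maps `R` onto `R_p` with kernel `p R`: if `c z ∈ R_p`, then `bd z = p a`, `aug a = 0`,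
`a = bd w` (`St_BDR`), `z - p w ∈ R`; if `z ∈ R` and `z = p w` then `p bd w = 0`, `w ∈ R`.
Let `L ⊆ ℤ^d` be the image of `R` under the augmentation of the coordinates.
Suppose first that no nonzero `φ : Fin d → ℤ` satisfies `∑ φ_i l_i = 0` for all `l ∈ L`. Then `L`
has rank `d`, and it has a `ℤ`-basis `b_1, …, b_d` (a subgroup of `ℤ^d`). Let `y_j ∈ R` have
augmentation `b_j`. The `c(y_j) ∈ R_p` are independent modulo `I R_p`: if
`∑ γ_j c(y_j) ∈ I R_p`, `γ_j` the reduction of `n_j ∈ ℤ`, then by (F1) `∑ n_j y_j = w + p w'` with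
`w ∈ I_S R` (a sum of elements `(g - 1) r`), `w' ∈ R`; the augmentation gives
`∑ n_j b_j ∈ p L`, so `p ∣ n_j`. By the hypothesis `d + 1 ≤ d`, contradiction.
So there is `φ ≠ 0` with `∑ φ_i aug(y_i) = 0` for `y ∈ R`. `Φ(y) = ∑ φ_i aug(y_i)` on `ℤ[S]^d` kills
`R = ker bd`, so `Φ = Φ' ∘ bd` with `Φ' : I_S → ℤ` additive, `Φ'(g a) = Φ'(a)`,
`Φ'(x_i - 1) = φ_i`. `χ(g) = Φ'(g - 1)` is a homomorphism `S → ℤ` (`g h - 1 = (g - 1) + g (h - 1)`),
not zero. Its image is `n ℤ`, `n ≠ 0`; divide by `n`. -/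
def St_ZMP : Prop := ∀ (S : Type) [Group S] (p : ℕ) [Fact p.Prime] (d : ℕ) (x : Fin d → S),
  Subgroup.closure (Set.range x) = ⊤ →
  (∀ (m : ℕ) (y : Fin m → Rel (ZMod p) x),
    IndMod (aug (ZMod p) S)
      (IA (aug (ZMod p) S) (⊤ : Submodule (MonoidAlgebra (ZMod p) S) (Rel (ZMod p) x))) y →
    m + 1 ≤ d) →
  ∃ π : S →* Multiplicative ℤ, Function.Surjective π

/-- [ST5] Assembly of stage 1 (Theorem B of the paper).
PROOF. `RelProj S` (`St_RPJ`), `Sep` (`St_SEP`), `RankCond` (`St_FOL`), torsion-free (`St_TFR`), so a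
nontrivial element has infinite order; `St_R5A`, `St_R5B`, `St_FGM`, `St_ZMP`. -/
def St_ST5 : Prop := ∀ (S : Type) [Group S] (p : ℕ) [Fact p.Prime], InPD3 S → Folner S → ResP S p →
  Nontrivial S → ∀ (d : ℕ) (x : Fin d → S), Subgroup.closure (Set.range x) = ⊤ →
  TorFree S ∧
  (∃ (r : ℕ) (y : Fin r → Rel (ZMod p) x), r + 1 ≤ d ∧
    IndMod (aug (ZMod p) S)
      (IA (aug (ZMod p) S) (⊤ : Submodule (MonoidAlgebra (ZMod p) S) (Rel (ZMod p) x))) y ∧
    SpanMod (aug (ZMod p) S) (⊤ : Submodule (MonoidAlgebra (ZMod p) S) (Rel (ZMod p) x))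
      (IA (aug (ZMod p) S) ⊤) y) ∧
  Module.Finite (MonoidAlgebra (ZMod p) S) (Rel (ZMod p) x) ∧
  ∃ π : S →* Multiplicative ℤ, Function.Surjective π

/-- [INS] `InPD3`, `ResP` and `TorFree` pass to subgroups.
PROOF. `InPD3`: compose the embeddings; the image of a subgroup of a subgroup of infinite index has
infinite index. `ResP`: preimages; `K / (N ∩ K)` embeds in `H / N`, so its order divides `p^n`. -/
def St_INS : Prop := ∀ (H K : Type) [Group H] [Group K] (j : K →* H), Function.Injective j →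
  (InPD3 H → InPD3 K) ∧ (∀ p : ℕ, p.Prime → ResP H p → ResP K p) ∧ (TorFree H → TorFree K)

end Pool.Agent.PDA
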