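import Mathlib
import Pool.Agent.PDA.StB

/-!
# PDA, TFR: residually finite-`p` groups with projective relation module are torsion-free
-/

set_option autoImplicit false
set_option linter.unusedVariables false

namespace Pool.Agent.PDA

open Pool.Agent.PDB

private theorem tfr_prime {S : Type} [Group S] {p : ℕ} [Fact p.Prime] (h : ResP S p) {q : ℕ}
    (hq : q.Prime) (hqp : q ≠ p) (c : S) (hc : c ^ q = 1) : c = 1 := by
  by_contra hne
  obtain ⟨N, hN, ⟨m, hm⟩, hcN⟩ := h c hne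
  apply hcN
  have h1 : c ^ (p ^ m) ∈ N := by
    rw [← hm]
    exact N.pow_index_mem c
  have hcop : Nat.Coprime q (p ^ m) :=
    Nat.Coprime.pow_right m ((Nat.coprime_primes hq Fact.out).2 hqp)
  obtain ⟨u, v, huv⟩ := Nat.isCoprime_iff_coprime.2 hcop
  have h2 : c = (c ^ (q : ℤ)) ^ u * (c ^ ((p ^ m : ℕ) : ℤ)) ^ v := by
    rw [← zpow_mul, ← zpow_mul, ← zpow_add]
    have h3 : (q : ℤ) * u + ((p ^ m : ℕ) : ℤ) * v = 1 := by
      rw [← huv]
      ring
    rw [h3, zpow_one]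
  rw [h2, zpow_natCast, zpow_natCast, hc, one_zpow, one_mul]
  exact N.zpow_mem h1 v

theorem thm_TFR (h0 : St_TF0) : St_TFR := by
  intro S _ p _ d x hx hproj hres c n hn hc
  by_contra hne
  have hpos : 0 < orderOf c := orderOf_pos_iff.2 (isOfFinOrder_iff_pow_eq_one.2 ⟨n, hn, hc⟩)
  have hne1 : orderOf c ≠ 1 := fun h => hne (orderOf_eq_one_iff.1 h)
  obtain ⟨q, hq, hqd⟩ := Nat.exists_prime_and_dvd hne1
  obtain ⟨j, hj⟩ := hqd
  have hj0 : j ≠ 0 := by
    rintro rfl
    omega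
  have h1 : (c ^ j) ^ q = 1 := by
    rw [← pow_mul, mul_comm, ← hj, pow_orderOf_eq_one]
  have h2 : c ^ j ≠ 1 := by
    intro h
    have h3 := orderOf_dvd_of_pow_eq_one h
    have h4 := Nat.le_of_dvd (Nat.pos_of_ne_zero hj0) h3
    have h5 := hq.two_le
    nlinarith [Nat.pos_of_ne_zero hj0]
  apply h2
  by_cases hqp : q = p
  · subst hqp
    exact h0 S q d x hx hproj (c ^ j) h1
  · exact tfr_prime hres hq hqp (c ^ j) h1

end Pool.Agent.PDA
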