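import Pool.Agent.PDA.StF

/-!
# PDA: module VPF, virtually poly-(infinite cyclic) passes to overgroups of finite index
-/

set_option autoImplicit false

namespace Pool.Agent.PDA

open Pool.Agent.PDB Subgroup

/-- images of poly-(infinite cyclic) subgroups under injective homomorphisms -/
theorem VPF_map {A B : Type} [Group A] [Group B] (j : A →* B) (hj : Function.Injective j)
    (K : Subgroup A) (hP : PolyZ K) : PolyZ (K.map j) := by
  obtain ⟨n, P, h0, hn, hstep⟩ := hP
  refine ⟨n, fun i => (P i).map j, ?_, ?_, ?_⟩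
  · change (P 0).map j = ⊥
    rw [h0, Subgroup.map_bot]
  · change (P n).map j = K.map j
    rw [hn]
  · intro i hi
    obtain ⟨hle, f, hf, hker⟩ := hstep i hi
    refine ⟨Subgroup.map_mono hle, ?_⟩
    set e := (P (i + 1)).equivMapOfInjective j hj with he
    refine ⟨f.comp e.symm.toMonoidHom, ?_, ?_⟩
    · exact hf.comp e.symm.surjective
    · ext x
      obtain ⟨y, rfl⟩ := e.surjective x
      rw [MonoidHom.mem_ker, Subgroup.mem_subgroupOf, MonoidHom.comp_apply]
      have h1 : e.symm.toMonoidHom (e y) = y := e.symm_apply_apply y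
      rw [h1, ← MonoidHom.mem_ker, hker, Subgroup.mem_subgroupOf]
      have h2 : ((e y : (P (i + 1)).map j) : B) = j (y : A) :=
        Subgroup.coe_equivMapOfInjective_apply _ _ _ _
      rw [h2]
      constructor
      · intro h
        exact Subgroup.mem_map_of_mem j h
      · rintro ⟨z, hz, hzy⟩
        rwa [← hj hzy]

/-- module VPF -/
theorem thm_VPF : St_VPF := by
  intro H _ S hS hV
  obtain ⟨K, hK, hP⟩ := hV
  refine ⟨K.map S.subtype, ?_, VPF_map S.subtype S.subtype_injective K hP⟩
  rw [Subgroup.index_map_subtype]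
  exact mul_ne_zero hK hS

end Pool.Agent.PDA
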