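import Pool.Agent.PDA.StA

/-!
# PDA, module WCH: the orientation character
-/

set_option autoImplicit false

namespace Pool.Agent.PDA

open Pool.Agent.PDB

section

variable {G M N : Type} [Group G] [AddCommGroup M] [Module (ZG G) M] [AddCommGroup N]
  [Module (ZG G) N]

private theorem WCH_rm_comp (f : N →ₗ[ZG G] ZG G) (d : M →ₗ[ZG G] N) (s : G) :
    rm (f ∘ₗ d) s = (rm f s) ∘ₗ d := rfl

private theorem WCH_rm_sub (f h : M →ₗ[ZG G] ZG G) (s : G) :
    rm (f - h) s = rm f s - rm h s := by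
  ext1 x
  show (f x - h x) * el ℤ s = f x * el ℤ s - h x * el ℤ s
  rw [sub_mul]

private theorem WCH_rm_zsmul (n : ℤ) (f : M →ₗ[ZG G] ZG G) (s : G) :
    rm (n • f) s = n • rm f s := by
  ext1 x
  show (n • f x) * el ℤ s = n • (f x * el ℤ s)
  rw [smul_mul_assoc]

private theorem WCH_rm_rm (f : M →ₗ[ZG G] ZG G) (s t : G) :
    rm (rm f s) t = rm f (s * t) := by
  ext1 x
  show f x * el ℤ s * el ℤ t = f x * el ℤ (s * t)
  rw [mul_assoc, el, el, el, map_mul]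

private theorem WCH_rm_one (f : M →ₗ[ZG G] ZG G) : rm f 1 = f := by
  ext1 x
  show f x * el ℤ (1 : G) = f x
  rw [el, map_one, mul_one]

end

theorem thm_WCH : St_WCH := by
  intro G _ R
  obtain ⟨f₀, hf₀⟩ := R.θ_surj 1
  have hz : ∀ (f : R.P3 →ₗ[ZG G] ZG G) (s : G), R.θ f = 0 → R.θ (rm f s) = 0 := by
    intro f s hf
    obtain ⟨g, hg⟩ := (R.θ_ker f).mp hf
    refine (R.θ_ker (rm f s)).mpr ⟨rm g s, ?_⟩
    rw [hg]
    exact WCH_rm_comp g R.d3 s
  have hw : ∀ (f : R.P3 →ₗ[ZG G] ZG G) (s : G), R.θ (rm f s) = R.θ (rm f₀ s) * R.θ f := by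
    intro f s
    have h1 : R.θ (f - R.θ f • f₀) = 0 := by
      rw [map_sub, map_zsmul, hf₀, smul_eq_mul, mul_one, sub_self]
    have h2 := hz _ s h1
    rw [WCH_rm_sub, WCH_rm_zsmul, map_sub, map_zsmul, smul_eq_mul, sub_eq_zero] at h2
    rw [h2, mul_comm]
  let w₀ : G →* ℤ :=
    { toFun := fun s => R.θ (rm f₀ s)
      map_one' := by
        rw [WCH_rm_one, hf₀]
      map_mul' := by
        intro s t
        rw [← WCH_rm_rm, hw (rm f₀ s) t, mul_comm] }
  refine ⟨w₀.toHomUnits, ?_⟩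
  intro f g
  rw [MonoidHom.coe_toHomUnits]
  exact hw f g

end Pool.Agent.PDA
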