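import Pool.Agent.PDA.StB

/-!
# PDA, module ZMP: a homomorphism onto the integers (helper25)
-/

set_option autoImplicit false

namespace Pool.Agent.PDA

open Pool.Agent.PDB

/-- reduction of the coefficients modulo `p` -/
private noncomputable def ZMP_c (S : Type) [Group S] (p : ℕ) :
    MonoidAlgebra ℤ S →+* MonoidAlgebra (ZMod p) S :=
  MonoidAlgebra.mapRingHom S (Int.castRingHom (ZMod p))

private theorem ZMP_c_el (S : Type) [Group S] (p : ℕ) (g : S) :
    ZMP_c S p (el ℤ g) = el (ZMod p) g := by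
  unfold ZMP_c el
  rw [MonoidAlgebra.of_apply, MonoidAlgebra.of_apply, MonoidAlgebra.mapRingHom_single, map_one]

private theorem ZMP_c_surj (S : Type) [Group S] (p : ℕ) :
    Function.Surjective (ZMP_c S p) :=
  MonoidAlgebra.map_surjective _ ZMod.intCast_surjective

private theorem ZMP_c_ker (S : Type) [Group S] (p : ℕ) (a : MonoidAlgebra ℤ S)
    (ha : ZMP_c S p a = 0) : ∃ b : MonoidAlgebra ℤ S, a = (p : ℤ) • b := by
  refine ⟨MonoidAlgebra.ofCoeff (a.coeff.mapRange (fun n => n / (p : ℤ)) (Int.zero_ediv _)), ?_⟩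
  apply MonoidAlgebra.ext
  ext m
  have h1 : ((a.coeff m : ℤ) : ZMod p) = 0 := by
    have h2 := congrArg (fun z : MonoidAlgebra (ZMod p) S => z.coeff m) ha
    simp only [ZMP_c, MonoidAlgebra.coeff_mapRingHom] at h2
    exact h2
  rw [ZMod.intCast_zmod_eq_zero_iff_dvd] at h1
  rw [MonoidAlgebra.coeff_smul, Finsupp.smul_apply, smul_eq_mul]
  exact (Int.mul_ediv_cancel' h1).symm

private theorem ZMP_c_smul (S : Type) [Group S] (p : ℕ) (b : MonoidAlgebra ℤ S) :
    ZMP_c S p ((p : ℤ) • b) = 0 := by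
  apply MonoidAlgebra.ext
  ext m
  have h : (ZMP_c S p ((p : ℤ) • b)).coeff m = ((((p : ℤ) • b).coeff m : ℤ) : ZMod p) :=
    MonoidAlgebra.coeff_mapRingHom _ _ _
  rw [h, MonoidAlgebra.coeff_smul, Finsupp.smul_apply, smul_eq_mul]
  push_cast
  rw [CharP.cast_eq_zero, zero_mul]
  rfl

private theorem ZMP_tf (S : Type) [Group S] (p : ℕ) [Fact p.Prime] (a : MonoidAlgebra ℤ S)
    (ha : (p : ℤ) • a = 0) : a = 0 := by
  apply MonoidAlgebra.ext
  ext m
  have h2 := congrArg (fun z : MonoidAlgebra ℤ S => z.coeff m) ha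
  simp only [MonoidAlgebra.coeff_smul, Finsupp.smul_apply, smul_eq_mul, MonoidAlgebra.coeff_zero,
    Finsupp.zero_apply] at h2
  have h3 : (p : ℤ) ≠ 0 := by exact_mod_cast (Fact.out : p.Prime).ne_zero
  exact (mul_eq_zero.1 h2).resolve_left h3

private theorem ZMP_aug_el {k S : Type} [CommRing k] [Group S] (g : S) :
    aug k S (el k g) = 1 := by
  unfold aug el
  rw [MonoidAlgebra.lift_of]
  rfl

private theorem ZMP_aug_c (S : Type) [Group S] (p : ℕ) (a : MonoidAlgebra ℤ S) :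
    aug (ZMod p) S (ZMP_c S p a) = ((aug ℤ S a : ℤ) : ZMod p) := by
  have h : ((aug (ZMod p) S : MonoidAlgebra (ZMod p) S →ₐ[ZMod p] ZMod p) :
      MonoidAlgebra (ZMod p) S →+* ZMod p).comp (ZMP_c S p) =
      (Int.castRingHom (ZMod p)).comp
        ((aug ℤ S : MonoidAlgebra ℤ S →ₐ[ℤ] ℤ) : MonoidAlgebra ℤ S →+* ℤ) := by
    apply MonoidAlgebra.ringHom_ext
    · intro r
      simp [ZMP_c, aug]
    · intro g
      simp [ZMP_c, aug]
  exact congrArg (fun f => f a) h

private theorem ZMP_bd_c {S : Type} [Group S] (p : ℕ) {d : ℕ} (x : Fin d → S)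
    (z : Fin d → MonoidAlgebra ℤ S) :
    bd (ZMod p) x (fun i => ZMP_c S p (z i)) = ZMP_c S p (bd ℤ x z) := by
  show ∑ i, ZMP_c S p (z i) * (el (ZMod p) (x i) - 1) = ZMP_c S p (∑ i, z i * (el ℤ (x i) - 1))
  rw [map_sum]
  refine Finset.sum_congr rfl fun i _ => ?_
  rw [map_mul, map_sub, ZMP_c_el, map_one]

/-- lifting of elements of the relation module -/
private theorem ZMP_lift (hB : St_BDR) {S : Type} [Group S] (p : ℕ) [Fact p.Prime] {d : ℕ}
    (x : Fin d → S) (hx : Subgroup.closure (Set.range x) = ⊤)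
    (y : Fin d → MonoidAlgebra (ZMod p) S) (hy : bd (ZMod p) x y = 0) :
    ∃ z : Fin d → MonoidAlgebra ℤ S, bd ℤ x z = 0 ∧ ∀ i, ZMP_c S p (z i) = y i := by
  choose z0 hz0 using fun i => ZMP_c_surj S p (y i)
  have h1 : ZMP_c S p (bd ℤ x z0) = 0 := by
    have h2 : (fun i => ZMP_c S p (z0 i)) = y := funext hz0
    rw [← ZMP_bd_c, h2, hy]
  obtain ⟨a, ha⟩ := ZMP_c_ker S p _ h1
  have h2 : aug ℤ S (bd ℤ x z0) = 0 := (hB ℤ S d x hx _).2 ⟨z0, rfl⟩
  have h3 : aug ℤ S a = 0 := by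
    rw [ha, map_smul, smul_eq_mul] at h2
    refine (mul_eq_zero.1 h2).resolve_left ?_
    exact_mod_cast (Fact.out : p.Prime).ne_zero
  obtain ⟨w, hw⟩ := (hB ℤ S d x hx a).1 h3
  refine ⟨z0 - (p : ℤ) • w, ?_, ?_⟩
  · rw [map_sub, ha, map_zsmul, hw, sub_self]
  · intro i
    rw [Pi.sub_apply, Pi.smul_apply, map_sub, ZMP_c_smul, hz0, sub_zero]

/-- division by `p` in the relation module -/
private theorem ZMP_div {S : Type} [Group S] (p : ℕ) [Fact p.Prime] {d : ℕ}
    (x : Fin d → S) (z : Fin d → MonoidAlgebra ℤ S) (hz : bd ℤ x z = 0)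
    (hc : ∀ i, ZMP_c S p (z i) = 0) :
    ∃ w : Fin d → MonoidAlgebra ℤ S, bd ℤ x w = 0 ∧ z = (p : ℤ) • w := by
  choose w hw using fun i => ZMP_c_ker S p (z i) (hc i)
  have h1 : z = (p : ℤ) • w := funext hw
  refine ⟨w, ?_, h1⟩
  rw [h1, map_zsmul] at hz
  exact ZMP_tf S p _ hz

/-- the augmentations of the coordinates -/
private noncomputable def ZMP_A (S : Type) [Group S] (d : ℕ) :
    (Fin d → MonoidAlgebra ℤ S) →ₗ[ℤ] (Fin d → ℤ) where
  toFun z i := aug ℤ S (z i)
  map_add' z w := by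
    funext i
    rw [Pi.add_apply, map_add]
    rfl
  map_smul' n z := by
    funext i
    rw [Pi.smul_apply, map_smul]
    rfl

private theorem ZMP_A_apply {S : Type} [Group S] {d : ℕ} (z : Fin d → MonoidAlgebra ℤ S)
    (i : Fin d) : ZMP_A S d z i = aug ℤ S (z i) := rfl

/-- elements of `I R_p` lift to elements of `R` with augmentation zero -/
private theorem ZMP_IA (hB : St_BDR) {S : Type} [Group S] (p : ℕ) [Fact p.Prime] {d : ℕ}
    (x : Fin d → S) (hx : Subgroup.closure (Set.range x) = ⊤) (t : Rel (ZMod p) x)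
    (ht : t ∈ IA (aug (ZMod p) S)
      (⊤ : Submodule (MonoidAlgebra (ZMod p) S) (Rel (ZMod p) x))) :
    ∃ w : Fin d → MonoidAlgebra ℤ S, bd ℤ x w = 0 ∧ ZMP_A S d w = 0 ∧
      ∀ i, ZMP_c S p (w i) = (t : Fin d → MonoidAlgebra (ZMod p) S) i := by
  unfold IA at ht
  induction ht using AddSubgroup.closure_induction with
  | mem t ht =>
    obtain ⟨a, ha, r, -, rfl⟩ := ht
    obtain ⟨a0, ha0⟩ := ZMP_c_surj S p a
    have h1 : ((aug ℤ S a0 : ℤ) : ZMod p) = 0 := by rw [← ZMP_aug_c, ha0, ha]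
    rw [ZMod.intCast_zmod_eq_zero_iff_dvd] at h1
    obtain ⟨n, hn⟩ := h1
    obtain ⟨z, hz, hzr⟩ := ZMP_lift hB p x hx r r.2
    set a' : MonoidAlgebra ℤ S := a0 - (p : ℤ) • (n • (1 : MonoidAlgebra ℤ S)) with ha'
    have h2 : ZMP_c S p a' = a := by
      rw [ha', map_sub, ZMP_c_smul, ha0, sub_zero]
    have h3 : aug ℤ S a' = 0 := by
      rw [ha', map_sub, map_smul, map_smul, map_one, hn, smul_eq_mul, smul_eq_mul, mul_one,
        sub_self]
    refine ⟨a' • z, ?_, ?_, ?_⟩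
    · rw [map_smul, hz, smul_zero]
    · funext i
      rw [ZMP_A_apply, Pi.smul_apply, smul_eq_mul, map_mul, h3, zero_mul, Pi.zero_apply]
    · intro i
      rw [Pi.smul_apply, smul_eq_mul, map_mul, h2, hzr]
      rfl
  | zero =>
    refine ⟨0, map_zero _, map_zero _, fun i => ?_⟩
    rw [Pi.zero_apply, map_zero]
    rfl
  | add s t _ _ hs ht =>
    obtain ⟨w, h1, h2, h3⟩ := hs
    obtain ⟨w', h1', h2', h3'⟩ := ht
    refine ⟨w + w', by rw [map_add, h1, h1', add_zero], by rw [map_add, h2, h2', add_zero],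
      fun i => ?_⟩
    rw [Pi.add_apply, map_add, h3, h3']
    rfl
  | neg s _ hs =>
    obtain ⟨w, h1, h2, h3⟩ := hs
    refine ⟨-w, by rw [map_neg, h1, neg_zero], by rw [map_neg, h2, neg_zero], fun i => ?_⟩
    rw [Pi.neg_apply, map_neg, h3]
    rfl

/-- a nonzero additive map to `ℤ` gives a homomorphism onto `ℤ` -/
private theorem ZMP_onto {S : Type} [Group S] (χ : S → ℤ) (hadd : ∀ s t, χ (s * t) = χ s + χ t)
    (s0 : S) (hs0 : χ s0 ≠ 0) : ∃ π : S →* Multiplicative ℤ, Function.Surjective π := by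
  have hone : χ 1 = 0 := by
    have := hadd 1 1
    rw [mul_one] at this
    omega
  have hinv : ∀ s, χ s⁻¹ = - χ s := by
    intro s
    have := hadd s s⁻¹
    rw [mul_inv_cancel, hone] at this
    omega
  let H : AddSubgroup ℤ :=
    { carrier := Set.range χ
      add_mem' := by
        rintro _ _ ⟨s, rfl⟩ ⟨t, rfl⟩
        exact ⟨s * t, hadd s t⟩
      zero_mem' := ⟨1, hone⟩
      neg_mem' := by
        rintro _ ⟨s, rfl⟩
        exact ⟨s⁻¹, hinv s⟩ }
  obtain ⟨n, hn⟩ := Int.subgroup_cyclic H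
  have hdvd : ∀ s, n ∣ χ s := by
    intro s
    have h1 : χ s ∈ H := ⟨s, rfl⟩
    rw [hn, AddSubgroup.mem_closure_singleton] at h1
    obtain ⟨k, hk⟩ := h1
    exact ⟨k, by rw [← hk, smul_eq_mul, mul_comm]⟩
  have hn0 : n ≠ 0 := by
    rintro rfl
    exact hs0 (zero_dvd_iff.1 (hdvd s0))
  have hnH : n ∈ H := by
    rw [hn]
    exact AddSubgroup.subset_closure rfl
  obtain ⟨s1, hs1⟩ := hnH
  refine ⟨
    { toFun := fun s => Multiplicative.ofAdd (χ s / n)
      map_one' := by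
        rw [hone, Int.zero_ediv]
        rfl
      map_mul' := by
        intro s t
        rw [hadd, Int.add_ediv_of_dvd_left (hdvd s)]
        rfl }, ?_⟩
  have hpow : ∀ k : ℤ, χ (s1 ^ k) = k * n := by
    have hnat : ∀ k : ℕ, χ (s1 ^ k) = k * n := by
      intro k
      induction k with
      | zero => rw [pow_zero, hone, Nat.cast_zero, zero_mul]
      | succ k ih =>
        rw [pow_succ, hadd, ih, hs1]
        push_cast
        ring
    intro k
    obtain ⟨j, rfl | rfl⟩ := k.eq_nat_or_neg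
    · rw [zpow_natCast, hnat]
    · rw [zpow_neg, zpow_natCast, hinv, hnat]
      ring
  intro k
  refine ⟨s1 ^ (Multiplicative.toAdd k), ?_⟩
  show Multiplicative.ofAdd (χ (s1 ^ (Multiplicative.toAdd k)) / n) = k
  rw [hpow, Int.mul_ediv_cancel _ hn0]
  rfl

theorem thm_ZMP (hB : St_BDR) : St_ZMP := by
  classical
  intro S _ p _ d x hx hind
  -- the lattice of augmentations
  let Lm : Submodule ℤ (Fin d → ℤ) :=
    { carrier := {l | ∃ z : Fin d → MonoidAlgebra ℤ S, bd ℤ x z = 0 ∧ ZMP_A S d z = l}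
      add_mem' := by
        rintro _ _ ⟨z, hz, rfl⟩ ⟨w, hw, rfl⟩
        exact ⟨z + w, by rw [map_add, hz, hw, add_zero], map_add _ _ _⟩
      zero_mem' := ⟨0, map_zero _, map_zero _⟩
      smul_mem' := by
        rintro n _ ⟨z, hz, rfl⟩
        exact ⟨n • z, by rw [map_zsmul, hz, smul_zero], map_smul _ _ _⟩ }
  have hLm : ∀ l, l ∈ Lm ↔ ∃ z : Fin d → MonoidAlgebra ℤ S, bd ℤ x z = 0 ∧ ZMP_A S d z = l :=
    fun l => Iff.rfl
  obtain ⟨m, ⟨b⟩⟩ := Submodule.nonempty_basis_of_pid (Pi.basisFun ℤ (Fin d)) Lm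
  choose y hy0 hyA using fun j : Fin m => (hLm (b j : Fin d → ℤ)).1 (b j).2
  let Y : Fin m → Rel (ZMod p) x := fun j => ⟨fun i => ZMP_c S p (y j i), by
    show bd (ZMod p) x (fun i => ZMP_c S p (y j i)) = 0
    rw [ZMP_bd_c, hy0, map_zero]⟩
  have hInd : IndMod (aug (ZMod p) S)
      (IA (aug (ZMod p) S) (⊤ : Submodule (MonoidAlgebra (ZMod p) S) (Rel (ZMod p) x))) Y := by
    intro γ hγ
    choose n hn using fun j => ZMod.intCast_surjective (γ j)
    obtain ⟨w, hw0, hwA, hwc⟩ := ZMP_IA hB p x hx _ hγ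
    have hv0 : bd ℤ x (∑ j, n j • y j - w) = 0 := by
      rw [map_sub, hw0, map_sum, sub_zero]
      refine Finset.sum_eq_zero fun j _ => ?_
      rw [map_zsmul, hy0, smul_zero]
    have hvc : ∀ i, ZMP_c S p ((∑ j, n j • y j - w) i) = 0 := by
      intro i
      rw [Pi.sub_apply, map_sub, hwc i, Finset.sum_apply, map_sum, sub_eq_zero]
      have h1 : (((∑ j, algebraMap (ZMod p) (MonoidAlgebra (ZMod p) S) (γ j) • Y j :
          Rel (ZMod p) x)) : Fin d → MonoidAlgebra (ZMod p) S) i =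
          ∑ j, algebraMap (ZMod p) (MonoidAlgebra (ZMod p) S) (γ j) * ZMP_c S p (y j i) := by
        rw [Submodule.coe_sum, Finset.sum_apply]
        rfl
      rw [h1]
      refine Finset.sum_congr rfl fun j _ => ?_
      rw [Pi.smul_apply, ← hn j, map_intCast, map_zsmul, zsmul_eq_mul]
    obtain ⟨w', hw'0, hw'⟩ := ZMP_div p x _ hv0 hvc
    have h2 := congrArg (ZMP_A S d) hw'
    rw [map_sub, hwA, sub_zero, map_sum, map_zsmul] at h2
    have h3 : ∑ j, n j • b j = (p : ℤ) • (⟨ZMP_A S d w', ⟨w', hw'0, rfl⟩⟩ : Lm) := by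
      apply Subtype.ext
      rw [Submodule.coe_sum, Submodule.coe_smul]
      rw [← h2]
      refine Finset.sum_congr rfl fun j _ => ?_
      rw [Submodule.coe_smul, map_zsmul, hyA]
    have h4 := congrArg b.repr h3
    funext j
    have h5 := congrArg (fun f => f j) h4
    simp only [map_sum, map_smul, Module.Basis.repr_self, Finsupp.smul_single, smul_eq_mul, mul_one,
      Finsupp.smul_apply] at h5
    rw [Finsupp.finsetSum_apply, Finset.sum_eq_single j] at h5
    · rw [Finsupp.single_eq_same] at h5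
      rw [← hn j, h5]
      push_cast
      rw [CharP.cast_eq_zero, zero_mul, Pi.zero_apply]
    · intro i _ hi
      rw [Finsupp.single_eq_of_ne (fun h => hi h.symm)]
    · intro h
      exact absurd (Finset.mem_univ j) h
  have hmd := hind m Y hInd
  -- a functional which vanishes on the lattice
  obtain ⟨φ, hφ0, hφ⟩ : ∃ φ : Fin d → ℤ, φ ≠ 0 ∧ ∀ j, ∑ i, (b j : Fin d → ℤ) i * φ i = 0 := by
    by_contra hcon
    push Not at hcon
    have hinj : Function.Injective
        (Matrix.mulVecLin (Matrix.of fun (j : Fin m) (i : Fin d) => (b j : Fin d → ℤ) i)) := by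
      rw [injective_iff_map_eq_zero]
      intro φ hφ
      by_contra hφ0
      obtain ⟨j, hj⟩ := hcon φ hφ0
      exact hj (congrArg (fun f => f j) hφ)
    have h1 := card_le_of_injective ℤ _ hinj
    rw [Fintype.card_fin, Fintype.card_fin] at h1
    omega
  let g : (Fin d → ℤ) →ₗ[ℤ] ℤ :=
    { toFun := fun l => ∑ i, l i * φ i
      map_add' := by
        intro l l'
        rw [← Finset.sum_add_distrib]
        refine Finset.sum_congr rfl fun i _ => ?_
        rw [Pi.add_apply, add_mul]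
      map_smul' := by
        intro n l
        rw [RingHom.id_apply, smul_eq_mul, Finset.mul_sum]
        refine Finset.sum_congr rfl fun i _ => ?_
        rw [Pi.smul_apply, smul_eq_mul, mul_assoc] }
  have hg : ∀ l ∈ Lm, g l = 0 := by
    intro l hl
    have h1 : g ∘ₗ Lm.subtype = 0 := by
      apply b.ext
      intro j
      rw [LinearMap.comp_apply, LinearMap.zero_apply]
      exact hφ j
    exact congrArg (fun f => f ⟨l, hl⟩) h1
  have hZ : ∀ s : S, ∃ z, bd ℤ x z = el ℤ s - 1 := by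
    intro s
    apply (hB ℤ S d x hx _).1
    rw [map_sub, ZMP_aug_el, map_one, sub_self]
  choose Z hZ using hZ
  have key : ∀ (s : S) (z : Fin d → MonoidAlgebra ℤ S), bd ℤ x z = el ℤ s - 1 →
      g (ZMP_A S d z) = g (ZMP_A S d (Z s)) := by
    intro s z hz
    have h1 : ZMP_A S d (z - Z s) ∈ Lm := ⟨z - Z s, by rw [map_sub, hz, hZ, sub_self], rfl⟩
    have h2 := hg _ h1
    rw [map_sub, map_sub, sub_eq_zero] at h2
    exact h2
  obtain ⟨i0, hi0⟩ : ∃ i, φ i ≠ 0 := by
    by_contra hcon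
    push Not at hcon
    exact hφ0 (funext hcon)
  refine ZMP_onto (fun s => g (ZMP_A S d (Z s))) ?_ (x i0) ?_
  · intro s t
    have h1 : bd ℤ x (Z s + el ℤ s • Z t) = el ℤ (s * t) - 1 := by
      rw [map_add, map_smul, hZ, hZ, smul_eq_mul, el, el, el, map_mul]
      noncomm_ring
    have h2 := key (s * t) _ h1
    rw [← h2, map_add, map_add]
    congr 2
    funext i
    rw [ZMP_A_apply, ZMP_A_apply, Pi.smul_apply, smul_eq_mul, map_mul, ZMP_aug_el, one_mul]
  · have h1 : bd ℤ x (Pi.single i0 1) = el ℤ (x i0) - 1 := by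
      show ∑ j, (Pi.single i0 1 : Fin d → MonoidAlgebra ℤ S) j * (el ℤ (x j) - 1) =
        el ℤ (x i0) - 1
      rw [Finset.sum_eq_single i0]
      · rw [Pi.single_eq_same, one_mul]
      · intro j _ hj
        rw [Pi.single_eq_of_ne hj, zero_mul]
      · intro h
        exact absurd (Finset.mem_univ i0) h
    have h2 := key (x i0) _ h1
    rw [← h2]
    have h3 : g (ZMP_A S d (Pi.single i0 1)) = φ i0 := by
      show ∑ i, ZMP_A S d (Pi.single i0 1) i * φ i = φ i0
      rw [Finset.sum_eq_single i0]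
      · rw [ZMP_A_apply, Pi.single_eq_same, map_one, one_mul]
      · intro j _ hj
        rw [ZMP_A_apply, Pi.single_eq_of_ne hj, map_zero, zero_mul]
      · intro h
        exact absurd (Finset.mem_univ i0) h
    rw [h3]
    exact hi0

end Pool.Agent.PDA
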