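import Pool.Agent.PDA.TOP
import Pool.Agent.PDA.GFG
import Pool.Agent.PDA.WCH
import Pool.Agent.PDA.FL0
import Pool.Agent.PDA.FLO
import Pool.Agent.PDA.STR
import Pool.Agent.PDA.FRE
import Pool.Agent.PDA.HOM
import Pool.Agent.PDA.BDR
import Pool.Agent.PDA.RLZ
import Pool.Agent.PDA.BAS
import Pool.Agent.PDA.RPJ
import Pool.Agent.PDA.FOL
import Pool.Agent.PDA.FSB
import Pool.Agent.PDA.SEP
import Pool.Agent.PDA.IND
import Pool.Agent.PDA.FGM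
import Pool.Agent.PDA.TF0
import Pool.Agent.PDA.TFR
import Pool.Agent.PDA.R5A
import Pool.Agent.PDA.R5B
import Pool.Agent.PDA.ZMP
import Pool.Agent.PDA.ST5
import Pool.Agent.PDA.INS
import Pool.Agent.PDA.DUA
import Pool.Agent.PDA.CMP
import Pool.Agent.PDA.FU1
import Pool.Agent.PDA.FU2
import Pool.Agent.PDA.BSR
import Pool.Agent.PDA.BSE
import Pool.Agent.PDA.BSH
import Pool.Agent.PDA.BSX
import Pool.Agent.PDA.CLS
import Pool.Agent.PDA.MAI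
import Pool.Agent.PDA.FG1
import Pool.Agent.PDA.FG2
import Pool.Agent.PDA.FG3
import Pool.Agent.PDA.STK
import Pool.Agent.PDA.FRA
import Pool.Agent.PDA.CXY
import Pool.Agent.PDA.NZC
import Pool.Agent.PDA.AB1
import Pool.Agent.PDA.AB2
import Pool.Agent.PDA.AB3
import Pool.Agent.PDA.STS
import Pool.Agent.PDA.PZ3
import Pool.Agent.PDA.KLG
import Pool.Agent.PDA.KLE
import Pool.Agent.PDA.VPF
import Pool.Agent.PDA.FND
import Pool.Agent.PDA.MAD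
import Pool.Agent.PDB.LIQ
import Pool.Agent.PDB.LIS
import Pool.Agent.PDB.LIK
import Pool.Agent.PDB.KGN
import Pool.Agent.PDB.CST
import Pool.Agent.PDB.TRE
import Pool.Agent.PDB.FLX
import Pool.Agent.PDB.BRI
import Pool.Agent.PDB.ASC
import Pool.Agent.PDB.SCN
import Pool.Agent.PDB.IMS
import Pool.Agent.PDB.SCA
import Pool.Agent.PDB.SCB
import Pool.Agent.PDB.SCC
import Pool.Agent.PDB.PWM
import Pool.Agent.PDB.COB
import Pool.Agent.PDB.COC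
import Pool.Agent.PDB.LFK
import Pool.Agent.PDB.COM
import Pool.Agent.PDB.KCM
import Pool.Agent.PDB.DEP
import Pool.Agent.PDB.CYC
import Pool.Agent.PDB.NOE
import Pool.Agent.PDB.PZF
import Pool.Agent.PDB.PZV
import Pool.Agent.PDB.FIN

/-!
# PDA: the assembly of all modules
-/

set_option autoImplicit false

namespace Pool.Agent.PDA

open Pool.Agent.PDB

theorem pf_STR : St_STR := thm_STR thm_GFG thm_WCH (thm_FLO thm_FL0)

theorem pf_RPJ : St_RPJ :=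
  thm_RPJ thm_TOP (thm_RLZ pf_STR thm_FRE thm_SCH thm_BDR) (thm_BAS thm_BDR)

theorem pf_ST5 : St_ST5 :=
  thm_ST5 pf_RPJ thm_SEP thm_FOL (thm_TFR (thm_TF0 thm_BDR)) (thm_R5A thm_BDR thm_IND) thm_R5B
    thm_FGM (thm_ZMP thm_BDR)

theorem pf_BSX : St_BSX :=
  thm_BSX thm_TOP thm_WCH thm_DUA (thm_CMP thm_FRE thm_EX2 thm_BDR) thm_FU1 thm_FU2
    (thm_BSE thm_BSR) thm_BSG thm_BSH

theorem pf_CLS : St_CLS := thm_CLS thm_INS thm_FSB pf_RPJ thm_SEP thm_FOL pf_ST5 pf_BSX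

theorem pf_SCN : St_SCN :=
  thm_SCN (thm_CST thm_LIS thm_LIK thm_KGN) (thm_BRI thm_LIQ thm_TRE thm_FLX) thm_ASC

theorem pf_SCC : St_SCC := thm_SCC thm_IMS (thm_SCA thm_LIS thm_IMS) (thm_SCB thm_LIK thm_IMS)

theorem pf_LFK : St_LFK := thm_LFK thm_LIS thm_IMS thm_PWM (thm_COC thm_PWM (thm_COB thm_PWM))

theorem pf_KCM : St_KCM := thm_KCM (thm_COM thm_PWM)

theorem pf_FIN : St_FIN :=
  thm_FIN pf_SCN pf_SCC pf_LFK pf_KCM thm_NOE thm_DEP thm_CYC thm_PZF thm_PZV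

theorem pf_MAI : St_MAI := thm_MAI thm_INS thm_FSB pf_CLS pf_FIN thm_PZV

theorem pf_STS : St_STS := thm_STS pf_SCN pf_SCC pf_LFK pf_KCM thm_NOE thm_DEP thm_CYC

theorem pf_ABK : St_ABK :=
  thm_ABK (thm_AB1 thm_ASC)
    (thm_AB2 thm_BDR (thm_STK pf_STR thm_FRE thm_SCH thm_BDR) (thm_FRA thm_IMS) (thm_CXY thm_IMS)
      thm_NZC (thm_AB1 thm_ASC) thm_IMS) thm_AB3

theorem pf_KLE : St_KLE := thm_KLE thm_KLG pf_ABK thm_PZ3

theorem pf_FND : St_FND :=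
  thm_FND thm_TOP (thm_FG2 thm_FG1 thm_FRE thm_HOM thm_BDR) (thm_FG3 thm_BDR) pf_SCN pf_CLS
    thm_FSB thm_INS pf_STS pf_BSX pf_ABK pf_KLE thm_PZ3 thm_PZF thm_PZV

theorem pf_MAD : St_MAD := thm_MAD pf_MAI pf_FND thm_VPF thm_FSB thm_INS

end Pool.Agent.PDA
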