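import Pool.Agent.PDB.Defs

/-!
# PDA: amenable subgroups of `PD_3`-groups (MP_add920_al), further definitions

Architect helper49, paper by helper58 (`/team-store/PD3A_paper_helper58.md`), Lean plan
`/team-store/PD3A_lean_plan_helper49.md`. Left modules over the group rings `MonoidAlgebra k G`.
Basic notions (`aug`, `el`, `bd`, `Rel`, `Folner`, `ResP`, `PolyZ`, `VPolyZ`) are in `PDB/Defs.lean`.
-/

set_option autoImplicit false
set_option linter.unusedVariables false

namespace Pool.Agent.PDA

open Pool.Agent.PDB

universe u v w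

/-! ## group rings -/

section groupring

/-- the trivial module `k` -/
def Tr (k : Type v) (G : Type u) [CommRing k] [Group G] : Type v := k

noncomputable instance (k : Type v) (G : Type u) [CommRing k] [Group G] :
    AddCommGroup (Tr k G) := inferInstanceAs (AddCommGroup k)

noncomputable instance (k : Type v) (G : Type u) [CommRing k] [Group G] :
    Module (MonoidAlgebra k G) (Tr k G) := Module.compHom k (aug k G).toRingHom

/-- the inclusion of group rings of a subgroup -/
noncomputable abbrev res (k : Type v) {G : Type u} [CommRing k] [Group G] (S : Subgroup G) :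
    MonoidAlgebra k S →+* MonoidAlgebra k G :=
  MonoidAlgebra.mapDomainRingHom k S.subtype

variable (k : Type v) {G : Type u} [CommRing k] [Group G]

/-- the left ideal of `k[G]` generated by the elements `a - 1`, `a ∈ A` -/
noncomputable def LI (A : Subgroup G) : Ideal (MonoidAlgebra k G) :=
  Ideal.span {z | ∃ a ∈ A, z = el k a - 1}

variable {k}

/-- `I_B N`: the additive group generated by the `(u - 1) y`, `u ∈ B`, `y ∈ N` -/
def IM {M : Type w} [AddCommGroup M] [Module (MonoidAlgebra k G) M] (B : Subgroup G)
    (N : Submodule (MonoidAlgebra k G) M) : AddSubgroup M :=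
  AddSubgroup.closure {z | ∃ u ∈ B, ∃ y ∈ N, z = (el k u - 1) • y}

end groupring

/-! ## augmented algebras -/

section augmented

variable {k : Type v} {Λ : Type u} [CommRing k] [Ring Λ] [Algebra k Λ] (ε : Λ →ₐ[k] k)

/-- the augmentation ideal as a `k`-submodule -/
def J : Submodule k Λ := LinearMap.ker ε.toLinearMap

/-- the powers of the augmentation ideal; `Pw ε 0` is everything -/
def Pw : ℕ → Submodule k Λ
  | 0 => ⊤
  | n + 1 => J ε * Pw n

/-- the intersection of the powers of the augmentation ideal is zero -/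
def Sep : Prop := ∀ a : Λ, (∀ n, a ∈ Pw ε n) → a = 0

/-- `I N`: the additive group generated by the `a y`, `ε a = 0`, `y ∈ N` -/
def IA {M : Type w} [AddCommGroup M] [Module Λ M] (N : Submodule Λ M) : AddSubgroup M :=
  AddSubgroup.closure {z | ∃ a : Λ, ε a = 0 ∧ ∃ y ∈ N, z = a • y}

end augmented

section indspan

variable {k : Type v} {Λ : Type u} [CommRing k] [Ring Λ] [Algebra k Λ]
  {M : Type w} [AddCommGroup M] [Module Λ M]

/-- `y_1, …, y_m` are independent over `k` modulo the additive group `T` (`ε` only fixes `Λ`, `k`) -/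
def IndMod (ε : Λ →ₐ[k] k) (T : AddSubgroup M) {m : ℕ} (y : Fin m → M) : Prop :=
  ∀ c : Fin m → k, ∑ i, algebraMap k Λ (c i) • y i ∈ T → c = 0

/-- every element of `N` is in the `k`-span of `y_1, …, y_m` plus `T` -/
def SpanMod (ε : Λ →ₐ[k] k) (N : Submodule Λ M) (T : AddSubgroup M) {m : ℕ} (y : Fin m → M) : Prop :=
  ∀ z ∈ N, ∃ c : Fin m → k, z - ∑ i, algebraMap k Λ (c i) • y i ∈ T

end indspan

/-! ## groups -/

/-- `(k[S])^m` embeds in `(k[S])^d` only for `m ≤ d` -/
def RankCond (k : Type v) (S : Type u) [CommRing k] [Group S] : Prop :=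
  ∀ m d : ℕ, (∃ φ : (Fin m → MonoidAlgebra k S) →ₗ[MonoidAlgebra k S] (Fin d → MonoidAlgebra k S),
    Function.Injective φ) → m ≤ d

/-- torsion-free -/
def TorFree (S : Type u) [Group S] : Prop := ∀ (c : S) (n : ℕ), 0 < n → c ^ n = 1 → c = 1

/-- all relation modules of finite generating families are projective, over all rings `k` -/
def RelProj (S : Type) [Group S] : Prop :=
  ∀ (k : Type) [CommRing k] (d : ℕ) (x : Fin d → S), Subgroup.closure (Set.range x) = ⊤ →
    Module.Projective (MonoidAlgebra k S) (Rel k x)

/-- `T` is contained in finitely many right cosets `H f` -/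
def FinMod {G : Type u} [Group G] (H : Subgroup G) (T : Set G) : Prop :=
  ∃ F : Finset G, ∀ g ∈ T, ∃ f ∈ F, g * f⁻¹ ∈ H

end Pool.Agent.PDA
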