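import Pool.Agent.PDA.StB

/-!
# PDA, FGM: a projective module with `P / I P` finite dimensional is finitely generated
-/

set_option autoImplicit false

namespace Pool.Agent.PDA

open Pool.Agent.PDB

theorem thm_FGM : St_FGM := by
  intro k Λ P _ _ _ ε _ _ hS hP m y hy
  classical
  obtain ⟨s, hs⟩ := hP.out
  let X0 : Finset P := Finset.univ.biUnion fun b : Fin m => (s (y b)).support
  have h1 : ∀ x, x ∉ X0 → ∀ z, s z x = 0 := by
    intro x hx
    have hxb : ∀ b, s (y b) x = 0 := by
      intro b
      by_contra h
      exact hx (Finset.mem_biUnion.2 ⟨b, Finset.mem_univ b, Finsupp.mem_support_iff.2 h⟩)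
    have key : ∀ n z, s z x ∈ Pw ε n := by
      intro n
      induction n with
      | zero => intro z; exact Submodule.mem_top
      | succ n ih =>
        intro z
        obtain ⟨c, hc⟩ := hy z Submodule.mem_top
        have h2 : ∀ t ∈ IA ε (⊤ : Submodule Λ P), s t x ∈ Pw ε (n + 1) := by
          intro t ht
          unfold IA at ht
          induction ht using AddSubgroup.closure_induction with
          | mem t h =>
            obtain ⟨a, ha, w, -, rfl⟩ := h
            rw [map_smul, Finsupp.smul_apply, smul_eq_mul]
            exact Submodule.mul_mem_mul ha (ih w)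
          | zero =>
            rw [map_zero, Finsupp.coe_zero, Pi.zero_apply]
            exact Submodule.zero_mem _
          | add a b _ _ ha hb =>
            rw [map_add, Finsupp.add_apply]
            exact Submodule.add_mem _ ha hb
          | neg a _ ha =>
            rw [map_neg, Finsupp.neg_apply]
            exact Submodule.neg_mem _ ha
        have h3 := h2 _ hc
        rw [map_sub, Finsupp.sub_apply, map_sum, Finsupp.finsetSum_apply] at h3
        have h4 : ∑ i, s (algebraMap k Λ (c i) • y i) x = 0 := by
          refine Finset.sum_eq_zero fun i _ => ?_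
          rw [map_smul, Finsupp.smul_apply, hxb, smul_zero]
        rw [h4, sub_zero] at h3
        exact h3
    intro z
    exact hS _ fun n => key n z
  refine ⟨⟨X0, ?_⟩⟩
  rw [eq_top_iff]
  intro z _
  rw [← hs z, Finsupp.linearCombination_apply]
  refine Submodule.sum_mem _ fun x hx => ?_
  refine Submodule.smul_mem _ _ (Submodule.subset_span ?_)
  by_contra h
  exact (Finsupp.mem_support_iff.1 hx) (h1 x h z)

end Pool.Agent.PDA
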