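import Pool.Agent.PDA.StB

/-!
# PDA: a counting contradiction to the Folner condition
-/

set_option autoImplicit false
set_option linter.unusedVariables false

namespace Pool.Agent.PDA

open Pool.Agent.PDB

theorem thm_FXX : St_FXX := by
  intro H _ y D hF _ hD hop
  classical
  obtain ⟨F, hne, hFE⟩ := hF (Finset.univ.image y) (1 / 4) (by norm_num)
  set P : Finset (H × (Bool × Bool)) :=
    (F ×ˢ (Finset.univ : Finset (Bool × Bool))).filter (fun q => q.2 ∉ D q.1) with hP
  set T : Finset H := F ∪ (Finset.univ : Finset (Bool × Bool)).biUnion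
    (fun i => (F.filter (fun g => g * y i ∉ F)).image (fun g => g * y i)) with hT
  -- the lower bound
  have hlow : 3 * F.card ≤ P.card := by
    have h1 : P.card = ∑ g ∈ F, ((Finset.univ : Finset (Bool × Bool)).filter
        (fun i => i ∉ D g)).card := by
      rw [hP, Finset.card_filter, Finset.sum_product]
      refine Finset.sum_congr rfl fun g _ => ?_
      rw [Finset.card_filter]
    rw [h1, mul_comm, ← smul_eq_mul, ← Finset.sum_const]
    refine Finset.sum_le_sum fun g _ => ?_
    have h2 : ((Finset.univ : Finset (Bool × Bool)).filter (fun i => i ∈ D g)).card ≤ 1 := by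
      rw [Finset.card_le_one]
      intro a ha b hb
      rw [Finset.mem_filter] at ha hb
      exact hD g ha.2 hb.2
    have h3 := Finset.card_filter_add_card_filter_not (s := (Finset.univ : Finset (Bool × Bool)))
      (fun i => i ∈ D g)
    have h4 : (Finset.univ : Finset (Bool × Bool)).card = 4 := rfl
    rw [h4] at h3
    omega
  -- the map is injective
  have hinj : P.card ≤ T.card := by
    refine Finset.card_le_card_of_injOn (fun q => q.1 * y q.2) ?_ ?_
    · rintro ⟨g, i⟩ hq
      rw [Finset.mem_coe, hP, Finset.mem_filter, Finset.mem_product] at hq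
      rw [Finset.mem_coe, hT, Finset.mem_union]
      by_cases hgF : g * y i ∈ F
      · exact Or.inl hgF
      · refine Or.inr ?_
        rw [Finset.mem_biUnion]
        exact ⟨i, Finset.mem_univ _, Finset.mem_image.2
          ⟨g, Finset.mem_filter.2 ⟨hq.1.1, hgF⟩, rfl⟩⟩
    · rintro ⟨g, i⟩ hq ⟨g', i'⟩ hq' heq
      rw [Finset.mem_coe, hP, Finset.mem_filter] at hq hq'
      have heq' : g * y i = g' * y i' := heq
      have h1 := hop g i hq.2
      have h2 := hop g' i' hq'.2
      rw [heq'] at h1
      have h3 : (i.1, !i.2) = (i'.1, !i'.2) := hD _ h1 h2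
      rw [Prod.mk.injEq] at h3
      have h6 : i = i' := Prod.ext h3.1 (by simpa using h3.2)
      subst h6
      have h7 : g = g' := mul_right_cancel heq'
      rw [h7]
  -- the upper bound
  have hup : (T.card : ℝ) ≤ 2 * F.card := by
    have h1 : T.card ≤ F.card + ∑ i : Bool × Bool, (F.filter (fun g => g * y i ∉ F)).card := by
      refine (Finset.card_union_le _ _).trans ?_
      refine Nat.add_le_add_left ?_ _
      refine Finset.card_biUnion_le.trans ?_
      exact Finset.sum_le_sum fun i _ => Finset.card_image_le
    have h2 : ∀ i : Bool × Bool, ((F.filter (fun g => g * y i ∉ F)).card : ℝ) ≤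
        1 / 4 * F.card := by
      intro i
      have h3 := hFE (y i) (Finset.mem_image_of_mem y (Finset.mem_univ i))
      have h4 : ((F : Set H) \ {x | x * y i ∈ F}) =
          ((F.filter (fun g => g * y i ∉ F) : Finset H) : Set H) := by
        ext x
        simp
      rw [h4, Set.ncard_coe_finset] at h3
      exact h3
    have h5 : (T.card : ℝ) ≤ F.card +
        ∑ i : Bool × Bool, ((F.filter (fun g => g * y i ∉ F)).card : ℝ) := by
      exact_mod_cast h1
    have h6 : ∑ i : Bool × Bool, ((F.filter (fun g => g * y i ∉ F)).card : ℝ) ≤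
        ∑ i : Bool × Bool, (1 / 4 * F.card : ℝ) := Finset.sum_le_sum fun i _ => h2 i
    rw [Finset.sum_const, Finset.card_univ] at h6
    have h7 : Fintype.card (Bool × Bool) = 4 := rfl
    rw [h7, nsmul_eq_mul] at h6
    push_cast at h6
    linarith
  have h8 : (3 * F.card : ℝ) ≤ T.card := by exact_mod_cast hlow.trans hinj
  have h9 : (0 : ℝ) < F.card := by exact_mod_cast hne.card_pos
  linarith

end Pool.Agent.PDA
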