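import Pool.Agent.PDA.StF

/-!
# PDA, module MAD: the main theorem, all indices
-/

set_option autoImplicit false
set_option linter.unusedVariables false

namespace Pool.Agent.PDA

open Pool.Agent.PDB Subgroup

/-- a nontrivial homomorphism to `ℤ` can be made surjective -/
private theorem MAD_surj {S : Type} [Group S] (χ : S →* Multiplicative ℤ) (h : χ ≠ 1) :
    ∃ π : S →* Multiplicative ℤ, Function.Surjective π := by
  -- the image as a subgroup of `ℤ`
  let f : Additive S →+ ℤ := MonoidHom.toAdditiveLeft χ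
  obtain ⟨m, hm⟩ := Int.subgroup_cyclic f.range
  have hm0 : m ≠ 0 := by
    rintro rfl
    apply h
    ext g
    have h1 : f (Additive.ofMul g) ∈ f.range := ⟨_, rfl⟩
    rw [hm, AddSubgroup.mem_closure_singleton] at h1
    obtain ⟨n, hn⟩ := h1
    have h2 : f (Additive.ofMul g) = 0 := by rw [← hn, smul_zero]
    exact Multiplicative.toAdd.injective h2
  have hdvd : ∀ g : S, ∃ n : ℤ, Multiplicative.toAdd (χ g) = n * m := by
    intro g
    have h1 : f (Additive.ofMul g) ∈ f.range := ⟨_, rfl⟩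
    rw [hm, AddSubgroup.mem_closure_singleton] at h1
    obtain ⟨n, hn⟩ := h1
    exact ⟨n, by rw [← smul_eq_mul, hn]; rfl⟩
  choose n hn using hdvd
  refine ⟨{ toFun := fun g => Multiplicative.ofAdd (n g)
            map_one' := ?_
            map_mul' := ?_ }, ?_⟩
  · have h1 := hn 1
    rw [map_one, toAdd_one] at h1
    have h2 : n 1 = 0 := by
      rcases mul_eq_zero.1 h1.symm with h2 | h2
      · exact h2
      · exact absurd h2 hm0
    rw [h2, ofAdd_zero]
  · intro g g'
    have h1 : n (g * g') * m = (n g + n g') * m := by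
      rw [← hn, map_mul, toAdd_mul, hn, hn, add_mul]
    have h2 : n (g * g') = n g + n g' := mul_right_cancel₀ hm0 h1
    rw [h2, ofAdd_add]
  · intro q
    have h1 : m * Multiplicative.toAdd q ∈ f.range := by
      rw [hm, AddSubgroup.mem_closure_singleton]
      exact ⟨Multiplicative.toAdd q, by rw [smul_eq_mul, mul_comm]⟩
    obtain ⟨g, hg⟩ := h1
    refine ⟨Additive.toMul g, ?_⟩
    show Multiplicative.ofAdd (n (Additive.toMul g)) = q
    have h2 : n (Additive.toMul g) * m = Multiplicative.toAdd q * m := by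
      rw [← hn, mul_comm (Multiplicative.toAdd q) m, ← hg]
      rfl
    rw [mul_right_cancel₀ hm0 h2, ofAdd_toAdd]

theorem thm_MAD (hM : St_MAI) (hF : St_FND) (hV : St_VPF) (hB : St_FSB) (hI : St_INS) :
    St_MAD := by
  intro G _ hG H hfg hfol p hp H0 hH0 hres hor
  by_cases hidx : H.index = 0
  · exact hM G hG H hfg hidx hfol p H0 hH0 hres
  obtain ⟨H1, hH1, χ, hχ⟩ := hor.resolve_left hidx
  have : H0.FiniteIndex := ⟨hH0⟩
  have : H1.FiniteIndex := ⟨hH1⟩
  have : H.FiniteIndex := ⟨hidx⟩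
  have : Group.FG H := (Group.fg_iff_subgroup_fg H).2 hfg
  have hfi : (H0 ⊓ H1).FiniteIndex := inferInstance
  have hH2 : (H0 ⊓ H1).index ≠ 0 := hfi.index_ne_zero
  -- `χ` on `H0 ⊓ H1`
  let ι : (H0 ⊓ H1 : Subgroup H) →* H1 := Subgroup.inclusion inf_le_right
  have hχ2 : χ.comp ι ≠ 1 := by
    intro h1
    apply hχ
    ext u
    obtain ⟨n, hn, -, hmem⟩ := Subgroup.exists_pow_mem_of_index_ne_zero hH2 (u : H)
    have h2 : χ (ι ⟨(u : H) ^ n, hmem⟩) = 1 := by
      have h3 := congrArg (fun f => f ⟨(u : H) ^ n, hmem⟩) h1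
      exact h3
    have h3 : ι ⟨(u : H) ^ n, hmem⟩ = u ^ n := Subtype.ext rfl
    rw [h3, map_pow] at h2
    have h4 : (n : ℤ) * Multiplicative.toAdd (χ u) = 0 := by
      have h5 := congrArg Multiplicative.toAdd h2
      rw [toAdd_pow, toAdd_one, nsmul_eq_mul] at h5
      exact h5
    rcases mul_eq_zero.1 h4 with h5 | h5
    · exact absurd (Int.natCast_eq_zero.1 h5) hn.ne'
    · exact Multiplicative.toAdd.injective h5
  obtain ⟨π, hπ⟩ := MAD_surj _ hχ2
  have hfol2 : Folner (H0 ⊓ H1 : Subgroup H) :=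
    hB H _ (H0 ⊓ H1).subtype (H0 ⊓ H1).subtype_injective hfol
  have hres2 : ResP (H0 ⊓ H1 : Subgroup H) p := by
    let κ : (H0 ⊓ H1 : Subgroup H) →* H0 := Subgroup.inclusion inf_le_left
    exact (hI H0 _ κ (Subgroup.inclusion_injective _)).2.1 p hp.out hres
  have hfg2 : Group.FG (H0 ⊓ H1 : Subgroup H) := inferInstance
  have hj : Function.Injective (H.subtype.comp (H0 ⊓ H1).subtype) :=
    H.subtype_injective.comp (H0 ⊓ H1).subtype_injective
  have hji : (H.subtype.comp (H0 ⊓ H1).subtype).range.index ≠ 0 := by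
    rw [MonoidHom.range_comp, Subgroup.range_subtype,
      Subgroup.index_map_of_injective _ H.subtype_injective, Subgroup.range_subtype]
    exact mul_ne_zero hH2 hidx
  exact hV H (H0 ⊓ H1) hH2 (hF G hG _ _ hj hji hfg2 hfol2 p hres2 π hπ)

end Pool.Agent.PDA
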