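import Pool.Agent.PDA.StE

/-!
# PDA, module MAI: the main theorem
-/

set_option autoImplicit false
set_option linter.unusedVariables false

namespace Pool.Agent.PDA

open Pool.Agent.PDB

theorem thm_MAI (h1 : St_INS) (h2 : St_FSB) (h3 : St_CLS) (h4 : St_FIN) (h5 : St_PZV) :
    St_MAI := by
  intro G _ hG H hfg hidx hfol p _ H0 hH0 hres
  have hin : InPD3 H := ⟨G, inferInstance, hG, H.subtype, H.subtype_injective, by
    rw [Subgroup.range_subtype]; exact hidx⟩
  have hin0 : InPD3 H0 := (h1 H H0 H0.subtype H0.subtype_injective).1 hin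
  have hfol0 : Folner H0 := h2 H H0 H0.subtype H0.subtype_injective hfol
  haveI : Group.FG H := (Group.fg_iff_subgroup_fg H).2 hfg
  haveI : H0.FiniteIndex := ⟨hH0⟩
  have hfg0 : Group.FG H0 := inferInstance
  have hpoly : PolyZ (⊤ : Subgroup H0) :=
    h4 p (fun S _ => InPD3 S ∧ Folner S ∧ ResP S p) (h3 p) H0 ⟨hin0, hfol0, hres⟩ hfg0
  exact h5.1 H H0 hH0 hpoly

end Pool.Agent.PDA
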