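import Mathlib

/-!
# PDA: `PD_3`-groups (definition, used for MP_add920_al and MP_d2e046_gt)

`FPRes G` is a finite resolution of the trivial module `ℤ` by finitely generated projective left
`ℤ[G]`-modules; `G` is of type `FP` iff there is one. The groups `H^i(G; ℤ[G])` are the cohomology
groups of the complex `Hom_{ℤ[G]}(P_i, ℤ[G])`, for any such resolution.
-/

set_option autoImplicit false

namespace Pool.Agent.PDA

/-- a finite resolution `0 → P_len → … → P_1 → P_0 → ℤ → 0` by finitely generated projective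
left `ℤ[G]`-modules; `e : P_0 → ℤ` is invariant under `G` (trivial action on `ℤ`) -/
structure FPRes (G : Type) [Group G] where
  /-- the modules -/
  P : ℕ → Type
  [acg : ∀ i, AddCommGroup (P i)]
  [mod : ∀ i, Module (MonoidAlgebra ℤ G) (P i)]
  [fin : ∀ i, Module.Finite (MonoidAlgebra ℤ G) (P i)]
  [proj : ∀ i, Module.Projective (MonoidAlgebra ℤ G) (P i)]
  /-- the length -/
  len : ℕ
  zero : ∀ i, len < i → Subsingleton (P i)
  /-- the boundary maps -/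
  d : ∀ i, P (i + 1) →ₗ[MonoidAlgebra ℤ G] P i
  /-- the augmentation -/
  e : P 0 →+ ℤ
  e_smul : ∀ (g : G) (x : P 0), e (MonoidAlgebra.of ℤ G g • x) = e x
  e_surj : Function.Surjective e
  exact_zero : ∀ x : P 0, e x = 0 ↔ ∃ y, d 0 y = x
  exact_succ : ∀ (i : ℕ) (x : P (i + 1)), d i x = 0 ↔ ∃ y, d (i + 1) y = x

attribute [instance] FPRes.acg FPRes.mod FPRes.fin FPRes.proj

variable {G : Type} [Group G]

/-- the cocycles of degree `i` of the complex `Hom_{ℤ[G]}(P_i, ℤ[G])` -/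
def FPRes.cocyc (R : FPRes G) (i : ℕ) : AddSubgroup (R.P i →ₗ[MonoidAlgebra ℤ G] MonoidAlgebra ℤ G) where
  carrier := {f | f ∘ₗ R.d i = 0}
  zero_mem' := by simp
  add_mem' := by
    intro a b ha hb
    simp only [Set.mem_ofPred_eq] at *
    rw [LinearMap.add_comp, ha, hb, add_zero]
  neg_mem' := by
    intro a ha
    simp only [Set.mem_ofPred_eq] at *
    rw [LinearMap.neg_comp, ha, neg_zero]

/-- `H^i(G; ℤ[G]) = 0` for `i ≠ 3` and `H^3(G; ℤ[G]) ≅ ℤ` as an abelian group, computed with `R` -/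
structure FPRes.Dual3 (R : FPRes G) : Prop where
  zero : ∀ f : R.P 0 →ₗ[MonoidAlgebra ℤ G] MonoidAlgebra ℤ G, f ∘ₗ R.d 0 = 0 → f = 0
  succ : ∀ i, i + 1 ≠ 3 → ∀ f : R.P (i + 1) →ₗ[MonoidAlgebra ℤ G] MonoidAlgebra ℤ G,
    f ∘ₗ R.d (i + 1) = 0 → ∃ g : R.P i →ₗ[MonoidAlgebra ℤ G] MonoidAlgebra ℤ G, f = g ∘ₗ R.d i
  three : ∃ θ : R.cocyc 3 →+ ℤ, Function.Surjective θ ∧
    ∀ f : R.cocyc 3, θ f = 0 ↔
      ∃ g : R.P 2 →ₗ[MonoidAlgebra ℤ G] MonoidAlgebra ℤ G, (f : R.P 3 →ₗ[MonoidAlgebra ℤ G] _) = g ∘ₗ R.d 2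

variable (G) in
/-- `G` is a `PD_3`-group: of type `FP`, `H^i(G; ℤ[G]) = 0` for `i ≠ 3`, `H^3(G; ℤ[G]) ≅ ℤ` -/
def IsPD3 : Prop := ∃ R : FPRes G, R.Dual3

end Pool.Agent.PDA
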