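import Pool.Agent.CPD.PDDefs
import Pool.Agent.PDA.Res

/-!
# `PD₃`-groups: the definition used in the final statements

The resolutions are those of `Pool/Agent/CPD/PDDefs.lean` (helper24); no orientability.
-/

set_option autoImplicit false

namespace Pool.Agent.PDA

open Pool.Agent.CPD

/-- `w` induces an isomorphism of `H³(G; ℤ[G])` with `ℤ` (as abelian groups): on the cocycles, `w` is
additive, onto, and zero exactly on the coboundaries. -/
structure IsDual {G : Type} [Group G] (F : Reso G) (w : F.Coch 3 → ℤ) : Prop where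
  add : ∀ φ ψ χ : F.Coch 3, F.IsCocycle 3 φ → F.IsCocycle 3 ψ →
    (∀ x, F.ev χ x = F.ev φ x + F.ev ψ x) → w χ = w φ + w ψ
  onto : ∀ n : ℤ, ∃ φ, F.IsCocycle 3 φ ∧ w φ = n
  ker : ∀ φ, F.IsCocycle 3 φ → (w φ = 0 ↔ F.IsCoboundary 2 φ)

/-- `G` is a `PD₃`-group: it is of type `FP`, `Hⁱ(G; ℤ[G]) = 0` for `i ≠ 3`, and `H³(G; ℤ[G]) ≅ ℤ`. -/
def PD3 (G : Type) [Group G] : Prop :=
  ∃ F : Reso G,
    (∀ φ, F.IsCocycle 0 φ → ∀ x, F.ev φ x = 0) ∧
    (∀ i, i + 1 ≠ 3 → ∀ φ, F.IsCocycle (i + 1) φ → F.IsCoboundary i φ) ∧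
    ∃ w : F.Coch 3 → ℤ, IsDual F w

variable {G : Type} [Group G]

/-- the resolution in unbundled form; the length is arbitrary -/
noncomputable def resOf (F : Reso G) : FPRes G where
  P i := (F.P i).X
  fin i := (F.fp i).1
  proj i := (F.fp i).2
  len := F.len.choose
  zero := F.len.choose_spec
  d i := F.d i
  e := F.aug
  e_smul := F.aug_act
  e_surj := F.aug_surj
  exact_zero := F.exact_zero
  exact_succ := F.exact_succ

theorem PD3.isPD3 (h : PD3 G) : IsPD3 G := by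
  obtain ⟨F, h0, h1, w, hw⟩ := h
  have hcoc : ∀ (i : ℕ) (φ : (resOf F).P i →ₗ[MonoidAlgebra ℤ G] MonoidAlgebra ℤ G),
      φ ∘ₗ (resOf F).d i = 0 → F.IsCocycle i φ := by
    intro i φ hφ x
    exact LinearMap.congr_fun hφ x
  refine ⟨resOf F, ?_, ?_, ?_⟩
  · intro φ hφ
    refine LinearMap.ext fun x => ?_
    exact h0 φ (hcoc 0 φ hφ) x
  · intro i hi φ hφ
    obtain ⟨ψ, hψ⟩ := h1 i hi φ (hcoc (i + 1) φ hφ)
    refine ⟨ψ, ?_⟩
    refine LinearMap.ext fun x => ?_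
    exact hψ x
  · refine ⟨AddMonoidHom.mk' (fun φ : (resOf F).cocyc 3 => w φ.1) ?_, ?_, ?_⟩
    · intro φ ψ
      exact hw.add φ.1 ψ.1 (φ + ψ).1 (hcoc 3 _ φ.2) (hcoc 3 _ ψ.2) (fun x => rfl)
    · intro n
      obtain ⟨φ, hφ, hn⟩ := hw.onto n
      refine ⟨⟨φ, ?_⟩, hn⟩
      refine LinearMap.ext fun x => ?_
      exact hφ x
    · intro φ
      refine (hw.ker φ.1 (hcoc 3 _ φ.2)).trans ⟨?_, ?_⟩
      · rintro ⟨ψ, hψ⟩
        refine ⟨ψ, ?_⟩
        refine LinearMap.ext fun x => ?_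
        exact hψ x
      · rintro ⟨ψ, hψ⟩
        refine ⟨ψ, fun x => ?_⟩
        exact LinearMap.congr_fun hψ x

end Pool.Agent.PDA
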