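import Pool.Agent.PDA.Defs
import Pool.Agent.PDA.Res

/-!
# PDA: statements A, Strebel's theorem for `PD_3`-groups, base change

Every `def St_X : Prop` is a module; its docstring is the proof. Prove it in a file
`Pool/Agent/PDA/X.lean` as `theorem thm_X : St_X` (namespace `Pool.Agent.PDA`).
-/

set_option autoImplicit false
set_option linter.unusedVariables false

namespace Pool.Agent.PDA

open Pool.Agent.PDB

/-- the group ring `ℤ[G]` -/
abbrev ZG (G : Type) [Group G] : Type := MonoidAlgebra ℤ G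

/-- the right translate `x ↦ f(x) g` of a linear map `f : M → ℤ[G]` -/
noncomputable def rm {G M : Type} [Group G] [AddCommGroup M] [Module (ZG G) M]
    (f : M →ₗ[ZG G] ZG G) (g : G) : M →ₗ[ZG G] ZG G where
  toFun x := f x * el ℤ g
  map_add' x y := by rw [map_add, add_mul]
  map_smul' a x := by rw [map_smul, smul_eq_mul, mul_assoc, RingHom.id_apply, smul_eq_mul]

/-- a resolution of length three of the trivial module `ℤ` by finitely generated projective
`ℤ[G]`-modules, with `H^i(G; ℤ[G]) = 0` for `i = 0, 1, 2` and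
`θ : coker (Hom(P_2, ℤ[G]) → Hom(P_3, ℤ[G])) ≅ ℤ` -/
structure Short (G : Type) [Group G] where
  P0 : Type
  P1 : Type
  P2 : Type
  P3 : Type
  [a0 : AddCommGroup P0]
  [a1 : AddCommGroup P1]
  [a2 : AddCommGroup P2]
  [a3 : AddCommGroup P3]
  [m0 : Module (ZG G) P0]
  [m1 : Module (ZG G) P1]
  [m2 : Module (ZG G) P2]
  [m3 : Module (ZG G) P3]
  [f0 : Module.Finite (ZG G) P0]
  [f1 : Module.Finite (ZG G) P1]
  [f2 : Module.Finite (ZG G) P2]
  [f3 : Module.Finite (ZG G) P3]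
  [p0 : Module.Projective (ZG G) P0]
  [p1 : Module.Projective (ZG G) P1]
  [p2 : Module.Projective (ZG G) P2]
  [p3 : Module.Projective (ZG G) P3]
  d1 : P1 →ₗ[ZG G] P0
  d2 : P2 →ₗ[ZG G] P1
  d3 : P3 →ₗ[ZG G] P2
  e : P0 →+ ℤ
  e_smul : ∀ (g : G) (x : P0), e (el ℤ g • x) = e x
  e_surj : Function.Surjective e
  ex0 : ∀ x : P0, e x = 0 ↔ ∃ y, d1 y = x
  ex1 : ∀ x : P1, d1 x = 0 ↔ ∃ y, d2 y = x
  ex2 : ∀ x : P2, d2 x = 0 ↔ ∃ y, d3 y = x
  inj3 : Function.Injective d3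
  h0 : ∀ f : P0 →ₗ[ZG G] ZG G, f ∘ₗ d1 = 0 → f = 0
  h1 : ∀ f : P1 →ₗ[ZG G] ZG G, f ∘ₗ d2 = 0 → ∃ g : P0 →ₗ[ZG G] ZG G, f = g ∘ₗ d1
  h2 : ∀ f : P2 →ₗ[ZG G] ZG G, f ∘ₗ d3 = 0 → ∃ g : P1 →ₗ[ZG G] ZG G, f = g ∘ₗ d2
  θ : (P3 →ₗ[ZG G] ZG G) →+ ℤ
  θ_surj : Function.Surjective θ
  θ_ker : ∀ f : P3 →ₗ[ZG G] ZG G, θ f = 0 ↔ ∃ g : P2 →ₗ[ZG G] ZG G, f = g ∘ₗ d3

attribute [instance] Short.a0 Short.a1 Short.a2 Short.a3 Short.m0 Short.m1 Short.m2 Short.m3
  Short.f0 Short.f1 Short.f2 Short.f3 Short.p0 Short.p1 Short.p2 Short.p3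

/-- `S` is (isomorphic to) a subgroup of infinite index of a `PD_3`-group -/
def InPD3 (S : Type) [Group S] : Prop :=
  ∃ (G : Type) (_ : Group G), IsPD3 G ∧ ∃ j : S →* G, Function.Injective j ∧ j.range.index = 0

/-! ## from the definition to length three -/

/-- [TOP] Reduction to length three.
PROOF. Let `R` be the resolution, `N_i = range (d i) ⊆ P i`. Claim, for `i ≥ 3`: there is a linear
retraction `P i → N_i` (identity on `N_i`). Downward induction, from `i ≥ len` (`N_i = 0`). Let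
`i ≥ 3` and let `r : P (i+1) → N_(i+1)` be a retraction. `d i` kills exactly `N_(i+1)`, so
`N_i ≅ P (i+1) / N_(i+1) ≅ ker r` is finitely generated projective (a summand of `P (i+1)`). Every
linear `f : N_i → ℤ[G]` extends to `P i`: `f ∘ d i : P (i+1) → ℤ[G]` is a cocycle of degree
`i + 1 ≥ 4`, hence `= g ∘ d i` with `g : P i → ℤ[G]` (`Dual3.succ`), and `g` extends `f`. Take a
finite dual basis `x = ∑ f_j(x) u_j` of `N_i` (finitely generated projective) and extend the `f_j`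
to `F_j` on `P i`: `x ↦ ∑ F_j(x) u_j` is the retraction.
The claim for `i = 3`: `P 3 = N_3 ⊕ ker r`, `ker r ≅ N_2 = range (d 2)` via `d 2`. Put
`P3 := range (d 2)` (as a submodule of `P 2`), finitely generated projective, `d3` = inclusion.
`ex2`: exactness at `P 2`. `h0, h1` are `Dual3.zero`, `Dual3.succ 0`; `h2`: `f : P 2 → ℤ[G]` with
`f = 0` on `range (d 2)` is a cocycle, `Dual3.succ 1`. `θ f := θ' (f ∘ (d 2 : P 3 → range (d 2)))`,
where `θ'` is the map of `Dual3.three` (the composite is a cocycle since `d 2 ∘ d 3 = 0`).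
Surjective: a cocycle `c : P 3 → ℤ[G]` kills `N_3 = ker (d 2)`, so it is `f ∘ d 2` with `f` on
`range (d 2)`. Kernel: `f ∘ d 2 = g ∘ d 2` iff `f = g ∘ inclusion`. -/
def St_TOP : Prop := ∀ (G : Type) [Group G], IsPD3 G → Nonempty (Short G)

/-- [GFG] `PD_3`-groups are finitely generated.
PROOF. `x_0 : P0` with `e x_0 = 1`. `P0` is projective and `aug : ℤ[G] → Tr ℤ G` is onto, so there
is a linear `β : P0 → ℤ[G]` with `aug (β x) = e x` (`e` is linear for the trivial module `Tr ℤ G`).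
Let `u = β x_0`, `aug u = 1`, and let `y_1, …, y_n` generate `P1`. The augmentation ideal `I_G` (left
ideal) is generated by `1 - u` and the `β (d1 y_j)`: for `a ∈ I_G`, `e (a x_0) = aug a = 0`, so
`a x_0 ∈ range d1`, `a u = β (a x_0) ∈ ∑ ℤ[G] β (d1 y_j)`, and `a = a u + a (1 - u)`. Each of these
finitely many elements is a `ℤ`-combination of elements `g - 1`, so there is a finite set `F` with
`I_G = ∑_{f ∈ F} ℤ[G] (f - 1)`. Let `T` be the subgroup generated by `F`. The additive map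
`q : ℤ[G] → (G ⧸ T →₀ ℤ)`, `g ↦ [g T]`, kills `g (f - 1)`, so it kills `I_G`; so `g T = T` for all
`g`, `T = G`. -/
def St_GFG : Prop := ∀ (G : Type) [Group G] (R : Short G), Group.FG G

/-- [WCH] The orientation character.
PROOF. If `θ f = 0` then `f = g ∘ d3` and `rm f s = (rm g s) ∘ d3`, so `θ (rm f s) = 0`. Take `f_0`
with `θ f_0 = 1` and `w s := θ (rm f_0 s)`. For any `f`: `f - θ(f) f_0` has `θ = 0`, so
`θ (rm f s) = w s * θ f`. `rm (rm f s) t = rm f (s t)`, so `w (s t) = w s * w t`, `w 1 = 1`, and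
`w s * w s⁻¹ = 1` makes `w s` a unit of `ℤ`. -/
def St_WCH : Prop := ∀ (G : Type) [Group G] (R : Short G), ∃ w : G →* ℤˣ,
  ∀ (f : R.P3 →ₗ[ZG G] ZG G) (g : G), R.θ (rm f g) = (w g : ℤ) * R.θ f

/-! ## the flow lemma -/

/-- [FL0] Flow to infinity in an infinite Schreier graph.
PROOF. Graph on `X`: `x` is joined to `s • x`, `s ∈ F`; connected, finite valence. Fix `o : X`,
`δ(x)` = the least length of a word `s_1 … s_n` in `F` with `x = s_1 … s_n • o`. For `x ≠ o` choose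
`s(x) ∈ F` with `δ(s(x) • x) = δ(x) - 1`; the parent of `x` is `π(x) = s(x) • x`. Children of `x`:
the `y ≠ o` with `π(y) = x`, finitely many. `desc x` = the set of `y` such that iterating `π` from
`y` (at most `δ(y)` times) reaches `x`; `desc x = {x} ∪ ⋃_{c child} desc c`; elements of `desc x`
have `δ ≥ δ(x)`. `x` is big if `desc x` is infinite. `o` is big (`desc o = X`), and a big `x` has a
big child. `σ x`: if `x` is not big (then `x ≠ o`), `σ x = s(x)`; if `x` is big choose a big child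
`c` and put `σ x = s(c)⁻¹`, so `σ x • x = c`. Measure in `ℕ ×ₗ ℕ`: `μ(x) = (0, card (desc x))` if `x`
is not big, `(1, δ(x))` if `x` is big. If `σ x • x = y` then `μ(x) < μ(y)`: for `x` not big,
`y = π(x)`; either `y` is big, or `desc x ⊊ desc y` (finite, `y ∉ desc x` by `δ`); for `x` big,
`y` is big and `δ(y) = δ(x) + 1`. -/
def St_FL0 : Prop := ∀ (G X : Type) [Group G] [MulAction G X], MulAction.IsPretransitive G X →
  Infinite X → ∀ F : Finset G, (∀ s ∈ F, s⁻¹ ∈ F) → Subgroup.closure (F : Set G) = ⊤ →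
  ∃ σ : X → G, (∀ x, σ x ∈ F) ∧ WellFounded (fun x y : X => σ x • x = y)

/-- [FLO] The flow lemma: `m = ∑_{s ∈ F} (n_s - s.n_s)` in the coinduced module.
PROOF (from `St_FL0`, which may be assumed as a hypothesis). `X = G ⧸ S` is infinite
(`S.index = 0`), `v g := ((g⁻¹ : G) : G ⧸ S)`, so `v (h g) = v g` for `h ∈ S` and
`s • v g = v (g s⁻¹)`. Take `σ` from `St_FL0`. The relation `r' g' g :⇔ ∃ s ∈ F, g' = g s ∧ σ (v g') = s`
on `G` is well founded (`r' g' g` implies `σ (v g') • v g' = v g`). Define by well founded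
recursion `T g = m g + ∑_{s ∈ F, σ (v (g s)) = s} T (g s)`. By well founded induction
`T (h g) = a h (T g)` for `h ∈ S`. Put `n s g = T g` if `σ (v g) = s`, else `0`. Then
`∑_{s ∈ F} n s g = T g` and `∑_{s ∈ F} n s (g s) = ∑_{s ∈ F, σ (v (g s)) = s} T (g s) = T g - m g`. -/
def St_FLO : Prop := ∀ (G : Type) [Group G] (F : Finset G), (∀ s ∈ F, s⁻¹ ∈ F) →
  Subgroup.closure (F : Set G) = ⊤ → ∀ S : Subgroup G, S.index = 0 →
  ∀ (M : Type) [AddCommGroup M] (a : S → (M →+ M)) (m : G → M),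
  (∀ (h : S) (g : G), m ((h : G) * g) = a h (m g)) →
  ∃ n : G → G → M, (∀ s ∈ F, ∀ (h : S) (g : G), n s ((h : G) * g) = a h (n s g)) ∧
    ∀ g, m g = ∑ s ∈ F, (n s g - n s (g * s))

/-- [STR] Strebel's theorem, key step: over a subgroup of infinite index `P3` is a summand of `P2`.
PROOF (from `St_GFG`, `St_WCH`, `St_FLO`). For a linear `f : M → ℤ[G]` (`M = P3` or `P2`) and
`m : G → P3` with `m (h g) = h m(g)` (`h ∈ S`) put `Ψ(f, m)(x) = ∑_g f(x)_g • m(g) ∈ P3`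
(`f(x)_g` the coefficient). It is additive in `x`, `f`, `m`, and `Ψ(f, m)(h x) = h Ψ(f, m)(x)` for
`h ∈ S` (`f(h x)_g = f(x)_{h⁻¹ g}`). `Ψ(rm f s, m) = Ψ(f, s.m)` where `(s.m)(g) = m(g s)`. If
`θ f = 0`, then `f = F ∘ d3` and `Ψ(f, m) = Ψ(F, m) ∘ d3`.
Dual basis of `P3`: `x = ∑_j f_j(x) u_j` (finite), `m_j(g) = g u_j`, so `x = ∑_j Ψ(f_j, m_j)(x)`.
Let `θ f_0 = 1`; `f_j - θ(f_j) f_0 = F_j ∘ d3`. With `m = ∑ θ(f_j) m_j`:
`x = ∑_j Ψ(F_j, m_j)(d3 x) + Ψ(f_0, m)(x)`.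
Take a finite symmetric generating set `F` of `G` and `w` from `St_WCH`. Apply `St_FLO` to
`m'(g) = w(g) m(g)`, `a h = w(h) • (h • ·)`: `m'(g) = ∑_s (n_s(g) - n_s(g s))`. Put
`n'_s(g) = w(g) n_s(g)`; `n'_s(h g) = h n'_s(g)` (`w(h)^2 = 1`) and
`m(g) = ∑_s (n'_s(g) - w(s) n'_s(g s))`. So
`Ψ(f_0, m) = ∑_s Ψ(f_0 - w(s) rm f_0 s, n'_s)` and `θ (f_0 - w(s) rm f_0 s) = 1 - w(s)^2 = 0`, so
`f_0 - w(s) rm f_0 s = G_s ∘ d3`. Hence `ρ = ∑_j Ψ(F_j, m_j) + ∑_s Ψ(G_s, n'_s) : P2 → P3`. -/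
def St_STR : Prop := ∀ (G : Type) [Group G] (R : Short G) (S : Subgroup G), S.index = 0 →
  ∃ ρ : R.P2 →+ R.P3, (∀ s ∈ S, ∀ x, ρ (el ℤ s • x) = el ℤ s • ρ x) ∧ ∀ y, ρ (R.d3 y) = y

/-! ## homological algebra -/

/-- [FRE] Projective modules over `k[G]` are projective over `k[S]`, `j : S → G` injective.
PROOF. `k[G]` is free over `k[S]`: choose `T ⊆ G` with every `g ∈ G` uniquely `j(s) τ`, `τ ∈ T`
(right cosets of `j.range`); the `k[S]`-linear map `(T →₀ k[S]) → k[G]`, `e_τ ↦ τ`, is bijective (its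
inverse sends `g = j(s) τ` to `s e_τ`). A projective `k[G]`-module is a retract of some
`X →₀ k[G]`, which is a free `k[S]`-module. (The section and the retraction are `k[S]`-linear.) -/
def St_FRE : Prop := ∀ (k S G : Type) [CommRing k] [Group S] [Group G] (j : S →* G),
  Function.Injective j → ∀ (M : Type) [AddCommGroup M] [Module (MonoidAlgebra k G) M]
  [Module (MonoidAlgebra k S) M],
  (∀ (a : MonoidAlgebra k S) (m : M), a • m = MonoidAlgebra.mapDomainRingHom k j a • m) →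
  Module.Projective (MonoidAlgebra k G) M → Module.Projective (MonoidAlgebra k S) M

/-- [FR2] The same for free modules (used for `k[H]^n` over `k[K]`).
PROOF. As in `St_FRE`: `k[G]` is free over `k[S]`, so `X →₀ k[G]` is free over `k[S]`. -/
def St_FR2 : Prop := ∀ (k S G : Type) [CommRing k] [Group S] [Group G] (j : S →* G),
  Function.Injective j → ∀ (M : Type) [AddCommGroup M] [Module (MonoidAlgebra k G) M]
  [Module (MonoidAlgebra k S) M],
  (∀ (a : MonoidAlgebra k S) (m : M), a • m = MonoidAlgebra.mapDomainRingHom k j a • m) →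
  Module.Free (MonoidAlgebra k G) M → Module.Free (MonoidAlgebra k S) M

/-- [HOM] Comparison of two projective resolutions up to degree one.
PROOF. Lift: `α₀ : Q0 → F0` with `e α₀ = e'`, `α₁ : Q1 → F1` with `f α₁ = α₀ f'` (`Q1` projective and
`α₀ f'` lands in `ker e = range f`), similarly `β₀ : F0 → Q0`, `β₁ : F1 → Q1`. `β₀ α₀ - 1` lands in
`ker e' = range f'`, so `β₀ α₀ - 1 = f' h` with `h : Q0 → Q1`. Then `γ := β₁ α₁ - 1 - h f' : Q1 → Q1`
lands in `ker f'`: `f' γ = β₀ α₀ f' - f' - (β₀ α₀ - 1) f' = 0`. On `ker f'` it is `β₁ α₁ - 1`. -/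
def St_HOM : Prop := ∀ (Λ M F0 F1 Q0 Q1 : Type) [Ring Λ] [AddCommGroup M] [Module Λ M]
  [AddCommGroup F0] [Module Λ F0] [AddCommGroup F1] [Module Λ F1]
  [AddCommGroup Q0] [Module Λ Q0] [AddCommGroup Q1] [Module Λ Q1]
  [Module.Projective Λ F0] [Module.Projective Λ F1] [Module.Projective Λ Q0]
  [Module.Projective Λ Q1] (e : F0 →ₗ[Λ] M) (f : F1 →ₗ[Λ] F0) (e' : Q0 →ₗ[Λ] M)
  (f' : Q1 →ₗ[Λ] Q0), Function.Surjective e → Function.Surjective e' →
  LinearMap.range f = LinearMap.ker e → LinearMap.range f' = LinearMap.ker e' →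
  ∃ (α : Q1 →ₗ[Λ] F1) (β : F1 →ₗ[Λ] Q1) (γ : Q1 →ₗ[Λ] Q1),
    (∀ x, f' x = 0 → f (α x) = 0) ∧ (∀ x, f x = 0 → f' (β x) = 0) ∧ (∀ x, f' (γ x) = 0) ∧
    ∀ x, f' x = 0 → β (α x) - γ x = x

/-- [SCH] Generalized Schanuel lemma.
PROOF (same file as `HOM`). By `St_HOM`, `id = (β, -γ) ∘ (α, id)` on `ker f'`, so `ker f'` is a
retract of `ker f × Q1`. -/
def St_SCH : Prop := ∀ (Λ M F0 F1 Q0 Q1 : Type) [Ring Λ] [AddCommGroup M] [Module Λ M]
  [AddCommGroup F0] [Module Λ F0] [AddCommGroup F1] [Module Λ F1]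
  [AddCommGroup Q0] [Module Λ Q0] [AddCommGroup Q1] [Module Λ Q1]
  [Module.Projective Λ F0] [Module.Projective Λ F1] [Module.Projective Λ Q0]
  [Module.Projective Λ Q1] (e : F0 →ₗ[Λ] M) (f : F1 →ₗ[Λ] F0) (e' : Q0 →ₗ[Λ] M)
  (f' : Q1 →ₗ[Λ] Q0), Function.Surjective e → Function.Surjective e' →
  LinearMap.range f = LinearMap.ker e → LinearMap.range f' = LinearMap.ker e' →
  Module.Projective Λ (LinearMap.ker f) → Module.Projective Λ (LinearMap.ker f')

/-- [EX2] Independence of `Ext^2` of the resolution, in elementary form.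
PROOF (same file as `HOM`). Let `φ : ker f' → U`. `φ ∘ β : ker f → U` extends to `ψ : F1 → U`. Then
`φ x = φ (β (α x)) - φ (γ x) = ψ (α x) - φ (γ x)` for `x ∈ ker f'`, and the right side is defined
on `Q1`. -/
def St_EX2 : Prop := ∀ (Λ M F0 F1 Q0 Q1 U : Type) [Ring Λ] [AddCommGroup M] [Module Λ M]
  [AddCommGroup F0] [Module Λ F0] [AddCommGroup F1] [Module Λ F1]
  [AddCommGroup Q0] [Module Λ Q0] [AddCommGroup Q1] [Module Λ Q1] [AddCommGroup U] [Module Λ U]
  [Module.Projective Λ F0] [Module.Projective Λ F1] [Module.Projective Λ Q0]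
  [Module.Projective Λ Q1] (e : F0 →ₗ[Λ] M) (f : F1 →ₗ[Λ] F0) (e' : Q0 →ₗ[Λ] M)
  (f' : Q1 →ₗ[Λ] Q0), Function.Surjective e → Function.Surjective e' →
  LinearMap.range f = LinearMap.ker e → LinearMap.range f' = LinearMap.ker e' →
  (∀ φ : LinearMap.ker f →ₗ[Λ] U, ∃ ψ : F1 →ₗ[Λ] U, ∀ x : LinearMap.ker f, ψ x = φ x) →
  ∀ φ : LinearMap.ker f' →ₗ[Λ] U, ∃ ψ : Q1 →ₗ[Λ] U, ∀ x : LinearMap.ker f', ψ x = φ x

/-- [BDR] The map `bd` has image the augmentation ideal.
PROOF. `aug (bd y) = 0` clearly. If `x` generates `S`, then `g - 1` is in the range (a left ideal)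
for every `g`: the set of such `g` is a subgroup containing the `x_i`
(`g h - 1 = g (h - 1) + (g - 1)`, `g⁻¹ - 1 = - g⁻¹ (g - 1)`), and `a = ∑ a_g (g - 1)` if `aug a = 0`. -/
def St_BDR : Prop := ∀ (k S : Type) [CommRing k] [Group S] (d : ℕ) (x : Fin d → S),
  Subgroup.closure (Set.range x) = ⊤ →
  ∀ a : MonoidAlgebra k S, aug k S a = 0 ↔ ∃ y, bd k x y = a

/-- [RLZ] Relation modules of subgroups of infinite index are projective over `ℤ[S]`.
PROOF (from `St_STR`, `St_FRE`, `St_SCH`, `St_BDR`). Make `P0, P1, P2` into `ℤ[S]`-modules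
(`Module.compHom` along `mapDomainRingHom ℤ j`); they are projective over `ℤ[S]` (`St_FRE`). Let `ρ`
be the map of `St_STR` for `j.range`; it is `ℤ[S]`-linear. `P2 = range d3 ⊕ ker ρ` and `d2` is
injective on `ker ρ` with image `d2 (P2) = ker d1`; so `ker d1 ≅ ker ρ` is projective over `ℤ[S]`
(a summand of `P2`). Now `St_SCH` with `M = Tr ℤ S`, `F1 = P1 → F0 = P0 → M` and
`Q1 = (Fin d → ℤ[S]) → Q0 = ℤ[S] → M`, `f' = bd ℤ x` (`range = ker aug` by `St_BDR`). -/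
def St_RLZ : Prop := ∀ (G : Type) [Group G] (R : Short G) (S : Type) [Group S] (j : S →* G),
  Function.Injective j → j.range.index = 0 → ∀ (d : ℕ) (x : Fin d → S),
  Subgroup.closure (Set.range x) = ⊤ → Module.Projective (MonoidAlgebra ℤ S) (Rel ℤ x)

/-- [BAS] Base change of the relation module.
PROOF. Choose `z_g ∈ ℤ[S]^d` with `bd z_g = g - 1` (`St_BDR`). `ρ(g, i) := g e_i - z_{g x_i} + z_g`
lies in `R = Rel ℤ x`. Every `r ∈ R` is `r = ∑_{g,i} r_i(g) ρ(g, i)`, because the additive map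
`σ : ℤ[S] → ℤ[S]^d`, `g ↦ z_g`, satisfies `∑ r_i(g) (z_{g x_i} - z_g) = σ (bd r) = 0`. Let
`c : ℤ[S] → k[S]` be the coefficient map. In the same way every `y ∈ Rel k x` is
`y = ∑_{g,i} y_i(g) c(ρ(g, i))`. `R` is projective: there is a linear `s : R → (R →₀ ℤ[S])` with
`r = ∑_q s(r)_q q`. Let `s_k : k[S]^d → (R →₀ k[S])` be the `k`-linear map with
`g e_i ↦ c(s(ρ(g, i)))`. Then `s_k (c(r)) = c(s(r))` for `r ∈ R` (expand `r` as above). Hence, for
`y ∈ Rel k x = ∑ k c(R)`: `s_k (h y) = h s_k(y)` and `∑_q s_k(y)_q c(q) = y` (check both for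
`y = c(r)`). So `Rel k x` is a retract of the free module `R →₀ k[S]`. -/
def St_BAS : Prop := ∀ (k S : Type) [CommRing k] [Group S] (d : ℕ) (x : Fin d → S),
  Subgroup.closure (Set.range x) = ⊤ → Module.Projective (MonoidAlgebra ℤ S) (Rel ℤ x) →
  Module.Projective (MonoidAlgebra k S) (Rel k x)

/-- [RPJ] Assembly of part A.
PROOF. `St_TOP`, `St_RLZ`, `St_BAS`. -/
def St_RPJ : Prop := ∀ (S : Type) [Group S], InPD3 S → RelProj S

end Pool.Agent.PDA
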