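import Pool.Agent.PDA.StA

/-!
# PDA: statements D, `PD_3`-groups contain no `BS(1,m)` with `|m| > 1`

Every `def St_X : Prop` is a module; its docstring is the proof. Prove it in a file
`Pool/Agent/PDA/X.lean` as `theorem thm_X : St_X` (namespace `Pool.Agent.PDA`).
-/

set_option autoImplicit false
set_option linter.unusedVariables false

namespace Pool.Agent.PDA

open Pool.Agent.PDB

/-- `H`-equivariant maps `l : P → ℚ_χ` with finite support: `l(h x) = χ(h) l(x)`, and for every `x`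
the set of the `g` with `l(g x) ≠ 0` is contained in finitely many right cosets `H f` -/
def IsFS {G : Type} [Group G] (H : Subgroup G) (χ : H →* ℚˣ) {P : Type} [AddCommGroup P]
    [Module (ZG G) P] (l : P →+ ℚ) : Prop :=
  (∀ (h : H) (x : P), l (el ℤ (h : G) • x) = (χ h : ℚ) * l x) ∧
    ∀ x : P, FinMod H {g : G | l (el ℤ g • x) ≠ 0}

/-- every cocycle `ω` on `Hom(P1, ℤ[G])` with `ω(f h) = χ(h) ω(f)` is a coboundary -/
def OmProp {G : Type} [Group G] (R : Short G) (H : Subgroup G) (χ : H →* ℚˣ) : Prop :=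
  ∀ ω : (R.P1 →ₗ[ZG G] ZG G) →+ ℚ,
    (∀ (h : H) (f : R.P1 →ₗ[ZG G] ZG G), ω (rm f (h : G)) = (χ h : ℚ) * ω f) →
    (∀ f : R.P0 →ₗ[ZG G] ZG G, ω (f ∘ₗ R.d1) = 0) →
    ∃ ω' : (R.P2 →ₗ[ZG G] ZG G) →+ ℚ,
      (∀ (h : H) (f : R.P2 →ₗ[ZG G] ZG G), ω' (rm f (h : G)) = (χ h : ℚ) * ω' f) ∧
      ∀ f : R.P1 →ₗ[ZG G] ZG G, ω f = ω' (f ∘ₗ R.d2)

/-- every finitely supported cocycle `l : P1 → ℚ_χ` is the coboundary of a finitely supported map -/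
def FsProp {G : Type} [Group G] (R : Short G) (H : Subgroup G) (χ : H →* ℚˣ) : Prop :=
  ∀ l : R.P1 →+ ℚ, IsFS H χ l → (∀ x, l (R.d2 x) = 0) →
    ∃ L : R.P0 →+ ℚ, IsFS H χ L ∧ ∀ x, l x = L (R.d1 x)

/-- every equivariant map from the relation module to `ℚ_ψ` extends (`H^2(S; ℚ_ψ) = 0`) -/
def E2 {S : Type} [Group S] {d : ℕ} (x : Fin d → S) (ψ : S →* ℚˣ) : Prop :=
  ∀ φ : Rel ℤ x →+ ℚ, (∀ (s : S) (y : Rel ℤ x), φ (el ℤ s • y) = (ψ s : ℚ) * φ y) →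
    ∃ φ' : (Fin d → ZG S) →+ ℚ,
      (∀ (s : S) (y : Fin d → ZG S), φ' (el ℤ s • y) = (ψ s : ℚ) * φ' y) ∧
      ∀ y : Rel ℤ x, φ' (y : Fin d → ZG S) = φ y

/-- every derivation `δ : S → ℚ_χ` is inner (`H^1(S; ℚ_χ) = 0`) -/
def H1Van {S : Type} [Group S] (χ : S →* ℚˣ) : Prop :=
  ∀ δ : S → ℚ, (∀ g h, δ (g * h) = δ g + (χ g : ℚ) * δ h) → ∃ v : ℚ, ∀ g, δ g = ((χ g : ℚ) - 1) * v

/-- `F : G → ℚ` with `F(h g) = χ(h) F(g)`, right translates equal to `F` off finitely many cosets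
`H f`, and `F` itself not zero off finitely many cosets -/
def EndFun {G : Type} [Group G] (H : Subgroup G) (χ : H →* ℚˣ) (F : G → ℚ) : Prop :=
  (∀ (h : H) (g : G), F ((h : G) * g) = (χ h : ℚ) * F g) ∧
    (∀ s : G, FinMod H {g : G | F (g * s) ≠ F g}) ∧ ¬ FinMod H {g : G | F g ≠ 0}

/-- the ring homomorphism `ℤ[S] → ℚ` of a character -/
noncomputable def ev {S : Type} [Group S] (ψ : S →* ℚˣ) : MonoidAlgebra ℤ S →+* ℚ :=
  (MonoidAlgebra.lift ℤ ℚ S ((Units.coeHom ℚ).comp ψ)).toRingHom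

/-- `H` is generated by `x` and `s` like `BS(1,m)`: `s x s⁻¹ = x^m`, `x` of infinite order, and the
kernel of `π : H → ℤ` (`π s = 1`, `π x = 0`) is the union of the `s^(-n) ⟨x⟩ s^n` -/
structure BSData (H : Type) [Group H] (π : H →* Multiplicative ℤ) (x s : H) (m : ℤ) : Prop where
  pis : π s = Multiplicative.ofAdd 1
  pix : π x = 1
  ker : ∀ g, π g = 1 → ∃ (n : ℕ) (i : ℤ), s ^ n * g * (s ^ n)⁻¹ = x ^ i
  inf : ∀ n : ℕ, 0 < n → x ^ n ≠ 1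
  rel : s * x * s⁻¹ = x ^ m

/-! ## duality -/

/-- [DUA] Duality between the complexes `Hom(P_i, ℤ[G])` and the finitely supported maps.
PROOF. For `P` finitely generated projective and `f : P → ℤ[G]` linear put
`λ_f(x) = ∑_{h ∈ H} f(x)_h χ(h)`. It is `IsFS` (`λ_f(g x) ≠ 0` needs `g⁻¹ H` to meet the support of
`f(x)`), additive in `f`, and `λ_{rm f h} = χ(h) λ_f` for `h ∈ H`; `λ_f ∘ d = λ_{f ∘ d}`.
(A) Every `IsFS` map `l` on `P` is a finite sum `∑ q_i λ_{f_i}`, `q_i ∈ ℚ`: with a dual basis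
`x = ∑_j f_j(x) u_j`, `l(x) = ∑_j ∑_g f_j(x)_g l(g u_j)`, and if the support of `g ↦ l(g u_j)` is in
the disjoint cosets `H s`, `s ∈ S_j`, then `l(x) = ∑_j ∑_{s ∈ S_j} l(s u_j) λ_{rm f_j s⁻¹}(x)`.
(B) If `ω : Hom(P, ℤ[G]) → ℚ` is additive with `ω(rm f h) = χ(h) ω(f)`, put
`ω^(l) = ∑_j ∑_{H s ∈ H\G} l(s u_j) ω(rm f_j s⁻¹)`: the summand only depends on the coset `H s` and
is zero for almost all cosets; `ω^` is `ℚ`-linear in `l`. And `ω^(λ_f) = ω(f)`: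
`λ_f(s u_j) = ∑_h f(u_j)_{s⁻¹ h} χ(h)` and `χ(h) ω(rm f_j s⁻¹) = ω(rm f_j (s⁻¹ h))`, so
`ω^(λ_f) = ∑_j ∑_{g ∈ G} f(u_j)_g ω(rm f_j g) = ω(x ↦ ∑_j f_j(x) f(u_j)) = ω(f)`.
Let `V_i` be the `ℚ`-vector space of `IsFS` maps on `P_i`.
(→) Let `l ∈ V_1`, `l ∘ d2 = 0`, not in `W = {L ∘ d1 : L ∈ V_0}`. Choose `Ω : V_1 → ℚ` linear,
`Ω = 0` on `W`, `Ω(l) = 1`. `ω(f) := Ω(λ_f)` is a cocycle, so `ω(f) = ω'(f ∘ d2)`. By (A)
`l = ∑ q_i λ_{f_i}`, so `1 = ∑ q_i ω'(f_i ∘ d2) = ω'^(∑ q_i λ_{f_i ∘ d2}) = ω'^(l ∘ d2) = 0`.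
(←) Let `ω` be a cocycle. `ω^` kills the kernel of `V_1 → V_2`, `l ↦ l ∘ d2`: such an `l` is `L ∘ d1`,
`L = ∑ q_i λ_{f_i}`, `ω^(l) = ∑ q_i ω(f_i ∘ d1) = 0`. So `ω^ = Ω' ∘ (· ∘ d2)` for a linear
`Ω' : V_2 → ℚ`; `ω'(f) := Ω'(λ_f)`. -/
def St_DUA : Prop := ∀ (G : Type) [Group G] (R : Short G) (H : Subgroup G) (χ : H →* ℚˣ),
  OmProp R H χ ↔ FsProp R H χ

/-- [CMP] Comparison with the relation module.
PROOF (from `St_FRE`, `St_EX2`, `St_BDR`). Let `D_i = Hom(P_{3-i}, ℤ[G])` (`i = 0, 1, 2`), a left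
`ℤ[G]`-module by `g * f = w(g) rm f g⁻¹`; it is projective (for `P = ℤ[G]^n` it is `≅ ℤ[G]^n` by
`f ↦ (∑_g f(e_i)_g w(g) g⁻¹)_i`; `P` is a retract of such), so it is projective over `ℤ[H]`
(`St_FRE`). `θ : D_0 → ℤ` is `ℤ[G]`-linear for the trivial module (`θ(rm f g) = w(g) θ f`), onto,
with kernel the image of `D_1 → D_0`, `f ↦ f ∘ d3`, whose kernel is the image of `D_2 → D_1`,
`f ↦ f ∘ d2` (`Short.h2`), whose kernel is the image of `Hom(P0, ℤ[G])` (`Short.h1`). A cocycle `ω`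
as in `OmProp` kills the kernel of `D_2 → D_1`, so it is the same thing as a `ℤ[H]`-linear map
`φ : ker (D_1 → D_0) → ℚ_ψ` (`ω(h * f) = w(h) χ(h)⁻¹ ω(f) = ψ(h) ω(f)`; `ℚ_ψ` is `ℚ` with `h` acting
by `ψ(h)`). So `OmProp` says that every such `φ` extends to `D_1`. By `St_EX2` (both directions, the
other resolution is `bd ℤ x : ℤ[H]^d → ℤ[H] → Tr ℤ H`, `St_BDR`) this is `E2 x ψ`. -/
def St_CMP : Prop := ∀ (G : Type) [Group G] (R : Short G) (w : G →* ℤˣ),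
  (∀ (f : R.P3 →ₗ[ZG G] ZG G) (g : G), R.θ (rm f g) = (w g : ℤ) * R.θ f) →
  ∀ (H : Subgroup G) (χ ψ : H →* ℚˣ), (∀ h : H, (ψ h : ℚ) = ((w (h : G) : ℤ) : ℚ) * (χ h : ℚ)⁻¹) →
  ∀ (d : ℕ) (x : Fin d → H), Subgroup.closure (Set.range x) = ⊤ → (OmProp R H χ ↔ E2 x ψ)

/-! ## functions -/

/-- [FU1] From a cocycle to a function.
PROOF. `l : P1 → ℚ` is `IsFS`, `l ∘ d2 = 0`, not `L ∘ d1` with `L` `IsFS`. `l` kills
`ker d1 = range d2`, so `l = l' ∘ d1` with `l' : ker e → ℚ` additive, `l'(h y) = χ(h) l'(y)`. Let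
`e x_0 = 1` and `δ(h) = l'(h x_0 - x_0)`, a derivation on `H`
(`g h x_0 - x_0 = g (h x_0 - x_0) + (g x_0 - x_0)`), so `δ(h) = (χ(h) - 1) v`. Define
`Λ(y + n x_0) = l'(y) + n v` for `y ∈ ker e`, `n ∈ ℤ` (`P0 = ker e ⊕ ℤ x_0`). `Λ(h x) = χ(h) Λ(x)`
(for `x = x_0`: `Λ(h x_0) = δ(h) + v = χ(h) v`), and `Λ ∘ d1 = l`. Put `F(g) = Λ(g x_0)`.
`F(g s) - F(g) = Λ(g (s x_0 - x_0)) = l(g z)` if `s x_0 - x_0 = d1 z`: zero off finitely many cosets.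
If `F` were zero off finitely many cosets then `Λ` would be `IsFS` (for `x ∈ P0`,
`x = d1 z + e(x) x_0`, `Λ(g x) = l(g z) + e(x) F(g)`), and `l = Λ ∘ d1`, contradiction. -/
def St_FU1 : Prop := ∀ (G : Type) [Group G] (R : Short G) (H : Subgroup G) (χ : H →* ℚˣ),
  H1Van χ → ¬ FsProp R H χ → ∃ F : G → ℚ, EndFun H χ F

/-- [FU2] From a function to a cocycle.
PROOF. Dual basis of `P0`: `x = ∑_j f_j(x) u_j`. Put `Λ(x) = ∑_j e(u_j) ∑_g f_j(x)_g F(g)`.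
`Λ(h x) = χ(h) Λ(x)`, and `Λ(g x) = ∑_j e(u_j) ∑_{g'} f_j(x)_{g'} F(g g')` equals
`F(g) ∑_j e(u_j) aug(f_j(x)) = F(g) e(x)` off finitely many cosets. `l := Λ ∘ d1` is `IsFS`, since
`e ∘ d1 = 0`, and `l ∘ d2 = 0`. If `l = L ∘ d1` with `L` `IsFS`, then `Λ - L` kills `ker e`, so
`(Λ - L)(x) = e(x) c`; `c = (Λ - L)(h x_0) = χ(h) c`, so `c = 0` and `Λ = L` is `IsFS`; then `F`,
which equals `g ↦ Λ(g x_0)` off finitely many cosets, is zero off finitely many cosets. -/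
def St_FU2 : Prop := ∀ (G : Type) [Group G] (R : Short G) (H : Subgroup G) (χ : H →* ℚˣ),
  (∃ h : H, χ h ≠ 1) → (∃ F : G → ℚ, EndFun H χ F) → ¬ FsProp R H χ

/-! ## Baumslag-Solitar groups -/

/-- [BSR] The relation module of `BS(1,m)` is free on one generator.
PROOF. `m ≠ 0`. Let `N ∈ ℤ[H]` be supported on the powers of `x` with `N (x - 1) = x^m - 1`,
`aug N = m` (`N = ∑_{i < m} x^i`, or `N = - ∑_{i=1}^{-m} x^{-i}`), and `r = (s - N, 1 - x^m)`.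
`bd r = (s - N)(x - 1) + (1 - x^m)(s - 1) = s x - x^m s = 0`. If `ψ x = 1` then `ev ψ N = m`, so
`ev ψ r_0 = ψ s - m`, `ev ψ r_1 = 0`. Free: `μ (1 - x^m) = 0` implies `μ = 0` (`x^m` has infinite
order, finite support). Generation: let `y_0 (x - 1) + y_1 (s - 1) = 0`, `B = ⟨x⟩`,
`q : ℤ[H] → (H ⧸ B →₀ ℤ)`. `q(y_1 (s - 1)) = 0`. The map `P : gB ↦ g s⁻¹ B` is well defined
(`s B s⁻¹ ⊆ B`) and lowers the height `π(g)` by one. With `y_1 = ∑ a_g g` and `u = ∑ a_g [g s B]`,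
`∑ a_g [g B] = P_* u`, so `u = P_* u`, and `u = 0` (look at a point of the support of `u` of maximal
height). So `y_1` has sum zero over the sets `{g : g s B = g_0 s B} = g_0 ⟨x^m⟩`
(`s B s⁻¹ = ⟨x^m⟩`), hence `y_1 = μ (1 - x^m)` (the augmentation ideal of `ℤ[⟨c⟩]` is generated by
`1 - c`). `y - μ r = (y_0', 0)` with `y_0' (x - 1) = 0`, so `y_0' = 0`. -/
def St_BSR : Prop := ∀ (H : Type) [Group H] (π : H →* Multiplicative ℤ) (x s : H) (m : ℤ),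
  BSData H π x s m → ∃ r : Rel ℤ ![x, s], (∀ y : Rel ℤ ![x, s], ∃ μ : ZG H, y = μ • r) ∧
    (∀ μ : ZG H, μ • r = 0 → μ = 0) ∧
    ∀ ψ : H →* ℚˣ, ψ x = 1 → ev ψ (r.1 0) = (ψ s : ℚ) - m ∧ ev ψ (r.1 1) = 0

/-- [BSE] `H^2(BS(1,m); ℚ_ψ)`.
PROOF (from `St_BSR`). Equivariant maps `φ' : ℤ[H]^2 → ℚ` are `φ'(y) = ev ψ (y_0) v_0 + ev ψ (y_1) v_1`;
`φ'(r) = (ψ s - m) v_0`. If `ψ s ≠ m` every `φ` extends (choose `v_0` with `φ'(r) = φ(r)`; both are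
equivariant and `r` generates; an additive equivariant map satisfies `φ(μ y) = ev ψ μ φ(y)`). If
`ψ s = m`: `φ(μ r) := ev ψ μ` is well defined (`r` is a free generator) and does not extend, since
`φ(r) = 1` and `φ'(r) = 0`. -/
def St_BSE : Prop := ∀ (H : Type) [Group H] (π : H →* Multiplicative ℤ) (x s : H) (m : ℤ),
  BSData H π x s m → ∀ ψ : H →* ℚˣ, ψ x = 1 → (E2 ![x, s] ψ ↔ (ψ s : ℚ) ≠ m)

/-- [BSG] `x` and `s` generate.
PROOF. For `g : H` with `π g = n`, `g s^(-n)` is in the kernel of `π`, so it is `s^(-k) x^i s^k`. -/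
def St_BSG : Prop := ∀ (H : Type) [Group H] (π : H →* Multiplicative ℤ) (x s : H) (m : ℤ),
  BSData H π x s m → Subgroup.closure (Set.range ![x, s]) = ⊤

/-- [BSH] `H^1(BS(1,m); ℚ_χ) = 0`.
PROOF (from `St_BSG`, same file). If two derivations agree on `x` and `s` they are equal. From
`s x = x^m s`: `δ(s) + χ(s) δ(x) = δ(x^m) + χ(x)^m δ(s)`. If `χ x = 1`, then `δ(x^m) = m δ(x)`, so
`(χ(s) - m) δ(x) = 0`, `δ(x) = 0` (`|χ(s)| = 1/|m| ≠ |m|`), and with `v = δ(s) / (χ(s) - 1)` the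
inner derivation of `v` agrees with `δ` on `x` and `s`. If `χ x = -1`: subtract the inner derivation
of `v = δ(x) / (χ(x) - 1)`, so that `δ(x) = 0` and `δ(x^m) = 0`; `χ(x)^m = χ(x)` (apply `χ` to the
relation), so `2 δ(s) = 0`. -/
def St_BSH : Prop := ∀ (H : Type) [Group H] (π : H →* Multiplicative ℤ) (x s : H) (m : ℤ),
  BSData H π x s m → 2 ≤ |m| → ∀ χ : H →* ℚˣ, ((χ x : ℚ) = 1 ∨ (χ x : ℚ) = -1) →
  |(χ s : ℚ)| = 1 / |(m : ℚ)| → H1Van χ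

/-- [BSX] A `PD_3`-group contains no `BS(1,m)` with `|m| ≥ 2`.
PROOF (from `St_TOP`, `St_WCH`, `St_DUA`, `St_CMP`, `St_FU1`, `St_FU2`, `St_BSE`, `St_BSG`, `St_BSH`).
Replace `H` by the subgroup `j.range` (transport `BSData` along `H ≃ j.range`). Let `|m| ≥ 2`, `R` a
`Short G`, `w` the orientation character, `ψ(g) = m^{π(g)}` (so `ψ x = 1`, `ψ s = m`) and
`χ = w ψ⁻¹` on `H`. By `St_BSE` `E2 ![x,s] ψ` fails, so `OmProp χ` fails (`St_CMP`,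
`ψ = w χ⁻¹`), so `FsProp χ` fails (`St_DUA`). By `St_FU1` and `St_BSH` there is `F` with
`EndFun H χ F`; then `F⁻¹ : g ↦ (F g)⁻¹` (with `0⁻¹ = 0`) satisfies `EndFun H χ⁻¹ F⁻¹`. By `St_FU2`
`FsProp χ⁻¹` fails, so `OmProp χ⁻¹` fails, so `E2 ![x,s] ψ'` fails for
`ψ' = w (χ⁻¹)⁻¹ = w χ = ψ⁻¹`. But `ψ⁻¹ x = 1` and `ψ⁻¹ s = 1/m ≠ m`, against `St_BSE`. -/
def St_BSX : Prop := ∀ (G : Type) [Group G], IsPD3 G → ∀ (H : Type) [Group H] (j : H →* G),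
  Function.Injective j → ∀ (π : H →* Multiplicative ℤ) (x s : H) (m : ℤ), BSData H π x s m → |m| ≤ 1

end Pool.Agent.PDA
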