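import Pool.Agent.PDA.StB
import Pool.Agent.PDA.StD
import Pool.Agent.PDB.St2

/-!
# PDA: final assembly

`thm_CLS : St_CLS` in `Pool/Agent/PDA/CLS.lean`, `thm_MAI : St_MAI` in `Pool/Agent/PDA/MAI.lean`.
-/

set_option autoImplicit false
set_option linter.unusedVariables false

namespace Pool.Agent.PDA

open Pool.Agent.PDB

/-- [CLS] The class of the amenable, residually finite-`p` groups of infinite index in `PD_3`-groups.
PROOF. `sub`: `St_INS`, `St_FSB`. `prj`: `St_RPJ`. `fol`: clear. `sep`: `St_SEP`. `rnk`: `St_FOL`.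
`fin`, `ont`: `St_ST5` (`Module.Finite` is `⊤.FG`; for `ont` take a finite generating family).
`tor`: if `c^n = 1`, `n > 0`, apply `St_ST5` to the subgroup `zpowers c` (if it is not trivial; it is
finitely generated and in the class by `sub`). `bs`: `m ≠ 0` (otherwise `x = 1`); if `m = 1` done; if
`m ≠ 1`: `π x = 1` (apply `π` to the relation), `x` has infinite order (`tor`), so `BSData S π x s m`
holds and `St_BSX` gives `|m| ≤ 1`. -/
def St_CLS : Prop := ∀ (p : ℕ) [Fact p.Prime],
  Cls p (fun S _ => InPD3 S ∧ Folner S ∧ ResP S p)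

/-- [MAI] The main theorem.
PROOF. `H0` is finitely generated (`Subgroup.fg_of_index_ne_zero` or similar: finite index in a
finitely generated group), `InPD3 H0` (embedding `H0 → H → G`, infinite index), `Folner H0`
(`St_FSB`). `St_FIN` and `St_CLS` give `PolyZ (⊤ : Subgroup H0)`, and `St_PZV` gives `VPolyZ H`. -/
def St_MAI : Prop := ∀ (G : Type) [Group G], IsPD3 G → ∀ H : Subgroup G, H.FG → H.index = 0 →
  Folner H → ∀ (p : ℕ) [Fact p.Prime] (H0 : Subgroup H), H0.index ≠ 0 → ResP H0 p → VPolyZ H

end Pool.Agent.PDA
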