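import Pool.Agent.PDA.StE

/-!
# PDA: statements F, subgroups of finite index

Every `def St_X : Prop` is a module; its docstring is the proof. Prove it in a file
`Pool/Agent/PDA/X.lean` as `theorem thm_X : St_X` (namespace `Pool.Agent.PDA`).

Notation: `T = IM K P` for `P = Rel ℤ z` and a normal subgroup `K = ker π`; congruences are modulo `T`.
-/

set_option autoImplicit false
set_option linter.unusedVariables false

namespace Pool.Agent.PDA

open Pool.Agent.PDB Subgroup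

/-- the element `c(x,y) = (x - 1) e(y) - (y - 1) e(x)` -/
noncomputable def cc {S : Type} [Group S] {d : ℕ} (e : S → Fin d → ZG S) (x y : S) : Fin d → ZG S :=
  (el ℤ x - 1) • e y - (el ℤ y - 1) • e x

/-- `P` is projective over `ℤ[K]` (a dual basis indexed by `P`) -/
def PrjK {S M : Type} [Group S] [AddCommGroup M] [Module (ZG S) M] (K : Subgroup S)
    (P : Submodule (ZG S) M) : Prop :=
  ∃ φ : P →+ (P →₀ ZG K), (∀ (u : K) (y : P), φ (el ℤ (u : S) • y) = el ℤ u • φ y) ∧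
    ∀ y : P, (φ y).sum (fun q a => res ℤ K a • q) = y

/-- `x^a y^b = 1` only for `a = b = 0` -/
def Ind2 {S : Type} [Group S] (x y : S) : Prop := ∀ a b : ℤ, x ^ a * y ^ b = 1 → a = 0 ∧ b = 0

/-! ## the relation module of a subgroup of finite index -/

/-- [FG1] Finitely generated modules over `k[G]` are finitely generated over `k[S]`, `j : S → G`
injective with image of finite index.
PROOF. Let `T` be a finite set with `G = ⋃_{τ ∈ T} j(S) τ` and let `m_1, …, m_r` generate `M` over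
`k[G]`. The `τ m_i` generate `M` over `k[S]`: `j(s) τ m_i = s • (τ m_i)`, and every element of
`k[G]` is a `k`-combination of elements `j(s) τ`. -/
def St_FG1 : Prop := ∀ (k S G : Type) [CommRing k] [Group S] [Group G] (j : S →* G),
  Function.Injective j → j.range.index ≠ 0 → ∀ (M : Type) [AddCommGroup M]
  [Module (MonoidAlgebra k G) M] [Module (MonoidAlgebra k S) M],
  (∀ (a : MonoidAlgebra k S) (m : M), a • m = MonoidAlgebra.mapDomainRingHom k j a • m) →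
  Module.Finite (MonoidAlgebra k G) M → Module.Finite (MonoidAlgebra k S) M

/-- [FG2] Relation modules of subgroups of finite index are finitely generated over `ℤ[S]`.
PROOF (from `St_FG1`, `St_FRE`, `St_HOM`, `St_BDR`; compare `Pool/Agent/PDA/RLZ.lean`). Make
`P0, P1, P2` into `ℤ[S]`-modules (`Module.compHom` along `mapDomainRingHom ℤ j`); they are projective
(`St_FRE`) and finitely generated (`St_FG1`) over `ℤ[S]`. `St_HOM` with `M = Tr ℤ S`,
`F1 = P1 → F0 = P0 → M` and `Q1 = (Fin d → ℤ[S]) → Q0 = ℤ[S] → M`, `f' = bd ℤ x` (`range = ker aug` by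
`St_BDR`) gives `α, β, γ`; for `y ∈ ker f'`: `y = β (α y) - γ y` with `α y ∈ ker f = range d2`. So
`ker f'` is the sum of the images of the finitely generated modules `ker f = range d2` (under `β`) and
`Q1` (under `γ`); both images are contained in `ker f'`. -/
def St_FG2 : Prop := ∀ (G : Type) [Group G] (R : Short G) (S : Type) [Group S] (j : S →* G),
  Function.Injective j → j.range.index ≠ 0 → ∀ (d : ℕ) (x : Fin d → S),
  closure (Set.range x) = ⊤ → (⊤ : Submodule (MonoidAlgebra ℤ S) (Rel ℤ x)).FG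

/-- [FG3] Base change.
PROOF (from `St_BDR`; compare `Pool/Agent/PDA/BAS.lean`). Choose `z_g ∈ ℤ[S]^d` with
`bd z_g = g - 1`, let `ρ(g, i) = g e_i - z_{g x_i} + z_g ∈ Rel ℤ x` and let `c : ℤ[S] → k[S]` be the
coefficient map. Every `y ∈ Rel k x` is `y = ∑_{g,i} y_i(g) c(ρ(g, i))`. If `r_1, …, r_m` generate
`Rel ℤ x`, then `c(ρ(g, i)) = ∑_j c(a_j) c(r_j)`, so the `c(r_j)` generate `Rel k x`. -/
def St_FG3 : Prop := ∀ (k S : Type) [CommRing k] [Group S] (d : ℕ) (x : Fin d → S),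
  closure (Set.range x) = ⊤ → (⊤ : Submodule (MonoidAlgebra ℤ S) (Rel ℤ x)).FG →
  (⊤ : Submodule (MonoidAlgebra k S) (Rel k x)).FG

/-- [STK] The relation module of `S` is projective over `ℤ[K]` if `K ≤ S` has infinite index in `G`.
PROOF (from `St_STR`, `St_FRE`, `St_SCH`, `St_BDR`; compare `Pool/Agent/PDA/RLZ.lean`, which is the
case `K = S`). Let `i : K → G` be `j` restricted to `K`. Make `P0, P1, P2`, `ℤ[S]` and
`Fin d → ℤ[S]` into `ℤ[K]`-modules; they are projective (`St_FRE` for `i`, resp. for `K.subtype`).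
As in `RLZ`: `ρ` of `St_STR` for the subgroup `K.map j = i.range` is `ℤ[K]`-linear and `ker d1` is
projective over `ℤ[K]`. `St_SCH` with `M = Tr ℤ K`, `F1 = P1 → F0 = P0 → M` and
`Q1 = (Fin d → ℤ[S]) → Q0 = ℤ[S] → M` (`bd ℤ z` and `aug`; `range = ker` by `St_BDR`): `Rel ℤ z` is
projective over `ℤ[K]`. `Module.projective_def'` gives the linear section of
`(P →₀ ℤ[K]) → P`, which is `φ`. -/
def St_STK : Prop := ∀ (G : Type) [Group G] (R : Short G) (S : Type) [Group S] (j : S →* G),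
  Function.Injective j → ∀ K : Subgroup S, (K.map j).index = 0 → ∀ (d : ℕ) (z : Fin d → S),
  closure (Set.range z) = ⊤ → PrjK K (Rel ℤ z)

/-! ## the elements `c(x,y)` -/

/-- [FRA] An element of `P` divisible by all powers of `N` modulo `I_K P` is in `I_K P`.
PROOF (from `St_IMS`). For `q ∈ P` let `A_q(y) = aug (φ(y)_q) ∈ ℤ`, additive; `A_q` is zero on
`I_K P` (`φ((u - 1) r)_q = (u - 1) φ(r)_q`). So `A_q(y) = N^n A_q(r_n)` for all `n`, and
`A_q(y) = 0` (for `N = 0` take `n = 1`; for `|N| ≥ 2` take `|N|^n > |A_q(y)|`). So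
`y = ∑_q res(φ(y)_q) q` with `aug (φ(y)_q) = 0`, and each summand is in `I_K P` by `St_IMS`. -/
def St_FRA : Prop := ∀ (S M : Type) [Group S] [AddCommGroup M] [Module (ZG S) M] (K : Subgroup S)
  (P : Submodule (ZG S) M), PrjK K P → ∀ N : ℤ, (N = 0 ∨ 2 ≤ |N|) → ∀ y ∈ P,
  (∀ n : ℕ, ∃ r ∈ P, y - N ^ n • r ∈ IM K P) → y ∈ IM K P

/-- [CXY] The elements `c(x,y)`, `x, y ∈ K`, `K` commutative.
PROOF (from `St_IMS` if useful). `bd c(x,y) = (x - 1)(y - 1) - (y - 1)(x - 1) = 0`. Let `T = IM K P`.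
(1) If `w ∈ F`, `bd w = x - 1`, then `w - e(x) ∈ P`, so
`(x' - 1) e(y) - (y - 1) w ≡ c(x,y)` etc.: modulo `T` the elements `e(x)`, `e(y)` in the definition of
`c(x,y)` may be replaced by any elements with the same `bd`. (2) `e(x x')` may be replaced by
`e(x) + x e(x')`: `c(x x', y) ≡ (x x' - 1) e(y) - (y - 1)(e(x) + x e(x')) = c(x,y) + x c(x',y)
≡ c(x,y) + c(x',y)`. (3) `c(x,x) = 0`, `c(y,x) = - c(x,y)`. So `c` is biadditive and alternating
modulo `T`, and `c(x^a y^b, x^c y^d) ≡ (a d - b c) c(x,y)`. (4) Let `x' = s x s⁻¹`, `y' = s y s⁻¹`.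
`bd (s e(y) - (y' - 1) e(s)) = s (y - 1) - (y' - 1)(s - 1) = y' - 1` (`s y = y' s`), so by (1)
`c(x',y') ≡ (x' - 1)(s e(y) - (y' - 1) e(s)) - (y' - 1)(s e(x) - (x' - 1) e(s))
= s ((x - 1) e(y) - (y - 1) e(x)) = s c(x,y)` (`(x' - 1) s = s (x - 1)`, and `x'`, `y'` commute). -/
def St_CXY : Prop := ∀ (S : Type) [Group S] (d : ℕ) (z : Fin d → S) (e : S → Fin d → ZG S),
  (∀ g, bd ℤ z (e g) = el ℤ g - 1) → ∀ K : Subgroup S, (∀ x ∈ K, ∀ y ∈ K, x * y = y * x) →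
  (∀ x ∈ K, ∀ y ∈ K, cc e x y ∈ Rel ℤ z) ∧
  ∀ s : S, (∀ g ∈ K, s * g * s⁻¹ ∈ K) → ∀ x ∈ K, ∀ y ∈ K, ∀ a b c d' : ℤ,
    s * x * s⁻¹ = x ^ a * y ^ b → s * y * s⁻¹ = x ^ c * y ^ d' →
    el ℤ s • cc e x y - (a * d' - b * c) • cc e x y ∈ IM K (Rel ℤ z)

/-- [NZC] `c(x,y)` is not in `I_K P` if `x` and `y` are independent.
PROOF. `K = ker π`, `τ : S → K`, `τ(g) = g s^(-π(g))`; `τ(u g) = u τ(g)` for `u ∈ K`, `τ(y) = y` for
`y ∈ K`. Let `B : ℤ[S] → ℚ` be additive with `B(g) = β(τ g)`: `B(u a) = B(a) + β(u) aug(a)`, so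
`B(u a) = B(a)` if `aug a = 0` (`u ∈ K`). Let `v_{i,n} = B(bd(s^n e_i)) = B(s^n (z_i - 1))`, `n ∈ ℤ`,
and let `Φ : ℤ[S]^d → ℚ` be additive with `Φ(g e_i) = α(τ g) v_{i,π(g)}`. For `u ∈ K`:
`Φ((u - 1) g e_i) = α(u) v_{i,π(g)}` and `B(bd(g e_i)) = B(τ(g) bd(s^{π(g)} e_i)) = v_{i,π(g)}`, so
`Φ((u - 1) f) = α(u) B(bd f)` for all `f ∈ ℤ[S]^d` (both sides are additive in `f`). So `Φ` is zero on
`I_K P`, and `Φ(c(x,y)) = α(x) B(y - 1) - α(y) B(x - 1) = α(x) β(y) - α(y) β(x) ≠ 0`. -/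
def St_NZC : Prop := ∀ (S : Type) [Group S] (π : S →* Multiplicative ℤ) (s : S),
  π s = Multiplicative.ofAdd 1 → ∀ (d : ℕ) (z : Fin d → S) (e : S → Fin d → ZG S),
  (∀ g, bd ℤ z (e g) = el ℤ g - 1) → ∀ α β : π.ker → ℚ, (∀ u v, α (u * v) = α u + α v) →
  (∀ u v, β (u * v) = β u + β v) → ∀ x y : π.ker, α x * β y - α y * β x ≠ 0 →
  cc e (x : S) (y : S) ∉ IM π.ker (Rel ℤ z)

/-! ## the abelian case -/

/-- [AB1] Group theory.
PROOF (from `St_ASC`). `B = closure {x, y} = {x^i y^j}`, `s B s⁻¹ ≤ B`: `St_ASC` gives the first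
claim. Second: for `g, h ∈ ker π` and `n` large `s^n g s^(-n)`, `s^n h s^(-n)` are in the commutative
group `B` (`B` is stable under conjugation with `s`). Third: `A = Additive (ker π)` is a commutative
group, `ℤ × ℤ → A`, `(i, j) ↦ x^i y^j` is injective, and `ℚ` is injective
(`Module.Baer.of_divisible`, `Module.Baer.extension_property_addMonoidHom`), so the two coordinate
maps `ℤ × ℤ → ℚ` extend to `α, β : A → ℚ`; `α x = 1, α y = 0, β x = 0, β y = 1`. -/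
def St_AB1 : Prop := ∀ (S : Type) [Group S] (π : S →* Multiplicative ℤ) (s x y : S),
  π s = Multiplicative.ofAdd 1 → π x = 1 → π y = 1 → x * y = y * x → Ind2 x y → ∀ a b c d : ℤ,
  s * x * s⁻¹ = x ^ a * y ^ b → s * y * s⁻¹ = x ^ c * y ^ d → closure {s, x, y} = ⊤ →
  (∀ g ∈ π.ker, ∃ (n : ℕ) (i j : ℤ), s ^ n * g * (s ^ n)⁻¹ = x ^ i * y ^ j) ∧
  (∀ g ∈ π.ker, ∀ h ∈ π.ker, g * h = h * g) ∧
  ∃ α β : π.ker → ℚ, (∀ u v, α (u * v) = α u + α v) ∧ (∀ u v, β (u * v) = β u + β v) ∧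
    ∀ x' y' : π.ker, (x' : S) = x → (y' : S) = y → α x' * β y' - α y' * β x' ≠ 0

/-- [AB2] The determinant is `±1`.
PROOF (from `St_BDR`, `St_STK`, `St_FRA`, `St_CXY`, `St_NZC`, `St_AB1`, `St_IMS`). `K = ker π` has
infinite index in `S` (`Subgroup.index_ker`), so `K.map j` has infinite index in `G`
(`Subgroup.index_map_of_injective`). Let `z = ![s, x, y]`, `P = Rel ℤ z`, `T = IM K P`;
`PrjK K P` by `St_STK`. `e` from `St_BDR`. `c = cc e x y ∈ P`, `s c ≡ Δ c` with `Δ = a d - b c`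
(`St_CXY`). `T` is stable under `s⁻¹` (`St_IMS`, `K` is normal) and under integers, so
`c ≡ Δ (s⁻¹ c)`, and by induction `c - Δ^n (s⁻¹)^n c ∈ T` for all `n`. If `Δ = 0` or `|Δ| ≥ 2` then
`c ∈ T` (`St_FRA`), against `St_NZC`. -/
def St_AB2 : Prop := ∀ (G : Type) [Group G] (R : Short G) (S : Type) [Group S] (j : S →* G),
  Function.Injective j → ∀ (π : S →* Multiplicative ℤ) (s x y : S),
  π s = Multiplicative.ofAdd 1 → π x = 1 → π y = 1 → x * y = y * x → Ind2 x y → ∀ a b c d : ℤ,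
  s * x * s⁻¹ = x ^ a * y ^ b → s * y * s⁻¹ = x ^ c * y ^ d → closure {s, x, y} = ⊤ →
  a * d - b * c = 1 ∨ a * d - b * c = -1

/-- [AB3] Determinant `±1` means `s B s⁻¹ = B`.
PROOF. `s x^p y^q s⁻¹ = x^(a p + c q) y^(b p + d q)`. With `Δ = a d - b c = ±1` and
`(p, q) = Δ (d, -b)`, `Δ (-c, a)`: `x = s x^p y^q s⁻¹` resp. `y = s x^p y^q s⁻¹`. So
`s⁻¹ x s`, `s⁻¹ y s` are in `B = {x^i y^j}`, `s^(-n) B s^n ⊆ B`, and `g = s^(-n) (x^i y^j) s^n ∈ B`. -/
def St_AB3 : Prop := ∀ (S : Type) [Group S] (s x y : S), x * y = y * x → ∀ a b c d : ℤ,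
  s * x * s⁻¹ = x ^ a * y ^ b → s * y * s⁻¹ = x ^ c * y ^ d →
  (a * d - b * c = 1 ∨ a * d - b * c = -1) →
  ∀ g : S, (∃ (n : ℕ) (i j : ℤ), s ^ n * g * (s ^ n)⁻¹ = x ^ i * y ^ j) → ∃ i j : ℤ, g = x ^ i * y ^ j

/-- [ABK] Combination of `St_AB1`, `St_AB2`, `St_AB3` (in the file of `AB3`: `thm_ABK`). -/
def St_ABK : Prop := ∀ (G : Type) [Group G] (R : Short G) (S : Type) [Group S] (j : S →* G),
  Function.Injective j → ∀ (π : S →* Multiplicative ℤ) (s x y : S),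
  π s = Multiplicative.ofAdd 1 → π x = 1 → π y = 1 → x * y = y * x → Ind2 x y →
  (∃ a b : ℤ, s * x * s⁻¹ = x ^ a * y ^ b) → (∃ a b : ℤ, s * y * s⁻¹ = x ^ a * y ^ b) →
  closure {s, x, y} = ⊤ → ∀ g ∈ π.ker, ∃ a b : ℤ, g = x ^ a * y ^ b

/-! ## assembly -/

/-- [STS] The groups of a class of stage 2 are cyclic-by-infinite cyclic.
PROOF. The proof of `thm_FIN` in `Pool/Agent/PDB/FIN.lean` gives this (there `St_PZF` is applied in the
end); the theorem `thm_STS` should have the same hypotheses except `St_PZF`, `St_PZV`. -/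
def St_STS : Prop := ∀ (p : ℕ) [Fact p.Prime] (C : ∀ (S : Type) [Group S], Prop), Cls p C →
  ∀ (S : Type) [Group S], C S → Group.FG S →
  Subsingleton S ∨ ∃ (π : S →* Multiplicative ℤ) (x : S), Function.Surjective π ∧ π.ker = zpowers x

/-- [PZ3] `ℤ^2`-by-`ℤ` is poly-`ℤ`.
PROOF. `P 0 = ⊥`, `P 1 = zpowers x`, `P 2 = ker π`, `P i = ⊤` for `i ≥ 3`; `n = 3`. The maps: the
inverse of `i ↦ x^i` on `zpowers x`; `x^a y^b ↦ b` on `ker π` (well defined by `Ind2 x y`, kernel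
`zpowers x`); `π`. (Compare `Pool/Agent/PDB/PZF.lean`.) -/
def St_PZ3 : Prop := ∀ (S : Type) [Group S] (π : S →* Multiplicative ℤ) (x y : S),
  Function.Surjective π → π x = 1 → π y = 1 → x * y = y * x → Ind2 x y →
  (∀ g ∈ π.ker, ∃ a b : ℤ, g = x ^ a * y ^ b) → PolyZ (⊤ : Subgroup S)

/-- [KLG] Group theory of the Klein bottle case.
PROOF. `t^b x^c t^(-b) = x^c` for `b` even and `= x^(-c)` for `b` odd, so
`x^a t^b x^c t^d = x^(a ± c) t^(b + d)`, and `x^a t^b = x^c t^d` implies `a = c`, `b = d` (`Ind2`).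
Let `x₁ = s x s⁻¹ = x^a t^b`, `t₁ = s t s⁻¹ = x^c t^d`, `t₁ x₁ = x₁⁻¹ t₁`. Compare the exponents of
`t`: `d + b = d - b`, so `b = 0`, `x₁ = x^a`, `a ≠ 0` (`x₁ ≠ 1`). Compare the exponents of `x`:
`c + (-1)^d a = c - a`, so `d` is odd. `t₁ t₁ = x^c (t^d x^c t^(-d)) t^(2d) = t^(2d) = (t t)^d`.
Let `y = t t`, `T = closure {s, x, y}`. `t` normalizes `T`: `t x t⁻¹ = x⁻¹`, `t y t⁻¹ = y`,
`t s t⁻¹ = t t₁⁻¹ s = t^(1-d) x^(-c) s ∈ T` (`1 - d` is even), and
`t⁻¹ s t = t⁻¹ t₁ s = t⁻¹ x^c t^d s = x^(-c) t^(d-1) s ∈ T`. So `T ∪ t T` is closed under left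
multiplication with `s^(±1)`, `x^(±1)`, `t^(±1)` (`t t = y ∈ T`), so it is everything
(`closure_induction_left`), and `S ⧸ T` has at most two elements. -/
def St_KLG : Prop := ∀ (S : Type) [Group S] (s x t : S), t * x * t⁻¹ = x⁻¹ → Ind2 x t →
  (∃ a b : ℤ, s * x * s⁻¹ = x ^ a * t ^ b) → (∃ a b : ℤ, s * t * s⁻¹ = x ^ a * t ^ b) →
  closure {s, x, t} = ⊤ → (∃ l : ℤ, s * x * s⁻¹ = x ^ l) ∧
  (∃ m : ℤ, s * (t * t) * s⁻¹ = (t * t) ^ m) ∧ (closure {s, x, t * t}).index ≠ 0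

/-- [KLE] The Klein bottle case.
PROOF (from `St_KLG`, `St_ABK`, `St_PZ3`). `y = t t`, `T = closure {s, x, y}` (finite index), regarded
as a group, `j' = j` restricted to `T`, `π' = π` restricted to `T`; `s, x, y ∈ T` generate the group
`T`. `x y = y x` (`y x y⁻¹ = x`), `Ind2 x y`. `St_ABK` for `T` gives `ker π' = {x^a y^b}`, and `St_PZ3`
gives `PolyZ (⊤ : Subgroup T)`. -/
def St_KLE : Prop := ∀ (G : Type) [Group G] (R : Short G) (S : Type) [Group S] (j : S →* G),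
  Function.Injective j → ∀ (π : S →* Multiplicative ℤ) (s x t : S),
  π s = Multiplicative.ofAdd 1 → π x = 1 → π t = 1 → t * x * t⁻¹ = x⁻¹ → Ind2 x t →
  (∃ a b : ℤ, s * x * s⁻¹ = x ^ a * t ^ b) → (∃ a b : ℤ, s * t * s⁻¹ = x ^ a * t ^ b) →
  closure {s, x, t} = ⊤ → ∃ T : Subgroup S, T.index ≠ 0 ∧ PolyZ (⊤ : Subgroup T)

/-- [VPF] Virtually poly-`ℤ` passes to overgroups of finite index.
PROOF. If `K ≤ S` has finite index and `PolyZ K`, then `K.map S.subtype` has finite index in `H`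
(`Subgroup.index_map_of_injective` or similar), and the chain of `K` maps to a chain of
`K.map S.subtype` (as in `Pool/Agent/PDB/PZV.lean`, which is the case `K = ⊤`). -/
def St_VPF : Prop := ∀ (H : Type) [Group H] (S : Subgroup H), S.index ≠ 0 → VPolyZ S → VPolyZ H

/-- [FND] Amenable residually finite-`p` subgroups of finite index with a map onto `ℤ`.
PROOF (from `St_TOP`, `St_FG2`, `St_FG3`, `St_SCN`, `St_CLS`, `St_FSB`, `St_INS`, `St_STS`, `St_BSX`,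
`St_ABK`, `St_KLE`, `St_PZ3`, `St_PZF`, `St_PZV`). `R` from `St_TOP`. All `Rel (ZMod p) x` are
finitely generated (`St_FG2`, `St_FG3`). `St_SCN` with `k = ZMod p`: `π'`, `s`, `B`, `b`; `π' s = 1`,
so `π'` is onto, `K = ker π'` has infinite index in `S`, `B ≤ K` too, and `C B` holds for the class
`C` of `St_CLS` (`B → S → G` has image of infinite index; `St_FSB`, `St_INS`). `S` is torsion-free: if
`c^n = 1`, `n > 0`, then `π' c = 1`, `s^m c s^(-m) ∈ B` has finite order, so it is `1` (`Cls.tor`).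
`B` is finitely generated: `St_STS`. (0) `B` is trivial: `K` is trivial, `St_PZF` with `x = 1`, and
`VPolyZ S` with the subgroup `⊤`. Otherwise `πB : B → ℤ` onto, `ker πB = zpowers x`, `πB t = 1`;
every element of `B` is `x^a t^b` (`b = πB`), and `closure {s, x, t} = ⊤` (from
`closure (range (cz s b)) = ⊤`). (1) `x = 1`: `B = zpowers t`, `t ≠ 1`, `s t s⁻¹ = t^m`;
`BSData S π' t s m`, so `|m| ≤ 1` (`St_BSX`), `m = ±1` (`t ≠ 1`), so `s⁻¹ t s = t^m`,
`K = zpowers t`, `St_PZF`. (2) `x ≠ 1`: `t x t⁻¹ = x^m` and `Cls.bs` (for `B`, `πB`, `t`, `x`) gives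
`m = ±1`. `Ind2 x t` (apply `πB`, then torsion-free). `s x s⁻¹`, `s t s⁻¹ ∈ B`. If `m = 1`:
`St_ABK` and `St_PZ3`. If `m = -1`: `St_KLE` and `St_PZV` 1. -/
def St_FND : Prop := ∀ (G : Type) [Group G], IsPD3 G → ∀ (S : Type) [Group S] (j : S →* G),
  Function.Injective j → j.range.index ≠ 0 → Group.FG S → Folner S → ∀ (p : ℕ) [Fact p.Prime],
  ResP S p → ∀ π : S →* Multiplicative ℤ, Function.Surjective π → VPolyZ S

/-- [MAD] The main theorem.
PROOF (from `St_MAI`, `St_FND`, `St_VPF`, `St_FSB`, `St_INS`). If `H.index = 0`: `St_MAI`. Otherwise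
`χ : H1 → ℤ` is not trivial. `H2 = H0 ⊓ H1` has finite index in `H`, is finitely generated,
`Folner H2`, `ResP H2 p`. `χ` is not trivial on `H2`: if `χ h ≠ 1` then `h^n ∈ H2` for some `n > 0`
and `χ(h^n) = χ(h)^n ≠ 1`. The image of `χ` on `H2` is `m ℤ`, `m ≠ 0`; divide by `m`: `π` onto.
`H2 → H → G` is injective with image of finite index. `St_FND`, `St_VPF`. -/
def St_MAD : Prop := ∀ (G : Type) [Group G], IsPD3 G → ∀ H : Subgroup G, H.FG → Folner H →
  ∀ (p : ℕ) [Fact p.Prime] (H0 : Subgroup H), H0.index ≠ 0 → ResP H0 p →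
  (H.index = 0 ∨ ∃ H1 : Subgroup H, H1.index ≠ 0 ∧ ∃ χ : H1 →* Multiplicative ℤ, χ ≠ 1) → VPolyZ H

end Pool.Agent.PDA
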