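import Pool.Agent.PDA.StA

/-!
# PDA [TOP]: reduction of the resolution to length three (helper74 for helper49)
-/

set_option autoImplicit false
set_option linter.unusedVariables false

namespace Pool.Agent.PDA

open Pool.Agent.PDB

namespace TOPx

section general

variable {A : Type} [Ring A] {P Q : Type} [AddCommGroup P] [AddCommGroup Q] [Module A P] [Module A Q]

/-- a map which kills `ker d` factors through `range d` -/
theorem exists_factor {M : Type} [AddCommGroup M] [Module A M] (d : P →ₗ[A] Q) (c : P →ₗ[A] M)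
    (h : ∀ x, d x = 0 → c x = 0) : ∃ f : LinearMap.range d →ₗ[A] M, f ∘ₗ d.rangeRestrict = c := by
  have hle : LinearMap.ker d ≤ LinearMap.ker c := fun x hx => h x hx
  refine ⟨(LinearMap.ker d).liftQ c hle ∘ₗ d.quotKerEquivRange.symm.toLinearMap, ?_⟩
  refine LinearMap.ext fun x => ?_
  have h1 : d.quotKerEquivRange.symm (d.rangeRestrict x) = (LinearMap.ker d).mkQ x := by
    rw [LinearEquiv.symm_apply_eq]
    apply Subtype.ext
    rw [Submodule.mkQ_apply, LinearMap.quotKerEquivRange_apply_mk]
    rfl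
  show (LinearMap.ker d).liftQ c hle (d.quotKerEquivRange.symm (d.rangeRestrict x)) = c x
  rw [h1]
  simp

/-- the image of a finite projective module is finite projective if the kernel is a retract -/
theorem range_proj [Module.Finite A P] [Module.Projective A P] (d : P →ₗ[A] Q) (N : Submodule A P)
    (hN : ∀ x, d x = 0 ↔ x ∈ N) (r : P →ₗ[A] N) (hr : ∀ x : N, r x = x) :
    Module.Finite A (LinearMap.range d) ∧ Module.Projective A (LinearMap.range d) := by
  obtain ⟨s, hs⟩ := exists_factor d (LinearMap.id - N.subtype ∘ₗ r) (by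
    intro x hx
    have h1 := hr ⟨x, (hN x).1 hx⟩
    simp only [LinearMap.sub_apply, LinearMap.id_apply, LinearMap.comp_apply, Submodule.subtype_apply]
    rw [h1, sub_self])
  refine ⟨inferInstance, Module.Projective.of_split s d.rangeRestrict ?_⟩
  ext ⟨y, x, rfl⟩
  have h1 : s (d.rangeRestrict x) = x - (r x : P) := by
    have h2 := congrArg (fun f => f x) hs
    simpa using h2
  show d (s (d.rangeRestrict x)) = d x
  rw [h1, map_sub, (hN _).2 (r x).2, sub_zero]

/-- a finite projective submodule is a retract if all functionals extend -/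
theorem exists_retract (N : Submodule A P) [Module.Finite A N] [Module.Projective A N]
    (h : ∀ f : N →ₗ[A] A, ∃ g : P →ₗ[A] A, ∀ x : N, g x = f x) :
    ∃ r : P →ₗ[A] N, ∀ x : N, r x = x := by
  obtain ⟨n, π, hπ⟩ := Module.Finite.exists_fin' A N
  obtain ⟨σ, hσ⟩ := Module.projective_lifting_property π LinearMap.id hπ
  choose F hF using fun j : Fin n => h (LinearMap.proj j ∘ₗ σ)
  refine ⟨π ∘ₗ LinearMap.pi F, fun x => ?_⟩
  have h1 : LinearMap.pi F (x : P) = σ x := by
    ext j
    rw [LinearMap.pi_apply, hF j x]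
    rfl
  rw [LinearMap.comp_apply, h1, ← LinearMap.comp_apply, hσ]
  rfl

end general

variable {G : Type} [Group G]

theorem claim (R : FPRes G) (hR : R.Dual3) : ∀ k i : ℕ, 3 ≤ i → R.len ≤ i + k →
    ∃ r : R.P i →ₗ[ZG G] LinearMap.range (R.d i), ∀ x : LinearMap.range (R.d i), r x = x := by
  intro k
  induction k with
  | zero =>
    intro i hi hl
    have := R.zero (i + 1) (by omega)
    refine ⟨0, ?_⟩
    rintro ⟨y, x, rfl⟩
    apply Subtype.ext
    show (0 : R.P i) = R.d i x
    rw [Subsingleton.elim x 0, map_zero]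
  | succ k ih =>
    intro i hi hl
    obtain ⟨r, hr⟩ := ih (i + 1) (by omega) (by omega)
    obtain ⟨h1, h2⟩ := range_proj (R.d i) (LinearMap.range (R.d (i + 1)))
      (fun x => by rw [R.exact_succ i x]; rfl) r hr
    refine exists_retract (LinearMap.range (R.d i)) fun f => ?_
    obtain ⟨g, hg⟩ := hR.succ i (by omega) (f ∘ₗ (R.d i).rangeRestrict) (by
      refine LinearMap.ext fun x => ?_
      have h3 : (R.d i).rangeRestrict (R.d (i + 1) x) = 0 := by
        apply Subtype.ext
        show R.d i (R.d (i + 1) x) = 0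
        exact (R.exact_succ i _).2 ⟨x, rfl⟩
      show f ((R.d i).rangeRestrict (R.d (i + 1) x)) = 0
      rw [h3, map_zero])
    refine ⟨g, ?_⟩
    rintro ⟨y, x, rfl⟩
    have h4 := congrArg (fun f => f x) hg
    exact h4.symm

end TOPx

open TOPx

theorem thm_TOP : St_TOP := by
  rintro G _ ⟨R, hR⟩
  obtain ⟨r, hr⟩ := claim R hR R.len 3 le_rfl (by omega)
  obtain ⟨hfin, hproj⟩ := range_proj (R.d 2) (LinearMap.range (R.d 3))
    (fun x => by rw [R.exact_succ 2 x]; rfl) r hr
  obtain ⟨θ', hθs, hθk⟩ := hR.three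
  have hco : ∀ f : LinearMap.range (R.d 2) →ₗ[ZG G] ZG G,
      f ∘ₗ (R.d 2).rangeRestrict ∈ R.cocyc 3 := by
    intro f
    show (f ∘ₗ (R.d 2).rangeRestrict) ∘ₗ R.d 3 = 0
    refine LinearMap.ext fun x => ?_
    have h3 : (R.d 2).rangeRestrict (R.d 3 x) = 0 := by
      apply Subtype.ext
      show R.d 2 (R.d 3 x) = 0
      exact (R.exact_succ 2 _).2 ⟨x, rfl⟩
    show f ((R.d 2).rangeRestrict (R.d 3 x)) = 0
    rw [h3, map_zero]
  let toC : (LinearMap.range (R.d 2) →ₗ[ZG G] ZG G) →+ R.cocyc 3 :=
    { toFun := fun f => ⟨f ∘ₗ (R.d 2).rangeRestrict, hco f⟩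
      map_zero' := by
        apply Subtype.ext
        exact LinearMap.zero_comp _
      map_add' := by
        intro f g
        apply Subtype.ext
        exact LinearMap.add_comp _ _ _ }
  have hsur : Function.Surjective (R.d 2).rangeRestrict := LinearMap.surjective_rangeRestrict _
  exact ⟨{
    P0 := R.P 0
    P1 := R.P 1
    P2 := R.P 2
    P3 := LinearMap.range (R.d 2)
    f3 := hfin
    p3 := hproj
    d1 := R.d 0
    d2 := R.d 1
    d3 := (LinearMap.range (R.d 2)).subtype
    e := R.e
    e_smul := R.e_smul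
    e_surj := R.e_surj
    ex0 := R.exact_zero
    ex1 := R.exact_succ 0
    ex2 := fun x => by
      rw [R.exact_succ 1 x]
      constructor
      · rintro ⟨y, hy⟩
        exact ⟨⟨x, y, hy⟩, rfl⟩
      · rintro ⟨⟨z, y, hy⟩, hz⟩
        exact ⟨y, hy.trans hz⟩
    inj3 := Subtype.val_injective
    h0 := hR.zero
    h1 := fun f hf => hR.succ 0 (by norm_num) f hf
    h2 := fun f hf => by
      refine hR.succ 1 (by norm_num) f ?_
      refine LinearMap.ext fun x => ?_
      have h3 := congrArg (fun F => F (⟨R.d 2 x, x, rfl⟩ : LinearMap.range (R.d 2))) hf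
      exact h3
    θ := θ'.comp toC
    θ_surj := fun z => by
      obtain ⟨c, hc⟩ := hθs z
      obtain ⟨f, hf⟩ := exists_factor (R.d 2) (c : R.P 3 →ₗ[ZG G] ZG G) (by
        intro x hx
        obtain ⟨y, rfl⟩ := (R.exact_succ 2 x).1 hx
        have h3 : (c : R.P 3 →ₗ[ZG G] ZG G) ∘ₗ R.d 3 = 0 := c.2
        exact congrArg (fun F => F y) h3)
      refine ⟨f, ?_⟩
      have h4 : toC f = c := Subtype.ext hf
      rw [AddMonoidHom.comp_apply, h4, hc]
    θ_ker := fun f => by
      rw [AddMonoidHom.comp_apply, hθk]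
      refine exists_congr fun g => ?_
      show f ∘ₗ (R.d 2).rangeRestrict = g ∘ₗ R.d 2 ↔ _
      constructor
      · intro h
        refine LinearMap.ext fun y => ?_
        obtain ⟨x, rfl⟩ := hsur y
        exact congrArg (fun F => F x) h
      · rintro rfl
        rfl }⟩

end Pool.Agent.PDA
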